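import Pool.Agent.Work.MP_b2cdcf_full.IntC

set_option autoImplicit false

open MvPolynomial

noncomputable section

namespace Pool.Agent.Work.MP_b2cdcf_full

open Pool.Agent.Work.MP_b2cdcf_wpd

theorem p_CRA : Stmt_CRA := by
  intro k _ n φ V i
  by_cases h0 : φ (pderiv i V) = 0
  · rw [h0, totalDegree_zero]; exact Nat.zero_le _
  have hrow : (fun l => pderiv l (φ V)) = ∑ m, φ (pderiv m V) • (JAC_J φ) m := by
    funext l
    rw [JAC_chain, Finset.sum_apply]
    rfl
  have hdet : ((JAC_J φ).updateRow i (fun l => pderiv l (φ V))).det =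
      φ (pderiv i V) * (JAC_J φ).det := by
    rw [hrow, Matrix.det_updateRow_sum, smul_eq_mul]
  have hup := JAC_deg ((JAC_J φ).updateRow i (fun l => pderiv l (φ V)))
    (fun m => if m = i then (φ V).totalDegree else dg φ m) (by
      intro m l
      by_cases hm : m = i
      · subst hm
        rw [Matrix.updateRow_self, if_pos rfl]
        exact (JAC_pderiv l _).trans (Nat.sub_le _ _)
      · rw [Matrix.updateRow_ne hm, if_neg hm]
        show (pderiv l (φ (X m))).totalDegree ≤ _
        exact (JAC_pderiv l _).trans (Nat.sub_le _ _))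
  rw [hdet, totalDegree_mul_of_isDomain h0 (JAC_det φ)] at hup
  have hsum : ∑ m, (if m = i then (φ V).totalDegree else dg φ m) =
      (φ V).totalDegree + ∑ r ∈ Finset.univ.erase i, dg φ r := by
    rw [← Finset.add_sum_erase _ _ (Finset.mem_univ i), if_pos rfl]
    congr 1
    refine Finset.sum_congr rfl fun m hm => ?_
    rw [if_neg (Finset.mem_erase.1 hm).1]
  rw [hsum] at hup
  exact (Nat.le_add_right _ _).trans hup

end Pool.Agent.Work.MP_b2cdcf_full
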