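import Pool.Agent.Work.MP_b2cdcf_full.IntB

set_option autoImplicit false

/-! # CTXX: the context of the shift with a mixed term -/

open MvPolynomial

noncomputable section

namespace Pool.Agent.Work.MP_b2cdcf_full

open Pool.Agent.Work.MP_b2cdcf_wpd

theorem CTXX_par {k : Type} [Field k] {n : ℕ} {a : k} {h1 h2 : ℕ} (h : Par k n a h1 h2) :
    Par k n (-a) h1 h2 :=
  ⟨h.n3, neg_ne_zero.2 h.a0, h.hh, h.l1, h.l2, h.d0, h.disc⟩

theorem CTXX_neg (k : Type) [Field k] (n : ℕ) (a : k) (h1 h2 : ℕ) (r u v : Fin n) :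
    PP k n (-a) h1 h2 r u v = -PP k n a h1 h2 r u v := by
  unfold PP
  rw [C_neg, neg_mul]

theorem p_CTXX (hH : Stmt_HALFX) : Stmt_CTXX := by
  intro k _ n _ hn a h1 h2 hP
  have hl1 := hP.l1
  have hl2 := hP.l2
  have hnn : n ≤ n ^ 2 := by nlinarith
  have hd : 2 * n + 2 ≤ h1 + h2 := by omega
  refine ⟨fin01 hn, by omega, by omega, ?_, ?_, ?_⟩
  · obtain ⟨c, hc⟩ : ∃ c, c = h1 + h2 - n + 1 := ⟨_, rfl⟩
    rw [← hc]
    have h2c : 2 ≤ c := by omega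
    have h3 : h1 + h2 < 2 * c := by omega
    exact lt_of_lt_of_le h3 (Nat.mul_le_mul_right c h2c)
  · refine hH k n a h1 h2 hP (FX k n hn a h1 h2) 0 1 (-1) 1 (Equiv.subRight 1) (fin01 hn)
      (finm0 hn) (fin01 hn).symm (finm1 hn) (FX_one hn a h1 h2) ?_ ?_
    · intro i hi
      rw [FX_ne hn a h1 h2 hi, Equiv.subRight_apply]
    · rw [Equiv.subRight_apply, sub_self]
  · refine hH k n (-a) h1 h2 (CTXX_par hP) (FX k n hn a h1 h2)⁻¹ 1 0 0 (1 + 1)
      (Equiv.addRight 1) (fin01 hn).symm (fin01 hn) (fin12 hn) (fin02 hn).symm ?_ ?_ ?_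
    · rw [FX_inv_zero, CTXX_neg, sub_eq_add_neg]
    · intro i hi
      rw [FX_inv_ne hn a h1 h2 hi, Equiv.coe_addRight]
    · show (0 : Fin n) + 1 = 1
      rw [zero_add]

end Pool.Agent.Work.MP_b2cdcf_full
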