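import Pool.Agent.Work.MP_b2cdcf_full.IntB

/-!
# MP_b2cdcf_al, S02759: block E1X
-/

set_option autoImplicit false

open MvPolynomial

noncomputable section

namespace Pool.Agent.Work.MP_b2cdcf_full

open Pool.Agent.Work.MP_b2cdcf_wpd

/-- the weights -/
def E1X_w (n d : ℕ) [NeZero n] (i : Fin n) : ℕ := if i = 1 then d else if i = 1 + 1 then 1 else 0

theorem E1X_weight {n : ℕ} [NeZero n] (hn : 3 ≤ n) (d : ℕ) (s : Fin n →₀ ℕ) :
    Finsupp.weight (E1X_w n d) s = d * s 1 + s (1 + 1) := by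
  rw [Finsupp.weight_apply, Finsupp.sum_fintype _ _ (by intro i; simp)]
  have h12 : (1 + 1 : Fin n) ≠ 1 := fin12 hn
  have h1 : ∀ i : Fin n, s i • E1X_w n d i = (if i = 1 then d * s 1 else 0) +
      (if i = 1 + 1 then s (1 + 1) else 0) := by
    intro i
    unfold E1X_w
    by_cases hi : i = 1
    · subst hi
      rw [if_pos rfl, if_pos rfl, if_neg h12.symm, smul_eq_mul, add_zero, mul_comm]
    · by_cases hi2 : i = 1 + 1
      · rw [if_neg hi, if_neg hi, if_pos hi2, if_pos hi2, hi2]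
        simp
      · rw [if_neg hi, if_neg hi, if_neg hi2, if_neg hi2]
        simp
  rw [Finset.sum_congr rfl fun i _ => h1 i, Finset.sum_add_distrib, Finset.sum_ite_eq',
    Finset.sum_ite_eq']
  simp

theorem E1X_two {n : ℕ} [NeZero n] (hn : 3 ≤ n) (s : Fin n →₀ ℕ) :
    s 1 + s (1 + 1) ≤ s.sum fun _ e => e := by
  rw [Finsupp.sum_fintype _ _ (by intro i; rfl)]
  have h12 : (1 : Fin n) ≠ 1 + 1 := (fin12 hn).symm
  calc s 1 + s (1 + 1) = ∑ i ∈ ({1, 1 + 1} : Finset (Fin n)), s i := by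
        rw [Finset.sum_pair h12]
    _ ≤ ∑ i, s i := Finset.sum_le_sum_of_subset (Finset.subset_univ _)

/-- a polynomial all of whose monomials are divisible by `X 1 ^ m` -/
theorem E1X_dvd {k : Type} [Field k] {n : ℕ} [NeZero n] (T : MvPolynomial (Fin n) k) (m : ℕ)
    (h : ∀ s ∈ T.support, m ≤ s 1) : ∃ Q0, T = X 1 ^ m * Q0 := by
  have h1 : (monomial (Finsupp.single (1 : Fin n) m) (1 : k)) ∣ T := by
    rw [monomial_one_dvd_iff_modMonomial_eq_zero]
    ext s
    rw [coeff_zero]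
    by_cases hs : Finsupp.single (1 : Fin n) m ≤ s
    · exact coeff_modMonomial_of_le _ hs
    · rw [coeff_modMonomial_of_not_le _ hs]
      by_contra hne
      apply hs
      rw [Finsupp.single_le_iff]
      exact h s (mem_support_iff.2 hne)
  obtain ⟨Q0, hQ0⟩ := h1
  refine ⟨Q0, ?_⟩
  rw [hQ0, X_pow_eq_monomial]

theorem E1X_low {k : Type} [Field k] {n : ℕ} [NeZero n] (hn : 3 ≤ n) (a : k) (h1 h2 : ℕ)
    (hh1 : 1 ≤ h1) (s : Fin n →₀ ℕ)
    (hs : s ∈ (PP k n a h1 h2 1 0 (1 + 1) - C a * X (1 + 1) ^ (h1 + h2) :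
      MvPolynomial (Fin n) k).support) :
    Finsupp.weight (E1X_w n (h1 + h2)) s < h1 + h2 := by
  have h01 : (0 : Fin n) ≠ 1 := fin01 hn
  have h20 : (1 + 1 : Fin n) ≠ 0 := fin02 hn
  have h21 : (1 + 1 : Fin n) ≠ 1 := fin12 hn
  have hmem : (1 + 1 : Fin n) ∈ Finset.univ.erase (1 : Fin n) := by
    rw [Finset.mem_erase]; exact ⟨h21, Finset.mem_univ _⟩
  have e1 : (PP k n a h1 h2 1 0 (1 + 1) - C a * X (1 + 1) ^ (h1 + h2) :
      MvPolynomial (Fin n) k) = C a * (∑ j ∈ (Finset.univ.erase (1 : Fin n)).erase (1 + 1),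
        X j ^ (h1 + h2) + X 0 ^ h1 * X (1 + 1) ^ h2) := by
    unfold PP
    rw [← Finset.add_sum_erase _ _ hmem]
    ring
  rw [e1, mem_support_iff, coeff_C_mul] at hs
  have hs2 := right_ne_zero_of_mul hs
  by_contra hge
  apply hs2
  rw [E1X_weight hn] at hge
  rw [coeff_add, coeff_sum]
  have e2 : ∑ j ∈ (Finset.univ.erase (1 : Fin n)).erase (1 + 1),
      coeff s ((X j : MvPolynomial (Fin n) k) ^ (h1 + h2)) = 0 := by
    apply Finset.sum_eq_zero
    intro j hj
    rw [Finset.mem_erase, Finset.mem_erase] at hj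
    rw [coeff_X_pow, if_neg]
    rintro rfl
    apply hge
    rw [Finsupp.single_eq_of_ne hj.2.1.symm, Finsupp.single_eq_of_ne hj.1.symm]
    omega
  have e3 : coeff s ((X 0 : MvPolynomial (Fin n) k) ^ h1 * X (1 + 1) ^ h2) = 0 := by
    rw [X_pow_eq_monomial, X_pow_eq_monomial, monomial_mul, coeff_monomial, if_neg]
    rintro rfl
    apply hge
    rw [Finsupp.add_apply, Finsupp.add_apply, Finsupp.single_eq_of_ne h01.symm,
      Finsupp.single_eq_of_ne h21.symm, Finsupp.single_eq_of_ne h20, Finsupp.single_eq_same]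
    omega
  rw [e2, e3, add_zero]

/-- E1X. -/
theorem p_E1X (hELD : Stmt_ELD) (hW : Stmt_WSUB) : Stmt_E1X := by
  intro k _ n _ a h1 h2 hn ha hh1 hh2 V
  by_cases hV : V = 0
  · subst hV
    rw [degreeOf_zero, totalDegree_zero]
    simp only [Nat.cast_zero, mul_zero, sub_zero]
    have h3 : (1 : ℤ) ≤ ((h1 + h2 : ℕ) : ℤ) := by exact_mod_cast (by omega : 1 ≤ h1 + h2)
    exact mul_nonneg (by linarith) (Nat.cast_nonneg _)
  have h21 : (1 + 1 : Fin n) ≠ 1 := fin12 hn
  set d : ℕ := h1 + h2 with hd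
  have hd1 : 1 ≤ d := by omega
  set w := E1X_w n d with hw
  set Q' : MvPolynomial (Fin n) k := C a * X (1 + 1) ^ d with hQ'
  let g0 : Fin n → MvPolynomial (Fin n) k := fun i => if i = 1 then X 1 + Q' else X i
  let g : Fin n → MvPolynomial (Fin n) k :=
    fun i => if i = 1 then X 1 + PP k n a h1 h2 1 0 (1 + 1) else X i
  have hwhom : ∀ i, IsWeightedHomogeneous w (g0 i) (w i) := by
    intro i
    show IsWeightedHomogeneous w (if i = 1 then X 1 + Q' else X i) (w i)
    by_cases hi : i = 1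
    · subst hi
      rw [if_pos rfl]
      apply IsWeightedHomogeneous.add
      · exact isWeightedHomogeneous_X k w 1
      · have h3 : IsWeightedHomogeneous w (C a * X (1 + 1) ^ d : MvPolynomial (Fin n) k)
            (0 + d • w (1 + 1)) :=
          (isWeightedHomogeneous_C w a).mul ((isWeightedHomogeneous_X k w (1 + 1)).pow d)
        have h4 : 0 + d • w (1 + 1) = w 1 := by
          rw [hw]
          unfold E1X_w
          rw [if_neg h21, if_pos rfl, if_pos rfl]
          simp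
        rw [h4] at h3
        exact h3
    · rw [if_neg hi]
      exact isWeightedHomogeneous_X k w i
  have hglow : ∀ i, ∀ s ∈ (g i - g0 i).support, Finsupp.weight w s < w i := by
    intro i s hs
    by_cases hi : i = 1
    · subst hi
      have e1 : g 1 - g0 1 = PP k n a h1 h2 1 0 (1 + 1) - C a * X (1 + 1) ^ (h1 + h2) := by
        show (if (1 : Fin n) = 1 then X 1 + PP k n a h1 h2 1 0 (1 + 1) else X 1) -
          (if (1 : Fin n) = 1 then X 1 + Q' else X 1) = _
        rw [if_pos rfl, if_pos rfl, hQ', hd]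
        ring
      rw [e1] at hs
      have h3 := E1X_low hn a h1 h2 hh1 s hs
      have h4 : w 1 = d := by
        rw [hw]; unfold E1X_w; rw [if_pos rfl]
      rw [h4, hw, hd]
      exact h3
    · have e1 : g i - g0 i = 0 := by
        show (if i = 1 then X 1 + PP k n a h1 h2 1 0 (1 + 1) else X i) -
          (if i = 1 then X 1 + Q' else X i) = _
        rw [if_neg hi, if_neg hi, sub_self]
      rw [e1] at hs
      simp at hs
  obtain ⟨-, hW2⟩ := hW k n w g0 hwhom
  -- the highest weight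
  have hsupp : V.support.Nonempty := support_nonempty.2 hV
  obtain ⟨s1, hs1, hmax⟩ := Finset.exists_max_image V.support (fun s => Finsupp.weight w s) hsupp
  set W := Finsupp.weight w s1 with hWdef
  have hcomp := hW2 g hglow V W (fun s hs => hmax s hs)
  set T := weightedHomogeneousComponent w W V with hT
  have hTc : ∀ s, coeff s T = if Finsupp.weight w s = W then coeff s V else 0 := fun s => by
    rw [hT, coeff_weightedHomogeneousComponent]
  have hT0 : T ≠ 0 := by
    intro h0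
    have h3 := hTc s1
    rw [h0, coeff_zero, if_pos rfl] at h3
    exact (mem_support_iff.1 hs1) h3.symm
  obtain ⟨s0, hs0, hmin⟩ := Finset.exists_min_image T.support (fun s => s 1)
    (support_nonempty.2 hT0)
  obtain ⟨Q0, hQ0⟩ := E1X_dvd T (s0 1) (fun s hs => hmin s hs)
  -- the degree of X 1 in V
  have hb : d * degreeOf 1 V ≤ W := by
    rw [degreeOf_eq_sup]
    obtain ⟨s2, hs2, hs2e⟩ := Finset.exists_mem_eq_sup V.support hsupp (fun m => m 1)
    rw [hs2e]
    have h3 := hmax s2 hs2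
    rw [hw, E1X_weight hn] at h3
    rw [hWdef, hw]
    exact (Nat.le_add_right _ _).trans h3
  have hk0 : (d : ℤ) * (degreeOf 1 V : ℤ) - (V.totalDegree : ℤ) ≤ ((d : ℤ) - 1) * (s0 1 : ℤ) := by
    have h3 : coeff s0 T ≠ 0 := mem_support_iff.1 hs0
    rw [hTc s0] at h3
    have h4 : Finsupp.weight w s0 = W := by
      by_contra hne
      rw [if_neg hne] at h3
      exact h3 rfl
    rw [if_pos h4] at h3
    have h5 := le_totalDegree (mem_support_iff.2 h3)
    have h6 := E1X_two hn s0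
    rw [hw, E1X_weight hn] at h4
    have h7 : s0 1 + s0 (1 + 1) ≤ V.totalDegree := h6.trans h5
    have h8 : (d : ℤ) * (degreeOf 1 V : ℤ) ≤ (d : ℤ) * (s0 1 : ℤ) + (s0 (1 + 1) : ℤ) := by
      rw [← h4] at hb
      exact_mod_cast hb
    have h9 : (s0 1 : ℤ) + (s0 (1 + 1) : ℤ) ≤ (V.totalDegree : ℤ) := by exact_mod_cast h7
    linarith
  -- the image
  have hQdeg : degreeOf 1 Q' = 0 := by
    apply Nat.le_zero.1
    rw [hQ']
    refine (degreeOf_C_mul_le _ _ _).trans ?_
    refine (degreeOf_pow_le _ _ _).trans ?_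
    rw [degreeOf_X_of_ne h21.symm, mul_zero]
  obtain ⟨hinv, -, -⟩ := hELD k n Q' hQdeg
  have hel0 : aeval g0 T = el Q' T := rfl
  have helne : el Q' T ≠ 0 := by
    intro h0
    have h3 := hinv T
    rw [h0, map_zero] at h3
    exact hT0 h3.symm
  have hprod : el Q' T = (X 1 + Q') ^ s0 1 * el Q' Q0 := by
    conv_lhs => rw [hQ0]
    rw [map_mul, map_pow]
    congr 2
    unfold el
    rw [aeval_X, if_pos rfl]
  rw [hprod] at helne
  have hne1 := left_ne_zero_of_mul helne
  have hne2 := right_ne_zero_of_mul helne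
  have hdeg1 : d ≤ degreeOf (1 + 1) (X 1 + Q') := by
    have h3 : Finsupp.single (1 + 1 : Fin n) d ∈ (X 1 + Q').support := by
      rw [mem_support_iff, coeff_add, hQ', coeff_C_mul, coeff_X_pow, if_pos rfl, coeff_X, if_neg,
        zero_add, mul_one]
      · exact ha
      · intro h4
        have h5 := congrArg (fun s => s (1 : Fin n)) h4
        simp only [Finsupp.single_eq_same] at h5
        rw [Finsupp.single_eq_of_ne h21.symm] at h5
        exact one_ne_zero h5
    have h4 := monomial_le_degreeOf (1 + 1) h3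
    rwa [Finsupp.single_eq_same] at h4
  have hX1 : X 1 + Q' ≠ 0 := by
    intro h0
    rw [h0, degreeOf_zero] at hdeg1
    omega
  have hdeg2 : s0 1 * d ≤ degreeOf (1 + 1) (el Q' T) := by
    rw [hprod, degreeOf_mul_eq hne1 hne2, degreeOf_pow_eq _ _ _ hX1]
    exact (Nat.mul_le_mul_left _ hdeg1).trans (Nat.le_add_right _ _)
  have hdeg3 : degreeOf (1 + 1) (el Q' T) ≤
      degreeOf (1 + 1) (el (PP k n a h1 h2 1 0 (1 + 1)) V) := by
    rw [← hel0, ← hcomp]
    rw [degreeOf_eq_sup (1 + 1) (weightedHomogeneousComponent w W (aeval g V))]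
    apply Finset.sup_le
    intro s hs
    have h3 : s ∈ (aeval g V).support := by
      rw [mem_support_iff, coeff_weightedHomogeneousComponent] at hs
      rw [mem_support_iff]
      intro h4
      apply hs
      rw [h4, ite_self]
    exact monomial_le_degreeOf (1 + 1) h3
  have h10 : ((s0 1 : ℕ) : ℤ) * (d : ℤ) ≤
      (degreeOf (1 + 1) (el (PP k n a h1 h2 1 0 (1 + 1)) V) : ℤ) := by
    exact_mod_cast hdeg2.trans hdeg3
  have h11 : (1 : ℤ) ≤ (d : ℤ) := by exact_mod_cast hd1
  calc (d : ℤ) * ((d : ℤ) * (degreeOf 1 V : ℤ) - (V.totalDegree : ℤ))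
      ≤ (d : ℤ) * (((d : ℤ) - 1) * (s0 1 : ℤ)) := mul_le_mul_of_nonneg_left hk0 (by linarith)
    _ = ((d : ℤ) - 1) * ((s0 1 : ℤ) * (d : ℤ)) := by ring
    _ ≤ _ := mul_le_mul_of_nonneg_left h10 (by linarith)

end Pool.Agent.Work.MP_b2cdcf_full
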