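import Pool.Agent.Work.MP_b2cdcf_full.IntB

/-! # Block E3C (helper78) -/

set_option autoImplicit false

open MvPolynomial

noncomputable section

namespace Pool.Agent.Work.MP_b2cdcf_full

open Pool.Agent.Work.MP_b2cdcf_wpd

section
variable {k : Type} [Field k] {n : ℕ}

theorem E3C_weight (w : Fin n → ℕ) (s : Fin n →₀ ℕ) :
    Finsupp.weight w s = ∑ i, s i * w i := by
  rw [Finsupp.weight_apply, Finsupp.sum_fintype _ _ (fun i => by simp)]
  simp

theorem E3C_comp_mul (w : Fin n → ℕ) (W Z : MvPolynomial (Fin n) k) (d m : ℕ)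
    (hW : IsWeightedHomogeneous w W d) :
    weightedHomogeneousComponent w (m + d) (W * Z) = W * weightedHomogeneousComponent w m Z := by
  induction Z using MvPolynomial.induction_on' with
  | monomial s c =>
    have h1 : IsWeightedHomogeneous w (monomial s c) (Finsupp.weight w s) :=
      isWeightedHomogeneous_monomial w s c rfl
    have h2 := hW.mul h1
    rw [weightedHomogeneousComponent_of_mem (n := d + Finsupp.weight w s) h2,
      weightedHomogeneousComponent_of_mem (n := Finsupp.weight w s) h1]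
    by_cases h : m = Finsupp.weight w s
    · rw [if_pos (by omega), if_pos h]
    · rw [if_neg (by omega), if_neg h, mul_zero]
  | add p q hp hq =>
    rw [mul_add, map_add, hp, hq, map_add, mul_add]

theorem E3C_comp_mul_zero (w : Fin n → ℕ) (W Z : MvPolynomial (Fin n) k) (d m : ℕ)
    (hW : IsWeightedHomogeneous w W d) (hm : m < d) :
    weightedHomogeneousComponent w m (W * Z) = 0 := by
  induction Z using MvPolynomial.induction_on' with
  | monomial s c =>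
    have h1 : IsWeightedHomogeneous w (monomial s c) (Finsupp.weight w s) :=
      isWeightedHomogeneous_monomial w s c rfl
    have h2 := hW.mul h1
    rw [weightedHomogeneousComponent_of_mem (n := d + Finsupp.weight w s) h2, if_neg (by omega)]
  | add p q hp hq =>
    rw [mul_add, map_add, hp, hq, add_zero]

/-- a factor of a weighted homogeneous polynomial -/
theorem E3C_factor (w : Fin n → ℕ) (W Z Z1 : MvPolynomial (Fin n) k) (d M : ℕ)
    (hW : IsWeightedHomogeneous w W d) (hZ : IsWeightedHomogeneous w Z M) (hZ0 : Z ≠ 0)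
    (h : Z = W * Z1) : ∃ m, M = m + d ∧ IsWeightedHomogeneous w Z1 m := by
  have hW0 : W ≠ 0 := by
    rintro rfl
    exact hZ0 (by rw [h, zero_mul])
  by_cases hM : M < d
  · exfalso
    apply hZ0
    rw [← weightedHomogeneousComponent_eq_self hZ, h]
    exact E3C_comp_mul_zero w W Z1 d M hW hM
  · refine ⟨M - d, by omega, ?_⟩
    have h1 : W * Z1 = W * weightedHomogeneousComponent w (M - d) Z1 := by
      rw [← E3C_comp_mul w W Z1 d (M - d) hW, Nat.sub_add_cancel (by omega), ← h,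
        weightedHomogeneousComponent_eq_self hZ]
    rw [mul_left_cancel₀ hW0 h1]
    exact weightedHomogeneousComponent_isWeightedHomogeneous _ _

theorem E3C_exists (q : Fin n) (Z : MvPolynomial (Fin n) k) (hZ : Z ≠ 0) :
    ∃ s ∈ Z.support, s q = degreeOf q Z := by
  have h1 : Z.support.Nonempty := support_nonempty.2 hZ
  obtain ⟨s, hs, h⟩ := Finset.exists_mem_eq_sup Z.support h1 (fun m => m q)
  exact ⟨s, hs, by rw [degreeOf_eq_sup]; exact h.symm⟩

theorem E3C_le (q : Fin n) (Z : MvPolynomial (Fin n) k) (s : Fin n →₀ ℕ) (h : coeff s Z ≠ 0) :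
    s q ≤ degreeOf q Z := by
  rw [degreeOf_eq_sup]
  exact Finset.le_sup (f := fun m : Fin n →₀ ℕ => m q) (mem_support_iff.2 h)

end

section
variable {k : Type} [Field k] {n : ℕ} [NeZero n]

theorem E3C_mon (h1 h2 : ℕ) : (X 0 ^ h1 * X (1 + 1) ^ h2 : MvPolynomial (Fin n) k) =
    monomial (Finsupp.single 0 h1 + Finsupp.single (1 + 1) h2) 1 := by
  rw [X_pow_eq_monomial, X_pow_eq_monomial, monomial_mul, one_mul]

theorem E3C_coeffs (hn : 3 ≤ n) (h1 h2 : ℕ) (H2 : 1 ≤ h2) (H1 : 1 ≤ h1) :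
    coeff (Finsupp.single 0 h1 + Finsupp.single (1 + 1) h2) (X 1 : MvPolynomial (Fin n) k) = 0 ∧
    coeff (Finsupp.single 0 h1 + Finsupp.single (1 + 1) h2)
      (X 0 ^ (h1 + h2) : MvPolynomial (Fin n) k) = 0 ∧
    coeff (Finsupp.single 0 h1 + Finsupp.single (1 + 1) h2)
      (X (1 + 1) ^ (h1 + h2) : MvPolynomial (Fin n) k) = 0 ∧
    coeff (Finsupp.single 0 h1 + Finsupp.single (1 + 1) h2)
      (X 0 ^ h1 * X (1 + 1) ^ h2 : MvPolynomial (Fin n) k) = 1 := by
  have e01 := fin01 hn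
  have e02 := fin02 hn
  have e12 := fin12 hn
  refine ⟨?_, ?_, ?_, ?_⟩
  · rw [coeff_X, if_neg]
    intro h
    have := DFunLike.congr_fun h 1
    rw [Finsupp.add_apply, Finsupp.single_eq_same, Finsupp.single_eq_of_ne e01.symm,
      Finsupp.single_eq_of_ne e12.symm] at this
    omega
  · rw [coeff_X_pow, if_neg]
    intro h
    have := DFunLike.congr_fun h (1 + 1)
    rw [Finsupp.add_apply, Finsupp.single_eq_same, Finsupp.single_eq_of_ne e02,
      Finsupp.single_eq_of_ne e02] at this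
    omega
  · rw [coeff_X_pow, if_neg]
    intro h
    have := DFunLike.congr_fun h 0
    rw [Finsupp.add_apply, Finsupp.single_eq_same, Finsupp.single_eq_of_ne e02.symm,
      Finsupp.single_eq_of_ne e02.symm] at this
    omega
  · rw [E3C_mon, coeff_monomial, if_pos rfl]

theorem E3C_deg1Q (hn : 3 ≤ n) (a : k) (h1 h2 : ℕ) : degreeOf 1 (Q3 k n a h1 h2) = 0 := by
  have e01 := fin01 hn
  have e12 := fin12 hn
  apply Nat.le_zero.1
  unfold Q3
  refine (degreeOf_C_mul_le _ _ _).trans ?_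
  refine (degreeOf_add_le _ _ _).trans (max_le ((degreeOf_add_le _ _ _).trans (max_le ?_ ?_)) ?_)
  · rw [degreeOf_X_pow_of_ne _ e01.symm]
  · rw [degreeOf_X_pow_of_ne _ e12.symm]
  · refine (degreeOf_mul_le _ _ _).trans ?_
    rw [degreeOf_X_pow_of_ne _ e01.symm, degreeOf_X_pow_of_ne _ e12.symm]

theorem E3C_w3 (hn : 3 ≤ n) (d : ℕ) : w3 n d 0 = 1 ∧ w3 n d (1 + 1) = 1 ∧ w3 n d 1 = d := by
  refine ⟨?_, ?_, ?_⟩
  · rw [w3, if_neg (fin01 hn), if_pos (Or.inl rfl)]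
  · rw [w3, if_neg (fin12 hn), if_pos (Or.inr rfl)]
  · rw [w3, if_pos rfl]

theorem E3C_hom0 (hn : 3 ≤ n) (d m : ℕ) :
    IsWeightedHomogeneous (w3 n d) (X 0 ^ m : MvPolynomial (Fin n) k) m := by
  have := (isWeightedHomogeneous_X k (w3 n d) (0 : Fin n)).pow m
  rwa [(E3C_w3 hn d).1, smul_eq_mul, mul_one] at this

theorem E3C_homt (hn : 3 ≤ n) (d m : ℕ) :
    IsWeightedHomogeneous (w3 n d) (X (1 + 1) ^ m : MvPolynomial (Fin n) k) m := by
  have := (isWeightedHomogeneous_X k (w3 n d) (1 + 1 : Fin n)).pow m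
  rwa [(E3C_w3 hn d).2.1, smul_eq_mul, mul_one] at this

theorem E3C_hom1 (hn : 3 ≤ n) (d : ℕ) :
    IsWeightedHomogeneous (w3 n d) (X 1 : MvPolynomial (Fin n) k) d := by
  have := isWeightedHomogeneous_X k (w3 n d) (1 : Fin n)
  rwa [(E3C_w3 hn d).2.2] at this

theorem E3C_homW1 (hn : 3 ≤ n) (a : k) (h1 h2 : ℕ) :
    IsWeightedHomogeneous (w3 n (h1 + h2)) (W1 k n a h1 h2) (h1 + h2) :=
  (E3C_hom1 hn _).sub ((E3C_homt hn _ _).C_mul a)

theorem E3C_homW2 (hn : 3 ≤ n) (a : k) (h1 h2 : ℕ) :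
    IsWeightedHomogeneous (w3 n (h1 + h2)) (W2 k n a h1 h2) (h1 + h2) :=
  (E3C_hom1 hn _).sub (((E3C_homt hn _ _).add
    ((E3C_hom0 hn _ _).mul (E3C_homt hn _ _))).C_mul a)

theorem E3C_el (Q V W : MvPolynomial (Fin n) k) : el Q (V * W) = el Q V * el Q W := map_mul _ _ _

theorem E3C_elX1 (Q : MvPolynomial (Fin n) k) : el Q (X 1) = X 1 + Q := by
  rw [el, aeval_X, if_pos rfl]

theorem E3C_elX (Q : MvPolynomial (Fin n) k) {i : Fin n} (hi : i ≠ 1) : el Q (X i) = X i := by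
  rw [el, aeval_X, if_neg hi]

theorem E3C_elC (Q : MvPolynomial (Fin n) k) (c : k) : el Q (C c) = C c := by
  rw [el, algHom_C, algebraMap_eq]

theorem E3C_elW1 (hn : 3 ≤ n) (a : k) (h1 h2 : ℕ) : el (Q3 k n a h1 h2) (W1 k n a h1 h2) =
    X 1 + C a * (X 0 ^ (h1 + h2) + X 0 ^ h1 * X (1 + 1) ^ h2) := by
  rw [W1, map_sub, map_mul, map_pow, E3C_elX1, E3C_elX _ (fin12 hn), E3C_elC, Q3]
  ring

theorem E3C_degsub (hn : 3 ≤ n) (a : k) (P : MvPolynomial (Fin n) k) (hP : degreeOf 1 P = 0) :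
    degreeOf 1 (X 1 - C a * P) ≤ 1 := by
  have h1 : (X 1 - C a * P : MvPolynomial (Fin n) k) = X 1 + C (-a) * P := by
    rw [C_neg]; ring
  rw [h1]
  refine (degreeOf_add_le _ _ _).trans (max_le ?_ ?_)
  · rw [degreeOf_X_self]
  · refine (degreeOf_C_mul_le _ _ _).trans ?_
    rw [hP]
    exact Nat.zero_le _

theorem E3C_degW1 (hn : 3 ≤ n) (a : k) (ha : a ≠ 0) (h1 h2 : ℕ) (H1 : 1 ≤ h1) (H2 : 1 ≤ h2) :
    degreeOf 1 (W1 k n a h1 h2) ≤ 1 ∧
      h2 ≤ degreeOf (1 + 1) (el (Q3 k n a h1 h2) (W1 k n a h1 h2)) := by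
  obtain ⟨c1, c2, c3, c4⟩ := E3C_coeffs (k := k) hn h1 h2 H2 H1
  constructor
  · exact E3C_degsub hn a _ (degreeOf_X_pow_of_ne _ (fin12 hn).symm)
  · rw [E3C_elW1 hn]
    have h3 : coeff (Finsupp.single 0 h1 + Finsupp.single (1 + 1) h2)
        (X 1 + C a * (X 0 ^ (h1 + h2) + X 0 ^ h1 * X (1 + 1) ^ h2) : MvPolynomial (Fin n) k) ≠ 0 := by
      rw [coeff_add, c1, coeff_C_mul, coeff_add, c2, c4, zero_add, zero_add, mul_one]
      exact ha
    have h4 := E3C_le (1 + 1) _ _ h3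
    rw [Finsupp.add_apply, Finsupp.single_eq_same, Finsupp.single_eq_of_ne (fin02 hn), zero_add] at h4
    exact h4

theorem E3C_degW2 (hn : 3 ≤ n) (a : k) (ha : a ≠ 0) (h1 h2 : ℕ) (H1 : 1 ≤ h1) (H2 : 1 ≤ h2) :
    degreeOf 1 (W2 k n a h1 h2) ≤ 1 ∧ h1 ≤ degreeOf 0 (W2 k n a h1 h2) := by
  obtain ⟨c1, c2, c3, c4⟩ := E3C_coeffs (k := k) hn h1 h2 H2 H1
  constructor
  · refine E3C_degsub hn a _ (Nat.le_zero.1 ?_)
    refine (degreeOf_add_le _ _ _).trans (max_le ?_ ((degreeOf_mul_le _ _ _).trans ?_))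
    · rw [degreeOf_X_pow_of_ne _ (fin12 hn).symm]
    · rw [degreeOf_X_pow_of_ne _ (fin01 hn).symm, degreeOf_X_pow_of_ne _ (fin12 hn).symm]
  · have h3 : coeff (Finsupp.single 0 h1 + Finsupp.single (1 + 1) h2) (W2 k n a h1 h2) ≠ 0 := by
      rw [W2, coeff_sub, c1, coeff_C_mul, coeff_add, c3, c4, zero_add, zero_sub, mul_one]
      exact neg_ne_zero.2 ha
    have h4 := E3C_le 0 _ _ h3
    rw [Finsupp.add_apply, Finsupp.single_eq_same, Finsupp.single_eq_of_ne (fin02 hn).symm,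
      add_zero] at h4
    exact h4

end

theorem p_E3C (hELD : Stmt_ELD) (hE3D : Stmt_E3D) : Stmt_E3C := by
  intro k _ n _ a h h1 h2 hn ha hh hh1 hh2 hsum Z M
  induction M using Nat.strong_induction_on generalizing Z with
  | _ M ih =>
  intro hZ hZ0
  have H1 : 1 ≤ h1 := by omega
  have H2 : 1 ≤ h2 := by omega
  obtain ⟨hinv, -, -⟩ := hELD k n (Q3 k n a h1 h2) (E3C_deg1Q hn a h1 h2)
  have hel : ∀ V : MvPolynomial (Fin n) k, V ≠ 0 → el (Q3 k n a h1 h2) V ≠ 0 := by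
    intro V hV h0
    apply hV
    rw [← hinv V, h0, map_zero]
  -- a common step
  have step : ∀ W : MvPolynomial (Fin n) k, IsWeightedHomogeneous (w3 n (h1 + h2)) W (h1 + h2) →
      degreeOf 1 W ≤ 1 → h ≤ degreeOf 0 W + degreeOf (1 + 1) (el (Q3 k n a h1 h2) W) →
      W ∣ Z → h * degreeOf 1 Z ≤ degreeOf 0 Z + degreeOf (1 + 1) (el (Q3 k n a h1 h2) Z) := by
    intro W hW hdW hdW2 hdvd
    obtain ⟨Z1, hZ1⟩ := hdvd
    obtain ⟨m, hm, hZ1h⟩ := E3C_factor _ W Z Z1 _ M hW hZ hZ0 hZ1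
    have hW0 : W ≠ 0 := by
      rintro rfl
      exact hZ0 (by rw [hZ1, zero_mul])
    have hZ10 : Z1 ≠ 0 := by
      rintro rfl
      exact hZ0 (by rw [hZ1, mul_zero])
    have := ih m (by omega) Z1 hZ1h hZ10
    rw [hZ1, E3C_el, degreeOf_mul_eq hW0 hZ10, degreeOf_mul_eq hW0 hZ10,
      degreeOf_mul_eq (hel _ hW0) (hel _ hZ10)]
    calc h * (degreeOf 1 W + degreeOf 1 Z1) ≤ h * (1 + degreeOf 1 Z1) :=
          Nat.mul_le_mul_left _ (Nat.add_le_add_right hdW _)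
      _ = h + h * degreeOf 1 Z1 := by ring
      _ ≤ _ := by omega
  by_cases hd1 : W1 k n a h1 h2 ∣ Z
  · obtain ⟨g1, g2⟩ := E3C_degW1 hn a ha h1 h2 H1 H2
    exact step _ (E3C_homW1 hn a h1 h2) g1 (by omega) hd1
  by_cases hd2 : W2 k n a h1 h2 ∣ Z
  · obtain ⟨g1, g2⟩ := E3C_degW2 hn a ha h1 h2 H1 H2
    exact step _ (E3C_homW2 hn a h1 h2) g1 (by omega) hd2
  obtain ⟨k1, k2⟩ := hE3D k n a h1 h2 hn ha H1 H2 Z M hZ
  have k1 := k1 hd1
  have k2 := k2 hd2
  have hM : (h1 + h2) * degreeOf 1 Z ≤ M := by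
    obtain ⟨s, hs, hs1⟩ := E3C_exists 1 Z hZ0
    have h3 := hZ (mem_support_iff.1 hs)
    rw [E3C_weight] at h3
    rw [← h3, ← hs1]
    have := Finset.single_le_sum (f := fun i => s i * w3 n (h1 + h2) i) (fun i _ => Nat.zero_le _)
      (Finset.mem_univ (1 : Fin n))
    rw [(E3C_w3 hn (h1 + h2)).2.2] at this
    rw [mul_comm]
    exact this
  generalize degreeOf 1 Z = b at *
  generalize degreeOf 0 Z = e1 at *
  generalize degreeOf (1 + 1) (el (Q3 k n a h1 h2) Z) = e2 at *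
  have hb1 : h1 ≤ h + 1 := by omega
  have hb2 : h2 ≤ h + 1 := by omega
  have s1 : (h1 + h2) * M ≤ (3 * h + 2) * (e1 + e2) := by
    have q1 : h1 * e2 ≤ (h + 1) * e2 := Nat.mul_le_mul_right _ hb1
    have q2 : h2 * e1 ≤ (h + 1) * e1 := Nat.mul_le_mul_right _ hb2
    have q3 : (h1 + h2) * M = h1 * M + h2 * M := by ring
    have q4 : (3 * h + 2) * (e1 + e2) = (h1 + h2) * e1 + (h1 + h2) * e2 + (h + 1) * e2 + (h + 1) * e1 := by
      rw [hsum]; ring
    omega
  have s2 : (h1 + h2) * ((h1 + h2) * b) ≤ (3 * h + 2) * (e1 + e2) :=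
    (Nat.mul_le_mul_left _ hM).trans s1
  rw [hsum] at s2
  have s3 : (3 * h + 2) * (h * b) ≤ (2 * h + 1) * ((2 * h + 1) * b) := by
    have : (2 * h + 1) * ((2 * h + 1) * b) = (3 * h + 2) * (h * b) + (h * h + 2 * h + 1) * b := by
      ring
    omega
  exact Nat.le_of_mul_le_mul_left (s3.trans s2) (by omega)

end Pool.Agent.Work.MP_b2cdcf_full
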