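import Pool.Agent.Work.MP_b2cdcf_full.IntB

set_option autoImplicit false

/-! # Block E3D (helper52) -/

open MvPolynomial

noncomputable section

namespace Pool.Agent.Work.MP_b2cdcf_full

open Pool.Agent.Work.MP_b2cdcf_wpd

section
variable {k : Type} [Field k] {n : ℕ}

theorem E3D_sum (g : Fin n → MvPolynomial (Fin n) k) (Z : MvPolynomial (Fin n) k) :
    aeval g Z = ∑ s ∈ Z.support, C (Z.coeff s) * ∏ i, g i ^ s i := by
  rw [aeval_def, eval₂_eq']
  rfl

theorem E3D_hom (w w' : Fin n → ℕ) (g : Fin n → MvPolynomial (Fin n) k)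
    (hg : ∀ i, IsWeightedHomogeneous w' (g i) (w i)) (Z : MvPolynomial (Fin n) k) (M : ℕ)
    (hZ : IsWeightedHomogeneous w Z M) : IsWeightedHomogeneous w' (aeval g Z) M := by
  rw [E3D_sum]
  refine IsWeightedHomogeneous.sum _ _ _ fun s hs => ?_
  refine IsWeightedHomogeneous.C_mul ?_ _
  have h1 : M = ∑ i, s i • w i := by
    rw [← hZ (mem_support_iff.1 hs), Finsupp.weight_apply, Finsupp.sum_fintype]
    intro i
    rw [zero_smul]
  rw [h1]
  refine IsWeightedHomogeneous.prod _ _ _ fun i _ => (hg i).pow (s i)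

theorem E3D_deg (g : Fin n → MvPolynomial (Fin n) k) (Z : MvPolynomial (Fin n) k) (j : Fin n)
    (B : ℕ) (h : ∀ s ∈ Z.support, ∑ i, s i * degreeOf j (g i) ≤ B) :
    degreeOf j (aeval g Z) ≤ B := by
  rw [E3D_sum]
  refine (degreeOf_sum_le j _ _).trans (Finset.sup_le fun s hs => ?_)
  refine (degreeOf_C_mul_le _ _ _).trans ((degreeOf_prod_le j _ _).trans (le_trans ?_ (h s hs)))
  exact Finset.sum_le_sum fun i _ => degreeOf_pow_le j _ _

/-- the substitution `X 1 ↦ q` -/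
def E3D_ev [NeZero n] (q : MvPolynomial (Fin n) k) :
    MvPolynomial (Fin n) k →ₐ[k] MvPolynomial (Fin n) k :=
  aeval fun i => if i = 1 then q else X i

theorem E3D_dvd [NeZero n] (q Z : MvPolynomial (Fin n) k) : X 1 - q ∣ Z - E3D_ev q Z := by
  induction Z using MvPolynomial.induction_on with
  | C a =>
    have : E3D_ev q (C a) = C a := (E3D_ev q).commutes a
    rw [this, sub_self]
    exact dvd_zero _
  | add p r hp hr =>
    rw [map_add]
    have : p + r - (E3D_ev q p + E3D_ev q r) = (p - E3D_ev q p) + (r - E3D_ev q r) := by ring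
    rw [this]
    exact dvd_add hp hr
  | mul_X p i hp =>
    rw [map_mul]
    have h1 : X 1 - q ∣ X i - E3D_ev q (X i) := by
      rw [E3D_ev, aeval_X]
      by_cases hi : i = 1
      · rw [if_pos hi, hi]
      · rw [if_neg hi, sub_self]
        exact dvd_zero _
    have h2 : p * X i - E3D_ev q p * E3D_ev q (X i) =
        (p - E3D_ev q p) * X i + E3D_ev q p * (X i - E3D_ev q (X i)) := by ring
    rw [h2]
    exact dvd_add (Dvd.dvd.mul_right hp _) (Dvd.dvd.mul_left h1 _)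

theorem E3D_comp [NeZero n] (q Q Z : MvPolynomial (Fin n) k) (hQ : E3D_ev (q - Q) Q = Q) :
    E3D_ev (q - Q) (el Q Z) = E3D_ev q Z := by
  rw [← AlgHom.comp_apply]
  congr 1
  refine algHom_ext fun i => ?_
  rw [AlgHom.comp_apply, el, aeval_X]
  by_cases hi : i = 1
  · rw [if_pos hi, map_add, hQ, hi]
    simp [E3D_ev]
  · rw [if_neg hi]
    simp [E3D_ev, hi]

/-- the weights without `X 1` -/
def E3D_w (n : ℕ) [NeZero n] (i : Fin n) : ℕ :=
  if i = 1 then 0 else if i = 0 ∨ i = 1 + 1 then 1 else 0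

theorem E3D_w_weight [NeZero n] (hn : 3 ≤ n) (s : Fin n →₀ ℕ) :
    Finsupp.weight (E3D_w n) s = s 0 + s (1 + 1) := by
  rw [Finsupp.weight_apply, Finsupp.sum_fintype _ _ (fun i => by rw [zero_smul])]
  rw [Finset.sum_eq_add (0 : Fin n) (1 + 1) (fin02 hn).symm]
  · simp [E3D_w, fin01 hn, fin12 hn]
  · intro i _ hi
    by_cases h1 : i = 1
    · simp [E3D_w, h1]
    · simp [E3D_w, h1, hi.1, hi.2]
  · simp
  · simp

theorem E3D_w3_weight [NeZero n] (hn : 3 ≤ n) (d : ℕ) (s : Fin n →₀ ℕ) :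
    Finsupp.weight (w3 n d) s = s 0 + s (1 + 1) + d * s 1 := by
  rw [← E3D_w_weight hn s]
  rw [Finsupp.weight_apply, Finsupp.sum_fintype _ _ (fun i => by rw [zero_smul]),
    Finsupp.weight_apply, Finsupp.sum_fintype _ _ (fun i => by rw [zero_smul])]
  have h1 : d * s 1 = ∑ i, s i • (if i = 1 then d else 0) := by
    simp [mul_comm]
  rw [h1, ← Finset.sum_add_distrib]
  refine Finset.sum_congr rfl fun i _ => ?_
  rw [← smul_add]
  congr 1
  by_cases hi : i = 1
  · simp [w3, E3D_w, hi]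
  · simp [w3, E3D_w, hi]

/-- the estimate of the degree -/
theorem E3D_est [NeZero n] (hn : 3 ≤ n) (d h M : ℕ) (hd : h ≤ d) (j : Fin n)
    (hj : j = 0 ∨ j = 1 + 1) (q Z : MvPolynomial (Fin n) k) (hq : degreeOf j q ≤ h)
    (hZ : IsWeightedHomogeneous (w3 n d) Z M) :
    d * degreeOf j (E3D_ev q Z) ≤ (d - h) * degreeOf j Z + h * M := by
  have hj1 : j ≠ 1 := by
    rcases hj with rfl | rfl
    · exact fin01 hn
    · exact fin12 hn
  by_cases h0 : Z = 0
  · rw [h0, map_zero, degreeOf_zero, mul_zero]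
    exact Nat.zero_le _
  obtain ⟨s, hs, hsB⟩ := Finset.exists_mem_eq_sup Z.support (support_nonempty.2 h0)
    (fun s => s j + h * s 1)
  have h1 : degreeOf j (E3D_ev q Z) ≤ s j + h * s 1 := by
    refine E3D_deg _ Z j _ fun u hu => ?_
    rw [← hsB]
    refine le_trans ?_ (Finset.le_sup (f := fun s => s j + h * s 1) hu)
    have h2 : ∀ i, u i * degreeOf j ((if i = 1 then q else X i : MvPolynomial (Fin n) k)) ≤
        (if i = j then u i else 0) + if i = 1 then h * u i else 0 := by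
      intro i
      by_cases hi : i = 1
      · rw [if_pos hi, if_neg (by rw [hi]; exact hj1.symm), if_pos hi, zero_add, mul_comm]
        exact Nat.mul_le_mul_right _ hq
      · rw [if_neg hi, if_neg hi, add_zero]
        by_cases hij : i = j
        · rw [if_pos hij, hij, degreeOf_X_self, mul_one]
        · rw [degreeOf_X_of_ne (Ne.symm hij), mul_zero]
          exact Nat.zero_le _
    refine (Finset.sum_le_sum fun i _ => h2 i).trans (le_of_eq ?_)
    rw [Finset.sum_add_distrib]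
    simp
  have h3 : M = s 0 + s (1 + 1) + d * s 1 := by
    rw [← E3D_w3_weight hn d s]
    exact (hZ (mem_support_iff.1 hs)).symm
  have h4 : s j ≤ degreeOf j Z := by
    rw [degreeOf_eq_sup]
    exact Finset.le_sup (f := fun m : Fin n →₀ ℕ => m j) hs
  have h5 : s j + d * s 1 ≤ M := by
    rw [h3]
    rcases hj with rfl | rfl <;> omega
  obtain ⟨c, rfl⟩ := Nat.exists_eq_add_of_le hd
  rw [Nat.add_sub_cancel_left]
  calc (h + c) * degreeOf j (E3D_ev q Z) ≤ (h + c) * (s j + h * s 1) :=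
        Nat.mul_le_mul_left _ h1
    _ = c * s j + h * (s j + (h + c) * s 1) := by ring
    _ ≤ c * degreeOf j Z + h * M := by
        gcongr

/-- the monomials of the image -/
theorem E3D_mon [NeZero n] (hn : 3 ≤ n) (d M : ℕ) (q Z : MvPolynomial (Fin n) k)
    (hq : IsWeightedHomogeneous (E3D_w n) q d)
    (hZ : IsWeightedHomogeneous (w3 n d) Z M) (h0 : E3D_ev q Z ≠ 0) :
    M ≤ degreeOf 0 (E3D_ev q Z) + degreeOf (1 + 1) (E3D_ev q Z) := by
  have h1 : IsWeightedHomogeneous (E3D_w n) (E3D_ev q Z) M := by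
    refine E3D_hom (w3 n d) (E3D_w n) _ (fun i => ?_) Z M hZ
    by_cases hi : i = 1
    · rw [if_pos hi]
      have : w3 n d i = d := by simp [w3, hi]
      rw [this]
      exact hq
    · rw [if_neg hi]
      have : w3 n d i = E3D_w n i := by simp [w3, E3D_w, hi]
      rw [this]
      exact isWeightedHomogeneous_X k _ i
  obtain ⟨v, hv⟩ := support_nonempty.2 h0
  rw [← h1 (mem_support_iff.1 hv), E3D_w_weight hn]
  refine add_le_add ?_ ?_
  · rw [degreeOf_eq_sup]
    exact Finset.le_sup (f := fun m : Fin n →₀ ℕ => m 0) hv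
  · rw [degreeOf_eq_sup]
    exact Finset.le_sup (f := fun m : Fin n →₀ ℕ => m (1 + 1)) hv

end

theorem p_E3D : Stmt_E3D := by
  intro k _ n _ a h1 h2 hn ha hh1 hh2 Z M hZ
  have h01 := fin01 hn
  have h02 := fin02 hn
  have h12 := fin12 hn
  have wX0 : IsWeightedHomogeneous (E3D_w n) (X 0 : MvPolynomial (Fin n) k) 1 := by
    have h := isWeightedHomogeneous_X k (E3D_w n) 0
    rwa [show E3D_w n 0 = 1 by simp [E3D_w, h01]] at h
  have wXt : IsWeightedHomogeneous (E3D_w n) (X (1 + 1) : MvPolynomial (Fin n) k) 1 := by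
    have h := isWeightedHomogeneous_X k (E3D_w n) (1 + 1)
    rwa [show E3D_w n (1 + 1) = 1 by simp [E3D_w, h12]] at h
  have vX0 : IsWeightedHomogeneous (w3 n (h1 + h2)) (X 0 : MvPolynomial (Fin n) k) 1 := by
    have h := isWeightedHomogeneous_X k (w3 n (h1 + h2)) 0
    rwa [show w3 n (h1 + h2) 0 = 1 by simp [w3, h01]] at h
  have vXt : IsWeightedHomogeneous (w3 n (h1 + h2)) (X (1 + 1) : MvPolynomial (Fin n) k) 1 := by
    have h := isWeightedHomogeneous_X k (w3 n (h1 + h2)) (1 + 1)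
    rwa [show w3 n (h1 + h2) (1 + 1) = 1 by simp [w3, h12]] at h
  have hpow : ∀ {w : Fin n → ℕ} {p : MvPolynomial (Fin n) k} (m : ℕ),
      IsWeightedHomogeneous w p 1 → IsWeightedHomogeneous w (p ^ m) m := by
    intro w p m hp
    have h := hp.pow m
    rwa [smul_eq_mul, mul_one] at h
  have hQ3w : IsWeightedHomogeneous (w3 n (h1 + h2)) (Q3 k n a h1 h2) (h1 + h2) :=
    (((hpow _ vX0).add (hpow _ vXt)).add ((hpow _ vX0).mul (hpow _ vXt))).C_mul a
  -- `Z'`
  have hZ' : IsWeightedHomogeneous (w3 n (h1 + h2)) (el (Q3 k n a h1 h2) Z) M := by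
    refine E3D_hom (w3 n (h1 + h2)) (w3 n (h1 + h2)) _ (fun i => ?_) Z M hZ
    by_cases hi : i = 1
    · rw [if_pos hi]
      have h3 : w3 n (h1 + h2) i = h1 + h2 := by simp [w3, hi]
      have h4 := isWeightedHomogeneous_X k (w3 n (h1 + h2)) 1
      have h5 : w3 n (h1 + h2) 1 = h1 + h2 := by simp [w3]
      rw [h5] at h4
      rw [h3]
      exact h4.add hQ3w
    · rw [if_neg hi]
      exact isWeightedHomogeneous_X k _ i
  have hev : ∀ q : MvPolynomial (Fin n) k, E3D_ev q (Q3 k n a h1 h2) = Q3 k n a h1 h2 := by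
    intro q
    have e0 : E3D_ev q (X 0) = X 0 := by simp [E3D_ev, h01]
    have et : E3D_ev q (X (1 + 1)) = X (1 + 1) := by
      rw [E3D_ev, aeval_X, if_neg h12]
    have ea : E3D_ev q (C a) = C a := (E3D_ev q).commutes a
    simp only [Q3, map_mul, map_add, map_pow, e0, et, ea]
  have hne : ∀ q : MvPolynomial (Fin n) k, ¬ (X 1 - q) ∣ Z → E3D_ev q Z ≠ 0 := by
    intro q hq h0
    have h3 := E3D_dvd q Z
    rw [h0, sub_zero] at h3
    exact hq h3
  have hdX : ∀ (i j : Fin n) (m : ℕ), i ≠ j →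
      degreeOf i ((X j : MvPolynomial (Fin n) k) ^ m) = 0 :=
    fun i j m h => degreeOf_X_pow_of_ne m h
  constructor
  · intro hW
    have hW' : ¬ (X 1 - C a * X (1 + 1) ^ (h1 + h2)) ∣ Z := hW
    have hA := hne _ hW'
    have hm := E3D_mon hn (h1 + h2) M _ Z ((hpow _ wXt).C_mul a) hZ hA
    have e1 := E3D_est hn (h1 + h2) 0 M (Nat.zero_le _) 0 (Or.inl rfl)
      (C a * X (1 + 1) ^ (h1 + h2)) Z
      ((degreeOf_C_mul_le _ _ _).trans (hdX _ _ _ h02.symm).le) hZ
    have e2 := E3D_est hn (h1 + h2) h2 M (Nat.le_add_left _ _) (1 + 1) (Or.inr rfl)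
      (C a * X (1 + 1) ^ (h1 + h2) - Q3 k n a h1 h2) (el (Q3 k n a h1 h2) Z) (by
        have h3 : C a * X (1 + 1) ^ (h1 + h2) - Q3 k n a h1 h2 =
            C (-a) * (X 0 ^ (h1 + h2) + X 0 ^ h1 * X (1 + 1) ^ h2) := by
          rw [Q3, C_neg]
          ring
        rw [h3]
        refine (degreeOf_C_mul_le _ _ _).trans ((degreeOf_add_le _ _ _).trans (max_le ?_ ?_))
        · rw [hdX _ _ _ h02]
          exact Nat.zero_le _
        · refine (degreeOf_mul_le _ _ _).trans ?_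
          rw [hdX _ _ _ h02, degreeOf_X_self_pow, zero_add]) hZ'
    rw [E3D_comp _ _ _ (hev _)] at e2
    rw [Nat.sub_zero, zero_mul, add_zero] at e1
    rw [Nat.add_sub_cancel] at e2
    calc (h1 + h2) * M ≤ (h1 + h2) * (degreeOf 0 (E3D_ev (C a * X (1 + 1) ^ (h1 + h2)) Z) +
          degreeOf (1 + 1) (E3D_ev (C a * X (1 + 1) ^ (h1 + h2)) Z)) := Nat.mul_le_mul_left _ hm
      _ = (h1 + h2) * degreeOf 0 (E3D_ev (C a * X (1 + 1) ^ (h1 + h2)) Z) +
          (h1 + h2) * degreeOf (1 + 1) (E3D_ev (C a * X (1 + 1) ^ (h1 + h2)) Z) := by ring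
      _ ≤ _ := add_le_add e1 e2
  · intro hW
    have hW' : ¬ (X 1 - C a * (X (1 + 1) ^ (h1 + h2) + X 0 ^ h1 * X (1 + 1) ^ h2)) ∣ Z := hW
    have hA := hne _ hW'
    have hm := E3D_mon hn (h1 + h2) M _ Z
      (((hpow _ wXt).add ((hpow _ wX0).mul (hpow _ wXt))).C_mul a) hZ hA
    have e1 := E3D_est hn (h1 + h2) h1 M (Nat.le_add_right _ _) 0 (Or.inl rfl)
      (C a * (X (1 + 1) ^ (h1 + h2) + X 0 ^ h1 * X (1 + 1) ^ h2)) Z (by
        refine (degreeOf_C_mul_le _ _ _).trans ((degreeOf_add_le _ _ _).trans (max_le ?_ ?_))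
        · rw [hdX _ _ _ h02.symm]
          exact Nat.zero_le _
        · refine (degreeOf_mul_le _ _ _).trans ?_
          rw [hdX _ _ _ h02.symm, degreeOf_X_self_pow, add_zero]) hZ
    have e2 := E3D_est hn (h1 + h2) 0 M (Nat.zero_le _) (1 + 1) (Or.inr rfl)
      (C a * (X (1 + 1) ^ (h1 + h2) + X 0 ^ h1 * X (1 + 1) ^ h2) - Q3 k n a h1 h2)
      (el (Q3 k n a h1 h2) Z) (by
        have h3 : C a * (X (1 + 1) ^ (h1 + h2) + X 0 ^ h1 * X (1 + 1) ^ h2) - Q3 k n a h1 h2 =
            C (-a) * X 0 ^ (h1 + h2) := by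
          rw [Q3, C_neg]
          ring
        rw [h3]
        exact (degreeOf_C_mul_le _ _ _).trans (hdX _ _ _ h02).le) hZ'
    rw [E3D_comp _ _ _ (hev _)] at e2
    rw [Nat.sub_zero, zero_mul, add_zero] at e2
    rw [Nat.add_sub_cancel_left] at e1
    calc (h1 + h2) * M ≤ (h1 + h2) * (degreeOf 0 (E3D_ev (C a * (X (1 + 1) ^ (h1 + h2) +
          X 0 ^ h1 * X (1 + 1) ^ h2)) Z) + degreeOf (1 + 1) (E3D_ev (C a * (X (1 + 1) ^ (h1 + h2) +
          X 0 ^ h1 * X (1 + 1) ^ h2)) Z)) := Nat.mul_le_mul_left _ hm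
      _ = (h1 + h2) * degreeOf (1 + 1) (E3D_ev (C a * (X (1 + 1) ^ (h1 + h2) +
          X 0 ^ h1 * X (1 + 1) ^ h2)) Z) + (h1 + h2) * degreeOf 0 (E3D_ev (C a *
          (X (1 + 1) ^ (h1 + h2) + X 0 ^ h1 * X (1 + 1) ^ h2)) Z) := by ring
      _ ≤ _ := add_le_add e2 e1

end Pool.Agent.Work.MP_b2cdcf_full
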