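import Pool.Agent.Work.MP_b2cdcf_full.B_E3C

/-! # Block E3X (helper78) -/

set_option autoImplicit false

open MvPolynomial

noncomputable section

namespace Pool.Agent.Work.MP_b2cdcf_full

open Pool.Agent.Work.MP_b2cdcf_wpd

section
variable {k : Type} [Field k] {n : ℕ} [NeZero n]

/-- the rest of `PP` -/
def E3X_r (k : Type) [Field k] (n : ℕ) [NeZero n] (a : k) (d : ℕ) : MvPolynomial (Fin n) k :=
  C a * ∑ j ∈ ((Finset.univ.erase (1 : Fin n)).erase 0).erase (1 + 1), X j ^ d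

theorem E3X_PP (hn : 3 ≤ n) (a : k) (h1 h2 : ℕ) :
    PP k n a h1 h2 1 0 (1 + 1) = Q3 k n a h1 h2 + E3X_r k n a (h1 + h2) := by
  have m0 : (0 : Fin n) ∈ Finset.univ.erase (1 : Fin n) :=
    Finset.mem_erase.2 ⟨fin01 hn, Finset.mem_univ _⟩
  have m2 : (1 + 1 : Fin n) ∈ (Finset.univ.erase (1 : Fin n)).erase 0 :=
    Finset.mem_erase.2 ⟨fin02 hn, Finset.mem_erase.2 ⟨fin12 hn, Finset.mem_univ _⟩⟩
  unfold PP Q3 E3X_r
  rw [← Finset.add_sum_erase _ _ m0, ← Finset.add_sum_erase _ _ m2]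
  ring

theorem E3X_deg (a : k) (d : ℕ) (q : Fin n)
    (hq : q ∉ ((Finset.univ.erase (1 : Fin n)).erase 0).erase (1 + 1)) :
    degreeOf q (E3X_r k n a d) = 0 := by
  apply Nat.le_zero.1
  unfold E3X_r
  refine (degreeOf_C_mul_le _ _ _).trans ?_
  refine (degreeOf_sum_le _ _ _).trans (Finset.sup_le fun j hj => ?_)
  rw [degreeOf_X_pow_of_ne]
  rintro rfl
  exact hq hj

theorem E3X_el_r (Q : MvPolynomial (Fin n) k) (a : k) (d : ℕ) :
    el Q (E3X_r k n a d) = E3X_r k n a d := by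
  unfold E3X_r
  rw [map_mul, E3C_elC, map_sum]
  congr 1
  refine Finset.sum_congr rfl fun j hj => ?_
  rw [map_pow, E3C_elX]
  intro h
  subst h
  simp at hj

theorem E3X_comp (Q r V : MvPolynomial (Fin n) k) (h : el Q r = r) :
    el (Q + r) V = el Q (el r V) := by
  have h1 : el (Q + r) = (el Q).comp (el r) := by
    apply algHom_ext
    intro i
    rw [AlgHom.comp_apply]
    by_cases hi : i = 1
    · subst hi
      rw [E3C_elX1, E3C_elX1, map_add, E3C_elX1, h, add_assoc]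
    · rw [E3C_elX _ hi, E3C_elX _ hi, E3C_elX _ hi]
  rw [h1]
  rfl

end

theorem p_E3X (hELD : Stmt_ELD) (hWSUB : Stmt_WSUB) (hE3C : Stmt_E3C) : Stmt_E3X := by
  intro k _ n _ a h h1 h2 hn ha hh hh1 hh2 hsum V
  have e0 : (0 : Fin n) ∉ ((Finset.univ.erase (1 : Fin n)).erase 0).erase (1 + 1) := by simp
  have e1 : (1 : Fin n) ∉ ((Finset.univ.erase (1 : Fin n)).erase 0).erase (1 + 1) := by simp
  rw [E3X_PP hn, E3X_comp _ _ _ (E3X_el_r _ _ _)]
  obtain ⟨-, f1, f2⟩ := hELD k n (E3X_r k n a (h1 + h2)) (E3X_deg a _ 1 e1)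
  have g1 := f1 V
  have g2 := f2 0 (fin01 hn) (E3X_deg a _ 0 e0) V
  set V' := el (E3X_r k n a (h1 + h2)) V with hV'
  rw [← g1]
  refine le_trans ?_ (Nat.add_le_add_right g2 _)
  by_cases hV0 : V' = 0
  · rw [hV0, degreeOf_zero]
    simp
  obtain ⟨s, hs, hs1⟩ := E3C_exists 1 V' hV0
  obtain ⟨M, hM⟩ : ∃ M, Finsupp.weight (w3 n (h1 + h2)) s = M := ⟨_, rfl⟩
  set Z := weightedHomogeneousComponent (w3 n (h1 + h2)) M V' with hZ
  have hsZ : coeff s Z ≠ 0 := by
    rw [hZ, coeff_weightedHomogeneousComponent, if_pos hM]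
    exact mem_support_iff.1 hs
  have hZ0 : Z ≠ 0 := by
    intro h0
    rw [h0, coeff_zero] at hsZ
    exact hsZ rfl
  have hcomp : ∀ (q : Fin n) (P : MvPolynomial (Fin n) k),
      degreeOf q (weightedHomogeneousComponent (w3 n (h1 + h2)) M P) ≤ degreeOf q P := by
    intro q P
    rw [degreeOf_le_iff]
    intro m hm
    rw [mem_support_iff, coeff_weightedHomogeneousComponent] at hm
    by_cases hm2 : Finsupp.weight (w3 n (h1 + h2)) m = M
    · rw [if_pos hm2] at hm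
      exact E3C_le q P m hm
    · rw [if_neg hm2] at hm
      exact absurd rfl hm
  have hb : degreeOf 1 V' ≤ degreeOf 1 Z := by
    rw [← hs1]
    exact E3C_le 1 Z s hsZ
  have hw : ∀ i, IsWeightedHomogeneous (w3 n (h1 + h2))
      ((fun i : Fin n => if i = 1 then X 1 + Q3 k n a h1 h2 else X i) i :
        MvPolynomial (Fin n) k) (w3 n (h1 + h2) i) := by
    intro i
    by_cases hi : i = 1
    · subst hi
      simp only [if_pos]
      rw [(E3C_w3 hn (h1 + h2)).2.2]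
      exact (E3C_hom1 hn _).add ((((E3C_hom0 hn _ _).add (E3C_homt hn _ _)).add
        ((E3C_hom0 hn _ _).mul (E3C_homt hn _ _))).C_mul a)
    · simp only [if_neg hi]
      exact isWeightedHomogeneous_X k _ i
  have hc := (hWSUB k n (w3 n (h1 + h2)) _ hw).1 V' M
  have hc' : weightedHomogeneousComponent (w3 n (h1 + h2)) M (el (Q3 k n a h1 h2) V') =
      el (Q3 k n a h1 h2) Z := hc
  have h5 := hE3C k n a h h1 h2 hn ha hh hh1 hh2 hsum Z M
    (weightedHomogeneousComponent_isWeightedHomogeneous _ _) hZ0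
  have h6 := hcomp 0 V'
  have h7 := hcomp (1 + 1) (el (Q3 k n a h1 h2) V')
  rw [hc'] at h7
  calc h * degreeOf 1 V' ≤ h * degreeOf 1 Z := Nat.mul_le_mul_left _ hb
    _ ≤ degreeOf 0 Z + degreeOf (1 + 1) (el (Q3 k n a h1 h2) Z) := h5
    _ ≤ _ := Nat.add_le_add h6 h7

end Pool.Agent.Work.MP_b2cdcf_full
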