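import Pool.Agent.Work.MP_b2cdcf_full.IntB

/-!
# Block E4S
-/

set_option autoImplicit false

open MvPolynomial

noncomputable section

namespace Pool.Agent.Work.MP_b2cdcf_full

open Pool.Agent.Work.MP_b2cdcf_wpd

theorem E4S_tdeg {k : Type} [Field k] {n : ℕ} (V : MvPolynomial (Fin n) k) :
    V.totalDegree ≤ ∑ j, degreeOf j V := by
  unfold totalDegree
  apply Finset.sup_le
  intro s hs
  rw [Finsupp.sum_fintype _ _ (fun _ => rfl)]
  apply Finset.sum_le_sum
  intro j _
  exact monomial_le_degreeOf j hs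

theorem E4S_shift {k : Type} [Field k] {n : ℕ} (F : AutP k n) (U : MvPolynomial (Fin n) k)
    (m : ℤ) : F ((F ^ (-m)) U) = (F ^ (-(m - 1))) U := by
  rw [← AlgEquiv.mul_apply]
  congr 1
  rw [← zpow_one_add]
  congr 1
  ring

theorem E4S_shift' {k : Type} [Field k] {n : ℕ} (F : AutP k n) (U : MvPolynomial (Fin n) k)
    (m : ℤ) : F⁻¹ ((F ^ (-(m - 1))) U) = (F ^ (-m)) U := by
  rw [← E4S_shift, ← AlgEquiv.mul_apply, inv_mul_cancel]
  rfl

/-- the residue class of a number -/
def E4S_c (n : ℕ) [NeZero n] (i : ℕ) : Fin n := ⟨i % n, Nat.mod_lt _ (Nat.pos_of_neZero n)⟩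

theorem E4S_c_zero (n : ℕ) [NeZero n] : E4S_c n 0 = 0 := by
  apply Fin.ext
  simp [E4S_c]

theorem E4S_c_succ (n : ℕ) [NeZero n] (i : ℕ) : E4S_c n (i + 1) = E4S_c n i + 1 := by
  apply Fin.ext
  rw [Fin.val_add, Fin.val_one']
  show (i + 1) % n = (i % n + 1 % n) % n
  rw [← Nat.add_mod]

theorem E4S_c_val (n : ℕ) [NeZero n] (i : ℕ) (h : i < n) : (E4S_c n i).val = i :=
  Nat.mod_eq_of_lt h

theorem E4S_c_fin {n : ℕ} [NeZero n] (i : Fin n) : E4S_c n i.val = i :=
  Fin.ext (Nat.mod_eq_of_lt i.isLt)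

theorem p_E4S (hE : Stmt_EDEG) : Stmt_E4S := by
  intro k _ n _ hn a h1 h2 hh1 hh2 U m
  set F := FX k n hn a h1 h2 with hF
  have key : ∀ (i : ℕ), i < n → ∀ m : ℤ, degreeOf (1 + E4S_c n i) ((F ^ (-m)) U) ≤
      degreeOf 1 ((F ^ (-(m - i))) U) +
        (h1 + h2) * ∑ i' ∈ Finset.range i, degreeOf 1 ((F ^ (-(m - i'))) U) := by
    intro i
    induction i with
    | zero =>
      intro _ m
      simp [E4S_c_zero]
    | succ i ih =>
      intro hi m
      have hne : (1 + E4S_c n (i + 1)) ≠ 1 := by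
        intro h
        have h3 : E4S_c n (i + 1) = 0 := by
          have h4 : (1 + E4S_c n (i + 1)) = 1 + 0 := by rw [h, add_zero]
          exact add_left_cancel h4
        have h5 := congrArg Fin.val h3
        rw [E4S_c_val _ _ hi] at h5
        simp at h5
      have h3 := (hE k n hn a h1 h2 hh1 hh2 ((F ^ (-(m - 1))) U)).2.2 _ hne
      rw [← hF, E4S_shift'] at h3
      have h4 : degreeOf 0 ((F ^ (-(m - 1))) U) = degreeOf 1 ((F ^ (-m)) U) := by
        rw [← E4S_shift]
        exact (hE k n hn a h1 h2 hh1 hh2 ((F ^ (-m)) U)).1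
      have h5 : (1 + E4S_c n (i + 1) - 1 : Fin n) = 1 + E4S_c n i := by
        rw [E4S_c_succ]
        abel
      rw [h4, h5] at h3
      have h6 := ih (by omega) (m - 1)
      have h7 : ∑ i' ∈ Finset.range (i + 1), degreeOf 1 ((F ^ (-(m - i'))) U) =
          ∑ i' ∈ Finset.range i, degreeOf 1 ((F ^ (-(m - 1 - i'))) U) +
            degreeOf 1 ((F ^ (-m)) U) := by
        rw [Finset.sum_range_succ']
        congr 1
        · apply Finset.sum_congr rfl
          intro i' _
          congr 4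
          push_cast
          ring
        · simp
      have h8 : (m - ((i + 1 : ℕ) : ℤ)) = m - 1 - (i : ℤ) := by
        push_cast
        ring
      rw [h7, h8, mul_add]
      calc _ ≤ _ := h3
        _ ≤ _ := by
          have := Nat.add_le_add_right h6 ((h1 + h2) * degreeOf 1 ((F ^ (-m)) U))
          omega
  have hsum : ∑ j : Fin n, degreeOf j ((F ^ (-m)) U) =
      ∑ i ∈ Finset.range n, degreeOf (1 + E4S_c n i) ((F ^ (-m)) U) := by
    rw [Finset.sum_range, ← Equiv.sum_comp (Equiv.addLeft (1 : Fin n))]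
    apply Finset.sum_congr rfl
    intro i _
    rw [Equiv.coe_addLeft, E4S_c_fin]
  refine (E4S_tdeg _).trans ?_
  rw [hsum]
  have hb : ∀ i ∈ Finset.range n, degreeOf (1 + E4S_c n i) ((F ^ (-m)) U) ≤
      (h1 + h2) * ∑ i' ∈ Finset.range n, degreeOf 1 ((F ^ (-(m - i'))) U) := by
    intro i hi
    have hi' := Finset.mem_range.1 hi
    refine (key i hi' m).trans ?_
    have h3 : ∑ i' ∈ Finset.range (i + 1), degreeOf 1 ((F ^ (-(m - i'))) U) ≤
        ∑ i' ∈ Finset.range n, degreeOf 1 ((F ^ (-(m - i'))) U) :=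
      Finset.sum_le_sum_of_subset (Finset.range_mono (by omega))
    refine le_trans ?_ (Nat.mul_le_mul_left (h1 + h2) h3)
    rw [Finset.sum_range_succ, mul_add, add_comm]
    apply Nat.add_le_add_left
    exact Nat.le_mul_of_pos_left _ (by omega)
  refine (Finset.sum_le_sum hb).trans ?_
  rw [Finset.sum_const, Finset.card_range, smul_eq_mul, mul_assoc]

end Pool.Agent.Work.MP_b2cdcf_full
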