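import Pool.Agent.Work.MP_b2cdcf_full.IntB

set_option autoImplicit false

open MvPolynomial

noncomputable section

namespace Pool.Agent.Work.MP_b2cdcf_full

open Pool.Agent.Work.MP_b2cdcf_wpd

theorem EDEG_PPdeg {k : Type} [Field k] {n : ℕ} (a : k) (h1 h2 : ℕ) (r u v : Fin n)
    (hu : u ≠ r) (hv : v ≠ r) : degreeOf r (PP k n a h1 h2 r u v) = 0 := by
  unfold PP
  apply Nat.le_zero.1
  refine (degreeOf_mul_le _ _ _).trans ?_
  rw [degreeOf_C, zero_add]
  refine (degreeOf_add_le _ _ _).trans ?_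
  apply max_le
  · refine (degreeOf_sum_le _ _ _).trans (Finset.sup_le fun j hj => ?_)
    rw [Finset.mem_erase] at hj
    rw [degreeOf_X_pow_of_ne _ hj.1.symm]
  · refine (degreeOf_mul_le _ _ _).trans ?_
    rw [degreeOf_X_pow_of_ne _ hu.symm, degreeOf_X_pow_of_ne _ hv.symm]

theorem EDEG_PPtot {k : Type} [Field k] {n : ℕ} (a : k) (h1 h2 : ℕ) (r u v : Fin n) :
    (PP k n a h1 h2 r u v).totalDegree ≤ h1 + h2 := by
  unfold PP
  refine (totalDegree_mul _ _).trans ?_
  rw [totalDegree_C, zero_add]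
  refine (totalDegree_add _ _).trans ?_
  apply max_le
  · refine (totalDegree_finsetSum _ _).trans (Finset.sup_le fun j _ => ?_)
    rw [totalDegree_X_pow]
  · refine (totalDegree_mul _ _).trans ?_
    rw [totalDegree_X_pow, totalDegree_X_pow]

theorem EDEG_sum {n : ℕ} (s : Fin n →₀ ℕ) (g : Fin n → ℕ) :
    (s.sum fun i e => e * g i) = ∑ i, s i * g i := by
  apply Finsupp.sum_fintype
  intro i
  exact zero_mul _

theorem EDEG_deg {n : ℕ} (s : Fin n →₀ ℕ) : (s.sum fun _ e => e) = ∑ i, s i :=
  Finsupp.sum_fintype _ _ fun _ => rfl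

theorem p_EDEG (hELD : Stmt_ELD) (hTAU : Stmt_TAU) : Stmt_EDEG := by
  intro k _ n _ hn a h1 h2 hh1 hh2 V
  refine ⟨?_, ?_, ?_⟩
  · rw [(hTAU k n hn a h1 h2 V).1 0, zero_add]
    exact (hELD k n _ (EDEG_PPdeg a h1 h2 1 0 (1 + 1) (fin01 hn) (fin12 hn))).2.1 V
  · rw [aut_eq_sum (FX k n hn a h1 h2) V]
    refine (totalDegree_finsetSum _ _).trans (Finset.sup_le fun s hs => ?_)
    refine (totalDegree_mul _ _).trans ?_
    rw [totalDegree_C, zero_add]
    refine (totalDegree_prod_le _ s).trans ?_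
    rw [EDEG_sum]
    have hg : ∀ i, s i * dg (FX k n hn a h1 h2) i ≤
        s i + if i = 1 then (h1 + h2 - 1) * s i else 0 := by
      intro i
      by_cases hi : i = 1
      · subst hi
        rw [if_pos rfl]
        have hd : dg (FX k n hn a h1 h2) 1 ≤ h1 + h2 := by
          unfold dg
          rw [FX_one]
          refine (totalDegree_add _ _).trans ?_
          rw [totalDegree_X]
          exact max_le (by omega) (EDEG_PPtot _ _ _ _ _ _)
        calc s 1 * dg (FX k n hn a h1 h2) 1 ≤ s 1 * (h1 + h2) := Nat.mul_le_mul_left _ hd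
          _ = s 1 + (h1 + h2 - 1) * s 1 := by
            obtain ⟨m, hm⟩ : ∃ m, h1 + h2 = m + 1 := ⟨h1 + h2 - 1, by omega⟩
            rw [hm, Nat.add_sub_cancel]
            ring
      · rw [if_neg hi]
        have hd : dg (FX k n hn a h1 h2) i = 1 := by
          unfold dg
          rw [FX_ne hn a h1 h2 hi, totalDegree_X]
        rw [hd]
        omega
    have h3 : (s.sum fun _ e => e) ≤ V.totalDegree := le_totalDegree hs
    have h4 : s 1 ≤ degreeOf 1 V := monomial_le_degreeOf 1 hs
    rw [EDEG_deg] at h3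
    calc ∑ i, s i * dg (FX k n hn a h1 h2) i
        ≤ ∑ i, (s i + if i = 1 then (h1 + h2 - 1) * s i else 0) :=
          Finset.sum_le_sum fun i _ => hg i
      _ = (∑ i, s i) + (h1 + h2 - 1) * s 1 := by
          rw [Finset.sum_add_distrib, Finset.sum_ite_eq' Finset.univ (1 : Fin n),
            if_pos (Finset.mem_univ _)]
      _ ≤ _ := add_le_add h3 (Nat.mul_le_mul_left _ h4)
  · intro j hj
    rw [aut_eq_sum (FX k n hn a h1 h2)⁻¹ V]
    refine (degreeOf_sum_le _ _ _).trans (Finset.sup_le fun s hs => ?_)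
    refine (degreeOf_mul_le _ _ _).trans ?_
    rw [degreeOf_C, zero_add]
    unfold Finsupp.prod
    refine (degreeOf_prod_le _ _ _).trans ?_
    have hg : ∀ i, degreeOf j ((FX k n hn a h1 h2)⁻¹ (X i) ^ s i) ≤
        (if i = j - 1 then s i else 0) + if i = 0 then (h1 + h2) * s i else 0 := by
      intro i
      refine (degreeOf_pow_le _ _ _).trans ?_
      by_cases hi : i = 0
      · subst hi
        rw [if_pos rfl, FX_inv_zero]
        have hd : degreeOf j (X 1 - PP k n a h1 h2 1 0 (1 + 1)) ≤ h1 + h2 := by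
          refine (degreeOf_le_totalDegree _ _).trans ?_
          refine (totalDegree_sub _ _).trans ?_
          rw [totalDegree_X]
          exact max_le (by omega) (EDEG_PPtot _ _ _ _ _ _)
        calc s 0 * degreeOf j (X 1 - PP k n a h1 h2 1 0 (1 + 1)) ≤ s 0 * (h1 + h2) :=
              Nat.mul_le_mul_left _ hd
          _ = (h1 + h2) * s 0 := mul_comm _ _
          _ ≤ _ := Nat.le_add_left _ _
      · rw [if_neg hi, add_zero, FX_inv_ne hn a h1 h2 hi, degreeOf_X]
        by_cases h5 : i = j - 1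
        · rw [if_pos h5, if_pos (by rw [h5, sub_add_cancel]), mul_one]
        · rw [if_neg h5, if_neg, mul_zero]
          intro h6
          exact h5 (by rw [h6, add_sub_cancel_right])
    calc ∑ i ∈ s.support, degreeOf j ((FX k n hn a h1 h2)⁻¹ (X i) ^ s i)
        ≤ ∑ i ∈ s.support, ((if i = j - 1 then s i else 0) +
            if i = 0 then (h1 + h2) * s i else 0) := Finset.sum_le_sum fun i _ => hg i
      _ ≤ ∑ i, ((if i = j - 1 then s i else 0) +
            if i = 0 then (h1 + h2) * s i else 0) :=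
          Finset.sum_le_sum_of_subset (Finset.subset_univ _)
      _ = s (j - 1) + (h1 + h2) * s 0 := by
          rw [Finset.sum_add_distrib, Finset.sum_ite_eq' Finset.univ (j - 1),
            Finset.sum_ite_eq' Finset.univ (0 : Fin n), if_pos (Finset.mem_univ _),
            if_pos (Finset.mem_univ _)]
      _ ≤ _ := add_le_add (monomial_le_degreeOf _ hs)
          (Nat.mul_le_mul_left _ (monomial_le_degreeOf _ hs))

end Pool.Agent.Work.MP_b2cdcf_full
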