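import Pool.Agent.Work.MP_b2cdcf_full.IntB

set_option autoImplicit false

open MvPolynomial

namespace Pool.Agent.Work.MP_b2cdcf_full

open Pool.Agent.Work.MP_b2cdcf_wpd

theorem ELD_deg {k : Type} [Field k] {n : ℕ} (q : Fin n) (g : Fin n → MvPolynomial (Fin n) k)
    (hg : ∀ i, degreeOf q (g i) ≤ if i = q then 1 else 0) (V : MvPolynomial (Fin n) k) :
    degreeOf q (aeval g V) ≤ degreeOf q V := by
  rw [aeval_def, eval₂_eq']
  refine (degreeOf_sum_le _ _ _).trans (Finset.sup_le fun s hs => ?_)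
  rw [algebraMap_eq]
  refine (degreeOf_C_mul_le _ _ _).trans ?_
  refine (degreeOf_prod_le _ _ _).trans ?_
  have h1 : ∑ i, degreeOf q (g i ^ s i) ≤ ∑ i, if i = q then s i else 0 := by
    apply Finset.sum_le_sum
    intro i _
    refine (degreeOf_pow_le _ _ _).trans ?_
    have h2 := hg i
    by_cases hi : i = q
    · rw [if_pos hi] at h2 ⊢
      calc s i * degreeOf q (g i) ≤ s i * 1 := Nat.mul_le_mul_left _ h2
        _ = s i := mul_one _
    · rw [if_neg hi] at h2 ⊢
      have h3 : degreeOf q (g i) = 0 := by omega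
      rw [h3, mul_zero]
  refine h1.trans ?_
  rw [Finset.sum_ite_eq' Finset.univ q, if_pos (Finset.mem_univ q)]
  exact degreeOf_le_iff.mp le_rfl s hs

theorem ELD_fix {k : Type} [Field k] {n : ℕ} [NeZero n] (R Q : MvPolynomial (Fin n) k)
    (hQ : degreeOf 1 Q = 0) : el R Q = Q := by
  have h1 : (el R : MvPolynomial (Fin n) k →ₐ[k] MvPolynomial (Fin n) k).toRingHom Q =
      (RingHom.id (MvPolynomial (Fin n) k)) Q := by
    apply hom_congr_vars
    · ext c
      exact congrArg _ (AlgHom.commutes (el R) c)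
    · intro i hi _
      have hi1 : i ≠ 1 := by
        intro h
        subst h
        rw [mem_vars_iff_degreeOf_ne_zero] at hi
        exact hi hQ
      have : el R (X i) = X i := by
        rw [el, aeval_X, if_neg hi1]
      exact this
    · rfl
  exact h1

theorem ELD_inv {k : Type} [Field k] {n : ℕ} [NeZero n] (Q : MvPolynomial (Fin n) k)
    (hQ : degreeOf 1 Q = 0) (V : MvPolynomial (Fin n) k) : el (-Q) (el Q V) = V := by
  have h : (el (-Q)).comp (el Q) = AlgHom.id k (MvPolynomial (Fin n) k) := by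
    apply algHom_ext
    intro i
    rw [AlgHom.comp_apply, AlgHom.id_apply]
    by_cases hi : i = 1
    · subst hi
      have h1 : el Q (X 1) = X 1 + Q := by rw [el, aeval_X, if_pos rfl]
      have h2 : el (-Q) (X 1) = X 1 + -Q := by rw [el, aeval_X, if_pos rfl]
      rw [h1, map_add, h2, ELD_fix (-Q) Q hQ]
      ring
    · have h1 : el Q (X i) = X i := by rw [el, aeval_X, if_neg hi]
      have h2 : el (-Q) (X i) = X i := by rw [el, aeval_X, if_neg hi]
      rw [h1, h2]
  exact DFunLike.congr_fun h V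

theorem ELD_one {k : Type} [Field k] {n : ℕ} [NeZero n] (Q : MvPolynomial (Fin n) k)
    (hQ : degreeOf 1 Q = 0) (V : MvPolynomial (Fin n) k) :
    degreeOf 1 (el Q V) ≤ degreeOf 1 V := by
  apply ELD_deg
  intro i
  by_cases hi : i = 1
  · rw [if_pos hi, if_pos hi]
    refine (degreeOf_add_le _ _ _).trans ?_
    rw [hQ, degreeOf_X_self]
    simp
  · rw [if_neg hi, if_neg hi, degreeOf_X_of_ne (Ne.symm hi)]

theorem p_ELD : Stmt_ELD := by
  intro k _ n _ Q hQ
  have hQn : degreeOf 1 (-Q) = 0 := by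
    rw [degreeOf_eq_sup, support_neg, ← degreeOf_eq_sup, hQ]
  refine ⟨ELD_inv Q hQ, ?_, ?_⟩
  · intro V
    apply le_antisymm (ELD_one Q hQ V)
    have h := ELD_one (-Q) hQn (el Q V)
    rw [ELD_inv Q hQ V] at h
    exact h
  · intro q hq hqQ V
    apply ELD_deg
    intro i
    by_cases hi : i = 1
    · rw [if_pos hi, if_neg (by rw [hi]; exact Ne.symm hq)]
      refine (degreeOf_add_le _ _ _).trans ?_
      rw [hqQ, degreeOf_X_of_ne hq]
      simp
    · rw [if_neg hi]
      by_cases hiq : i = q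
      · rw [if_pos hiq, hiq, degreeOf_X_self]
      · rw [if_neg hiq, degreeOf_X_of_ne (Ne.symm hiq)]

end Pool.Agent.Work.MP_b2cdcf_full
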