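import Pool.Agent.Work.MP_b2cdcf_full.IntB

/-! # Block EXM: the stabiliser of the axis (helper78) -/

set_option autoImplicit false

open MvPolynomial

noncomputable section

namespace Pool.Agent.Work.MP_b2cdcf_full

open Pool.Agent.Work.MP_b2cdcf_wpd

theorem EXM_ext {k : Type} [Field k] {n : ℕ} {φ ψ : AutP k n} (h : ∀ i, φ (X i) = ψ (X i)) :
    φ = ψ := by
  have h1 : (φ : MvPolynomial (Fin n) k →ₐ[k] MvPolynomial (Fin n) k) =
      (ψ : MvPolynomial (Fin n) k →ₐ[k] MvPolynomial (Fin n) k) := algHom_ext fun i => h i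
  exact AlgEquiv.coe_algHom_injective h1

theorem EXM_C {k : Type} [Field k] {n : ℕ} (φ : AutP k n) (c : k) : φ (C c) = C c :=
  φ.commutes c

theorem EXM_PP {k : Type} [Field k] {n : ℕ} (μ : AutP k n) (ζ : k)
    (h : ∀ i, μ (X i) = C ζ * X i) (a : k) (h1 h2 : ℕ) (r u v : Fin n) :
    μ (PP k n a h1 h2 r u v) = C ζ ^ (h1 + h2) * PP k n a h1 h2 r u v := by
  unfold PP
  rw [map_mul, map_add, map_mul, map_sum, map_pow, map_pow, EXM_C, h, h]
  have e1 : ∑ j ∈ Finset.univ.erase r, μ ((X j : MvPolynomial (Fin n) k) ^ (h1 + h2)) =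
      C ζ ^ (h1 + h2) * ∑ j ∈ Finset.univ.erase r, (X j : MvPolynomial (Fin n) k) ^ (h1 + h2) := by
    rw [Finset.mul_sum]
    refine Finset.sum_congr rfl fun j _ => ?_
    rw [map_pow, h, mul_pow]
  rw [e1, mul_pow, mul_pow, pow_add]
  ring

theorem EXM_comm {k : Type} [Field k] {n : ℕ} [NeZero n] (hn : 3 ≤ n) (a : k) (h1 h2 : ℕ)
    (hd : 1 ≤ h1 + h2) (μ : AutP k n) (ζ : k) (hζ : ζ ^ (h1 + h2 - 1) = 1)
    (h : ∀ i, μ (X i) = C ζ * X i) :
    μ * FX k n hn a h1 h2 = FX k n hn a h1 h2 * μ := by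
  apply EXM_ext
  intro i
  rw [aut_mul_apply, aut_mul_apply, h, map_mul, EXM_C]
  by_cases hi : i = 1
  · subst hi
    rw [FX_one, map_add, h, EXM_PP μ ζ h]
    have e : (C ζ : MvPolynomial (Fin n) k) ^ (h1 + h2) = C ζ := by
      rw [← C_pow]
      congr 1
      calc ζ ^ (h1 + h2) = ζ ^ (h1 + h2 - 1 + 1) := by rw [Nat.sub_add_cancel hd]
        _ = ζ := by rw [pow_succ, hζ, one_mul]
    rw [e]
    ring
  · rw [FX_ne hn a h1 h2 hi, h]

theorem EXM_zpow_apply {k : Type} [Field k] {n : ℕ} (F μ : AutP k n) (ζ : k)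
    (h : ∀ i, μ (X i) = C ζ * X i) (b : ℤ) (i : Fin n) :
    (F ^ b * μ) (X i) = C ζ * (F ^ b) (X i) := by
  rw [aut_mul_apply, h, map_mul, EXM_C]

theorem p_EXM : Stmt_EXM := by
  intro k _ n _ hn a h1 h2 hP
  have hd : 1 ≤ h1 + h2 := by
    have := hP.h1pos
    omega
  have hcomm : ∀ (μ : AutP k n) (ζ : k), ζ ^ (h1 + h2 - 1) = 1 → (∀ i, μ (X i) = C ζ * X i) →
      μ * FX k n hn a h1 h2 = FX k n hn a h1 h2 * μ := fun μ ζ h3 h4 =>
    EXM_comm hn a h1 h2 hd μ ζ h3 h4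
  refine ⟨?_, hcomm⟩
  set F := FX k n hn a h1 h2 with hF
  have hsplit : ∀ (φ : AutP k n) (ζ : k) (b : ℤ), (∀ i, φ (X i) = C ζ * (F ^ b) (X i)) →
      ∃ μ : AutP k n, (∀ i, μ (X i) = C ζ * X i) ∧ φ = F ^ b * μ := by
    intro φ ζ b h
    refine ⟨(F ^ b)⁻¹ * φ, ?_, by rw [mul_inv_cancel_left]⟩
    intro i
    rw [aut_mul_apply, h, map_mul, EXM_C]
    have : (F ^ b)⁻¹ ((F ^ b) (X i)) = X i := by
      show ((F ^ b)⁻¹ * F ^ b) (X i) = X i
      rw [inv_mul_cancel]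
      rfl
    rw [this]
  intro φ
  constructor
  · intro hφ
    unfold EX at hφ
    induction hφ using Subgroup.closure_induction with
    | mem x hx =>
      rcases hx with hx | ⟨ζ, hζ, hx⟩
      · rw [Set.mem_singleton_iff] at hx
        refine ⟨1, 1, one_pow _, fun i => ?_⟩
        rw [hx, C_1, one_mul, zpow_one]
      · refine ⟨ζ, 0, hζ, fun i => ?_⟩
        rw [hx, zpow_zero]
        rfl
    | one =>
      refine ⟨1, 0, one_pow _, fun i => ?_⟩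
      rw [C_1, one_mul, zpow_zero]
    | mul x y _ _ hx hy =>
      obtain ⟨ζ, b, hζ, hx⟩ := hx
      obtain ⟨ζ', b', hζ', hy⟩ := hy
      obtain ⟨μ, hμ, rfl⟩ := hsplit x ζ b hx
      obtain ⟨μ', hμ', rfl⟩ := hsplit y ζ' b' hy
      have hc : Commute μ F := hcomm μ ζ hζ hμ
      have hc' : μ * F ^ b' = F ^ b' * μ := (hc.zpow_right b').eq
      have e : F ^ b * μ * (F ^ b' * μ') = F ^ (b + b') * (μ * μ') := by
        rw [zpow_add, mul_assoc, ← mul_assoc μ, hc']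
        simp only [mul_assoc]
      refine ⟨ζ * ζ', b + b', by rw [mul_pow, hζ, hζ', one_mul], fun i => ?_⟩
      rw [e]
      apply EXM_zpow_apply
      intro i
      rw [aut_mul_apply, hμ', map_mul, EXM_C, hμ, C_mul]
      ring
    | inv x _ hx =>
      obtain ⟨ζ, b, hζ, hx⟩ := hx
      obtain ⟨μ, hμ, rfl⟩ := hsplit x ζ b hx
      have hc : Commute μ F := hcomm μ ζ hζ hμ
      have hc' : μ⁻¹ * F ^ (-b) = F ^ (-b) * μ⁻¹ := (hc.inv_left.zpow_right (-b)).eq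
      have e : (F ^ b * μ)⁻¹ = F ^ (-b) * μ⁻¹ := by
        rw [mul_inv_rev, ← zpow_neg, hc']
      have hζ0 : ζ ≠ 0 := by
        intro h0
        have h5 := hP.h1pos
        rw [h0, zero_pow (by omega)] at hζ
        exact zero_ne_one hζ
      refine ⟨ζ⁻¹, -b, by rw [inv_pow, hζ, inv_one], fun i => ?_⟩
      rw [e]
      apply EXM_zpow_apply
      intro i
      have h6 : μ (C ζ⁻¹ * X i) = X i := by
        rw [map_mul, EXM_C, hμ, ← mul_assoc, ← C_mul, inv_mul_cancel₀ hζ0, C_1, one_mul]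
      calc μ⁻¹ (X i) = μ⁻¹ (μ (C ζ⁻¹ * X i)) := by rw [h6]
        _ = (μ⁻¹ * μ) (C ζ⁻¹ * X i) := rfl
        _ = C ζ⁻¹ * X i := by rw [inv_mul_cancel]; rfl
  · rintro ⟨ζ, b, hζ, h⟩
    obtain ⟨μ, hμ, rfl⟩ := hsplit φ ζ b h
    unfold EX
    refine Subgroup.mul_mem _ (Subgroup.zpow_mem _ (Subgroup.subset_closure ?_) b)
      (Subgroup.subset_closure ?_)
    · exact Or.inl rfl
    · exact Or.inr ⟨ζ, hζ, hμ⟩

end Pool.Agent.Work.MP_b2cdcf_full
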