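import Pool.Agent.Work.MP_b2cdcf_full.IntB
import Pool.Agent.Work.MP_b2cdcf_wpd.Final

/-!
# MP_b2cdcf_al, S02759: block GEOX (the data of the group)
-/

set_option autoImplicit false

open MvPolynomial

noncomputable section

namespace Pool.Agent.Work.MP_b2cdcf_full

open Pool.Agent.Work.MP_b2cdcf_wpd

theorem GEOX_ext {k : Type} [Field k] {n : ℕ} {φ ψ : AutP k n}
    (h : ∀ i, φ (X i) = ψ (X i)) : φ = ψ := by
  have h1 : (φ : MvPolynomial (Fin n) k →ₐ[k] MvPolynomial (Fin n) k) =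
      (ψ : MvPolynomial (Fin n) k →ₐ[k] MvPolynomial (Fin n) k) := by
    apply algHom_ext
    intro i
    exact h i
  apply AlgEquiv.ext
  intro p
  exact DFunLike.congr_fun h1 p

theorem GEOX_C {k : Type} [Field k] {n : ℕ} (φ : AutP k n) (z : k) : φ (C z) = C z := φ.commutes z

/-- the homothety in an element of the stabiliser -/
theorem GEOX_split {k : Type} [Field k] {n : ℕ} {F e : AutP k n} {ζ : k} {b : ℤ}
    (h : ∀ i, e (X i) = C ζ * (F ^ b) (X i)) :
    ∃ μ : AutP k n, e = F ^ b * μ ∧ ∀ i, μ (X i) = C ζ * X i := by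
  refine ⟨F ^ (-b) * e, by group, fun i => ?_⟩
  rw [aut_mul_apply, h i, map_mul, GEOX_C]
  have h1 : (F ^ (-b)) ((F ^ b) (X i)) = (F ^ (-b) * F ^ b) (X i) := rfl
  rw [h1, ← zpow_add, neg_add_cancel, zpow_zero, AlgEquiv.one_apply]

theorem GEOX_roots {k : Type} [Field k] (m : ℕ) (hm : 1 ≤ m) : {ζ : k | ζ ^ m = 1}.Finite := by
  classical
  refine Set.Finite.subset (Finset.finite_toSet (Polynomial.nthRoots m (1 : k)).toFinset) ?_
  intro ζ hζ
  rw [Finset.mem_coe, Multiset.mem_toFinset, Polynomial.mem_nthRoots (by omega)]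
  exact hζ

/-- GEOX. -/
theorem p_GEOX (hCTXX : Stmt_CTXX) (hGL : Stmt_GL) (hEXM : Stmt_EXM) (hBTX : Stmt_BTX)
    (hGR : Stmt_GR) : Stmt_GEOX := by
  intro k _ n _ hn a h1 h2 hp
  have ctx := hCTXX k n hn a h1 h2 hp
  obtain ⟨bt, hbt, hshift, hμ⟩ := hBTX k n hn a h1 h2 hp
  obtain ⟨hE1, hE2⟩ := hEXM k n hn a h1 h2 hp
  obtain ⟨hr1, hr2⟩ := hGR k n hn a h1 h2 hp
  have hh1 := hp.h1pos
  have hh2 := hp.h2pos
  have hgl := fun y => hGL k n hn a h1 h2 hp y (bt y) (hbt y)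
  have hζ0 : ∀ ζ : k, ζ ^ (h1 + h2 - 1) = 1 → ζ ≠ 0 := by
    intro ζ hζ h0
    rw [h0, zero_pow (by omega)] at hζ
    exact zero_ne_one hζ
  have hact : ∀ (e : AutP k n) (ζ : k) (b : ℤ), ζ ^ (h1 + h2 - 1) = 1 →
      (∀ i, e (X i) = C ζ * ((FX k n hn a h1 h2) ^ b) (X i)) →
      (∀ x, bt (x * e) = bt (x * (FX k n hn a h1 h2) ^ b)) ∧ ∀ x, bt (e * x) = bt x + b := by
    intro e ζ b hζ he
    obtain ⟨μ, hμe, hμX⟩ := GEOX_split he
    have hcomm := hE2 μ ζ hζ hμX
    constructor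
    · intro x
      have h3 := (hμ μ ζ (hζ0 ζ hζ) hμX (x * (FX k n hn a h1 h2) ^ b)).1
      rw [hμe, ← mul_assoc]
      exact h3
    · intro x
      have h3 := (hμ μ ζ (hζ0 ζ hζ) hμX x).2 hcomm
      rw [hμe, mul_assoc, hshift, h3]
  refine ⟨bt, ?_⟩
  refine
    { d5 := by omega
      k1 := by omega
      M1 := fun x => one_le_mdeg x
      Mmul := fun x y => mdeg_mul_le x y
      Mpow := fun m => ctx.mdeg_zpow m
      up := ?_
      down := ?_
      mid := ?_
      lup := ?_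
      ldn := ?_
      mulr := ?_
      mull := ?_
      shift := fun x L => hshift x L
      FE := Subgroup.subset_closure (Or.inl rfl)
      Eact := ?_
      Efin := ?_
      rig1 := hr1
      rig2 := hr2
      proper := ?_ }
  · intro x m hm
    have h3 := ctx.h1.mul _ ((hbt x).2.1 m hm)
    rw [zpow_add_one, ← mul_assoc]
    exact h3
  · intro x m hm
    have h3 := ctx.h2.mul _ ((hbt x).1 m hm)
    rw [zpow_sub_one, ← mul_assoc]
    exact h3
  · intro x
    have h3 := ctx.h1.lt _ (hbt x).2.2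
    rw [zpow_add_one, ← mul_assoc]
    exact h3.le
  · intro y m s hm
    exact (hgl y).1 m s (by push_cast at hm; linarith)
  · intro y m s hm
    exact (hgl y).2.1 m s (by push_cast at hm; linarith)
  · intro x y m hx hy
    exact ((hgl y).2.2 x m).1 ((hbt x).2.1 m hx) (by push_cast at hy; linarith)
  · intro x y m hx hy
    exact ((hgl y).2.2 x m).2 ((hbt x).1 m hx) (by push_cast at hy; linarith)
  · intro e he
    obtain ⟨ζ, b, hζ, hX⟩ := (hE1 e).1 he
    exact ⟨b, hact e ζ b hζ hX⟩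
  · -- finiteness
    have hkey : ∀ e : AutP k n, e ∈ EX (FX k n hn a h1 h2) (h1 + h2) →
        (∀ x, bt (e * x) = bt x) → ∃ ζ : k, ζ ^ (h1 + h2 - 1) = 1 ∧ ∀ i, e (X i) = C ζ * X i := by
      intro e he hb
      obtain ⟨ζ, b, hζ, hX⟩ := (hE1 e).1 he
      have h3 := (hact e ζ b hζ hX).2 1
      rw [hb 1] at h3
      have hb0 : b = 0 := by linarith
      refine ⟨ζ, hζ, fun i => ?_⟩
      rw [hX i, hb0, zpow_zero, AlgEquiv.one_apply]
    have hco : ∀ (e : AutP k n) (ζ : k), (∀ i, e (X i) = C ζ * X i) →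
        coeff (Finsupp.single (0 : Fin n) 1) (e (X 0)) = ζ := by
      intro e ζ h
      rw [h 0, coeff_C_mul, coeff_X, if_pos rfl, mul_one]
    apply Set.Finite.of_finite_image
      (f := fun e : AutP k n => coeff (Finsupp.single (0 : Fin n) 1) (e (X 0)))
    · apply (GEOX_roots (k := k) (h1 + h2 - 1) (by omega)).subset
      rintro _ ⟨e, ⟨he, hb⟩, rfl⟩
      obtain ⟨ζ, hζ, hX⟩ := hkey e he hb
      show coeff (Finsupp.single (0 : Fin n) 1) (e (X 0)) ^ (h1 + h2 - 1) = 1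
      rw [hco e ζ hX, hζ]
    · rintro e ⟨he, hb⟩ e' ⟨he', hb'⟩ heq
      obtain ⟨ζ, hζ, hX⟩ := hkey e he hb
      obtain ⟨ζ', hζ', hX'⟩ := hkey e' he' hb'
      have h3 : coeff (Finsupp.single (0 : Fin n) 1) (e (X 0)) =
        coeff (Finsupp.single (0 : Fin n) 1) (e' (X 0)) := heq
      rw [hco e ζ hX, hco e' ζ' hX'] at h3
      apply GEOX_ext
      intro i
      rw [hX i, hX' i, h3]
  · -- an element outside of the stabiliser
    refine ⟨rev k n, fun he => ?_⟩
    obtain ⟨ζ, b, hζ, hX⟩ := (hE1 _).1 he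
    have hm1 : mdeg (rev k n) = 1 := by
      apply le_antisymm
      · apply mdeg_le
        intro i
        unfold dg
        rw [rev_X, totalDegree_X]
      · exact one_le_mdeg _
    have h3 := mdeg_homothety _ _ ζ (hζ0 ζ hζ) hX
    rw [hm1, ctx.mdeg_zpow] at h3
    have hb0 : b = 0 := by
      by_contra hb
      have h4 : b.natAbs ≠ 0 := by omega
      have h5 : 1 < (h1 + h2) ^ b.natAbs := Nat.one_lt_pow h4 (by omega)
      omega
    have h4 := hX 0
    rw [rev_X, hb0, zpow_zero, AlgEquiv.one_apply, sub_zero] at h4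
    have h5 := congrArg (coeff (Finsupp.single (1 : Fin n) 1)) h4
    have h6 : Finsupp.single (0 : Fin n) 1 ≠ Finsupp.single (1 : Fin n) 1 := by
      intro h6
      have h7 := Finsupp.single_left_injective (one_ne_zero (α := ℕ)) h6
      exact fin01 hn h7
    rw [coeff_C_mul, coeff_X, coeff_X, if_pos rfl, if_neg h6, mul_zero] at h5
    exact one_ne_zero h5

end Pool.Agent.Work.MP_b2cdcf_full
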