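import Pool.Agent.Work.MP_b2cdcf_full.IntB

set_option autoImplicit false

open MvPolynomial

noncomputable section

namespace Pool.Agent.Work.MP_b2cdcf_full

open Pool.Agent.Work.MP_b2cdcf_wpd

theorem GL_aux {k : Type} [Field k] {n : ℕ} [NeZero n] (hM : Stmt_MULX) (c : ℕ) (F x y : AutP k n)
    (q : Fin n) (hn : 2 ≤ n) (hc : 100 * (n - 1) ≤ c) (m : ℤ)
    (hd : Dom c q (x⁻¹ * F ^ m)) (h : ∀ j, NE q ((F ^ (-m)) (y (X j)))) :
    mdeg (x⁻¹ * F ^ m) * mdeg (F ^ (-m) * y) ≤ 2 * mdeg (x⁻¹ * y) := by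
  obtain ⟨j, hj⟩ := exists_dg (F ^ (-m) * y)
  have h1 := hM k n c (x⁻¹ * F ^ m) q hn hc hd _ (h j)
  have h2 : (x⁻¹ * F ^ m) ((F ^ (-m)) (y (X j))) = (x⁻¹ * y) (X j) := by
    rw [← aut_mul_apply, ← aut_mul_apply]
    have : x⁻¹ * F ^ m * F ^ (-m) * y = x⁻¹ * y := by group
    rw [this]
  rw [h2] at h1
  rw [hj, mul_comm]
  exact h1.trans (Nat.mul_le_mul_left _ (dg_le (x⁻¹ * y) j))

theorem p_GL (hS : Stmt_SEQ) (hM : Stmt_MULX) (hL : Stmt_LRX) : Stmt_GL := by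
  intro k _ n _ hn a h1 h2 hP y b hb
  have hp1 := hP.l1
  have hp2 := hP.l2
  have hc : 100 * (n - 1) ≤ h1 + h2 - n + 1 := by
    have : n ≤ n ^ 2 := Nat.le_self_pow (by norm_num) n
    omega
  refine ⟨?_, ?_, ?_⟩
  · intro m s hm
    obtain ⟨j, hj⟩ := exists_dg ((FX k n hn a h1 h2) ^ (-m) * y)
    have h3 := (hL k n hn a h1 h2 hP y b hb j m).1 hm
    have h4 := (hS k n hn a h1 h2 hP (y (X j)) (one_le_dg y j)).2.1 m h3 s
    rw [hj]
    exact h4.trans (Nat.mul_le_mul_left _ (dg_le ((FX k n hn a h1 h2) ^ (-(m - s)) * y) j))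
  · intro m s hm
    obtain ⟨j, hj⟩ := exists_dg ((FX k n hn a h1 h2) ^ (-m) * y)
    have h3 := (hL k n hn a h1 h2 hP y b hb j m).2 hm
    have h4 := (hS k n hn a h1 h2 hP (y (X j)) (one_le_dg y j)).2.2 m h3 s
    rw [hj]
    exact h4.trans (Nat.mul_le_mul_left _ (dg_le ((FX k n hn a h1 h2) ^ (-(m + s)) * y) j))
  · intro x m
    refine ⟨fun hd hm => ?_, fun hd hm => ?_⟩
    · exact GL_aux hM _ _ x y 1 (by omega) hc m hd
        fun j => (hL k n hn a h1 h2 hP y b hb j m).1 hm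
    · exact GL_aux hM _ _ x y 0 (by omega) hc m hd
        fun j => (hL k n hn a h1 h2 hP y b hb j m).2 hm

end Pool.Agent.Work.MP_b2cdcf_full
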