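import Pool.Agent.Work.MP_b2cdcf_full.IntB

/-! # Block GR (helper6): rigidity of the axis -/

set_option autoImplicit false

open MvPolynomial

noncomputable section

namespace Pool.Agent.Work.MP_b2cdcf_full

open Pool.Agent.Work.MP_b2cdcf_wpd

theorem GR_grp {G : Type*} [Group G] (r F F' φ : G) (hr : r * r = 1) (hF : r * F⁻¹ * r = F')
    (m : ℕ) : F ^ m * (φ * r) * (F' ^ m)⁻¹ = F ^ m * φ * F ^ m * r ∧
      F' ^ m * (φ * r)⁻¹ * (F ^ m)⁻¹ = r * (F ^ m * φ * F ^ m)⁻¹ ∧ (φ * r)⁻¹ = r * φ⁻¹ := by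
  have h1 : r⁻¹ = r := inv_eq_of_mul_eq_one_left hr
  have h2 : F' ^ m = r * (F ^ m)⁻¹ * r := by
    have h3 : F' = r * F⁻¹ * r⁻¹ := by rw [h1]; exact hF.symm
    rw [h3, conj_pow, inv_pow, h1]
  refine ⟨?_, ?_, ?_⟩
  · rw [h2]
    simp only [mul_inv_rev, inv_inv, h1]
    calc F ^ m * (φ * r) * (r * (F ^ m * r)) = F ^ m * φ * (r * r) * F ^ m * r := by group
      _ = F ^ m * φ * F ^ m * r := by rw [hr, mul_one]
  · rw [h2]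
    simp only [mul_inv_rev, h1]
    calc r * (F ^ m)⁻¹ * r * (r * φ⁻¹) * (F ^ m)⁻¹ =
        r * (F ^ m)⁻¹ * (r * r) * φ⁻¹ * (F ^ m)⁻¹ := by group
      _ = r * ((F ^ m)⁻¹ * (φ⁻¹ * (F ^ m)⁻¹)) := by rw [hr]; group
  · rw [mul_inv_rev, h1]

theorem p_GR (h1 : Stmt_REV) (h2 : Stmt_RIGP) (h3 : Stmt_EXM) : Stmt_GR := by
  intro k _ n _ hn a e1 e2 hP
  constructor
  · intro B
    obtain ⟨M0, hM⟩ := h2 k n hn a a e1 e2 e1 e2 hP hP rfl B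
    refine ⟨M0, fun m hm φ q1 q2 q3 q4 => ?_⟩
    obtain ⟨-, ζ, b, hζ, hφ⟩ := hM m hm φ q1 q2 q3 q4
    rw [(h3 k n hn a e1 e2 hP).1]
    refine ⟨ζ, b, ?_, hφ⟩
    exact mul_left_cancel₀ hP.a0 (hζ.trans (mul_one a).symm)
  · intro B
    obtain ⟨M0, hM⟩ := h2 k n hn a (-a) e1 e2 e2 e1 hP hP.symm (add_comm _ _) B
    refine ⟨M0, fun m hm φ q1 q2 q3 q4 => ?_⟩
    obtain ⟨r1, r2, r3, -⟩ := h1 k n hn a e1 e2
    obtain ⟨g1, g2, g3⟩ := GR_grp (rev k n) (FX k n hn a e1 e2) (FX k n hn (-a) e2 e1) φ r1 r2 m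
    obtain ⟨g, -⟩ := hM m hm (φ * rev k n) (by rw [(r3 _).1]; exact q1)
      (by rw [g3, (r3 _).2]; exact q2) (by rw [g1, (r3 _).1]; exact q3)
      (by rw [g2, (r3 _).2]; exact q4)
    have := hP.hh
    omega

end Pool.Agent.Work.MP_b2cdcf_full
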