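import Pool.Agent.Work.MP_b2cdcf_full.IntB

/-!
# Block HALFX (helper59): the degrees of the components of `φ * G` for the shift with a mixed term
-/

set_option autoImplicit false

open MvPolynomial

noncomputable section

namespace Pool.Agent.Work.MP_b2cdcf_full

open Pool.Agent.Work.MP_b2cdcf_wpd

theorem HALFX_pow {k : Type} [Field k] {n : ℕ} {f : MvPolynomial (Fin n) k} (hf : f ≠ 0) (m : ℕ) :
    (f ^ m).totalDegree = m * f.totalDegree := by
  induction m with
  | zero => simp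
  | succ m ih =>
    rw [pow_succ, totalDegree_mul_of_isDomain (pow_ne_zero _ hf) hf, ih]
    ring

theorem HALFX_pp {k : Type} [Field k] {n : ℕ} (a : k) (h1 h2 : ℕ) (r u v : Fin n) (φ : AutP k n) :
    φ (PP k n a h1 h2 r u v) = C a * (∑ j ∈ Finset.univ.erase r, φ (X j) ^ (h1 + h2) +
      φ (X u) ^ h1 * φ (X v) ^ h2) := by
  have hC : φ (C a) = C a := φ.commutes a
  rw [PP, map_mul, map_add, map_mul, map_sum, map_pow, map_pow, hC]
  simp only [map_pow]

theorem HALFX_deg_C {k : Type} [Field k] {n : ℕ} {a : k} (ha : a ≠ 0) (f : MvPolynomial (Fin n) k) :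
    (C a * f).totalDegree = f.totalDegree := by
  by_cases hf : f = 0
  · rw [hf, mul_zero]
  · rw [totalDegree_mul_of_isDomain (by rw [Ne, C_eq_zero]; exact ha) hf, totalDegree_C, zero_add]

/-- the degree of the image of `PP` if `q` dominates strictly -/
theorem HALFX_dom {k : Type} [Field k] {n : ℕ} {a : k} {h1 h2 : ℕ} (hP : Par k n a h1 h2)
    (φ : AutP k n) (p q u v : Fin n) (hpq : p ≠ q) (huv : u ≠ v)
    (hlt : ∀ i, i ≠ q → dg φ i < dg φ q) :
    (φ (PP k n a h1 h2 p u v)).totalDegree = (h1 + h2) * dg φ q := by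
  have hpos := one_le_dg φ q
  have hp1 := hP.h1pos
  have hp2 := hP.h2pos
  rw [HALFX_pp, HALFX_deg_C hP.a0,
    ← Finset.add_sum_erase (Finset.univ.erase p) (fun j => φ (X j) ^ (h1 + h2))
      (Finset.mem_erase.2 ⟨hpq.symm, Finset.mem_univ q⟩)]
  have hA : (φ (X q) ^ (h1 + h2)).totalDegree = (h1 + h2) * dg φ q := by
    have hne : φ (X q) ≠ 0 := by
      intro h
      unfold dg at hpos
      rw [h, totalDegree_zero] at hpos
      omega
    rw [HALFX_pow hne]
    rfl
  have hB : (∑ x ∈ (Finset.univ.erase p).erase q, φ (X x) ^ (h1 + h2)).totalDegree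
      ≤ (h1 + h2) * (dg φ q - 1) := by
    refine (totalDegree_finsetSum _ _).trans (Finset.sup_le fun j hj => ?_)
    refine (totalDegree_pow _ _).trans ?_
    refine Nat.mul_le_mul_left _ ?_
    have := hlt j (Finset.mem_erase.1 hj).1
    unfold dg at this ⊢
    omega
  have hB' : (∑ x ∈ (Finset.univ.erase p).erase q, φ (X x) ^ (h1 + h2)).totalDegree
      < (h1 + h2) * dg φ q :=
    lt_of_le_of_lt hB (Nat.mul_lt_mul_of_pos_left (by omega) (by omega))
  have hle : ∀ i, dg φ i ≤ dg φ q := by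
    intro i
    by_cases h : i = q
    · rw [h]
    · exact (hlt i h).le
  have hM : (φ (X u) ^ h1 * φ (X v) ^ h2).totalDegree < (h1 + h2) * dg φ q := by
    have h3 : (φ (X u) ^ h1 * φ (X v) ^ h2).totalDegree ≤ h1 * dg φ u + h2 * dg φ v :=
      (totalDegree_mul _ _).trans (Nat.add_le_add (totalDegree_pow _ _) (totalDegree_pow _ _))
    refine lt_of_le_of_lt h3 ?_
    rw [add_mul]
    by_cases hu : u = q
    · have hv : v ≠ q := fun h => huv (hu.trans h.symm)
      exact Nat.add_lt_add_of_le_of_lt (Nat.mul_le_mul_left _ (hle u))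
        (Nat.mul_lt_mul_of_pos_left (hlt v hv) (by omega))
    · exact Nat.add_lt_add_of_lt_of_le (Nat.mul_lt_mul_of_pos_left (hlt u hu) (by omega))
        (Nat.mul_le_mul_left _ (hle v))
  rw [add_assoc]
  have hS : (∑ x ∈ (Finset.univ.erase p).erase q, φ (X x) ^ (h1 + h2) +
      φ (X u) ^ h1 * φ (X v) ^ h2).totalDegree < (φ (X q) ^ (h1 + h2)).totalDegree := by
    rw [hA]
    exact lt_of_le_of_lt (totalDegree_add _ _) (max_lt hB' hM)
  rw [totalDegree_add_eq_left_of_totalDegree_lt hS, hA]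

theorem p_HALFX (hJ : Stmt_JACP) : Stmt_HALFX := by
  intro k _ n a h1 h2 hP G p q u v σ hpq hup hvp huv hGq hGi hσ
  have hn := hP.n3
  have : NeZero n := ⟨by omega⟩
  have hp1 := hP.h1pos
  have hp2 := hP.h2pos
  have hl1 := hP.l1
  obtain ⟨d, hd⟩ : ∃ d, d = h1 + h2 := ⟨_, rfl⟩
  have hd2 : 2 * n ≤ d := by nlinarith
  have hi : ∀ i, i ≠ q → ∃ i', i' ≠ p ∧ ∀ φ : AutP k n, (φ * G) (X i) = φ (X i') := by
    intro i hi
    refine ⟨σ i, ?_, fun φ => ?_⟩
    · intro h
      exact hi (σ.injective (h.trans hσ.symm))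
    · rw [aut_mul_apply, hGi i hi]
  have hq : ∀ φ : AutP k n, (φ * G) (X q) = φ (X p) + φ (PP k n a h1 h2 p u v) := by
    intro φ
    rw [aut_mul_apply, hGq, map_add]
  -- the largest degree away from p
  have hmax : ∀ φ : AutP k n, ∃ i0, i0 ≠ p ∧ ∀ i, i ≠ p → dg φ i ≤ dg φ i0 := by
    intro φ
    obtain ⟨i0, hi0, h⟩ := Finset.exists_max_image (Finset.univ.erase p) (fun i => dg φ i)
      ⟨q, Finset.mem_erase.2 ⟨hpq.symm, Finset.mem_univ _⟩⟩
    exact ⟨i0, (Finset.mem_erase.1 hi0).1, fun i hi =>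
      h i (Finset.mem_erase.2 ⟨hi, Finset.mem_univ _⟩)⟩
  have hjac : ∀ (φ : AutP k n) (i0 : Fin n), i0 ≠ p → (∀ i, i ≠ p → dg φ i ≤ dg φ i0) →
      (d - n + 1) * dg φ i0 + (n - 1) ≤ (φ (PP k n a h1 h2 p u v)).totalDegree := by
    intro φ i0 hi0 h
    rw [hd]
    exact hJ k n a h1 h2 hP φ p u v (dg φ i0) hup hvp huv ⟨i0, hi0, rfl⟩ h
  -- not dominated by p
  have hnd : ∀ (φ : AutP k n), ¬ Dom (d - n + 1) p φ → ∃ i0, i0 ≠ p ∧
      (∀ i, i ≠ p → dg φ i ≤ dg φ i0) ∧ dg φ p < (d - n + 1) * dg φ i0 ∧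
      (d - n + 1) * dg φ i0 + (n - 1) ≤ dg (φ * G) q := by
    intro φ hφ
    obtain ⟨i0, hi0, hm⟩ := hmax φ
    have h3 := hjac φ i0 hi0 hm
    have h4 : dg φ p < (d - n + 1) * dg φ i0 := by
      unfold Dom at hφ
      push Not at hφ
      obtain ⟨i, hip, hlt⟩ := hφ
      exact lt_of_lt_of_le hlt (Nat.mul_le_mul_left _ (hm i hip))
    refine ⟨i0, hi0, hm, h4, ?_⟩
    have h5 : (φ (X p)).totalDegree < (φ (PP k n a h1 h2 p u v)).totalDegree := by
      have : dg φ p < (φ (PP k n a h1 h2 p u v)).totalDegree := by omega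
      exact this
    have h6 : dg (φ * G) q = (φ (PP k n a h1 h2 p u v)).totalDegree := by
      unfold dg
      rw [hq φ]
      exact totalDegree_add_eq_right_of_totalDegree_lt h5
    rw [h6]
    exact h3
  -- dominated by q
  have hdq : ∀ (φ : AutP k n), Dom (d - n + 1) q φ → dg (φ * G) q = d * dg φ q := by
    intro φ hφ
    have hc2 : 2 ≤ d - n + 1 := by omega
    have hpos := one_le_dg φ q
    have h3 := HALFX_dom hP φ p q u v hpq huv (fun i hi => hφ.lt hc2 hi)
    have h4 : (φ (X p)).totalDegree < (φ (PP k n a h1 h2 p u v)).totalDegree := by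
      rw [h3]
      have h4 := hφ.lt hc2 hpq
      have h5 : dg φ q ≤ (h1 + h2) * dg φ q := Nat.le_mul_of_pos_left _ (by omega)
      have : dg φ p < (h1 + h2) * dg φ q := lt_of_lt_of_le h4 h5
      exact this
    unfold dg
    rw [hq φ, totalDegree_add_eq_right_of_totalDegree_lt h4, h3, hd]
    rfl
  have hstep : ∀ φ : AutP k n, Dom (d - n + 1) q φ → Dom (d - n + 1) q (φ * G) := by
    intro φ hφ i hiq
    rw [hdq φ hφ]
    obtain ⟨i', hi', he⟩ := hi i hiq
    have h3 : dg (φ * G) i = dg φ i' := by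
      unfold dg
      rw [he]
    rw [h3]
    by_cases h4 : i' = q
    · rw [h4]
      exact Nat.mul_le_mul_right _ (by omega)
    · exact (hφ i' h4).trans (Nat.le_mul_of_pos_left _ (by omega))
  rw [← hd]
  refine ⟨?_, ?_, ?_, hstep, ?_, ?_, ?_⟩
  · intro φ hφ i hiq
    obtain ⟨i0, hi0, hm, h3, h4⟩ := hnd φ hφ
    obtain ⟨i', hi', he⟩ := hi i hiq
    have h5 : dg (φ * G) i = dg φ i' := by
      unfold dg
      rw [he]
    rw [h5]
    calc (d - n + 1) * dg φ i' ≤ (d - n + 1) * dg φ i0 := Nat.mul_le_mul_left _ (hm i' hi')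
      _ ≤ _ := by omega
  · intro φ hφ i hip
    obtain ⟨i0, hi0, hm, h3, h4⟩ := hnd φ hφ
    exact (Nat.add_le_add_right (Nat.mul_le_mul_left _ (hm i hip)) _).trans h4
  · intro φ hφ
    obtain ⟨i0, hi0, hm, h3, h4⟩ := hnd φ hφ
    refine lt_of_lt_of_le ?_ (dg_le (φ * G) q)
    refine lt_of_lt_of_le ?_ h4
    have h5 : dg φ i0 ≤ (d - n + 1) * dg φ i0 := Nat.le_mul_of_pos_left _ (by omega)
    obtain ⟨i, hie⟩ := exists_dg φ
    rw [hie]
    by_cases h6 : i = p
    · rw [h6]
      omega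
    · have := hm i h6
      omega
  · intro φ hφ
    rw [(hstep φ hφ).mdeg_eq (by omega), hdq φ hφ, hφ.mdeg_eq (by omega)]
  · -- dg G q = d
    have h3 : ∀ i, dg (1 : AutP k n) i = 1 := by
      intro i
      unfold dg
      rw [AlgEquiv.one_apply, totalDegree_X]
    have h4 := hjac 1 q hpq.symm (fun i _ => by rw [h3, h3])
    rw [h3] at h4
    have h5 : ((1 : AutP k n) (PP k n a h1 h2 p u v)).totalDegree ≤ d := by
      rw [HALFX_pp, HALFX_deg_C hP.a0, hd]
      refine (totalDegree_add _ _).trans (max_le ?_ ?_)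
      · refine (totalDegree_finsetSum _ _).trans (Finset.sup_le fun j hj => ?_)
        refine (totalDegree_pow _ _).trans ?_
        rw [AlgEquiv.one_apply, totalDegree_X, mul_one]
      · refine (totalDegree_mul _ _).trans (Nat.add_le_add ?_ ?_)
        · refine (totalDegree_pow _ _).trans ?_
          rw [AlgEquiv.one_apply, totalDegree_X, mul_one]
        · refine (totalDegree_pow _ _).trans ?_
          rw [AlgEquiv.one_apply, totalDegree_X, mul_one]
    have he := hq 1
    have h6 : ((1 : AutP k n) (X p)).totalDegree <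
        ((1 : AutP k n) (PP k n a h1 h2 p u v)).totalDegree := by
      rw [AlgEquiv.one_apply, totalDegree_X]
      omega
    have h7 : dg G q = ((1 : AutP k n) (PP k n a h1 h2 p u v)).totalDegree := by
      unfold dg
      rw [one_mul] at he
      rw [he]
      exact totalDegree_add_eq_right_of_totalDegree_lt h6
    rw [h7]
    omega
  · intro i hiq
    obtain ⟨i', hi', he⟩ := hi i hiq
    have h3 := he 1
    rw [one_mul] at h3
    unfold dg
    rw [h3, AlgEquiv.one_apply, totalDegree_X]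

end Pool.Agent.Work.MP_b2cdcf_full
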