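import Pool.Agent.Work.MP_b2cdcf_full.IntC

set_option autoImplicit false

open MvPolynomial

noncomputable section

namespace Pool.Agent.Work.MP_b2cdcf_full

open Pool.Agent.Work.MP_b2cdcf_wpd

theorem p_IZ (h1 : Stmt_IZ0) (h2 : Stmt_IZP) : Stmt_IZ := by
  intro k _ n φ q hq V hV
  obtain ⟨p, hp⟩ := CharP.exists k
  rcases CharP.char_is_prime_or_zero k p with hpp | hp0
  · have : Fact p.Prime := ⟨hpp⟩
    exact h2 k p n φ q hq V hV
  · subst hp0
    have : CharZero k := CharP.charP_to_charZero k
    exact h1 k n φ q hq _ V hV (by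
      have := degreeOf_le_totalDegree V q
      omega)

end Pool.Agent.Work.MP_b2cdcf_full
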