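import Pool.Agent.Work.MP_b2cdcf_full.IntC

/-! # MP_b2cdcf_al, S02759: block IZ0 (Izumi type inequality in characteristic zero) -/

set_option autoImplicit false

open MvPolynomial

noncomputable section

namespace Pool.Agent.Work.MP_b2cdcf_full

open Pool.Agent.Work.MP_b2cdcf_wpd

variable {k : Type} [Field k] {n : ℕ}

/-- there is a monomial in which the exponent of `X q` is the degree in `X q` -/
theorem IZ0_exists (q : Fin n) (V : MvPolynomial (Fin n) k) (hV : V ≠ 0) :
    ∃ s ∈ V.support, s q = degreeOf q V := by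
  have h1 : V.support.Nonempty := support_nonempty.2 hV
  obtain ⟨s, hs, h⟩ := Finset.exists_mem_eq_sup V.support h1 (fun s => s q)
  exact ⟨s, hs, by rw [degreeOf_eq_sup]; exact h.symm⟩

theorem IZ0_le_degreeOf (q : Fin n) (V : MvPolynomial (Fin n) k) (s : Fin n →₀ ℕ)
    (hs : coeff s V ≠ 0) : s q ≤ degreeOf q V := by
  rw [degreeOf_eq_sup]
  exact Finset.le_sup (f := fun m : Fin n →₀ ℕ => m q) (mem_support_iff.2 hs)

theorem IZ0_sum (s : Fin n →₀ ℕ) : (s.sum fun _ e => e) = ∑ i, s i :=
  Finsupp.sum_fintype _ _ fun _ => rfl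

/-- the coefficients of `X j * ∂_j V` -/
theorem IZ0_coeff (j : Fin n) (V : MvPolynomial (Fin n) k) (u : Fin n →₀ ℕ) :
    coeff u (X j * pderiv j V) = (u j : k) * coeff u V := by
  rw [coeff_X_mul']
  split_ifs with h
  · have h0 : u j ≠ 0 := Finsupp.mem_support_iff.1 h
    have h1 : Finsupp.single j 1 ≤ u := by
      rw [Finsupp.single_le_iff]
      omega
    rw [coeff_pderiv, tsub_add_cancel_of_le h1, mul_comm]
    congr 1
    rw [Finsupp.tsub_apply, Finsupp.single_eq_same]
    have h2 : u j - 1 + 1 = u j := by omega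
    rw [← h2]
    push_cast
    simp
  · have h0 : u j = 0 := by
      by_contra h0
      exact h (Finsupp.mem_support_iff.2 h0)
    rw [h0, Nat.cast_zero, zero_mul]

/-- the coefficients of the Euler combination -/
theorem IZ0_euler (a : ℕ) (V : MvPolynomial (Fin n) k) (u : Fin n →₀ ℕ) :
    coeff u (C (a : k) * V - ∑ j, X j * pderiv j V) =
      ((a : k) - ((∑ j, u j : ℕ) : k)) * coeff u V := by
  rw [coeff_sub, coeff_C_mul, coeff_sum, sub_mul, Nat.cast_sum, Finset.sum_mul]
  congr 1
  exact Finset.sum_congr rfl fun j _ => IZ0_coeff j V u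

/-- the step -/
theorem IZ0_step [CharZero k] (hCRA : Stmt_CRA) (φ : AutP k n) (q : Fin n) (e : ℕ)
    (V : MvPolynomial (Fin n) k) (hV : V ≠ 0) (hd : V.totalDegree = degreeOf q V + e + 1) :
    ∃ V' : MvPolynomial (Fin n) k, V' ≠ 0 ∧ degreeOf q V ≤ degreeOf q V' ∧
      V'.totalDegree ≤ degreeOf q V + e ∧
      (φ V').totalDegree ≤ (φ V).totalDegree + ∑ i, dg φ i := by
  by_cases hB : ∃ s ∈ V.support, s q = degreeOf q V ∧ ∃ j, j ≠ q ∧ s j ≠ 0
  · obtain ⟨s, hs, hsq, j, hj, hsj⟩ := hB
    have h1 : Finsupp.single j 1 ≤ s := by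
      rw [Finsupp.single_le_iff]
      omega
    have h2 : coeff (s - Finsupp.single j 1) (pderiv j V) ≠ 0 := by
      rw [coeff_pderiv, tsub_add_cancel_of_le h1]
      exact mul_ne_zero (mem_support_iff.1 hs) (Nat.cast_add_one_ne_zero _)
    refine ⟨pderiv j V, ?_, ?_, ?_, ?_⟩
    · intro h
      rw [h, coeff_zero] at h2
      exact h2 rfl
    · have h3 := IZ0_le_degreeOf q _ _ h2
      rw [Finsupp.tsub_apply, Finsupp.single_eq_of_ne (Ne.symm hj), hsq] at h3
      omega
    · have h3 := JAC_pderiv j V
      omega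
    · have h3 := hCRA k n φ V j
      have h4 : ∑ r ∈ Finset.univ.erase j, dg φ r ≤ ∑ i, dg φ i :=
        Finset.sum_le_sum_of_subset (Finset.erase_subset _ _)
      omega
  · obtain ⟨s, hs, hsq⟩ := IZ0_exists q V hV
    have h1 : ∑ j, s j = degreeOf q V := by
      rw [← Finset.add_sum_erase _ _ (Finset.mem_univ q), hsq]
      have h2 : ∑ i ∈ Finset.univ.erase q, s i = 0 := by
        apply Finset.sum_eq_zero
        intro i hi
        by_contra h
        exact hB ⟨s, hs, hsq, i, Finset.ne_of_mem_erase hi, h⟩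
      omega
    refine ⟨C (V.totalDegree : k) * V - ∑ j, X j * pderiv j V, ?_, ?_, ?_, ?_⟩
    · intro h
      have h2 := IZ0_euler V.totalDegree V s
      rw [h, coeff_zero, h1, hd] at h2
      rcases mul_eq_zero.1 h2.symm with h3 | h3
      · rw [sub_eq_zero] at h3
        have h4 := Nat.cast_injective (R := k) h3
        omega
      · exact mem_support_iff.1 hs h3
    · have h2 : coeff s (C (V.totalDegree : k) * V - ∑ j, X j * pderiv j V) ≠ 0 := by
        rw [IZ0_euler, h1, hd]
        refine mul_ne_zero ?_ (mem_support_iff.1 hs)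
        rw [sub_ne_zero]
        intro h3
        have h4 := Nat.cast_injective (R := k) h3
        omega
      have h3 := IZ0_le_degreeOf q _ _ h2
      omega
    · apply Finset.sup_le
      intro u hu
      rw [mem_support_iff, IZ0_euler] at hu
      have h2 : coeff u V ≠ 0 := right_ne_zero_of_mul hu
      have h3 := le_totalDegree (mem_support_iff.2 h2)
      rw [IZ0_sum] at h3 ⊢
      have h4 : ∑ j, u j ≠ V.totalDegree := by
        intro h4
        rw [h4, sub_self, zero_mul] at hu
        exact hu rfl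
      omega
    · rw [map_sub, map_mul, map_sum]
      refine (totalDegree_sub _ _).trans (max_le ?_ ?_)
      · refine (totalDegree_mul _ _).trans ?_
        have h2 : φ (C (V.totalDegree : k)) = C (V.totalDegree : k) := φ.commutes _
        rw [h2, totalDegree_C]
        omega
      · refine totalDegree_finsetSum_le fun j _ => ?_
        rw [map_mul]
        refine (totalDegree_mul _ _).trans ?_
        have h3 := hCRA k n φ V j
        have h4 : dg φ j + ∑ r ∈ Finset.univ.erase j, dg φ r = ∑ i, dg φ i :=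
          Finset.add_sum_erase _ _ (Finset.mem_univ j)
        have h5 : (φ (X j)).totalDegree = dg φ j := rfl
        omega

theorem p_IZ0 (hCRA : Stmt_CRA) (hIZB : Stmt_IZB) : Stmt_IZ0 := by
  intro k _ _ n φ q hq e
  induction e with
  | zero =>
    intro V hV h
    have h1 := hIZB k n φ q hq V hV (by omega)
    omega
  | succ e ih =>
    intro V hV h
    have h0 : (e + 1) * ∑ i, dg φ i = e * ∑ i, dg φ i + ∑ i, dg φ i := by ring
    by_cases h1 : V.totalDegree ≤ degreeOf q V + e
    · have h2 := ih V hV h1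
      omega
    · obtain ⟨V', hV', h2, h3, h4⟩ := IZ0_step hCRA φ q e V hV (by omega)
      have h5 := ih V' hV' (by omega)
      have h6 : degreeOf q V * dg φ q ≤ degreeOf q V' * dg φ q := Nat.mul_le_mul_right _ h2
      omega

end Pool.Agent.Work.MP_b2cdcf_full
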