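import Pool.Agent.Work.MP_b2cdcf_full.IntC

set_option autoImplicit false

open MvPolynomial

noncomputable section

namespace Pool.Agent.Work.MP_b2cdcf_full

open Pool.Agent.Work.MP_b2cdcf_wpd

/-- the arithmetic of IZP -/
theorem IZP_arith (s e D S N B : ℕ) (he : 1 ≤ e) (h1 : s * B ≤ s * D + N * S)
    (h2 : N ≤ s * e + (e - 1)) (h3 : (e - 1) * S + 1 ≤ s) : B ≤ D + e * S := by
  by_contra hcon
  push Not at hcon
  have h4 : D + e * S + 1 ≤ B := hcon
  obtain ⟨e', rfl⟩ : ∃ e', e = e' + 1 := ⟨e - 1, by omega⟩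
  rw [Nat.add_sub_cancel] at h2 h3
  have h5 : s * (D + (e' + 1) * S + 1) ≤ s * B := Nat.mul_le_mul_left _ h4
  have h6 : N * S ≤ (s * (e' + 1) + e') * S := Nat.mul_le_mul_right _ h2
  have h7 : s * (D + (e' + 1) * S + 1) = s * D + s * (e' + 1) * S + s := by ring
  have h8 : (s * (e' + 1) + e') * S = s * (e' + 1) * S + e' * S := by ring
  rw [h7] at h5
  rw [h8] at h6
  omega

theorem p_IZP (hB : Stmt_IZB) (h1 : Stmt_IZP1) : Stmt_IZP := by
  intro k _ p _ _ n φ q hq V hV
  set e := V.totalDegree - degreeOf q V with he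
  set S := ∑ i, dg φ i with hS
  rcases Nat.eq_zero_or_pos e with h0 | h0
  · rw [h0, zero_mul, add_zero]
    exact (hB k n φ q hq V hV (by omega)).ge
  · set r := e * ((e - 1) * S + 1) with hr
    have hp : 1 < p := (Fact.out : p.Prime).one_lt
    have h2 : r < p ^ r := Nat.lt_pow_self hp
    have h3 := h1 k p n r ((p ^ r - 1) / e) φ q hq V hV (by
      rw [← he]
      exact Nat.div_mul_le_self _ _)
    refine IZP_arith _ e _ S _ _ h0 h3 ?_ ?_
    · have h4 := Nat.div_add_mod (p ^ r - 1) e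
      have h5 := Nat.mod_lt (p ^ r - 1) h0
      rw [mul_comm] at h4
      omega
    · rw [Nat.le_div_iff_mul_le h0, mul_comm]
      omega

end Pool.Agent.Work.MP_b2cdcf_full
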