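import Pool.Agent.Work.MP_b2cdcf_full.IntC

/-! # MP_b2cdcf_al, S02759: block IZP1 (Izumi type inequality in characteristic p) -/

set_option autoImplicit false

open MvPolynomial

noncomputable section

namespace Pool.Agent.Work.MP_b2cdcf_full

open Pool.Agent.Work.MP_b2cdcf_wpd

/-- the degree of the image of a monomial -/
theorem IZP1_monomial {k : Type} [Field k] {n : ℕ} (φ : AutP k n) (δ : Fin n →₀ ℕ) :
    (φ (monomial δ (1 : k))).totalDegree ≤ ∑ j, δ j * dg φ j := by
  rw [monomial_eq, map_mul, Finsupp.prod_fintype _ _ (fun i => pow_zero _), map_prod]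
  refine (totalDegree_mul _ _).trans ?_
  have h1 : φ (C (1 : k)) = C 1 := φ.commutes _
  rw [h1, totalDegree_C, zero_add]
  refine (totalDegree_finset_prod _ _).trans (Finset.sum_le_sum fun j _ => ?_)
  rw [map_pow]
  exact totalDegree_pow _ _

theorem p_IZP1 (hTLIN : Stmt_TLIN) (hTCOM : Stmt_TCOM) (hTMON : Stmt_TMON) : Stmt_IZP1 := by
  intro k _ p _ _ n r s φ q hq V hV hs
  have : NeZero n := ⟨by rintro rfl; exact q.elim0⟩
  have hN : 0 < p ^ r := pow_pos (Fact.out : p.Prime).pos r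
  have hW : V ^ s ≠ 0 := pow_ne_zero _ hV
  obtain ⟨γ, hγ, hγq⟩ : ∃ γ ∈ (V ^ s).support, γ q = degreeOf q (V ^ s) := by
    have h1 : (V ^ s).support.Nonempty := support_nonempty.2 hW
    obtain ⟨t, ht, h⟩ := Finset.exists_mem_eq_sup _ h1 (fun t => t q)
    exact ⟨t, ht, by rw [degreeOf_eq_sup]; exact h.symm⟩
  have hdeg : degreeOf q (V ^ s) = s * degreeOf q V := degreeOf_pow_eq _ _ _ hV
  have hba : degreeOf q V ≤ V.totalDegree := degreeOf_le_totalDegree _ _
  have hWd : (V ^ s).totalDegree = s * V.totalDegree := MULT_pow V hV s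
  have h0 : (V ^ s).totalDegree ≤ γ q + (p ^ r - 1) := by
    rw [hWd, hγq, hdeg]
    have h1 : s * V.totalDegree = s * degreeOf q V + s * (V.totalDegree - degreeOf q V) := by
      rw [← Nat.mul_add]
      congr 1
      omega
    omega
  obtain ⟨δ, B, hδ, hB, hT, hTc⟩ :=
    hTMON k n (p ^ r) hN (V ^ s) q γ (mem_support_iff.1 hγ) h0
  have h1 : (φ (TT k n (p ^ r) (V ^ s * monomial δ 1))).totalDegree = B * dg φ q := by
    have h2 := p_MULT k n φ q hq (TT k n (p ^ r) (V ^ s * monomial δ 1)) (by rw [hT]; exact hTc)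
    rw [h2, hT]
  obtain ⟨c, hc, hcom⟩ := hTCOM k p n r φ
  have h2 : (φ (TT k n (p ^ r) (V ^ s * monomial δ 1))).totalDegree ≤
      (φ (V ^ s * monomial δ 1)).totalDegree := by
    rw [hcom]
    refine (totalDegree_mul _ _).trans ?_
    rw [totalDegree_C, zero_add]
    by_cases h3 : TT k n (p ^ r) (φ (V ^ s * monomial δ 1)) = 0
    · rw [h3, totalDegree_zero]
      exact Nat.zero_le _
    · have h4 := (hTLIN k n (p ^ r) hN).2.2.1 _ h3
      omega
  have h3 : (φ (V ^ s * monomial δ 1)).totalDegree ≤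
      s * (φ V).totalDegree + ∑ j, δ j * dg φ j := by
    rw [map_mul, map_pow]
    exact (totalDegree_mul _ _).trans (Nat.add_le_add (totalDegree_pow _ _) (IZP1_monomial φ δ))
  have h4 : ∑ j, δ j * dg φ j = δ q * dg φ q + ∑ j ∈ Finset.univ.erase q, δ j * dg φ j :=
    (Finset.add_sum_erase _ _ (Finset.mem_univ q)).symm
  have h5 : ∑ j ∈ Finset.univ.erase q, δ j * dg φ j ≤
      (p ^ r - 1) * ∑ j ∈ Finset.univ.erase q, dg φ j := by
    rw [Finset.mul_sum]
    exact Finset.sum_le_sum fun j _ => Nat.mul_le_mul_right _ (hδ j)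
  have h6 : (p ^ r - 1) * ∑ i, dg φ i = (p ^ r - 1) * dg φ q +
      (p ^ r - 1) * ∑ j ∈ Finset.univ.erase q, dg φ j := by
    rw [← Nat.mul_add, Finset.add_sum_erase _ _ (Finset.mem_univ q)]
  have h7 : s * (degreeOf q V * dg φ q) + δ q * dg φ q = B * dg φ q + (p ^ r - 1) * dg φ q := by
    rw [← Nat.add_mul, ← hB, hγq, hdeg]
    ring
  omega

end Pool.Agent.Work.MP_b2cdcf_full
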