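import Pool.Agent.Work.MP_b2cdcf_full.IntB
import Pool.Agent.Work.MP_b2cdcf_wpd.B_JAC

/-! # Block JACG: the Jacobian inequality for a general polynomial (helper78) -/

set_option autoImplicit false

open MvPolynomial

noncomputable section

namespace Pool.Agent.Work.MP_b2cdcf_full

open Pool.Agent.Work.MP_b2cdcf_wpd

theorem p_JACG : Stmt_JACG := by
  intro k _ n φ j Q M e hn2 hj hM1 hle hex
  obtain ⟨i₀, hi₀, hne, hdeg⟩ := hex
  -- the degree of the image is positive
  have hpos : 1 ≤ (φ Q).totalDegree := by
    by_contra h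
    have h0 : (φ Q).totalDegree = 0 := by omega
    rw [totalDegree_eq_zero_iff_eq_C] at h0
    have h1 : φ Q = φ (C (coeff 0 (φ Q))) := by
      conv_lhs => rw [h0]
      exact (φ.commutes _).symm
    have h2 := φ.injective h1
    apply hne
    rw [h2, pderiv_C, map_zero]
  -- a nonzero minor
  obtain ⟨l, hl⟩ : ∃ l, (JAC_J φ).adjugate l j ≠ 0 := by
    by_contra hcon
    push Not at hcon
    have h1 := congrFun (congrFun (Matrix.mul_adjugate (JAC_J φ)) j) j
    rw [Matrix.mul_apply, Matrix.smul_apply, Matrix.one_apply_eq, smul_eq_mul, mul_one] at h1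
    apply JAC_det φ
    rw [← h1]
    exact Finset.sum_eq_zero fun i _ => by rw [hcon i, mul_zero]
  rw [Matrix.adjugate_apply] at hl
  set J' := (JAC_J φ).updateRow j (Pi.single l 1) with hJ'
  have hrow : (fun l' => pderiv l' (φ Q)) = ∑ i, φ (pderiv i Q) • J' i := by
    funext l'
    rw [Finset.sum_apply, JAC_chain]
    refine Finset.sum_congr rfl fun i _ => ?_
    rw [Pi.smul_apply, smul_eq_mul]
    by_cases hij : i = j
    · rw [hij, hj, map_zero, zero_mul, zero_mul]
    · rw [hJ', Matrix.updateRow_ne hij]
      rfl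
  have hdet : (J'.updateRow i₀ (fun l' => pderiv l' (φ Q))).det =
      φ (pderiv i₀ Q) * J'.det := by
    rw [hrow, Matrix.det_updateRow_sum, smul_eq_mul]
  have hlow : e * M ≤ (φ (pderiv i₀ Q) * J'.det).totalDegree := by
    rw [totalDegree_mul_of_isDomain hne hl]
    exact hdeg.trans (Nat.le_add_right _ _)
  have hup := JAC_deg (J'.updateRow i₀ (fun l' => pderiv l' (φ Q)))
    (fun i => if i = i₀ then (φ Q).totalDegree - 1 else if i = j then 0 else M - 1) (by
      intro i l'
      by_cases hi : i = i₀
      · subst hi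
        rw [Matrix.updateRow_self, if_pos rfl]
        exact JAC_pderiv l' (φ Q)
      · rw [Matrix.updateRow_ne hi, if_neg hi]
        by_cases hij : i = j
        · subst hij
          rw [hJ', Matrix.updateRow_self, if_pos rfl]
          by_cases hll : l' = l
          · subst hll
            rw [Pi.single_eq_same]
            exact le_of_eq totalDegree_one
          · rw [Pi.single_eq_of_ne hll]
            exact le_of_eq totalDegree_zero
        · rw [hJ', Matrix.updateRow_ne hij, if_neg hij]
          show (pderiv l' (φ (X i))).totalDegree ≤ _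
          refine (JAC_pderiv l' _).trans ?_
          exact Nat.sub_le_sub_right (hle i hij) 1)
  rw [hdet] at hup
  have hsum : ∑ i, (if i = i₀ then (φ Q).totalDegree - 1 else if i = j then 0 else M - 1) =
      ((φ Q).totalDegree - 1) + (n - 2) * (M - 1) := by
    rw [← Finset.add_sum_erase _ _ (Finset.mem_univ i₀), if_pos rfl]
    congr 1
    have hj : j ∈ Finset.univ.erase i₀ := Finset.mem_erase.2 ⟨hi₀.symm, Finset.mem_univ _⟩
    rw [← Finset.add_sum_erase _ _ hj, if_neg hi₀.symm, if_pos rfl, zero_add]
    have h1 : ∀ i ∈ (Finset.univ.erase i₀).erase j,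
        (if i = i₀ then (φ Q).totalDegree - 1 else if i = j then 0 else M - 1) = M - 1 := by
      intro i hi
      rw [Finset.mem_erase, Finset.mem_erase] at hi
      rw [if_neg hi.2.1, if_neg hi.1]
    rw [Finset.sum_congr rfl h1, Finset.sum_const, Finset.card_erase_of_mem hj,
      Finset.card_erase_of_mem (Finset.mem_univ _), Finset.card_univ, Fintype.card_fin,
      smul_eq_mul]
    congr 1
  rw [hsum] at hup
  have h9 := hlow.trans hup
  omega

end Pool.Agent.Work.MP_b2cdcf_full
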