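import Pool.Agent.Work.MP_b2cdcf_full.IntB

/-! # Block JACP (helper65): the Jacobian inequality for the polynomial of the shift -/

set_option autoImplicit false

open MvPolynomial

noncomputable section

namespace Pool.Agent.Work.MP_b2cdcf_full

open Pool.Agent.Work.MP_b2cdcf_wpd

theorem JACP_pderiv (k : Type) [Field k] (n : ℕ) (a : k) (h1 h2 : ℕ) (r u v : Fin n)
    (hu : u ≠ r) (hv : v ≠ r) : pderiv r (PP k n a h1 h2 r u v) = 0 := by
  unfold PP
  rw [Derivation.leibniz, map_add, map_sum, Derivation.leibniz, pderiv_C, smul_zero, add_zero]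
  rw [Derivation.leibniz_pow, Derivation.leibniz_pow, pderiv_X_of_ne hu, pderiv_X_of_ne hv]
  rw [Finset.sum_eq_zero]
  · simp
  · intro j hj
    rw [Derivation.leibniz_pow, pderiv_X_of_ne (Finset.ne_of_mem_erase hj)]
    simp

theorem p_JACP (hJ : Stmt_JACG) (hP : Stmt_PD) : Stmt_JACP := by
  intro k _ n a h1 h2 hpar φ r u v M hu hv huv hM hle
  have hn3 := hpar.n3
  have hM1 : 1 ≤ M := by
    obtain ⟨i, _, hi⟩ := hM
    have hn0 : NeZero n := ⟨by omega⟩
    rw [← hi]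
    exact one_le_dg φ i
  have h3 := hJ k n φ r (PP k n a h1 h2 r u v) M (h1 + h2 - 1) (by omega)
    (JACP_pderiv k n a h1 h2 r u v hu hv) hM1 hle (hP k n a h1 h2 hpar φ r u v M hu hv huv hM hle)
  have hl1 := hpar.l1
  have hdn : n ≤ h1 + h2 := by nlinarith
  obtain ⟨d, hd⟩ : ∃ d, h1 + h2 = d + n := ⟨h1 + h2 - n, by omega⟩
  obtain ⟨m, rfl⟩ : ∃ m, M = m + 1 := ⟨M - 1, by omega⟩
  obtain ⟨q, rfl⟩ : ∃ q, n = q + 2 := ⟨n - 2, by omega⟩
  have e1 : h1 + h2 - 1 = d + (q + 1) := by omega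
  have e2 : h1 + h2 - (q + 2) + 1 = d + 1 := by omega
  have e3 : q + 2 - 2 = q := by omega
  have e4 : m + 1 - 1 = m := by omega
  have e5 : q + 2 - 1 = q + 1 := by omega
  rw [e1, e3, e4] at h3
  rw [e2, e5]
  nlinarith

end Pool.Agent.Work.MP_b2cdcf_full
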