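import Pool.Agent.Work.MP_b2cdcf_full.IntB

set_option autoImplicit false

open MvPolynomial

noncomputable section

namespace Pool.Agent.Work.MP_b2cdcf_full

open Pool.Agent.Work.MP_b2cdcf_wpd

theorem LRX_aux {k : Type} [Field k] {n : ℕ} [NeZero n] (hM : Stmt_MULX) (c : ℕ) (F y : AutP k n)
    (q r : Fin n) (hqr : r ≠ q) (hn : 2 ≤ n) (hc : 100 * (n - 1) ≤ c) (m : ℤ) (j : Fin n)
    (hd : Dom c q (y⁻¹ * F ^ m)) (h : NE q ((F ^ (-m)) (y (X j)))) : False := by
  have h1 := hM k n c (y⁻¹ * F ^ m) q hn hc hd _ h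
  have h2 : (y⁻¹ * F ^ m) ((F ^ (-m)) (y (X j))) = X j := by
    rw [← aut_mul_apply, ← aut_mul_apply]
    have : y⁻¹ * F ^ m * F ^ (-m) * y = 1 := by group
    rw [this]
    rfl
  rw [h2, totalDegree_X] at h1
  have h3 := hd.le_mdeg hqr
  have h4 : 1 ≤ ((F ^ (-m)) (y (X j))).totalDegree := one_le_dg (F ^ (-m) * y) j
  have h5 : 3 ≤ c := by omega
  nlinarith

theorem p_LRX (hS : Stmt_SEQ) (hM : Stmt_MULX) : Stmt_LRX := by
  intro k _ n _ hn a h1 h2 hP y b hb j m
  have hp1 := hP.l1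
  have hp2 := hP.l2
  have hc : 100 * (n - 1) ≤ h1 + h2 - n + 1 := by
    have : n ≤ n ^ 2 := Nat.le_self_pow (by norm_num) n
    omega
  have hU : 1 ≤ (y (X j)).totalDegree := one_le_dg y j
  obtain ⟨hs, -, -⟩ := hS k n hn a h1 h2 hP (y (X j)) hU
  have h01 : (0 : Fin n) ≠ 1 := fin01 hn
  have key1 : ∀ m : ℤ, NE 1 (((FX k n hn a h1 h2) ^ (-m)) (y (X j))) → m ≤ b := by
    intro m hm
    by_contra hlt
    exact LRX_aux hM _ (FX k n hn a h1 h2) y 1 0 h01 (by omega) hc m j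
      (hb.2.1 m (by omega)) hm
  have key0 : ∀ m : ℤ, NE 0 (((FX k n hn a h1 h2) ^ (-m)) (y (X j))) → b ≤ m := by
    intro m hm
    by_contra hlt
    exact LRX_aux hM _ (FX k n hn a h1 h2) y 0 1 h01.symm (by omega) hc m j
      (hb.1 m (by omega)) hm
  constructor
  · intro hm
    rcases hs (m + n + 2) with h | h
    · have := key0 _ h
      omega
    · have e : m + n + 2 - n - 2 = m := by ring
      rwa [e] at h
  · intro hm
    rcases hs (m - 2) with h | h
    · have e : m - 2 + 2 = m := by ring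
      rwa [e] at h
    · have := key1 _ h
      omega

end Pool.Agent.Work.MP_b2cdcf_full
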