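import Pool.Agent.Work.MP_b2cdcf_full.IntB

/-!
# MP_b2cdcf_al, S02759: block PAR
-/

set_option autoImplicit false

open MvPolynomial

noncomputable section

namespace Pool.Agent.Work.MP_b2cdcf_full

open Pool.Agent.Work.MP_b2cdcf_wpd

theorem p_PAR : Stmt_PAR := by
  intro k _ n hn
  obtain ⟨p, hp⟩ := CharP.exists k
  rcases Nat.eq_zero_or_pos p with h0 | h0
  · subst h0
    have : CharZero k := CharP.charP_to_charZero k
    have hpos : 0 < 100 * n ^ 2 := by positivity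
    refine ⟨100 * n ^ 2, 100 * n ^ 2 + 1, hn, one_ne_zero, Or.inr rfl, le_rfl, Nat.le_succ _, ?_, ?_⟩
    · exact Nat.cast_ne_zero.2 (by omega)
    · have h1 : 0 < (100 * n ^ 2 + (100 * n ^ 2 + 1)) ^ (100 * n ^ 2 + (100 * n ^ 2 + 1)) +
          (100 * n ^ 2) ^ (100 * n ^ 2) * (100 * n ^ 2 + 1) ^ (100 * n ^ 2 + 1) :=
        Nat.add_pos_left (Nat.pow_pos (by omega)) _
      have h2 : (((100 * n ^ 2 + (100 * n ^ 2 + 1)) ^ (100 * n ^ 2 + (100 * n ^ 2 + 1)) +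
          (100 * n ^ 2) ^ (100 * n ^ 2) * (100 * n ^ 2 + 1) ^ (100 * n ^ 2 + 1) : ℕ) : k) ≠ 0 :=
        Nat.cast_ne_zero.2 h1.ne'
      rw [Nat.cast_add, Nat.cast_mul, Nat.cast_pow, Nat.cast_pow, Nat.cast_pow] at h2
      exact h2
  · have hc : ((100 * n ^ 2 * p : ℕ) : k) = 0 := by
      rw [Nat.cast_mul, CharP.cast_eq_zero k p, mul_zero]
    have hpos : 0 < 100 * n ^ 2 * p := by positivity
    have hle : 100 * n ^ 2 ≤ 100 * n ^ 2 * p := Nat.le_mul_of_pos_right _ h0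
    have hc2 : ((100 * n ^ 2 * p + 1 : ℕ) : k) = 1 := by
      rw [Nat.cast_add, hc, zero_add, Nat.cast_one]
    have hc3 : ((100 * n ^ 2 * p + (100 * n ^ 2 * p + 1) : ℕ) : k) = 1 := by
      rw [Nat.cast_add, hc, hc2, zero_add]
    refine ⟨100 * n ^ 2 * p, 100 * n ^ 2 * p + 1, hn, one_ne_zero, Or.inr rfl, hle,
      Nat.le_succ_of_le hle, ?_, ?_⟩
    · rw [hc3]
      exact one_ne_zero
    · rw [hc3, hc, hc2, one_pow, one_pow, zero_pow hpos.ne', zero_mul, add_zero]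
      exact one_ne_zero

end Pool.Agent.Work.MP_b2cdcf_full
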