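import Pool.Agent.Work.MP_b2cdcf_full.IntB

/-!
# PD: a partial derivative of `PP` of full degree (helper29)
-/

set_option autoImplicit false

open MvPolynomial

noncomputable section

namespace Pool.Agent.Work.MP_b2cdcf_full

open Pool.Agent.Work.MP_b2cdcf_wpd

section
variable {k : Type} [Field k] {n : ℕ}

/-- top homogeneous components are multiplicative -/
theorem PD_hc_mul (f g : MvPolynomial (Fin n) k) (m m' : ℕ) (hf : f.totalDegree ≤ m)
    (hg : g.totalDegree ≤ m') :
    homogeneousComponent (m + m') (f * g) =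
      homogeneousComponent m f * homogeneousComponent m' g := by
  classical
  have hlt : ∀ (p : MvPolynomial (Fin n) k) (l : ℕ) (s : Fin n →₀ ℕ), p.totalDegree ≤ l →
      l < s.degree → coeff s p = 0 := by
    intro p l s hp hs
    apply coeff_eq_zero_of_totalDegree_lt
    have : s.degree = ∑ i ∈ s.support, s i := rfl
    omega
  ext s
  rw [coeff_homogeneousComponent, coeff_mul, coeff_mul]
  by_cases hs : s.degree = m + m'
  · rw [if_pos hs]
    refine Finset.sum_congr rfl fun x hx => ?_
    rw [Finset.HasAntidiagonal.mem_antidiagonal] at hx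
    have hd : x.1.degree + x.2.degree = m + m' := by
      rw [← hs, ← hx, map_add]
    rw [coeff_homogeneousComponent, coeff_homogeneousComponent]
    by_cases h1 : x.1.degree = m
    · rw [if_pos h1, if_pos (by omega)]
    · rw [if_neg h1, zero_mul]
      rcases Nat.lt_or_gt_of_ne h1 with h | h
      · rw [hlt g m' x.2 hg (by omega), mul_zero]
      · rw [hlt f m x.1 hf h, zero_mul]
  · rw [if_neg hs]
    symm
    apply Finset.sum_eq_zero
    intro x hx
    rw [Finset.HasAntidiagonal.mem_antidiagonal] at hx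
    have hd : x.1.degree + x.2.degree = s.degree := by
      rw [← hx, map_add]
    rw [coeff_homogeneousComponent, coeff_homogeneousComponent]
    by_cases h1 : x.1.degree = m
    · rw [if_neg (show ¬ x.2.degree = m' by omega), mul_zero]
    · rw [if_neg h1, zero_mul]

theorem PD_hc_pow (f : MvPolynomial (Fin n) k) (m : ℕ) (hf : f.totalDegree ≤ m) (j : ℕ) :
    homogeneousComponent (j * m) (f ^ j) = homogeneousComponent m f ^ j := by
  induction j with
  | zero =>
    rw [pow_zero, pow_zero, zero_mul, homogeneousComponent_zero]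
    simp
  | succ j ih =>
    rw [pow_succ, pow_succ, Nat.succ_mul, PD_hc_mul _ _ _ _ _ hf, ih]
    exact (totalDegree_pow f j).trans (Nat.mul_le_mul_left _ hf)

theorem PD_hc_ne (f : MvPolynomial (Fin n) k) (hf : f ≠ 0) :
    homogeneousComponent f.totalDegree f ≠ 0 := by
  intro h
  obtain ⟨s, hs, hsd⟩ := Finset.exists_mem_eq_sup f.support (support_nonempty.2 hf)
    (fun s => s.sum fun _ e => e)
  have h1 : f.totalDegree = s.degree := hsd
  have h2 := congrArg (coeff s) h
  rw [coeff_homogeneousComponent, if_pos h1.symm, coeff_zero] at h2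
  exact (mem_support_iff.1 hs) h2

theorem PD_deg (f : MvPolynomial (Fin n) k) (m : ℕ) (h : homogeneousComponent m f ≠ 0) :
    f ≠ 0 ∧ m ≤ f.totalDegree := by
  constructor
  · rintro rfl
    exact h (map_zero _)
  · by_contra hlt
    push Not at hlt
    exact h (homogeneousComponent_eq_zero m f hlt)

theorem PD_sum (r i : Fin n) (hi : i ≠ r) (d : ℕ) :
    pderiv i (∑ j ∈ Finset.univ.erase r, (X j : MvPolynomial (Fin n) k) ^ d) =
      C (d : k) * X i ^ (d - 1) := by
  classical
  rw [map_sum, Finset.sum_eq_single i]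
  · rw [Derivation.leibniz_pow, pderiv_X_self]
    simp
  · intro j _ hj
    rw [Derivation.leibniz_pow, pderiv_X_of_ne hj, smul_zero, smul_zero]
  · intro h
    exact absurd (Finset.mem_erase.2 ⟨hi, Finset.mem_univ _⟩) h

theorem PD_pow (i : Fin n) (d : ℕ) :
    pderiv i ((X i : MvPolynomial (Fin n) k) ^ d) = C (d : k) * X i ^ (d - 1) := by
  rw [Derivation.leibniz_pow, pderiv_X_self]
  simp

theorem PD_pow_ne (i j : Fin n) (hij : i ≠ j) (d : ℕ) :
    pderiv i ((X j : MvPolynomial (Fin n) k) ^ d) = 0 := by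
  rw [Derivation.leibniz_pow, pderiv_X_of_ne hij.symm, smul_zero, smul_zero]

end

theorem p_PD : Stmt_PD := by
  classical
  intro k _ n a h1 h2 hP φ r u v M hur hvr huv hM hle
  set d := h1 + h2 with hd
  have h1p := hP.h1pos
  have h2p := hP.h2pos
  have hCa : (C a : MvPolynomial (Fin n) k) ≠ 0 := by
    rw [Ne, C_eq_zero]; exact hP.a0
  have hCd : (C (d : k) : MvPolynomial (Fin n) k) ≠ 0 := by
    rw [Ne, C_eq_zero]; exact hP.d0
  -- the derivatives
  have hder : ∀ i, i ≠ r → pderiv i (PP k n a h1 h2 r u v) = C a * (C (d : k) * X i ^ (d - 1) +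
      pderiv i ((X u : MvPolynomial (Fin n) k) ^ h1 * X v ^ h2)) := by
    intro i hi
    unfold PP
    rw [pderiv_C_mul, map_add, PD_sum r i hi]
  have hφC : ∀ c : k, φ (C c) = C c := fun c => φ.commutes c
  -- top components
  set T : Fin n → MvPolynomial (Fin n) k := fun i => homogeneousComponent M (φ (X i)) with hT
  have hpow : ∀ i, i ≠ r → ∀ j, homogeneousComponent (j * M) (φ (X i) ^ j) = T i ^ j :=
    fun i hi j => PD_hc_pow _ _ (hle i hi) j
  have hpd : ∀ i, i ≠ r → ∀ j, (φ (X i) ^ j).totalDegree ≤ j * M :=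
    fun i hi j => (totalDegree_pow _ _).trans (Nat.mul_le_mul_left _ (hle i hi))
  have hfin : ∀ i, i ≠ r →
      homogeneousComponent ((d - 1) * M) (φ (pderiv i (PP k n a h1 h2 r u v))) ≠ 0 →
      ∃ i, i ≠ r ∧ φ (pderiv i (PP k n a h1 h2 r u v)) ≠ 0 ∧
        (h1 + h2 - 1) * M ≤ (φ (pderiv i (PP k n a h1 h2 r u v))).totalDegree := by
    intro i hi h
    obtain ⟨e1, e2⟩ := PD_deg _ _ h
    exact ⟨i, hi, e1, e2⟩
  -- nonzero top component
  obtain ⟨i₀, hi₀, hi₀M⟩ := hM
  have hTi₀ : T i₀ ≠ 0 := by
    have h : homogeneousComponent (φ (X i₀)).totalDegree (φ (X i₀)) ≠ 0 := by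
      apply PD_hc_ne
      intro h0
      have := one_le_dg φ i₀
      unfold dg at this
      rw [h0, totalDegree_zero] at this
      omega
    have e : (φ (X i₀)).totalDegree = M := hi₀M
    rw [e] at h
    exact h
  by_cases hother : i₀ ≠ u ∧ i₀ ≠ v
  · apply hfin i₀ hi₀
    have e0 : φ (pderiv i₀ (PP k n a h1 h2 r u v)) = C a * (C (d : k) * φ (X i₀) ^ (d - 1)) := by
      rw [hder i₀ hi₀, Derivation.leibniz, PD_pow_ne i₀ v hother.2, PD_pow_ne i₀ u hother.1,
        smul_zero, smul_zero, add_zero, add_zero, map_mul, map_mul, hφC, hφC, map_pow]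
    rw [e0, homogeneousComponent_C_mul, homogeneousComponent_C_mul, hpow i₀ hi₀]
    exact mul_ne_zero hCa (mul_ne_zero hCd (pow_ne_zero _ hTi₀))
  · -- the two top components
    have hU : homogeneousComponent ((d - 1) * M) (φ (pderiv u (PP k n a h1 h2 r u v))) =
        C a * (C (d : k) * T u ^ (d - 1) + C (h1 : k) * (T u ^ (h1 - 1) * T v ^ h2)) := by
      have e1 : φ (pderiv u (PP k n a h1 h2 r u v)) = C a * (C (d : k) * φ (X u) ^ (d - 1) +
          C (h1 : k) * (φ (X u) ^ (h1 - 1) * φ (X v) ^ h2)) := by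
        rw [hder u hur, Derivation.leibniz, PD_pow_ne u v huv, smul_zero, zero_add, PD_pow,
          smul_eq_mul]
        simp only [map_mul, map_add, map_pow, hφC]
        ring
      rw [e1, homogeneousComponent_C_mul, map_add, homogeneousComponent_C_mul,
        homogeneousComponent_C_mul, hpow u hur]
      congr 3
      have e2 : (d - 1) * M = (h1 - 1) * M + h2 * M := by
        rw [← Nat.add_mul]
        congr 1
        omega
      rw [e2, PD_hc_mul _ _ _ _ (hpd u hur _) (hpd v hvr _), hpow u hur, hpow v hvr]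
    have hV : homogeneousComponent ((d - 1) * M) (φ (pderiv v (PP k n a h1 h2 r u v))) =
        C a * (C (d : k) * T v ^ (d - 1) + C (h2 : k) * (T u ^ h1 * T v ^ (h2 - 1))) := by
      have e1 : φ (pderiv v (PP k n a h1 h2 r u v)) = C a * (C (d : k) * φ (X v) ^ (d - 1) +
          C (h2 : k) * (φ (X u) ^ h1 * φ (X v) ^ (h2 - 1))) := by
        rw [hder v hvr, Derivation.leibniz, PD_pow_ne v u huv.symm, smul_zero, add_zero, PD_pow,
          smul_eq_mul]
        simp only [map_mul, map_add, map_pow, hφC]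
        ring
      rw [e1, homogeneousComponent_C_mul, map_add, homogeneousComponent_C_mul,
        homogeneousComponent_C_mul, hpow v hvr]
      congr 3
      have e2 : (d - 1) * M = h1 * M + (h2 - 1) * M := by
        rw [← Nat.add_mul]
        congr 1
        omega
      rw [e2, PD_hc_mul _ _ _ _ (hpd u hur _) (hpd v hvr _), hpow u hur, hpow v hvr]
    by_cases hU0 : homogeneousComponent ((d - 1) * M) (φ (pderiv u (PP k n a h1 h2 r u v))) = 0
    swap
    · exact hfin u hur hU0
    by_cases hV0 : homogeneousComponent ((d - 1) * M) (φ (pderiv v (PP k n a h1 h2 r u v))) = 0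
    swap
    · exact hfin v hvr hV0
    exfalso
    rw [hU] at hU0
    rw [hV] at hV0
    replace hU0 := (mul_eq_zero.1 hU0).resolve_left hCa
    replace hV0 := (mul_eq_zero.1 hV0).resolve_left hCa
    have hTu : T u ≠ 0 := by
      intro h0
      rw [h0, zero_pow (by omega), zero_mul, mul_zero, add_zero] at hV0
      have hv0 : T v = 0 := by
        have := (mul_eq_zero.1 hV0).resolve_left hCd
        exact pow_eq_zero_iff (by omega) |>.1 this
      by_cases e : i₀ = u
      · exact hTi₀ (by rw [e]; exact h0)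
      · have e' : i₀ = v := by
          by_contra e'
          exact hother ⟨e, e'⟩
        exact hTi₀ (by rw [e']; exact hv0)
    have hTv : T v ≠ 0 := by
      intro h0
      rw [h0, zero_pow (by omega : h2 ≠ 0), mul_zero, mul_zero, add_zero] at hU0
      have := (mul_eq_zero.1 hU0).resolve_left hCd
      exact hTu (pow_eq_zero_iff (by omega) |>.1 this)
    have hU1 : C (d : k) * T u ^ h2 = - (C (h1 : k) * T v ^ h2) := by
      have e1 : T u ^ (d - 1) = T u ^ (h1 - 1) * T u ^ h2 := by
        rw [← pow_add]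
        congr 1
        omega
      have e2 : T u ^ (h1 - 1) * (C (d : k) * T u ^ h2 + C (h1 : k) * T v ^ h2) = 0 := by
        rw [← hU0, e1]
        ring
      have e3 := (mul_eq_zero.1 e2).resolve_left (pow_ne_zero _ hTu)
      exact eq_neg_of_add_eq_zero_left e3
    have hV1 : C (d : k) * T v ^ h1 = - (C (h2 : k) * T u ^ h1) := by
      have e1 : T v ^ (d - 1) = T v ^ (h2 - 1) * T v ^ h1 := by
        rw [← pow_add]
        congr 1
        omega
      have e2 : T v ^ (h2 - 1) * (C (d : k) * T v ^ h1 + C (h2 : k) * T u ^ h1) = 0 := by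
        rw [← hV0, e1]
        ring
      have e3 := (mul_eq_zero.1 e2).resolve_left (pow_ne_zero _ hTv)
      exact eq_neg_of_add_eq_zero_left e3
    have e4 : (C (d : k) * T u ^ h2) ^ h1 * (C (d : k) * T v ^ h1) ^ h2 =
        (- (C (h1 : k) * T v ^ h2)) ^ h1 * (- (C (h2 : k) * T u ^ h1)) ^ h2 := by
      rw [hU1, hV1]
    have e5 : (C (d : k) ^ d - (-1) ^ d * (C (h1 : k) ^ h1 * C (h2 : k) ^ h2)) *
        (T u ^ (h1 * h2) * T v ^ (h1 * h2)) = 0 := by
      have f1 : (C (d : k) * T u ^ h2) ^ h1 * (C (d : k) * T v ^ h1) ^ h2 =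
          C (d : k) ^ d * (T u ^ (h1 * h2) * T v ^ (h1 * h2)) := by
        rw [mul_pow, mul_pow, ← pow_mul, ← pow_mul, mul_comm h2 h1, hd, pow_add]
        ring
      have f2 : (- (C (h1 : k) * T v ^ h2)) ^ h1 * (- (C (h2 : k) * T u ^ h1)) ^ h2 =
          (-1) ^ d * (C (h1 : k) ^ h1 * C (h2 : k) ^ h2) *
            (T u ^ (h1 * h2) * T v ^ (h1 * h2)) := by
        rw [neg_pow, neg_pow (C (h2 : k) * T u ^ h1), mul_pow, mul_pow, ← pow_mul, ← pow_mul,
          mul_comm h2 h1, hd, pow_add]
        ring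
      rw [f1, f2] at e4
      rw [sub_mul, e4, sub_self]
    have e6 := (mul_eq_zero.1 e5).resolve_right
      (mul_ne_zero (pow_ne_zero _ hTu) (pow_ne_zero _ hTv))
    have hodd : Odd d := by
      rcases hP.hh with h | h
      · exact ⟨h2, by omega⟩
      · exact ⟨h1, by omega⟩
    rw [hodd.neg_one_pow, neg_one_mul, sub_neg_eq_add] at e6
    have e7 : (C (((d : ℕ) : k) ^ d + (h1 : k) ^ h1 * (h2 : k) ^ h2) :
        MvPolynomial (Fin n) k) = 0 := by
      rw [← e6]
      simp only [map_add, map_mul, map_pow]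
    rw [C_eq_zero] at e7
    exact hP.disc e7

end Pool.Agent.Work.MP_b2cdcf_full
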