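import Pool.Agent.Work.MP_b2cdcf_full.IntB
import Pool.Agent.Work.MP_b2cdcf_wpd.Final

/-! # Block R1X (helper47): relations for affine automorphisms, with the mixed terms -/

set_option autoImplicit false

open MvPolynomial

noncomputable section

namespace Pool.Agent.Work.MP_b2cdcf_full

open Pool.Agent.Work.MP_b2cdcf_wpd

variable {k : Type} [Field k] {n : ℕ}

/-- a mixed monomial has no pure power -/
theorem R1X_mix (b u v : Fin n) (e h1 h2 : ℕ) (huv : u ≠ v) (h1p : h1 ≠ 0) (h2p : h2 ≠ 0) :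
    coeff (Finsupp.single b e) ((X u : MvPolynomial (Fin n) k) ^ h1 * X v ^ h2) = 0 := by
  rw [X_pow_eq_monomial, X_pow_eq_monomial, monomial_mul, coeff_monomial, if_neg]
  intro h
  have hu := DFunLike.congr_fun h u
  have hv := DFunLike.congr_fun h v
  rw [Finsupp.add_apply, Finsupp.single_eq_same, Finsupp.single_apply, if_neg huv.symm,
    add_zero, Finsupp.single_apply] at hu
  rw [Finsupp.add_apply, Finsupp.single_eq_same, Finsupp.single_apply, if_neg huv,
    zero_add, Finsupp.single_apply] at hv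
  by_cases hbu : b = u
  · rw [if_neg (fun h => huv (hbu.symm.trans h))] at hv
    exact h2p hv
  · rw [if_neg hbu] at hu
    exact h1p hu

theorem R1X_PP (a : k) (h1 h2 : ℕ) (r u v b : Fin n) (e : ℕ) (huv : u ≠ v) (h1p : h1 ≠ 0)
    (h2p : h2 ≠ 0) :
    coeff (Finsupp.single b e) (PP k n a h1 h2 r u v) = a *
      coeff (Finsupp.single b e)
        (∑ j ∈ Finset.univ.erase r, (X j : MvPolynomial (Fin n) k) ^ (h1 + h2)) := by
  rw [PP, coeff_C_mul, coeff_add, R1X_mix b u v e h1 h2 huv h1p h2p, add_zero]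

theorem p_R1X : Stmt_R1X := by
  intro k _ n _ hn a a' e1 e2 e1' e2' hP hP' hdd α α' hα hα' hrel
  have h1p : e1 ≠ 0 := by have := hP.h1pos; omega
  have h2p : e2 ≠ 0 := by have := hP.h2pos; omega
  obtain ⟨d, hd⟩ : ∃ d, d = e1 + e2 := ⟨_, rfl⟩
  have hd2 : 2 ≤ d := by omega
  have hd0 : d ≠ 0 := by omega
  have hd1 : d ≠ 1 := by omega
  have h01 : (0 : Fin n) ≠ 1 := fin01 hn
  have hCc : ∀ (t : k) (b : Fin n) (e : ℕ), e ≠ 0 →
      coeff (Finsupp.single b e) (C t : MvPolynomial (Fin n) k) = 0 := by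
    intro t b e he
    rw [coeff_C, if_neg]
    intro h
    have := DFunLike.congr_fun h b
    rw [Finsupp.single_eq_same] at this
    exact he this.symm
  have hPP : ∀ (b : Fin n) (e : ℕ), coeff (Finsupp.single b e) (PP k n a e1 e2 0 (-1) 1) = a *
      coeff (Finsupp.single b e)
        (∑ j ∈ Finset.univ.erase 0, (X j : MvPolynomial (Fin n) k) ^ d) := by
    intro b e
    rw [R1X_PP a e1 e2 0 (-1) 1 b e (finm1 hn) h1p h2p, hd]
  have hPP2 : ∀ (b : Fin n) (e : ℕ), coeff (Finsupp.single b e) (PP k n a e1 e2 1 0 (1 + 1)) =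
      a * coeff (Finsupp.single b e)
        (∑ j ∈ Finset.univ.erase 1, (X j : MvPolynomial (Fin n) k) ^ d) := by
    intro b e
    rw [R1X_PP a e1 e2 1 0 (1 + 1) b e (fin02 hn).symm h1p h2p, hd]
  -- evaluation of the relation
  have hev : ∀ i, i ≠ 1 → FX k n hn a e1 e2 (α (X i)) = α' (X (i - 1)) := by
    intro i hi
    have h1 := AlgEquiv.congr_fun hrel (X i)
    rw [aut_mul_apply, aut_mul_apply, FX_ne hn a' e1' e2' hi] at h1
    exact h1
  have hrel2 : (FX k n hn a e1 e2)⁻¹ * α' = α * (FX k n hn a' e1' e2')⁻¹ := by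
    have h1 : α' = FX k n hn a e1 e2 * α * (FX k n hn a' e1' e2')⁻¹ := by rw [hrel]; group
    rw [h1]
    group
  have hev2 : ∀ i, i ≠ 0 → (FX k n hn a e1 e2)⁻¹ (α' (X i)) = α (X (i + 1)) := by
    intro i hi
    have h1 := AlgEquiv.congr_fun hrel2 (X i)
    rw [aut_mul_apply, aut_mul_apply, FX_inv_ne hn a' e1' e2' hi] at h1
    exact h1
  refine ⟨?_, ?_, ?_, ?_⟩
  · intro i hi
    have h1 := congrArg (coeff (Finsupp.single 1 d)) (hev i hi)
    rw [R1_high α' _ _ d hd2 (hα' _), p_AFF k n α i (hα i), R1_apply, hCc _ _ _ hd0, zero_add,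
      Finset.sum_eq_single 1] at h1
    · rw [FX_one, coeff_add, R1_coeffX _ _ _ hd0, if_neg (fun h => hd1 h.2), zero_add, hPP,
        R1_coeff_powd 1 d hd0 _ (Finset.mem_erase.2 ⟨h01.symm, Finset.mem_univ _⟩), mul_one] at h1
      exact (mul_eq_zero.1 h1).resolve_right hP.a0
    · intro l _ hl
      rw [FX_ne hn a _ _ hl, R1_coeffX _ _ _ hd0, if_neg (fun h => hd1 h.2), mul_zero]
    · intro h
      exact absurd (Finset.mem_univ _) h
  · intro i hi
    have h1 := congrArg (coeff (Finsupp.single 0 d)) (hev2 i hi)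
    rw [R1_high α _ _ d hd2 (hα _), p_AFF k n α' i (hα' i), R1_apply, hCc _ _ _ hd0, zero_add,
      Finset.sum_eq_single 0] at h1
    · rw [FX_inv_zero, coeff_sub, R1_coeffX _ _ _ hd0, if_neg (fun h => hd1 h.2), hPP2,
        R1_coeff_powd 0 d hd0 _ (Finset.mem_erase.2 ⟨h01, Finset.mem_univ _⟩), zero_sub,
        mul_neg, mul_one, neg_eq_zero] at h1
      exact (mul_eq_zero.1 h1).resolve_right hP.a0
    · intro l _ hl
      rw [FX_inv_ne hn a _ _ hl, R1_coeffX _ _ _ hd0, if_neg (fun h => hd1 h.2), mul_zero]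
    · intro h
      exact absurd (Finset.mem_univ _) h
  · intro i l hi
    have h1 := congrArg (coeff (Finsupp.single (l - 1) 1)) (hev i hi)
    rw [p_AFF k n α i (hα i), R1_apply, hCc _ _ _ one_ne_zero, zero_add,
      Finset.sum_eq_single l] at h1
    · have h2 : coeff (Finsupp.single (l - 1) 1) (FX k n hn a e1 e2 (X l)) = 1 := by
        by_cases hl : l = 1
        · subst hl
          rw [FX_one, coeff_add, R1_coeffX _ _ _ one_ne_zero, if_pos ⟨(sub_self _).symm, rfl⟩,
            hPP, R1_coeff_pow _ _ _ hd1.symm one_ne_zero, mul_zero, add_zero]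
        · rw [FX_ne hn a _ _ hl, R1_coeffX _ _ _ one_ne_zero, if_pos ⟨rfl, rfl⟩]
      rw [h2, mul_one] at h1
      exact h1.symm
    · intro l' _ hl'
      have h2 : coeff (Finsupp.single (l - 1) 1) (FX k n hn a e1 e2 (X l')) = 0 := by
        by_cases hl : l' = 1
        · subst hl
          rw [FX_one, coeff_add, R1_coeffX _ _ _ one_ne_zero, if_neg, hPP,
            R1_coeff_pow _ _ _ hd1.symm one_ne_zero, mul_zero, add_zero]
          rintro ⟨h, -⟩
          exact hl' (sub_eq_zero.1 h.symm).symm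
        · rw [FX_ne hn a _ _ hl, R1_coeffX _ _ _ one_ne_zero, if_neg]
          rintro ⟨h, -⟩
          exact hl' (sub_left_injective h)
      rw [h2, mul_zero]
    · intro h
      exact absurd (Finset.mem_univ _) h
  · intro i hi
    have h1 := congrArg (coeff 0) (hev i hi)
    rw [p_AFF k n α i (hα i), R1_apply, coeff_C, if_pos rfl] at h1
    have h2 : ∑ l, bc α i l * coeff 0 (FX k n hn a e1 e2 (X l)) = 0 := by
      apply Finset.sum_eq_zero
      intro l _
      have h3 : coeff 0 (FX k n hn a e1 e2 (X l)) = 0 := by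
        by_cases hl : l = 1
        · subst hl
          have h4 := hPP 0 0
          rw [Finsupp.single_zero] at h4
          rw [FX_one, coeff_add, R1_coeffX0, h4, R1_coeff_pow0 _ hd0, mul_zero, add_zero]
        · rw [FX_ne hn a _ _ hl, R1_coeffX0]
      rw [h3, mul_zero]
    rw [h2, add_zero] at h1
    exact h1.symm

end Pool.Agent.Work.MP_b2cdcf_full
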