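import Pool.Agent.Work.MP_b2cdcf_full.IntB
import Pool.Agent.Work.MP_b2cdcf_wpd.Final

/-! # Block R2X: the relation at `X 1` for diagonal affine automorphisms, with the mixed terms
(helper9, after the block R2 of helper47) -/

set_option autoImplicit false

open MvPolynomial

noncomputable section

namespace Pool.Agent.Work.MP_b2cdcf_full

open Pool.Agent.Work.MP_b2cdcf_wpd

variable {k : Type} [Field k] {n : ℕ}

theorem R2X_deg (u v : Fin n) (huv : u ≠ v) (b t : k) (e : ℕ) :
    degreeOf v ((C b * X u + C t : MvPolynomial (Fin n) k) ^ e) = 0 := by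
  apply Nat.le_zero.1
  refine (degreeOf_pow_le _ _ _).trans ?_
  have h1 : degreeOf v (C b * X u + C t : MvPolynomial (Fin n) k) ≤ 0 := by
    refine (degreeOf_add_le _ _ _).trans (max_le ?_ ?_)
    · refine (degreeOf_C_mul_le _ _ _).trans ?_
      rw [degreeOf_X]
      split_ifs with h
      · exact absurd h.symm huv
      · exact le_rfl
    · rw [degreeOf_C]
  rw [Nat.le_zero.1 h1, mul_zero]

theorem R2X_deg_le (u : Fin n) (b t : k) (e : ℕ) :
    degreeOf u ((C b * X u + C t : MvPolynomial (Fin n) k) ^ e) ≤ e := by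
  refine (degreeOf_pow_le _ _ _).trans ?_
  have h1 : degreeOf u (C b * X u + C t : MvPolynomial (Fin n) k) ≤ 1 := by
    refine (degreeOf_add_le _ _ _).trans (max_le ?_ ?_)
    · refine (degreeOf_C_mul_le _ _ _).trans ?_
      rw [degreeOf_X]
      split_ifs <;> omega
    · rw [degreeOf_C]; omega
  calc e * degreeOf u (C b * X u + C t : MvPolynomial (Fin n) k) ≤ e * 1 :=
        Nat.mul_le_mul_left _ h1
    _ = e := mul_one e

theorem R2X_coeff0 (p : MvPolynomial (Fin n) k) (m : Fin n →₀ ℕ) (v : Fin n)
    (h : degreeOf v p < m v) : coeff m p = 0 := by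
  by_contra hc
  have h1 := monomial_le_degreeOf v (mem_support_iff.2 hc)
  omega

theorem R2X_lin_nat (b t : k) (e : ℕ) :
    ((Polynomial.C b * Polynomial.X + Polynomial.C t) ^ e).natDegree ≤ e := by
  refine Polynomial.natDegree_pow_le.trans ?_
  have h1 := Polynomial.natDegree_linear_le (a := b) (b := t)
  calc e * (Polynomial.C b * Polynomial.X + Polynomial.C t).natDegree ≤ e * 1 :=
        Nat.mul_le_mul_left _ h1
    _ = e := mul_one e

/-- the mixed product on an axis has small degree -/
theorem R2X_mix (l u v : Fin n) (huv : u ≠ v) (b t b2 t2 : k) (e f : ℕ) :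
    ((Polynomial.C b * (if u = l then (Polynomial.X : Polynomial k) else 0) + Polynomial.C t) ^ e *
      (Polynomial.C b2 * (if v = l then (Polynomial.X : Polynomial k) else 0) +
        Polynomial.C t2) ^ f).natDegree ≤ max e f := by
  by_cases hu : u = l
  · have hv : v ≠ l := fun h => huv (hu.trans h.symm)
    rw [if_pos hu, if_neg hv, mul_zero, zero_add, ← Polynomial.C_pow]
    refine (Polynomial.natDegree_mul_C_le _ _).trans ?_
    exact (R2X_lin_nat b t e).trans (le_max_left _ _)
  · rw [if_neg hu, mul_zero, zero_add, ← Polynomial.C_pow]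
    refine (Polynomial.natDegree_C_mul_le _ _).trans ?_
    by_cases hv : v = l
    · rw [if_pos hv]
      exact (R2X_lin_nat b2 t2 f).trans (le_max_right _ _)
    · rw [if_neg hv, mul_zero, zero_add, ← Polynomial.C_pow, Polynomial.natDegree_C]
      exact Nat.zero_le _

theorem p_R2X : Stmt_R2X := by
  intro k _ n _ hn a a' h1 h2 h1' h2' hP hP' hd α α' b t b' t' hα hα' hrel
  have hl1 := hP.l1
  have hl2 := hP.l2
  have hl1' := hP'.l1
  have hl2' := hP'.l2
  have hn2 : 1 ≤ n ^ 2 := Nat.one_le_pow _ _ (by omega)
  have h01 : (0 : Fin n) ≠ 1 := by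
    intro h
    have := congrArg Fin.val h
    rw [Fin.val_zero, Fin.val_one'] at this
    rw [Nat.mod_eq_of_lt (by omega)] at this
    omega
  have hm1 : ((-1 : Fin n)) ≠ 1 := by
    intro h
    have h3 : (1 : Fin n) + 1 = 0 := by
      calc (1 : Fin n) + 1 = (-1) + 1 := by rw [h]
        _ = 0 := neg_add_cancel 1
    have := congrArg Fin.val h3
    rw [Fin.val_add, Fin.val_zero, Fin.val_one', Nat.mod_eq_of_lt (show 1 < n by omega),
      Nat.mod_eq_of_lt (show 1 + 1 < n by omega)] at this
    omega
  have hm0 : ((-1 : Fin n)) ≠ 0 := fun h => h01.symm (neg_eq_zero.1 h)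
  have hC : ∀ (G : AutP k n) (c : k), G (C c) = C c := fun G c => G.commutes c
  have hrel1 := AlgEquiv.congr_fun hrel (X 1)
  rw [aut_mul_apply, aut_mul_apply, hα, FX_one, map_add, map_mul, hC, hC, FX_one, PP, PP,
    map_add, map_mul, map_add, map_sum, map_mul, map_pow, map_pow, hC, hα' 0, hα' (-1), hα' 1]
    at hrel1
  have hsum : ∑ x ∈ Finset.univ.erase (0 : Fin n), α' (X x ^ (h1' + h2')) =
      ∑ x ∈ Finset.univ.erase (0 : Fin n), (C (b' x) * X x + C (t' x)) ^ (h1' + h2') :=
    Finset.sum_congr rfl fun x _ => by rw [map_pow, hα' x]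
  rw [hsum, ← hd] at hrel1
  set d := h1 + h2 with hdd
  have hb : ∀ l, b l ≠ 0 := by
    intro l h0
    have g1 : α (X l) = α (C (t l)) := by rw [hα, h0, hC, C_0, zero_mul, zero_add]
    have g2 := congrArg totalDegree (α.injective g1)
    rw [totalDegree_X, totalDegree_C] at g2
    exact one_ne_zero g2
  have hb' : ∀ l, b' l ≠ 0 := by
    intro l h0
    have g1 : α' (X l) = α' (C (t' l)) := by rw [hα', h0, hC, C_0, zero_mul, zero_add]
    have g2 := congrArg totalDegree (α'.injective g1)
    rw [totalDegree_X, totalDegree_C] at g2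
    exact one_ne_zero g2
  refine ⟨?_, ?_, ?_⟩
  · -- the mixed monomial
    by_contra hne
    set m : Fin n →₀ ℕ := Finsupp.single (-1) h1 + Finsupp.single 1 h2 with hm
    have hmm : m (-1) = h1 := by
      rw [hm, Finsupp.add_apply, Finsupp.single_eq_same, Finsupp.single_apply,
        if_neg (fun h => hm1 h.symm), add_zero]
    have hmo : m 1 = h2 := by
      rw [hm, Finsupp.add_apply, Finsupp.single_eq_same, Finsupp.single_apply,
        if_neg hm1, zero_add]
    have hmz : m 0 = 0 := by
      rw [hm, Finsupp.add_apply, Finsupp.single_apply, Finsupp.single_apply,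
        if_neg hm0, if_neg (fun h => h01 h.symm), add_zero]
    have g1 := congrArg (coeff m) hrel1
    have hm0' : m ≠ 0 := by
      intro h
      rw [h, Finsupp.zero_apply] at hmm
      omega
    have cX : coeff m (X 0 : MvPolynomial (Fin n) k) = 0 := by
      rw [coeff_X', if_neg]
      intro h
      have g2 := DFunLike.congr_fun h (0 : Fin n)
      rw [hmz, Finsupp.single_eq_same] at g2
      exact one_ne_zero g2
    have cC : ∀ c : k, coeff m (C c : MvPolynomial (Fin n) k) = 0 := by
      intro c
      rw [coeff_C, if_neg (fun h => hm0' h.symm)]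
    have cp : ∀ (x : Fin n) (c e : k), coeff m ((C c * X x + C e : MvPolynomial (Fin n) k) ^ d)
        = 0 := by
      intro x c e
      by_cases hx : x = 1
      · apply R2X_coeff0 _ _ (-1)
        rw [R2X_deg x (-1) (by rw [hx]; exact fun h => hm1 h.symm), hmm]
        omega
      · apply R2X_coeff0 _ _ 1
        rw [R2X_deg x 1 hx, hmo]
        omega
    have cpx : ∀ x : Fin n, coeff m ((X x : MvPolynomial (Fin n) k) ^ d) = 0 := by
      intro x
      have g2 := cp x 1 0
      rwa [C_1, one_mul, C_0, add_zero] at g2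
    have cm1 : coeff m ((X (-1) : MvPolynomial (Fin n) k) ^ h1 * X 1 ^ h2) = 1 := by
      rw [X_pow_eq_monomial, X_pow_eq_monomial, monomial_mul, coeff_monomial, if_pos rfl, mul_one]
    have cm2 : coeff m ((C (b' (-1)) * X (-1) + C (t' (-1)) : MvPolynomial (Fin n) k) ^ h1' *
        (C (b' 1) * X 1 + C (t' 1)) ^ h2') = 0 := by
      rcases lt_or_gt_of_ne hne with hlt | hlt
      · apply R2X_coeff0 _ _ 1
        rw [hmo]
        refine lt_of_le_of_lt (degreeOf_mul_le _ _ _) ?_
        rw [R2X_deg (-1) 1 hm1]
        have g2 := R2X_deg_le (1 : Fin n) (b' 1) (t' 1) h2'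
        omega
      · apply R2X_coeff0 _ _ (-1)
        rw [hmm]
        refine lt_of_le_of_lt (degreeOf_mul_le _ _ _) ?_
        rw [R2X_deg 1 (-1) (fun h => hm1 h.symm)]
        have g2 := R2X_deg_le (-1 : Fin n) (b' (-1)) (t' (-1)) h1'
        omega
    have s1 : coeff m (∑ x ∈ Finset.univ.erase (0 : Fin n), (X x : MvPolynomial (Fin n) k) ^ d)
        = 0 := by
      rw [coeff_sum]
      exact Finset.sum_eq_zero fun x _ => cpx x
    have s2 : coeff m (∑ x ∈ Finset.univ.erase (0 : Fin n),
        (C (b' x) * X x + C (t' x) : MvPolynomial (Fin n) k) ^ d) = 0 := by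
      rw [coeff_sum]
      exact Finset.sum_eq_zero fun x _ => cp x _ _
    simp only [coeff_add, coeff_C_mul, cX, cC, s1, s2, cm1, cm2] at g1
    have g3 : b 1 * a = 0 := by linear_combination g1
    rcases mul_eq_zero.1 g3 with h | h
    · exact hb 1 h
    · exact hP.a0 h
  · -- coefficient of `X` on the axis `0`
    have g1 := congrArg (R2_ev (0 : Fin n)) hrel1
    simp only [map_add, map_mul, map_sum, map_pow, R2_C, R2_X] at g1
    have e1 : ∑ x ∈ Finset.univ.erase (0 : Fin n),
        (if x = 0 then (Polynomial.X : Polynomial k) else 0) ^ d = 0 := by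
      apply Finset.sum_eq_zero
      intro x hx
      rw [if_neg (Finset.ne_of_mem_erase hx), zero_pow (by omega)]
    have e2 : ∑ x ∈ Finset.univ.erase (0 : Fin n),
        (Polynomial.C (b' x) * (if x = 0 then (Polynomial.X : Polynomial k) else 0) +
          Polynomial.C (t' x)) ^ d =
        Polynomial.C (∑ x ∈ Finset.univ.erase (0 : Fin n), t' x ^ d) := by
      rw [map_sum]
      apply Finset.sum_congr rfl
      intro x hx
      rw [if_neg (Finset.ne_of_mem_erase hx), mul_zero, zero_add, Polynomial.C_pow]
    rw [e1, e2, if_pos trivial, if_neg hm0, if_neg h01.symm, zero_pow (show h1 ≠ 0 by omega),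
      zero_mul, add_zero, mul_zero, add_zero, mul_zero, zero_add, mul_zero, zero_add,
      ← Polynomial.C_pow, ← Polynomial.C_pow, ← Polynomial.C_mul, ← Polynomial.C_add,
      ← Polynomial.C_mul] at g1
    have g2 := congrArg (fun p => Polynomial.coeff p 1) g1
    simp only [Polynomial.coeff_add, Polynomial.coeff_C_mul, Polynomial.coeff_X_one,
      Polynomial.coeff_C_succ, mul_one, add_zero] at g2
    exact g2.symm
  · intro l hl
    have g1 := congrArg (R2_ev l) hrel1
    simp only [map_add, map_mul, map_sum, map_pow, R2_C, R2_X] at g1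
    have e1 : ∑ x ∈ Finset.univ.erase (0 : Fin n),
        (if x = l then (Polynomial.X : Polynomial k) else 0) ^ d = Polynomial.X ^ d := by
      rw [Finset.sum_eq_single l]
      · rw [if_pos rfl]
      · intro x _ hx
        rw [if_neg hx, zero_pow (by omega)]
      · intro h
        exact absurd (Finset.mem_erase.2 ⟨hl, Finset.mem_univ _⟩) h
    have e2 : ∑ x ∈ Finset.univ.erase (0 : Fin n),
        (Polynomial.C (b' x) * (if x = l then (Polynomial.X : Polynomial k) else 0) +
          Polynomial.C (t' x)) ^ d =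
        (Polynomial.C (b' l) * Polynomial.X + Polynomial.C (t' l)) ^ d +
        Polynomial.C (∑ x ∈ (Finset.univ.erase (0 : Fin n)).erase l, t' x ^ d) := by
      rw [← Finset.add_sum_erase _ _ (Finset.mem_erase.2 ⟨hl, Finset.mem_univ l⟩), if_pos rfl,
        map_sum]
      congr 1
      apply Finset.sum_congr rfl
      intro x hx
      rw [if_neg (Finset.ne_of_mem_erase hx), mul_zero, zero_add, Polynomial.C_pow]
    have e3 : (if (-1 : Fin n) = l then (Polynomial.X : Polynomial k) else 0) ^ h1 *
        (if (1 : Fin n) = l then (Polynomial.X : Polynomial k) else 0) ^ h2 = 0 := by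
      by_cases h : (1 : Fin n) = l
      · rw [if_neg (fun h' => hm1 (h'.trans h.symm)), zero_pow (by omega), zero_mul]
      · rw [if_neg h, zero_pow (show h2 ≠ 0 by omega), mul_zero]
    have e4 := R2X_mix l (-1) 1 hm1 (b' (-1)) (t' (-1)) (b' 1) (t' 1) h1' h2'
    rw [e1, e2, e3, if_neg (fun h => hl h.symm), zero_add, mul_zero, zero_add, add_zero] at g1
    set M := (Polynomial.C (b' (-1)) * (if (-1 : Fin n) = l then (Polynomial.X : Polynomial k)
      else 0) + Polynomial.C (t' (-1))) ^ h1' * (Polynomial.C (b' 1) *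
      (if (1 : Fin n) = l then (Polynomial.X : Polynomial k) else 0) +
        Polynomial.C (t' 1)) ^ h2' with hM
    have hmax : max h1' h2' < d - 1 := by
      rcases hP'.hh with h | h <;> omega
    have M1 : M.coeff (d - 1) = 0 := Polynomial.coeff_eq_zero_of_natDegree_lt (by omega)
    have M2 : M.coeff d = 0 := Polynomial.coeff_eq_zero_of_natDegree_lt (by omega)
    constructor
    · -- coefficient of `X ^ (d - 1)`
      have g2 := congrArg (fun p => Polynomial.coeff p (d - 1)) g1
      simp only [Polynomial.coeff_add, Polynomial.coeff_C_mul, Polynomial.coeff_X_pow,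
        R2_coeff, Polynomial.coeff_C, M1] at g2
      have q1 : ¬ (d - 1 = 0) := by omega
      have q2 : ¬ (d - 1 = d) := by omega
      rw [show d - (d - 1) = 1 by omega, pow_one,
        show d.choose (d - 1) = d by
          rw [Nat.choose_symm (by omega : 1 ≤ d)]
          exact Nat.choose_one_right d] at g2
      simp only [q1, q2, if_false, mul_zero, add_zero, zero_add] at g2
      have g3 : a' * (b' l ^ (d - 1) * t' l * (d : k)) = 0 := g2.symm
      rcases mul_eq_zero.1 g3 with h3 | h3
      · exact absurd h3 hP'.a0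
      rcases mul_eq_zero.1 h3 with h4 | h4
      · rcases mul_eq_zero.1 h4 with h5 | h5
        · exact absurd h5 (pow_ne_zero _ (hb' l))
        · exact h5
      · exact absurd h4 hP.d0
    · have g2 := congrArg (fun p => Polynomial.coeff p d) g1
      simp only [Polynomial.coeff_add, Polynomial.coeff_C_mul, Polynomial.coeff_X_pow,
        R2_coeff, Polynomial.coeff_C, M2] at g2
      have q1 : ¬ (d = 0) := by omega
      simp only [q1, if_false, if_true,
        Nat.sub_self, pow_zero, Nat.choose_self, Nat.cast_one, mul_one, add_zero, zero_add] at g2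
      first
        | exact g2
        | linear_combination g2
        | linear_combination -g2

end Pool.Agent.Work.MP_b2cdcf_full
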