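import Pool.Agent.Work.MP_b2cdcf_full.IntB

set_option autoImplicit false

open MvPolynomial

namespace Pool.Agent.Work.MP_b2cdcf_full

open Pool.Agent.Work.MP_b2cdcf_wpd

theorem REV_ext {k : Type} [Field k] {n : ℕ} {φ ψ : AutP k n} (h : ∀ i, φ (X i) = ψ (X i)) :
    φ = ψ := by
  have h1 : (φ : MvPolynomial (Fin n) k →ₐ[k] MvPolynomial (Fin n) k) = ψ := by
    apply algHom_ext
    exact h
  apply AlgEquiv.ext
  intro p
  exact DFunLike.congr_fun h1 p

theorem REV_PP {k : Type} [Field k] {n : ℕ} [NeZero n] (a : k) (h1 h2 : ℕ) :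
    rev k n (PP k n a h1 h2 1 0 (1 + 1)) = PP k n a h2 h1 0 (-1) 1 := by
  unfold PP
  have hC : rev k n (C a) = C a := (rev k n).commutes a
  rw [map_mul, map_add, map_mul, map_sum, map_pow, map_pow, rev_X, rev_X, hC]
  have hs : ∑ j ∈ Finset.univ.erase (1 : Fin n),
      rev k n ((X j : MvPolynomial (Fin n) k) ^ (h1 + h2)) =
      ∑ j ∈ Finset.univ.erase (0 : Fin n), (X j : MvPolynomial (Fin n) k) ^ (h2 + h1) := by
    apply Finset.sum_bij (fun j _ => 1 - j)
    · intro j hj
      rw [Finset.mem_erase] at hj ⊢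
      exact ⟨sub_ne_zero.2 hj.1.symm, Finset.mem_univ _⟩
    · intro j _ j' _ h
      exact sub_right_injective h
    · intro j hj
      rw [Finset.mem_erase] at hj
      refine ⟨1 - j, ?_, sub_sub_cancel _ _⟩
      rw [Finset.mem_erase]
      refine ⟨?_, Finset.mem_univ _⟩
      intro h
      exact hj.1 (sub_eq_self.mp h)
    · intro j _
      rw [map_pow, rev_X, add_comm h1 h2]
  rw [hs, sub_zero, sub_add_cancel_left, mul_comm (X (1 : Fin n) ^ h1)]

theorem p_REV : Stmt_REV := by
  intro k _ n _ hn a h1 h2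
  have hinv : ∀ i : Fin n, (Equiv.subLeft (1 : Fin n)) i = 1 - i := fun i => rfl
  have htot : ∀ V : MvPolynomial (Fin n) k, (rev k n V).totalDegree = V.totalDegree := by
    intro V
    rw [rev, renameEquiv_apply]
    have := totalDegree_renameEquiv (R := k) (Equiv.subLeft (1 : Fin n)) V
    exact this
  have hdeg : ∀ (V : MvPolynomial (Fin n) k) (q : Fin n),
      degreeOf q (rev k n V) = degreeOf (1 - q) V := by
    intro V q
    rw [rev, renameEquiv_apply]
    have h := degreeOf_rename_of_injective (p := V) (Equiv.subLeft (1 : Fin n)).injective (1 - q)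
    rw [hinv, sub_sub_cancel] at h
    exact h
  refine ⟨?_, ?_, ?_, ?_⟩
  · apply REV_ext
    intro i
    rw [AlgEquiv.mul_apply, rev_X, rev_X, sub_sub_cancel, AlgEquiv.one_apply]
  · apply REV_ext
    intro i
    rw [AlgEquiv.mul_apply, AlgEquiv.mul_apply, rev_X]
    by_cases hi : i = 1
    · subst hi
      rw [sub_self, FX_inv_zero, FX_one, map_sub, rev_X, sub_self, REV_PP]
      unfold PP
      rw [map_neg]
      ring
    · have h3 : (1 : Fin n) - i ≠ 0 := sub_ne_zero.2 (Ne.symm hi)
      rw [FX_inv_ne hn a h1 h2 h3, FX_ne hn (-a) h2 h1 hi, rev_X]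
      congr 1
      abel
  · intro φ
    constructor
    · apply le_antisymm
      · apply mdeg_le
        intro i
        unfold dg
        rw [AlgEquiv.mul_apply, rev_X]
        exact dg_le φ (1 - i)
      · apply mdeg_le
        intro i
        have h := dg_le (φ * rev k n) (1 - i)
        unfold dg at h ⊢
        rw [AlgEquiv.mul_apply, rev_X, sub_sub_cancel] at h
        exact h
    · unfold mdeg
      apply Finset.sup_congr rfl
      intro i _
      rw [AlgEquiv.mul_apply]
      exact htot _
  · intro V q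
    exact ⟨htot V, hdeg V q⟩

end Pool.Agent.Work.MP_b2cdcf_full
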