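import Pool.Agent.Work.MP_b2cdcf_full.IntB
import Pool.Agent.Work.MP_b2cdcf_wpd.Final

/-! # Block RIGP (helper47): rigidity for pairs -/

set_option autoImplicit false

open MvPolynomial

noncomputable section

namespace Pool.Agent.Work.MP_b2cdcf_full

open Pool.Agent.Work.MP_b2cdcf_wpd

variable {k : Type} [Field k] {n : ℕ}

theorem RIGP_ext {φ ψ : AutP k n} (h : ∀ i, φ (X i) = ψ (X i)) : φ = ψ := by
  have h1 : (φ : MvPolynomial (Fin n) k →ₐ[k] MvPolynomial (Fin n) k) =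
      (ψ : MvPolynomial (Fin n) k →ₐ[k] MvPolynomial (Fin n) k) := algHom_ext h
  apply AlgEquiv.ext
  intro p
  exact congrArg (fun f : MvPolynomial (Fin n) k →ₐ[k] MvPolynomial (Fin n) k => f p) h1

/-- the homothety multiplies `PP` by `ζ^d` -/
theorem RIGP_PP (μ : AutP k n) (ζ : k) (hμ : ∀ i, μ (X i) = C ζ * X i) (a : k) (h1 h2 : ℕ)
    (r u v : Fin n) : μ (PP k n a h1 h2 r u v) = C (ζ ^ (h1 + h2)) * PP k n a h1 h2 r u v := by
  have hC : ∀ b, μ (C b) = C b := fun b => μ.commutes b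
  have hs : ∑ j ∈ Finset.univ.erase r, μ ((X j : MvPolynomial (Fin n) k) ^ (h1 + h2)) =
      C (ζ ^ (h1 + h2)) *
        ∑ j ∈ Finset.univ.erase r, (X j : MvPolynomial (Fin n) k) ^ (h1 + h2) := by
    rw [Finset.mul_sum]
    refine Finset.sum_congr rfl fun j _ => ?_
    rw [map_pow, hμ, mul_pow, C_pow]
  rw [PP, map_mul, hC, map_add, map_sum, hs, map_mul, map_pow μ (X u), map_pow μ (X v), hμ, hμ,
    mul_pow, mul_pow, C_pow, pow_add]
  ring

theorem p_RIGP (hCTX : Stmt_CTXX) (hCONST : Stmt_CONSTP) (hRIG : Stmt_RIGX) : Stmt_RIGP := by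
  intro k _ n _ hn a a' h1 h2 h1' h2' hP hP' hdd B
  have hctx := hCTX k n hn a h1 h2 hP
  have hctx' := hCTX k n hn a' h1' h2' hP'
  rw [← hdd] at hctx'
  obtain ⟨M0, hM0⟩ := hCONST k n (h1 + h2 - n + 1) (h1 + h2) (FX k n hn a h1 h2)
    (FX k n hn a' h1' h2') 0 1 hctx hctx' B (4 * n)
  refine ⟨M0, ?_⟩
  intro M hM φ c1 c2 c3 c4
  obtain ⟨J, b, hJ⟩ := hM0 M hM φ c1 c2 c3 c4
  set F := FX k n hn a h1 h2 with hF
  set F' := FX k n hn a' h1' h2' with hF'
  obtain ⟨e1, ζ, e2, e3⟩ := hRIG k n hn a a' h1 h2 h1' h2' hP hP' hdd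
    (fun j => F ^ (J + j) * φ * (F' ^ (J + j))⁻¹ * F' ^ b)
    (fun j hj i => hJ (J + j) (by omega) (by omega) i)
    (by
      intro j _
      show F * (F ^ (J + j) * φ * (F' ^ (J + j))⁻¹ * F' ^ b) =
        F ^ (J + (j + 1)) * φ * (F' ^ (J + (j + 1)))⁻¹ * F' ^ b * F'
      have g1 : F ^ (J + (j + 1)) = F * F ^ (J + j) := by rw [← pow_succ']; congr 1
      have g2 : (F' ^ (J + (j + 1)))⁻¹ * F' ^ b * F' = (F' ^ (J + j))⁻¹ * F' ^ b := by
        rw [← zpow_natCast, ← zpow_natCast, ← zpow_neg, ← zpow_neg, ← zpow_add, ← zpow_add_one,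
          ← zpow_add]
        congr 1
        push_cast
        ring
      rw [g1]
      calc F * (F ^ (J + j) * φ * (F' ^ (J + j))⁻¹ * F' ^ b)
          = F * F ^ (J + j) * φ * ((F' ^ (J + j))⁻¹ * F' ^ b) := by simp only [mul_assoc]
        _ = F * F ^ (J + j) * φ * ((F' ^ (J + (j + 1)))⁻¹ * F' ^ b * F') := by rw [g2]
        _ = _ := by simp only [mul_assoc])
  set N := J + 2 * n with hN
  set μ : AutP k n := F ^ N * φ * (F' ^ N)⁻¹ * F' ^ b with hμdef
  have e2' : a' * ζ ^ (h1 + h2) = a * ζ := by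
    have h3 : 1 ≤ h1 + h2 := by have := hP.h1pos; omega
    rw [← e2, mul_assoc, ← pow_succ]
    congr 2
    omega
  have h22 : h2 = h2' := by omega
  -- the commutation
  have hcomm : F * μ = μ * F' := by
    apply RIGP_ext
    intro i
    rw [aut_mul_apply F μ, aut_mul_apply μ F', e3, map_mul]
    have hC : ∀ (G : AutP k n) (c : k), G (C c) = C c := fun G c => G.commutes c
    rw [hC]
    by_cases hi : i = 1
    · rw [hi, hF, hF', FX_one, FX_one, map_add, e3, RIGP_PP μ ζ e3, ← e1, ← h22, mul_add]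
      congr 1
      rw [PP, PP, ← mul_assoc, ← mul_assoc, ← C_mul, ← C_mul]
      congr 2
      rw [mul_comm ζ a, ← e2', mul_comm]
    · rw [hF, hF', FX_ne hn a _ _ hi, FX_ne hn a' _ _ hi, e3]
  have hpow : ∀ b : ℤ, F ^ b * μ = μ * F' ^ b := by
    have hsc : SemiconjBy μ F' F := hcomm.symm
    intro b
    exact ((hsc.zpow_right b).eq).symm
  refine ⟨e1, ζ, -b, e2, ?_⟩
  have hφ : φ = F ^ (-b) * μ := by
    have g1 : μ = F ^ (N : ℤ) * φ * F' ^ (-(N : ℤ) + b) := by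
      rw [hμdef, zpow_add, zpow_neg, zpow_natCast, zpow_natCast]
      simp only [mul_assoc]
    have g2 : φ = F ^ (-(N : ℤ)) * μ * F' ^ ((N : ℤ) - b) := by
      rw [g1]
      have g3 : F' ^ (-(N : ℤ) + b) * F' ^ ((N : ℤ) - b) = 1 := by
        rw [← zpow_add]
        have : -(N : ℤ) + b + ((N : ℤ) - b) = 0 := by ring
        rw [this, zpow_zero]
      have g4 : F ^ (-(N : ℤ)) * F ^ (N : ℤ) = 1 := by
        rw [← zpow_add, neg_add_cancel, zpow_zero]
      calc φ = 1 * φ * 1 := by rw [one_mul, mul_one]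
        _ = F ^ (-(N : ℤ)) * F ^ (N : ℤ) * φ * (F' ^ (-(N : ℤ) + b) * F' ^ ((N : ℤ) - b)) := by
          rw [g3, g4]
        _ = _ := by simp only [mul_assoc]
    rw [g2, hpow, mul_assoc, ← zpow_add, hpow]
    congr 2
    ring
  intro i
  conv_lhs => rw [hφ]
  rw [aut_mul_apply (F ^ (-b)) μ, e3, map_mul]
  congr 1
  exact (F ^ (-b)).commutes ζ

end Pool.Agent.Work.MP_b2cdcf_full
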