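import Pool.Agent.Work.MP_b2cdcf_full.IntC

set_option autoImplicit false

open MvPolynomial

noncomputable section

namespace Pool.Agent.Work.MP_b2cdcf_full

open Pool.Agent.Work.MP_b2cdcf_wpd

theorem RN_pow (k : Type) [Field k] (p : ℕ) [Fact p.Prime] [CharP k p] (n r : ℕ)
    (f : MvPolynomial (Fin n) k) :
    f ^ p ^ r ∈ (expand (σ := Fin n) (R := k) (p ^ r)).range := by
  induction f using MvPolynomial.induction_on with
  | C a =>
    rw [← C_pow]
    exact ⟨C (a ^ p ^ r), by simp⟩
  | add f g hf hg =>
    rw [add_pow_char_pow]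
    exact Subalgebra.add_mem _ hf hg
  | mul_X f i hf =>
    rw [mul_pow]
    refine Subalgebra.mul_mem _ hf ⟨X i, ?_⟩
    simp

theorem p_RN : Stmt_RN := by
  intro k _ p _ _ n r φ Q
  have key : φ (expand (p ^ r) Q) ∈ (expand (σ := Fin n) (R := k) (p ^ r)).range := by
    induction Q using MvPolynomial.induction_on with
    | C a =>
      have h1 : φ (expand (p ^ r) (C a : MvPolynomial (Fin n) k)) = C a := by
        rw [expand_C]
        exact φ.commutes a
      rw [h1]
      exact ⟨C a, by simp⟩
    | add f g hf hg =>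
      rw [map_add, map_add]
      exact Subalgebra.add_mem _ hf hg
    | mul_X f i hf =>
      rw [map_mul, map_mul, expand_X, map_pow]
      exact Subalgebra.mul_mem _ hf (RN_pow k p n r _)
  obtain ⟨Q', hQ'⟩ := key
  exact ⟨Q', hQ'.symm⟩

end Pool.Agent.Work.MP_b2cdcf_full
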