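import Pool.Agent.Work.MP_b2cdcf_full.IntB

/-!
# SEQ: the degree sequences along the axis (helper29)
-/

set_option autoImplicit false

open MvPolynomial

noncomputable section

namespace Pool.Agent.Work.MP_b2cdcf_full

open Pool.Agent.Work.MP_b2cdcf_wpd

section
variable {k : Type} [Field k] {n : ℕ} [NeZero n]

/-- the sequence of polynomials -/
def SEQ_V (hn : 3 ≤ n) (a : k) (h1 h2 : ℕ) (U : MvPolynomial (Fin n) k) (m : ℤ) :
    MvPolynomial (Fin n) k := ((FX k n hn a h1 h2) ^ (-m)) U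

theorem SEQ_step (hn : 3 ≤ n) (a : k) (h1 h2 : ℕ) (U : MvPolynomial (Fin n) k) (m : ℤ) :
    SEQ_V hn a h1 h2 U (m - 1) = FX k n hn a h1 h2 (SEQ_V hn a h1 h2 U m) := by
  unfold SEQ_V
  have h : -(m - 1) = 1 + -m := by ring
  rw [h, zpow_add, zpow_one, aut_mul_apply]

theorem SEQ_back (hn : 3 ≤ n) (a : k) (h1 h2 : ℕ) (U : MvPolynomial (Fin n) k) (m : ℤ) :
    ((FX k n hn a h1 h2) ^ m) (SEQ_V hn a h1 h2 U m) = U := by
  unfold SEQ_V
  rw [← aut_mul_apply, ← zpow_add, add_neg_cancel, zpow_zero, AlgEquiv.one_apply]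

theorem SEQ_one_le (hn : 3 ≤ n) (a : k) (h1 h2 : ℕ) (U : MvPolynomial (Fin n) k)
    (hU : 1 ≤ U.totalDegree) (m : ℤ) : 1 ≤ (SEQ_V hn a h1 h2 U m).totalDegree := by
  by_contra h
  have h0 : (SEQ_V hn a h1 h2 U m).totalDegree = 0 := by omega
  rw [totalDegree_eq_zero_iff_eq_C] at h0
  have h3 := SEQ_back hn a h1 h2 U m
  rw [h0] at h3
  have h4 : ((FX k n hn a h1 h2) ^ m) (C (coeff 0 (SEQ_V hn a h1 h2 U m))) =
      C (coeff 0 (SEQ_V hn a h1 h2 U m)) := ((FX k n hn a h1 h2) ^ m).commutes _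
  rw [h4] at h3
  rw [← h3, totalDegree_C] at hU
  omega

theorem SEQ_half (hED : Stmt_EDEG) (hTAU : Stmt_TAU) (hE1 : Stmt_E1X) (hn : 3 ≤ n) (a : k)
    (ha : a ≠ 0) (h1 h2 : ℕ) (p1 : 1 ≤ h1) (p2 : 1 ≤ h2) (U : MvPolynomial (Fin n) k)
    (hU : 1 ≤ U.totalDegree) :
    LHalf ((h1 + h2 : ℕ) : ℤ) (fun m => ((SEQ_V hn a h1 h2 U m).totalDegree : ℤ))
      (fun m => (degreeOf 1 (SEQ_V hn a h1 h2 U m) : ℤ)) where
  b0 m := Int.natCast_nonneg _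
  ba m := by
    have := degreeOf_le_totalDegree (SEQ_V hn a h1 h2 U m) 1
    exact_mod_cast this
  a1 m := by
    have := SEQ_one_le hn a h1 h2 U hU m
    exact_mod_cast this
  e1 m := by
    have h3 := hE1 k n a h1 h2 hn ha p1 p2 (SEQ_V hn a h1 h2 U m)
    have h4 := (hTAU k n hn a h1 h2 (SEQ_V hn a h1 h2 U m)).1 1
    rw [← h4, ← SEQ_step] at h3
    exact h3
  e2 m := by
    have h3 := (hED k n hn a h1 h2 p1 p2 (SEQ_V hn a h1 h2 U m)).2.1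
    rw [← SEQ_step] at h3
    show ((SEQ_V hn a h1 h2 U (m - 1)).totalDegree : ℤ) ≤
      ((SEQ_V hn a h1 h2 U m).totalDegree : ℤ) + (((h1 + h2 : ℕ) : ℤ) - 1) *
        (degreeOf 1 (SEQ_V hn a h1 h2 U m) : ℤ)
    have h4 : (((h1 + h2 : ℕ) : ℤ) - 1) = ((h1 + h2 - 1 : ℕ) : ℤ) := by omega
    rw [h4]
    exact_mod_cast h3

theorem SEQ_zero (hED : Stmt_EDEG) (hn : 3 ≤ n) (a : k) (h1 h2 : ℕ) (p1 : 1 ≤ h1)
    (p2 : 1 ≤ h2) (U : MvPolynomial (Fin n) k) (m : ℤ) :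
    degreeOf 0 (SEQ_V hn a h1 h2 U m) = degreeOf 1 (SEQ_V hn a h1 h2 U (m + 1)) := by
  have h := (hED k n hn a h1 h2 p1 p2 (SEQ_V hn a h1 h2 U (m + 1))).1
  rw [← SEQ_step, add_sub_cancel_right] at h
  exact h

theorem SEQ_rev (hREV : Stmt_REV) (hn : 3 ≤ n) (a : k) (h1 h2 : ℕ)
    (U : MvPolynomial (Fin n) k) (m : ℤ) :
    SEQ_V hn (-a) h2 h1 (rev k n U) m = rev k n (SEQ_V hn a h1 h2 U (-m)) := by
  obtain ⟨r1, r2, -, -⟩ := hREV k n hn a h1 h2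
  have hrev : (rev k n)⁻¹ = rev k n := inv_eq_of_mul_eq_one_right r1
  unfold SEQ_V
  rw [← r2]
  have h3 : (rev k n * (FX k n hn a h1 h2)⁻¹ * rev k n) =
      rev k n * (FX k n hn a h1 h2)⁻¹ * (rev k n)⁻¹ := by rw [hrev]
  rw [h3, conj_zpow, hrev, ← aut_mul_apply, ← aut_mul_apply, mul_assoc, r1, mul_one, inv_zpow,
    ← zpow_neg]

end

theorem p_SEQ (hNEG : Stmt_NEG) (hCONV : Stmt_CONV) (hREV : Stmt_REV) (hED : Stmt_EDEG)
    (hTAU : Stmt_TAU) (hE1 : Stmt_E1X) (hE3 : Stmt_E3X) (hE4 : Stmt_E4S) : Stmt_SEQ := by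
  intro k _ n _ hn a h1 h2 hP U hU
  have q1 := hP.h1pos
  have q2 := hP.h2pos
  have p1 : 1 ≤ h1 := by omega
  have p2 : 1 ≤ h2 := by omega
  set A : ℤ → ℤ := fun m => ((SEQ_V hn a h1 h2 U m).totalDegree : ℤ) with hA
  set b : ℤ → ℤ := fun m => (degreeOf 1 (SEQ_V hn a h1 h2 U m) : ℤ) with hb
  have L1 : LHalf ((h1 + h2 : ℕ) : ℤ) A b := SEQ_half hED hTAU hE1 hn a hP.a0 h1 h2 p1 p2 U hU
  have hzero : ∀ m, (degreeOf 0 (SEQ_V hn a h1 h2 U m) : ℤ) = b (m + 1) := by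
    intro m
    rw [SEQ_zero hED hn a h1 h2 p1 p2]
  have hrevU : 1 ≤ (rev k n U).totalDegree := by
    rw [((hREV k n hn a h1 h2).2.2.2 U 0).1]
    exact hU
  have L2 : LHalf ((h1 + h2 : ℕ) : ℤ) (fun m => A (-m)) (fun m => b (1 - m)) := by
    have h := SEQ_half hED hTAU hE1 hn (-a) (neg_ne_zero.2 hP.a0) h2 h1 p2 p1 (rev k n U) hrevU
    have e1 : (fun m : ℤ => ((SEQ_V hn (-a) h2 h1 (rev k n U) m).totalDegree : ℤ)) =
        fun m => A (-m) := by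
      funext m
      rw [SEQ_rev hREV, ((hREV k n hn a h1 h2).2.2.2 _ 0).1]
    have e2 : (fun m : ℤ => (degreeOf 1 (SEQ_V hn (-a) h2 h1 (rev k n U) m) : ℤ)) =
        fun m => b (1 - m) := by
      funext m
      rw [SEQ_rev hREV, ((hREV k n hn a h1 h2).2.2.2 _ 1).2, sub_self, hzero]
      congr 1
      ring
    rw [e1, e2, add_comm h2 h1] at h
    exact h
  refine ⟨?_, ?_, ?_⟩
  · intro m
    have hmin : ∃ h : ℕ, 1 ≤ h ∧ h ≤ h1 ∧ h ≤ h2 ∧ h1 + h2 = 2 * h + 1 ∧ 100 * n ^ 2 ≤ h := by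
      rcases hP.hh with h | h
      · exact ⟨h2, p2, by omega, le_refl _, by omega, hP.l2⟩
      · exact ⟨h1, p1, le_refl _, by omega, by omega, hP.l1⟩
    obtain ⟨h, c1, c2, c3, c4, c5⟩ := hmin
    have e3 : ∀ m, (h : ℤ) * b m ≤ b (m - 1) + b (m + 1) := by
      intro m
      have h3 := hE3 k n a h h1 h2 hn hP.a0 c1 c2 c3 c4 (SEQ_V hn a h1 h2 U m)
      have h4 := (hTAU k n hn a h1 h2 (SEQ_V hn a h1 h2 U m)).1 1
      rw [← h4, ← SEQ_step, SEQ_zero hED hn a h1 h2 p1 p2] at h3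
      have h5 : (h : ℤ) * b m ≤ b (m + 1) + b (m - 1) := by
        show (h : ℤ) * (degreeOf 1 (SEQ_V hn a h1 h2 U m) : ℤ) ≤
          (degreeOf 1 (SEQ_V hn a h1 h2 U (m + 1)) : ℤ) +
            (degreeOf 1 (SEQ_V hn a h1 h2 U (m - 1)) : ℤ)
        exact_mod_cast h3
      linarith
    have e4 : ∀ m, A m ≤ n * ((h1 + h2 : ℕ) : ℤ) * ∑ i ∈ Finset.range n, b (m - i) := by
      intro m
      have h3 := hE4 k n hn a h1 h2 p1 p2 U m
      have h4 : ((n * (h1 + h2) * ∑ i ∈ Finset.range n,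
          degreeOf 1 (((FX k n hn a h1 h2) ^ (-(m - i))) U) : ℕ) : ℤ) =
          n * ((h1 + h2 : ℕ) : ℤ) * ∑ i ∈ Finset.range n, b (m - i) := by
        rw [Nat.cast_mul, Nat.cast_mul, Nat.cast_sum]
        rfl
      rw [← h4]
      exact Int.ofNat_le.2 h3
    have hc := hCONV n h ((h1 + h2 : ℕ) : ℤ) A b hn (by exact_mod_cast c5) (by
      rw [c4]; push_cast; ring) L1 L2 e3 e4 m
    rcases hc with hc | hc
    · left
      unfold NE
      have h3 := hzero (m + 2)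
      have h4 : m + 2 + 1 = m + 3 := by ring
      rw [h4] at h3
      rw [← h3] at hc
      have h5 : 5 * ((SEQ_V hn a h1 h2 U (m + 2)).totalDegree : ℤ) ≤
          6 * (degreeOf 0 (SEQ_V hn a h1 h2 U (m + 2)) : ℤ) := hc
      exact_mod_cast h5
    · right
      unfold NE
      have h5 : 5 * ((SEQ_V hn a h1 h2 U (m - n - 2)).totalDegree : ℤ) ≤
          6 * (degreeOf 1 (SEQ_V hn a h1 h2 U (m - n - 2)) : ℤ) := hc
      exact_mod_cast h5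
  · intro m hm s
    have hm' : 5 * A m ≤ 6 * b m := by
      unfold NE at hm
      show 5 * ((SEQ_V hn a h1 h2 U m).totalDegree : ℤ) ≤
        6 * (degreeOf 1 (SEQ_V hn a h1 h2 U m) : ℤ)
      exact_mod_cast hm
    have h3 := (hNEG ((h1 + h2 : ℕ) : ℤ) A b (by push_cast; omega) L1 m hm').2 s
    have h4 : 2 * ((h1 + h2 : ℕ) : ℤ) ^ s * ((SEQ_V hn a h1 h2 U m).totalDegree : ℤ) ≤
        3 * ((SEQ_V hn a h1 h2 U (m - s)).totalDegree : ℤ) := h3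
    exact_mod_cast h4
  · intro m hm s
    have hm' : 5 * A (-(-m)) ≤ 6 * b (1 - (-m)) := by
      unfold NE at hm
      rw [neg_neg, sub_neg_eq_add, add_comm 1 m, ← hzero m]
      show 5 * ((SEQ_V hn a h1 h2 U m).totalDegree : ℤ) ≤
        6 * (degreeOf 0 (SEQ_V hn a h1 h2 U m) : ℤ)
      exact_mod_cast hm
    have h3 := (hNEG ((h1 + h2 : ℕ) : ℤ) (fun m => A (-m)) (fun m => b (1 - m))
      (by push_cast; omega) L2 (-m) hm').2 s
    have h5 : -(-m - (s : ℤ)) = m + s := by ring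
    have h6 : 2 * ((h1 + h2 : ℕ) : ℤ) ^ s * A (-(-m)) ≤ 3 * A (-(-m - (s : ℤ))) := h3
    rw [h5, neg_neg] at h6
    have h4 : 2 * ((h1 + h2 : ℕ) : ℤ) ^ s * ((SEQ_V hn a h1 h2 U m).totalDegree : ℤ) ≤
        3 * ((SEQ_V hn a h1 h2 U (m + s)).totalDegree : ℤ) := h6
    exact_mod_cast h4

end Pool.Agent.Work.MP_b2cdcf_full
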