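import Pool.Agent.Work.MP_b2cdcf_full.IntC

/-! # Block TCOM (helper6): the operator `TT` commutes with automorphisms up to a constant -/

set_option autoImplicit false

open MvPolynomial

noncomputable section

namespace Pool.Agent.Work.MP_b2cdcf_full

open Pool.Agent.Work.MP_b2cdcf_wpd

theorem TCOM_dual (h1 : Stmt_TLIN) (h2 : Stmt_TDUAL) (h3 : Stmt_RN) (k : Type) [Field k] (p : ℕ)
    [Fact p.Prime] [CharP k p] (n r : ℕ) (φ : AutP k n) :
    ∃ g, ∀ f, φ (TT k n (p ^ r) (φ.symm f)) = TT k n (p ^ r) (g * f) := by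
  have hN : 0 < p ^ r := pow_pos (Fact.out : p.Prime).pos r
  obtain ⟨a1, a2, a3, a4⟩ := h1 k n (p ^ r) hN
  refine h2 k n (p ^ r) hN (fun f => φ (TT k n (p ^ r) (φ.symm f))) ?_ ?_ ?_
  · intro f g
    show φ (TT k n (p ^ r) (φ.symm (f + g))) = _
    rw [map_add, map_add, map_add]
  · intro Q f
    obtain ⟨Q', hQ'⟩ := h3 k p n r φ.symm Q
    show φ (TT k n (p ^ r) (φ.symm (expand (p ^ r) Q * f))) = _
    rw [map_mul, hQ', a1, map_mul, ← hQ', AlgEquiv.apply_symm_apply]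
  · intro f
    obtain ⟨Q, hQ⟩ := a2 (φ.symm f)
    obtain ⟨Q', hQ'⟩ := h3 k p n r φ Q
    exact ⟨Q', by show φ (TT k n (p ^ r) (φ.symm f)) = _; rw [hQ, hQ']⟩

theorem p_TCOM (h1 : Stmt_TLIN) (h2 : Stmt_TDUAL) (h3 : Stmt_RN) : Stmt_TCOM := by
  intro k _ p _ _ n r φ
  have hN : 0 < p ^ r := pow_pos (Fact.out : p.Prime).pos r
  obtain ⟨g, hg⟩ := TCOM_dual h1 h2 h3 k p n r φ
  obtain ⟨g', hg'⟩ := TCOM_dual h1 h2 h3 k p n r φ.symm
  obtain ⟨a1, a2, a3, a4⟩ := h1 k n (p ^ r) hN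
  have hT : ∀ f, TT k n (p ^ r) f = TT k n (p ^ r) (g * (φ g' * f)) := by
    intro f
    rw [← hg, map_mul, AlgEquiv.symm_apply_apply, ← hg', AlgEquiv.symm_symm,
      AlgEquiv.apply_symm_apply, AlgEquiv.apply_symm_apply]
  have hgg : g * φ g' = 1 := by
    have h : (1 - g * φ g') = 0 := by
      apply a4
      intro f
      rw [sub_mul, one_mul, map_sub, mul_assoc, ← hT, sub_self]
    exact (sub_eq_zero.1 h).symm
  have hu : IsUnit g := IsUnit.of_mul_eq_one _ hgg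
  rw [isUnit_iff_eq_C_of_isReduced] at hu
  obtain ⟨c, hc, rfl⟩ := hu
  refine ⟨c, hc.ne_zero, fun V => ?_⟩
  have h := hg (φ V)
  rw [AlgEquiv.symm_apply_apply] at h
  rw [h, ← smul_eq_C_mul, map_smul, smul_eq_C_mul]

end Pool.Agent.Work.MP_b2cdcf_full
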