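import Pool.Agent.Work.MP_b2cdcf_full.IntC

set_option autoImplicit false

open MvPolynomial

noncomputable section

namespace Pool.Agent.Work.MP_b2cdcf_full

open Pool.Agent.Work.MP_b2cdcf_wpd

/-- the exponent `δ` -/
def TDUAL_m {n N : ℕ} (δ : Fin n → Fin N) : Fin n →₀ ℕ :=
  Finsupp.equivFunOnFinite.symm fun i => (δ i : ℕ)

/-- the exponent `N - 1 - δ` -/
def TDUAL_c {n N : ℕ} (δ : Fin n → Fin N) : Fin n →₀ ℕ :=
  Finsupp.equivFunOnFinite.symm fun i => N - 1 - (δ i : ℕ)

theorem TDUAL_m_apply {n N : ℕ} (δ : Fin n → Fin N) (i : Fin n) :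
    TDUAL_m δ i = (δ i : ℕ) := rfl

theorem TDUAL_c_apply {n N : ℕ} (δ : Fin n → Fin N) (i : Fin n) :
    TDUAL_c δ i = N - 1 - (δ i : ℕ) := rfl

theorem TDUAL_pair (k : Type) [Field k] {n N : ℕ} (δ δ' : Fin n → Fin N) :
    TT k n N (monomial (TDUAL_c δ + TDUAL_m δ') 1) = if δ = δ' then 1 else 0 := by
  rw [TT_monomial]
  by_cases h : δ = δ'
  · subst h
    have h1 : ∀ i, TDUAL_c δ i + TDUAL_m δ i = N - 1 := by
      intro i
      rw [TDUAL_c_apply, TDUAL_m_apply]
      have := (δ i).isLt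
      omega
    have h2 : ∀ i, (TDUAL_c δ + TDUAL_m δ) i % N = N - 1 := by
      intro i
      rw [Finsupp.add_apply, h1 i]
      have := (δ i).isLt
      exact Nat.mod_eq_of_lt (by omega)
    rw [if_pos h2, if_pos rfl]
    have h3 : TDUAL_c δ + TDUAL_m δ - on n N = 0 := by
      ext i
      rw [Finsupp.tsub_apply, Finsupp.add_apply, h1 i, on_apply]
      simp
    rw [h3]
    rfl
  · rw [if_neg h, if_neg]
    intro hall
    apply h
    funext i
    have h1 := hall i
    rw [Finsupp.add_apply, TDUAL_c_apply, TDUAL_m_apply] at h1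
    have h2 := (δ i).isLt
    have h3 := (δ' i).isLt
    apply Fin.ext
    by_cases h4 : N - 1 - (δ i : ℕ) + (δ' i : ℕ) < N
    · rw [Nat.mod_eq_of_lt h4] at h1
      omega
    · rw [Nat.mod_eq_sub_mod (by omega), Nat.mod_eq_of_lt (by omega)] at h1
      omega

theorem p_TDUAL (h1 : Stmt_TLIN) : Stmt_TDUAL := by
  intro k _ n N hN l hadd hlin hex
  obtain ⟨hT, -, -, -⟩ := h1 k n N hN
  refine ⟨∑ δ : Fin n → Fin N, l (monomial (TDUAL_m δ) 1) * monomial (TDUAL_c δ) 1, ?_⟩
  set g : MvPolynomial (Fin n) k :=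
    ∑ δ : Fin n → Fin N, l (monomial (TDUAL_m δ) 1) * monomial (TDUAL_c δ) 1 with hg
  have key : ∀ δ' : Fin n → Fin N,
      TT k n N (g * monomial (TDUAL_m δ') 1) = l (monomial (TDUAL_m δ') 1) := by
    intro δ'
    rw [hg, Finset.sum_mul, map_sum]
    have h2 : ∀ δ : Fin n → Fin N,
        TT k n N (l (monomial (TDUAL_m δ) 1) * monomial (TDUAL_c δ) 1 *
          monomial (TDUAL_m δ') 1) =
        if δ = δ' then l (monomial (TDUAL_m δ) 1) else 0 := by
      intro δ
      obtain ⟨Q, hQ⟩ := hex (monomial (TDUAL_m δ) 1)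
      rw [mul_assoc, monomial_mul, one_mul]
      rw [hQ, hT, TDUAL_pair]
      split_ifs
      · rw [mul_one]
      · rw [mul_zero]
    rw [Finset.sum_congr rfl fun δ _ => h2 δ, Finset.sum_ite_eq' Finset.univ δ']
    simp
  intro f
  induction f using MvPolynomial.induction_on' with
  | add p q hp hq =>
    rw [hadd, hp, hq, mul_add, map_add]
  | monomial s c =>
    have e1 : (monomial s c : MvPolynomial (Fin n) k) =
        expand N (monomial (Finsupp.equivFunOnFinite.symm fun i => s i / N) c) *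
          monomial (TDUAL_m fun i => ⟨s i % N, Nat.mod_lt _ hN⟩) 1 := by
      rw [expand_monomial, monomial_mul, mul_one]
      have h3 : (N • (Finsupp.equivFunOnFinite.symm fun i => s i / N) +
          TDUAL_m fun i => ⟨s i % N, Nat.mod_lt _ hN⟩) = s := by
        ext i
        rw [Finsupp.add_apply, Finsupp.smul_apply, TDUAL_m_apply, smul_eq_mul]
        exact Nat.div_add_mod (s i) N
      rw [h3]
    rw [e1, hlin, mul_left_comm, hT, key]

end Pool.Agent.Work.MP_b2cdcf_full
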