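import Pool.Agent.Work.MP_b2cdcf_full.IntC

set_option autoImplicit false

open MvPolynomial

noncomputable section

namespace Pool.Agent.Work.MP_b2cdcf_full

open Pool.Agent.Work.MP_b2cdcf_wpd

variable {k : Type} [Field k] {n : ℕ}

theorem TLIN_one {N : ℕ} (Q f : MvPolynomial (Fin n) k) :
    TT k n N (expand N Q * f) = expand N Q * TT k n N f := by
  induction Q using MvPolynomial.induction_on' with
  | add p q hp hq => rw [map_add, add_mul, map_add, hp, hq, add_mul]
  | monomial s c =>
    induction f using MvPolynomial.induction_on' with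
    | add p q hp hq => rw [mul_add, map_add, hp, hq, map_add, mul_add]
    | monomial t d =>
      rw [expand_monomial, monomial_mul, TT_monomial, TT_monomial]
      have key : ∀ i, (N • s + t) i % N = t i % N := by
        intro i
        rw [Finsupp.add_apply, Finsupp.smul_apply, smul_eq_mul, Nat.mul_add_mod]
      by_cases h : ∀ i, t i % N = N - 1
      · rw [if_pos h, if_pos (fun i => (key i).trans (h i)), monomial_mul]
        have h3 : N • s + t - on n N = N • s + (t - on n N) := by
          ext i
          rw [Finsupp.tsub_apply, Finsupp.add_apply, Finsupp.add_apply, Finsupp.tsub_apply,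
            on_apply]
          have h1 := h i
          have h2 := Nat.mod_le (t i) N
          omega
        rw [h3]
      · rw [if_neg h, if_neg (fun h' => h fun i => (key i).symm.trans (h' i)), mul_zero]

theorem TLIN_two {N : ℕ} (f : MvPolynomial (Fin n) k) : ∃ Q, TT k n N f = expand N Q := by
  induction f using MvPolynomial.induction_on' with
  | add p q hp hq =>
    obtain ⟨P, hP⟩ := hp
    obtain ⟨Q, hQ⟩ := hq
    exact ⟨P + Q, by rw [map_add, map_add, hP, hQ]⟩
  | monomial s c =>
    rw [TT_monomial]
    by_cases h : ∀ i, s i % N = N - 1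
    · rw [if_pos h]
      refine ⟨monomial (Finsupp.equivFunOnFinite.symm fun i => s i / N) c, ?_⟩
      rw [expand_monomial]
      have h3 : s - on n N = N • (Finsupp.equivFunOnFinite.symm fun i => s i / N) := by
        ext i
        rw [Finsupp.tsub_apply, on_apply, Finsupp.smul_apply, smul_eq_mul]
        have h1 := Nat.div_add_mod (s i) N
        rw [h i] at h1
        change s i - (N - 1) = N * (s i / N)
        omega
      rw [h3]
    · rw [if_neg h]
      exact ⟨0, by rw [map_zero]⟩

theorem TLIN_sum (s : Fin n →₀ ℕ) : (s.sum fun _ e => e) = ∑ i, s i :=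
  Finsupp.sum_fintype _ _ fun _ => rfl

theorem TLIN_three {N : ℕ} (hN : 0 < N) (f : MvPolynomial (Fin n) k) (h : TT k n N f ≠ 0) :
    (TT k n N f).totalDegree + n * (N - 1) ≤ f.totalDegree := by
  obtain ⟨u, hu, hd⟩ := Finset.exists_mem_eq_sup _
    (Finset.nonempty_iff_ne_empty.2 fun h' => h (support_eq_empty.1 h'))
    (fun s : Fin n →₀ ℕ => s.sum fun _ e => e)
  have h1 : (TT k n N f).totalDegree = u.sum fun _ e => e := hd
  rw [mem_support_iff, TT_coeff hN] at hu
  have h2 : coeff (u + on n N) f ≠ 0 := fun h' => hu (by rw [h']; simp)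
  have h3 := le_totalDegree (mem_support_iff.2 h2)
  rw [TLIN_sum] at h3 h1
  rw [h1]
  calc ∑ i, u i + n * (N - 1) = ∑ i, (u + on n N) i := by
        rw [← Finset.sum_congr rfl fun i _ => (by
          rw [Finsupp.add_apply, on_apply] : (u + on n N) i = u i + (N - 1)).symm,
          Finset.sum_add_distrib]
        simp
    _ ≤ _ := h3

theorem TLIN_four {N : ℕ} (hN : 0 < N) (h : MvPolynomial (Fin n) k)
    (hh : ∀ f, TT k n N (h * f) = 0) : h = 0 := by
  ext s
  rw [coeff_zero]
  have h1 := hh (monomial (Finsupp.equivFunOnFinite.symm fun i => N - 1 - s i % N) 1)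
  have h2 : coeff (Finsupp.equivFunOnFinite.symm fun i => s i - s i % N) (TT k n N
      (h * monomial (Finsupp.equivFunOnFinite.symm fun i => N - 1 - s i % N) 1)) = 0 := by
    rw [h1, coeff_zero]
  rw [TT_coeff hN, if_pos] at h2
  · have h3 : (Finsupp.equivFunOnFinite.symm fun i => s i - s i % N : Fin n →₀ ℕ) + on n N =
        s + Finsupp.equivFunOnFinite.symm fun i => N - 1 - s i % N := by
      ext i
      rw [Finsupp.add_apply, Finsupp.add_apply, on_apply]
      change s i - s i % N + (N - 1) = s i + (N - 1 - s i % N)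
      have h4 := Nat.mod_le (s i) N
      have h5 := Nat.mod_lt (s i) hN
      omega
    rw [h3, coeff_mul_monomial, mul_one] at h2
    exact h2
  · intro i
    exact Nat.dvd_sub_mod (s i)

theorem p_TLIN : Stmt_TLIN := fun _ _ _ _ hN =>
  ⟨fun Q f => TLIN_one Q f, fun f => TLIN_two f, fun f h => TLIN_three hN f h,
    fun h hh => TLIN_four hN h hh⟩

end Pool.Agent.Work.MP_b2cdcf_full
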