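import Pool.Agent.Work.MP_b2cdcf_full.IntC

set_option autoImplicit false

open MvPolynomial

noncomputable section

namespace Pool.Agent.Work.MP_b2cdcf_full

open Pool.Agent.Work.MP_b2cdcf_wpd

theorem p_TMON (hTLIN : Stmt_TLIN) : Stmt_TMON := by
  intro k _ n N hN W q γ hγ hW
  obtain ⟨h1, h2, h3, h4⟩ := hTLIN k n N hN
  have hdeg : ∑ j, γ j ≤ W.totalDegree := by
    have h := le_totalDegree (mem_support_iff.2 hγ)
    rwa [Finsupp.sum_fintype _ _ (fun _ => rfl)] at h
  have hsplit : ∑ j, γ j = γ q + ∑ j ∈ Finset.univ.erase q, γ j :=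
    (Finset.add_sum_erase _ _ (Finset.mem_univ q)).symm
  have hs : ∑ j ∈ Finset.univ.erase q, γ j ≤ N - 1 := by omega
  have hj : ∀ j, j ≠ q → γ j ≤ N - 1 := fun j hj =>
    (Finset.single_le_sum (f := fun j => γ j) (fun _ _ => Nat.zero_le _)
      (Finset.mem_erase.2 ⟨hj, Finset.mem_univ j⟩)).trans hs
  obtain ⟨δ, hδ⟩ : ∃ δ : Fin n →₀ ℕ,
      ∀ j, δ j = if j = q then N - 1 - γ q % N else N - 1 - γ j :=
    ⟨Finsupp.equivFunOnFinite.symm fun j => if j = q then N - 1 - γ q % N else N - 1 - γ j,
      fun j => rfl⟩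
  have hδq : δ q = N - 1 - γ q % N := by rw [hδ, if_pos rfl]
  have hδj : ∀ j, j ≠ q → δ j = N - 1 - γ j := fun j hj => by rw [hδ, if_neg hj]
  have hmod := Nat.mod_lt (γ q) hN
  have hdm := Nat.div_add_mod (γ q) N
  have hcoeff : coeff (Finsupp.single q (N * (γ q / N))) (TT k n N (W * monomial δ 1)) ≠ 0 := by
    rw [TT_coeff hN, if_pos]
    · have e : Finsupp.single q (N * (γ q / N)) + on n N = γ + δ := by
        ext j
        rw [Finsupp.add_apply, Finsupp.add_apply, on_apply]
        by_cases h : j = q
        · subst h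
          rw [Finsupp.single_eq_same, hδq]
          omega
        · rw [Finsupp.single_eq_of_ne h, hδj j h]
          have := hj j h
          omega
      rw [e, coeff_mul_monomial, mul_one]
      exact hγ
    · intro i
      by_cases h : i = q
      · subst h
        rw [Finsupp.single_eq_same]
        exact ⟨_, rfl⟩
      · rw [Finsupp.single_eq_of_ne h]
        exact dvd_zero N
  refine ⟨δ, N * (γ q / N), ?_, ?_, ?_, hcoeff⟩
  · intro j
    by_cases h : j = q
    · subst h
      rw [hδq]
      omega
    · rw [hδj j h]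
      omega
  · rw [hδq]
    omega
  · have hT0 : TT k n N (W * monomial δ 1) ≠ 0 := by
      intro h
      rw [h, coeff_zero] at hcoeff
      exact hcoeff rfl
    have hge : N * (γ q / N) ≤ (TT k n N (W * monomial δ 1)).totalDegree := by
      have h := le_totalDegree (mem_support_iff.2 hcoeff)
      rwa [Finsupp.sum_single_index rfl] at h
    have hle := h3 _ hT0
    have hmul : (W * monomial δ 1).totalDegree ≤ W.totalDegree + ∑ j, δ j := by
      refine (totalDegree_mul _ _).trans (Nat.add_le_add_left ?_ _)
      refine (totalDegree_monomial_le _ _).trans ?_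
      rw [Finsupp.sum_fintype _ _ (fun _ => rfl)]
      exact le_rfl
    have hδs : ∑ j, δ j = δ q + ∑ j ∈ Finset.univ.erase q, δ j :=
      (Finset.add_sum_erase _ _ (Finset.mem_univ q)).symm
    have hsum : ∑ j ∈ Finset.univ.erase q, δ j + ∑ j ∈ Finset.univ.erase q, γ j =
        (n - 1) * (N - 1) := by
      rw [← Finset.sum_add_distrib]
      have e : ∀ j ∈ Finset.univ.erase q, δ j + γ j = N - 1 := by
        intro j hjm
        have hne := (Finset.mem_erase.1 hjm).1
        rw [hδj j hne]
        have := hj j hne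
        omega
      rw [Finset.sum_congr rfl e, Finset.sum_const, Finset.card_erase_of_mem (Finset.mem_univ q),
        Finset.card_univ, Fintype.card_fin, smul_eq_mul]
    have hn : 1 ≤ n := by
      have := q.isLt
      omega
    have hnn : n * (N - 1) = (n - 1) * (N - 1) + (N - 1) := by
      obtain ⟨m, rfl⟩ := Nat.exists_eq_add_of_le hn
      rw [Nat.add_sub_cancel_left]
      ring
    obtain ⟨Q, hQ⟩ := h2 (W * monomial δ 1)
    have hdiv : (TT k n N (W * monomial δ 1)).totalDegree = Q.totalDegree * N := by
      rw [hQ, totalDegree_expand]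
    have hlt : (TT k n N (W * monomial δ 1)).totalDegree < N * (γ q / N) + N := by
      omega
    rw [hdiv] at hge hlt ⊢
    have h5 : Q.totalDegree = γ q / N := by
      apply le_antisymm
      · by_contra h
        push Not at h
        have h6 : (γ q / N + 1) * N ≤ Q.totalDegree * N := Nat.mul_le_mul_right N h
        have h7 : (γ q / N + 1) * N = N * (γ q / N) + N := by ring
        omega
      · rw [Nat.mul_comm N] at hge
        exact Nat.le_of_mul_le_mul_right hge hN
    rw [h5, Nat.mul_comm]

end Pool.Agent.Work.MP_b2cdcf_full
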