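import Pool.Agent.Work.MP_b2cdcf_full.IntB

/-!
# Block WSUB: weighted components and substitution
-/

set_option autoImplicit false

open MvPolynomial

noncomputable section

namespace Pool.Agent.Work.MP_b2cdcf_full

open Pool.Agent.Work.MP_b2cdcf_wpd

variable {k : Type} [Field k] {n : ℕ}

theorem WSUB_mon (w : Fin n → ℕ) (g0 : Fin n → MvPolynomial (Fin n) k)
    (h0 : ∀ i, IsWeightedHomogeneous w (g0 i) (w i)) (s : Fin n →₀ ℕ) (a : k) :
    IsWeightedHomogeneous w (aeval g0 (monomial s a)) (Finsupp.weight w s) := by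
  rw [aeval_monomial]
  have h1 : IsWeightedHomogeneous w (s.prod fun i e => g0 i ^ e) (Finsupp.weight w s) := by
    rw [Finsupp.weight_apply, Finsupp.prod, Finsupp.sum]
    exact IsWeightedHomogeneous.prod _ _ _ fun i _ => (h0 i).pow (s i)
  have h2 := (isWeightedHomogeneous_C w a).mul h1
  rw [zero_add] at h2
  exact h2

theorem WSUB_one (w : Fin n → ℕ) (g0 : Fin n → MvPolynomial (Fin n) k)
    (h0 : ∀ i, IsWeightedHomogeneous w (g0 i) (w i)) (V : MvPolynomial (Fin n) k) (W : ℕ) :
    weightedHomogeneousComponent w W (aeval g0 V) =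
      aeval g0 (weightedHomogeneousComponent w W V) := by
  induction V using MvPolynomial.induction_on' with
  | monomial u a =>
    by_cases h : Finsupp.weight w u = W
    · subst h
      rw [(WSUB_mon w g0 h0 u a).weightedHomogeneousComponent_same,
        (isWeightedHomogeneous_monomial w u a rfl).weightedHomogeneousComponent_same]
    · rw [(WSUB_mon w g0 h0 u a).weightedHomogeneousComponent_ne W (Ne.symm h),
        (isWeightedHomogeneous_monomial w u a rfl).weightedHomogeneousComponent_ne W (Ne.symm h), map_zero]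
  | add p q hp hq =>
    rw [map_add, map_add, map_add, map_add, hp, hq]

/-- all monomials have weight at most `m` -/
def WSUB_Le (w : Fin n → ℕ) (m : ℕ) (p : MvPolynomial (Fin n) k) : Prop :=
  ∀ s ∈ p.support, Finsupp.weight w s ≤ m

/-- all monomials have weight less than `m` -/
def WSUB_Lt (w : Fin n → ℕ) (m : ℕ) (p : MvPolynomial (Fin n) k) : Prop :=
  ∀ s ∈ p.support, Finsupp.weight w s < m

theorem WSUB_Le_add {w : Fin n → ℕ} {m : ℕ} {p q : MvPolynomial (Fin n) k}
    (hp : WSUB_Le w m p) (hq : WSUB_Le w m q) : WSUB_Le w m (p + q) := by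
  classical
  intro s hs
  rcases Finset.mem_union.1 (support_add hs) with h | h
  · exact hp s h
  · exact hq s h

theorem WSUB_Lt_add {w : Fin n → ℕ} {m : ℕ} {p q : MvPolynomial (Fin n) k}
    (hp : WSUB_Lt w m p) (hq : WSUB_Lt w m q) : WSUB_Lt w m (p + q) := by
  classical
  intro s hs
  rcases Finset.mem_union.1 (support_add hs) with h | h
  · exact hp s h
  · exact hq s h

theorem WSUB_Lt_mul_Le {w : Fin n → ℕ} {m m' : ℕ} {p q : MvPolynomial (Fin n) k}
    (hp : WSUB_Lt w m p) (hq : WSUB_Le w m' q) : WSUB_Lt w (m + m') (p * q) := by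
  classical
  intro s hs
  obtain ⟨a, ha, b, hb, rfl⟩ := Finset.mem_add.1 (support_mul p q hs)
  rw [map_add]
  have h1 := hp a ha
  have h2 := hq b hb
  omega

theorem WSUB_Le_mul_Le {w : Fin n → ℕ} {m m' : ℕ} {p q : MvPolynomial (Fin n) k}
    (hp : WSUB_Le w m p) (hq : WSUB_Le w m' q) : WSUB_Le w (m + m') (p * q) := by
  classical
  intro s hs
  obtain ⟨a, ha, b, hb, rfl⟩ := Finset.mem_add.1 (support_mul p q hs)
  rw [map_add]
  have h1 := hp a ha
  have h2 := hq b hb
  omega

/-- `p` and `p0` have monomials of weight at most `m`, the difference less than `m` -/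
def WSUB_R (w : Fin n → ℕ) (m : ℕ) (p p0 : MvPolynomial (Fin n) k) : Prop :=
  WSUB_Le w m p0 ∧ WSUB_Lt w m (p - p0)

theorem WSUB_R_one (w : Fin n → ℕ) : WSUB_R w 0 (1 : MvPolynomial (Fin n) k) 1 := by
  refine ⟨?_, ?_⟩
  · intro s hs
    have h1 : s = 0 := by
      have h2 := support_monomial_subset (R := k) (s := (0 : Fin n →₀ ℕ)) (a := 1) hs
      simpa using h2
    rw [h1, map_zero]
  · intro s hs
    rw [sub_self, support_zero] at hs
    simp at hs

theorem WSUB_R_mul {w : Fin n → ℕ} {m m' : ℕ} {p p0 q q0 : MvPolynomial (Fin n) k}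
    (hp : WSUB_R w m p p0) (hq : WSUB_R w m' q q0) : WSUB_R w (m + m') (p * q) (p0 * q0) := by
  refine ⟨WSUB_Le_mul_Le hp.1 hq.1, ?_⟩
  have e : p * q - p0 * q0 = (p - p0) * q + (q - q0) * p0 := by ring
  have hqle : WSUB_Le w m' q := by
    have h1 : q = q0 + (q - q0) := by ring
    rw [h1]
    exact WSUB_Le_add hq.1 fun s hs => (hq.2 s hs).le
  rw [e]
  refine WSUB_Lt_add (WSUB_Lt_mul_Le hp.2 hqle) ?_
  rw [add_comm m m']
  exact WSUB_Lt_mul_Le hq.2 hp.1

theorem WSUB_R_pow {w : Fin n → ℕ} {m : ℕ} {p p0 : MvPolynomial (Fin n) k}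
    (hp : WSUB_R w m p p0) (e : ℕ) : WSUB_R w (e • m) (p ^ e) (p0 ^ e) := by
  induction e with
  | zero =>
    rw [pow_zero, pow_zero, zero_smul]
    exact WSUB_R_one w
  | succ e ih =>
    rw [pow_succ, pow_succ, succ_nsmul]
    exact WSUB_R_mul ih hp

theorem WSUB_R_prod {w : Fin n → ℕ} (t : Finset (Fin n)) (m : Fin n → ℕ)
    (p p0 : Fin n → MvPolynomial (Fin n) k) (h : ∀ i, WSUB_R w (m i) (p i) (p0 i)) :
    WSUB_R w (∑ i ∈ t, m i) (∏ i ∈ t, p i) (∏ i ∈ t, p0 i) := by
  classical
  induction t using Finset.induction_on with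
  | empty =>
    rw [Finset.sum_empty, Finset.prod_empty, Finset.prod_empty]
    exact WSUB_R_one w
  | insert a t ha ih =>
    rw [Finset.sum_insert ha, Finset.prod_insert ha, Finset.prod_insert ha]
    exact WSUB_R_mul (h a) ih

theorem WSUB_two (w : Fin n → ℕ) (g0 g : Fin n → MvPolynomial (Fin n) k)
    (h0 : ∀ i, IsWeightedHomogeneous w (g0 i) (w i))
    (hg : ∀ i, ∀ s ∈ (g i - g0 i).support, Finsupp.weight w s < w i)
    (s : Fin n →₀ ℕ) (a : k) :
    WSUB_Lt w (Finsupp.weight w s) (aeval g (monomial s a) - aeval g0 (monomial s a)) := by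
  have h1 : ∀ i, WSUB_R w (s i • w i) (g i ^ s i) (g0 i ^ s i) := by
    intro i
    refine WSUB_R_pow ⟨?_, hg i⟩ _
    intro u hu
    exact le_of_eq (h0 i (mem_support_iff.1 hu))
  have h2 := WSUB_R_prod s.support (fun i => s i • w i) (fun i => g i ^ s i)
    (fun i => g0 i ^ s i) h1
  rw [aeval_monomial, aeval_monomial, ← mul_sub]
  have h3 : WSUB_Lt w (Finsupp.weight w s)
      ((s.prod fun i e => g i ^ e) - s.prod fun i e => g0 i ^ e) := by
    rw [Finsupp.weight_apply, Finsupp.prod, Finsupp.prod, Finsupp.sum]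
    exact h2.2
  have h4 : WSUB_Le w 0 (algebraMap k (MvPolynomial (Fin n) k) a) := by
    intro u hu
    rw [algebraMap_eq] at hu
    have h5 := support_monomial_subset (R := k) (s := (0 : Fin n →₀ ℕ)) (a := a) hu
    have h6 : u = 0 := by simpa using h5
    rw [h6, map_zero]
  have h7 := WSUB_Lt_mul_Le h3 h4
  rw [add_zero, mul_comm] at h7
  exact h7

theorem WSUB_diff (w : Fin n → ℕ) (g0 g : Fin n → MvPolynomial (Fin n) k)
    (h0 : ∀ i, IsWeightedHomogeneous w (g0 i) (w i))
    (hg : ∀ i, ∀ s ∈ (g i - g0 i).support, Finsupp.weight w s < w i)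
    (V : MvPolynomial (Fin n) k) (W : ℕ) (hV : ∀ s ∈ V.support, Finsupp.weight w s ≤ W) :
    WSUB_Lt w W (aeval g V - aeval g0 V) := by
  classical
  have h1 : aeval g V - aeval g0 V = ∑ s ∈ V.support,
      (aeval g (monomial s (coeff s V)) - aeval g0 (monomial s (coeff s V))) := by
    rw [Finset.sum_sub_distrib, ← map_sum, ← map_sum, ← as_sum V]
  rw [h1]
  have h2 : ∀ t : Finset (Fin n →₀ ℕ), (∀ s ∈ t, Finsupp.weight w s ≤ W) →
      WSUB_Lt w W (∑ s ∈ t,
        (aeval g (monomial s (coeff s V)) - aeval g0 (monomial s (coeff s V)))) := by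
    intro t
    induction t using Finset.induction_on with
    | empty =>
      intro _ s hs
      rw [Finset.sum_empty, support_zero] at hs
      simp at hs
    | insert a t ha ih =>
      intro ht
      rw [Finset.sum_insert ha]
      refine WSUB_Lt_add ?_ (ih fun s hs => ht s (Finset.mem_insert_of_mem hs))
      intro s hs
      exact lt_of_lt_of_le (WSUB_two w g0 g h0 hg a _ s hs) (ht a (Finset.mem_insert_self _ _))
  exact h2 V.support hV

theorem p_WSUB : Stmt_WSUB := by
  intro k _ n w g0 h0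
  refine ⟨fun V W => WSUB_one w g0 h0 V W, ?_⟩
  intro g hg V W hV
  have h1 := WSUB_diff w g0 g h0 hg V W hV
  have h2 : weightedHomogeneousComponent w W (aeval g V - aeval g0 V) = 0 :=
    weightedHomogeneousComponent_eq_zero' _ _ fun s hs => (h1 s hs).ne
  rw [← WSUB_one w g0 h0 V W]
  rw [map_sub, sub_eq_zero] at h2
  exact h2

end Pool.Agent.Work.MP_b2cdcf_full
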