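import Pool.Agent.Work.MP_b2cdcf_full.FinalA
import Pool.Agent.Work.MP_b2cdcf_full.B_PAR
import Pool.Agent.Work.MP_b2cdcf_full.B_JACG
import Pool.Agent.Work.MP_b2cdcf_full.B_PD
import Pool.Agent.Work.MP_b2cdcf_full.B_JACP
import Pool.Agent.Work.MP_b2cdcf_full.B_HALFX
import Pool.Agent.Work.MP_b2cdcf_full.B_CTXX
import Pool.Agent.Work.MP_b2cdcf_full.B_REV
import Pool.Agent.Work.MP_b2cdcf_full.B_ELD
import Pool.Agent.Work.MP_b2cdcf_full.B_TAU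
import Pool.Agent.Work.MP_b2cdcf_full.B_EDEG
import Pool.Agent.Work.MP_b2cdcf_full.B_WSUB
import Pool.Agent.Work.MP_b2cdcf_full.B_E1X
import Pool.Agent.Work.MP_b2cdcf_full.B_E3D
import Pool.Agent.Work.MP_b2cdcf_full.B_E3C
import Pool.Agent.Work.MP_b2cdcf_full.B_E3X
import Pool.Agent.Work.MP_b2cdcf_full.B_E4S
import Pool.Agent.Work.MP_b2cdcf_full.B_SEQ
import Pool.Agent.Work.MP_b2cdcf_full.B_CRA
import Pool.Agent.Work.MP_b2cdcf_full.B_IZB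
import Pool.Agent.Work.MP_b2cdcf_full.B_IZ0
import Pool.Agent.Work.MP_b2cdcf_full.B_TLIN
import Pool.Agent.Work.MP_b2cdcf_full.B_TDUAL
import Pool.Agent.Work.MP_b2cdcf_full.B_RN
import Pool.Agent.Work.MP_b2cdcf_full.B_TCOM
import Pool.Agent.Work.MP_b2cdcf_full.B_TMON
import Pool.Agent.Work.MP_b2cdcf_full.B_IZP1
import Pool.Agent.Work.MP_b2cdcf_full.B_IZP
import Pool.Agent.Work.MP_b2cdcf_full.B_IZ
import Pool.Agent.Work.MP_b2cdcf_full.B_MULX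
import Pool.Agent.Work.MP_b2cdcf_full.B_LRX
import Pool.Agent.Work.MP_b2cdcf_full.B_GL
import Pool.Agent.Work.MP_b2cdcf_full.B_KEYP
import Pool.Agent.Work.MP_b2cdcf_full.B_CONSTP
import Pool.Agent.Work.MP_b2cdcf_full.B_R1X
import Pool.Agent.Work.MP_b2cdcf_full.B_R2X
import Pool.Agent.Work.MP_b2cdcf_full.B_RIGX
import Pool.Agent.Work.MP_b2cdcf_full.B_RIGP
import Pool.Agent.Work.MP_b2cdcf_full.B_EXM
import Pool.Agent.Work.MP_b2cdcf_full.B_BTX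
import Pool.Agent.Work.MP_b2cdcf_full.B_GR
import Pool.Agent.Work.MP_b2cdcf_full.B_GEOX

/-! # MP_b2cdcf_al, S02759: all parts together -/

set_option autoImplicit false

noncomputable section

namespace Pool.Agent.Work.MP_b2cdcf_full

open MvPolynomial

theorem t_JACP : Stmt_JACP := p_JACP p_JACG p_PD
theorem t_HALFX : Stmt_HALFX := p_HALFX t_JACP
theorem t_CTXX : Stmt_CTXX := p_CTXX t_HALFX
theorem t_EDEG : Stmt_EDEG := p_EDEG p_ELD p_TAU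
theorem t_E1X : Stmt_E1X := p_E1X p_ELD p_WSUB
theorem t_E3C : Stmt_E3C := p_E3C p_ELD p_E3D
theorem t_E3X : Stmt_E3X := p_E3X p_ELD p_WSUB t_E3C
theorem t_E4S : Stmt_E4S := p_E4S t_EDEG
theorem t_SEQ : Stmt_SEQ := p_SEQ p_NEG t_CONV p_REV t_EDEG p_TAU t_E1X t_E3X t_E4S
theorem t_IZ0 : Stmt_IZ0 := p_IZ0 p_CRA p_IZB
theorem t_TDUAL : Stmt_TDUAL := p_TDUAL p_TLIN
theorem t_TCOM : Stmt_TCOM := p_TCOM p_TLIN t_TDUAL p_RN
theorem t_TMON : Stmt_TMON := p_TMON p_TLIN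
theorem t_IZP1 : Stmt_IZP1 := p_IZP1 p_TLIN t_TCOM t_TMON
theorem t_IZP : Stmt_IZP := p_IZP p_IZB t_IZP1
theorem t_IZ : Stmt_IZ := p_IZ t_IZ0 t_IZP
theorem t_MULX : Stmt_MULX := p_MULX t_IZ
theorem t_LRX : Stmt_LRX := p_LRX t_SEQ t_MULX
theorem t_GL : Stmt_GL := p_GL t_SEQ t_MULX t_LRX
theorem t_CONSTP : Stmt_CONSTP := p_CONSTP p_KEYP
theorem t_RIGX : Stmt_RIGX := p_RIGX p_R1X p_R2X
theorem t_RIGP : Stmt_RIGP := p_RIGP t_CTXX t_CONSTP t_RIGX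
theorem t_BTX : Stmt_BTX := p_BTX t_CTXX
theorem t_GR : Stmt_GR := p_GR p_REV t_RIGP p_EXM
theorem t_GEOX : Stmt_GEOX := p_GEOX t_CTXX t_GL p_EXM t_BTX t_GR

theorem final (k : Type) [Field k] (n : ℕ) (hn : 3 ≤ n) :
    (¬ ∃ H : Subgroup (MvPolynomial (Fin n) k ≃ₐ[k] MvPolynomial (Fin n) k),
      IsCyclic H ∧ H.FiniteIndex) ∧ Concl (MvPolynomial (Fin n) k ≃ₐ[k] MvPolynomial (Fin n) k) := by
  refine ⟨p_NVC k n hn, ?_⟩
  haveI : NeZero n := ⟨by omega⟩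
  obtain ⟨h1, h2, hpar⟩ := p_PAR k n hn
  obtain ⟨bt, hG⟩ := t_GEOX k n hn 1 h1 h2 hpar
  exact t_CONC _ _ _ _ _ _ _ hG

end Pool.Agent.Work.MP_b2cdcf_full
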