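import Pool.Agent.Work.MP_b2cdcf_full.IntA

/-! Block A1 (helper78). -/

set_option autoImplicit false

namespace Pool.Agent.Work.MP_b2cdcf_full

theorem A1_core (hV : Stmt_VCMP) {Γ : Type} [Group Γ] {M : Γ → ℕ} {F : Γ} {E : Subgroup Γ}
    {bt : Γ → ℤ} {d κ : ℕ} (G : Geo Γ M F E bt d κ) {D1 : ℤ}
    (hH : ∀ g, g ∉ E → ∀ i j : ℤ, |bt (g * F ^ i) - bt (g * F ^ j)| ≤ D1) (g x : Γ) (hg : g ∉ E)
    (m : ℤ) (hm : ∀ t : ℤ, M (x⁻¹ * F ^ m) * M (F ^ (-m) * (g * F ^ t)) ≤ 2 * M (x⁻¹ * (g * F ^ t))) :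
    |bt (g⁻¹ * x) - bt g⁻¹| ≤ D1 + 2 := by
  have hg' : g⁻¹ ∉ E := fun h => hg (by simpa using E.inv_mem h)
  have e1 : ∀ t : ℤ, (g⁻¹ * x)⁻¹ * F ^ t = x⁻¹ * (g * F ^ t) := by
    intro t
    rw [mul_inv_rev, inv_inv, mul_assoc]
  have e2 : ∀ t : ℤ, (g⁻¹ * F ^ m)⁻¹ * F ^ t = F ^ (-m) * (g * F ^ t) := by
    intro t
    rw [mul_inv_rev, inv_inv, mul_assoc, zpow_neg]
  have h1 := hV d (M (x⁻¹ * F ^ m)) (fun t => M ((g⁻¹ * x)⁻¹ * F ^ t))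
    (fun t => M ((g⁻¹ * F ^ m)⁻¹ * F ^ t)) (bt (g⁻¹ * x)) (bt (g⁻¹ * F ^ m))
    (by have := G.d5; omega) (fun t => G.M1 _) (fun t ht => G.up _ t ht) (fun t ht => G.down _ t ht)
    (fun t ht => G.up _ t ht) (fun t ht => G.down _ t ht)
    (fun t => by
      show M ((g⁻¹ * x)⁻¹ * F ^ t) ≤ M (x⁻¹ * F ^ m) * M ((g⁻¹ * F ^ m)⁻¹ * F ^ t)
      rw [e1, e2]
      have h2 : x⁻¹ * (g * F ^ t) = (x⁻¹ * F ^ m) * (F ^ (-m) * (g * F ^ t)) := by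
        rw [zpow_neg]
        group
      calc M (x⁻¹ * (g * F ^ t)) = M ((x⁻¹ * F ^ m) * (F ^ (-m) * (g * F ^ t))) := by rw [← h2]
        _ ≤ _ := G.Mmul _ _)
    (fun t => by
      show M (x⁻¹ * F ^ m) * M ((g⁻¹ * F ^ m)⁻¹ * F ^ t) ≤ 2 * M ((g⁻¹ * x)⁻¹ * F ^ t)
      rw [e1, e2]
      exact hm t)
  have h2 := hH g⁻¹ hg' m 0
  rw [zpow_zero, mul_one] at h2
  rw [abs_le] at *
  constructor <;> linarith [h1.1, h1.2, h2.1, h2.2]

theorem p_A1 (hH1 : Stmt_H1) (hV : Stmt_VCMP) : Stmt_A1 := by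
  intro Γ _ M F E bt d κ G
  obtain ⟨D1, hD, hH⟩ := hH1 Γ M F E bt d κ G
  refine ⟨D1 + κ + 3, by linarith, ?_, ?_⟩
  · intro g hg e he
    obtain ⟨b, hb, -⟩ := G.Eact e he
    have h1 := hH g hg b 0
    rw [zpow_zero, mul_one, ← hb] at h1
    have : (0 : ℤ) ≤ κ := Int.natCast_nonneg _
    linarith
  · intro g hg x
    by_contra hcon
    push Not at hcon
    obtain ⟨h1, h2⟩ := hcon
    have hκ : (0 : ℤ) ≤ κ := Int.natCast_nonneg _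
    have hg0 : ∀ t : ℤ, |bt (g * F ^ t) - bt g| ≤ D1 := by
      intro t
      have := hH g hg t 0
      rwa [zpow_zero, mul_one] at this
    rcases lt_abs.1 h1 with h3 | h3
    · -- bt x > bt g + θ
      have h4 := A1_core hV G hH g x hg (bt g + D1 + κ) (fun t => by
        have h5 := abs_le.1 (hg0 t)
        exact G.mull x (g * F ^ t) _ (by linarith) (by linarith [h5.2]))
      linarith
    · have h4 := A1_core hV G hH g x hg (bt g - D1 - κ) (fun t => by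
        have h5 := abs_le.1 (hg0 t)
        exact G.mulr x (g * F ^ t) _ (by linarith) (by linarith [h5.1]))
      linarith

end Pool.Agent.Work.MP_b2cdcf_full
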