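import Pool.Agent.Work.MP_b2cdcf_full.IntA

/-! Block A2 (helper88). -/

set_option autoImplicit false

noncomputable section

namespace Pool.Agent.Work.MP_b2cdcf_full

section
variable {Γ : Type} [Group Γ] {M : Γ → ℕ} {F : Γ} {E : Subgroup Γ} {bt : Γ → ℤ} {d κ : ℕ} {θ : ℤ}

theorem A2_B (hA : ∀ g, g ∉ E → ∀ x, |bt x - bt g| ≤ θ ∨ |bt (g⁻¹ * x) - bt g⁻¹| ≤ θ)
    {u v : Γ} (h : u⁻¹ * v ∉ E) (x : Γ) :
    (bt (u⁻¹ * x) - bt (u⁻¹ * v) ≤ θ ∧ bt (u⁻¹ * v) - bt (u⁻¹ * x) ≤ θ) ∨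
      (bt (v⁻¹ * x) - bt (v⁻¹ * u) ≤ θ ∧ bt (v⁻¹ * u) - bt (v⁻¹ * x) ≤ θ) := by
  have h1 := hA _ h (u⁻¹ * x)
  have e1 : (u⁻¹ * v)⁻¹ * (u⁻¹ * x) = v⁻¹ * x := by group
  have e2 : (u⁻¹ * v)⁻¹ = v⁻¹ * u := by group
  rw [e1, e2, abs_sub_le_iff, abs_sub_le_iff] at h1
  exact h1

/-- `u` comes before `v` -/
def A2_lt (bt : Γ → ℤ) (θ : ℤ) (x0 u v : Γ) : Prop :=
  bt (v⁻¹ * x0) - bt (v⁻¹ * u) ≤ θ ∧ bt (v⁻¹ * u) - bt (v⁻¹ * x0) ≤ θ

theorem A2_trans (hθ : 0 < θ)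
    (hA : ∀ g, g ∉ E → ∀ x, |bt x - bt g| ≤ θ ∨ |bt (g⁻¹ * x) - bt g⁻¹| ≤ θ) {x0 z u v w : Γ}
    (huv : u⁻¹ * v ∉ E) (hvw : v⁻¹ * w ∉ E) (huw : u⁻¹ * w ∉ E)
    (hu : ¬ |bt (u⁻¹ * x0) - bt (u⁻¹ * z)| ≤ 10 * θ)
    (hv : ¬ |bt (v⁻¹ * x0) - bt (v⁻¹ * z)| ≤ 10 * θ)
    (hw : ¬ |bt (w⁻¹ * x0) - bt (w⁻¹ * z)| ≤ 10 * θ)
    (h1 : A2_lt bt θ x0 u v) (h2 : A2_lt bt θ x0 v w) : A2_lt bt θ x0 u w := by
  rw [abs_sub_le_iff] at hu hv hw
  have b1 := A2_B hA hvw z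
  have b2 := A2_B hA hvw u
  have b3 := A2_B hA huw x0
  have b4 := A2_B hA huw z
  unfold A2_lt at *
  omega

theorem A2_min (hθ : 0 < θ)
    (hA : ∀ g, g ∉ E → ∀ x, |bt x - bt g| ≤ θ ∨ |bt (g⁻¹ * x) - bt g⁻¹| ≤ θ) {x0 z : Γ}
    (S : Finset Γ) (hS : ∀ u ∈ S, ∀ v ∈ S, u ≠ v → u⁻¹ * v ∉ E)
    (hz : ∀ u ∈ S, ¬ |bt (u⁻¹ * x0) - bt (u⁻¹ * z)| ≤ 10 * θ) (hne : S.Nonempty) :
    ∃ u ∈ S, ∀ v ∈ S, v ≠ u → A2_lt bt θ x0 u v := by
  classical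
  induction S using Finset.induction_on with
  | empty => exact absurd hne (by simp)
  | insert a S ha ih =>
    rcases S.eq_empty_or_nonempty with h0 | h0
    · subst h0
      refine ⟨a, by simp, ?_⟩
      intro v hv hva
      simp at hv
      exact absurd hv hva
    · obtain ⟨u, hu, hmin⟩ := ih (fun u hu v hv => hS u (Finset.mem_insert_of_mem hu) v
        (Finset.mem_insert_of_mem hv)) (fun u hu => hz u (Finset.mem_insert_of_mem hu)) h0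
      have hua : u ≠ a := fun h => ha (h ▸ hu)
      have haI := Finset.mem_insert_self a S
      have huI := Finset.mem_insert_of_mem (a := u) (b := a) hu
      rcases A2_B hA (hS u huI a haI hua) x0 with h1 | h1
      · -- a before u
        refine ⟨a, haI, ?_⟩
        intro v hv hva
        rcases Finset.mem_insert.1 hv with h2 | h2
        · exact absurd h2 hva
        · by_cases hvu : v = u
          · subst hvu
            exact h1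
          · exact A2_trans hθ hA (hS a haI u huI hua.symm) (hS u huI v hv (Ne.symm hvu))
              (hS a haI v hv (Ne.symm hva)) (hz a haI) (hz u huI) (hz v hv) h1 (hmin v h2 hvu)
      · refine ⟨u, huI, ?_⟩
        intro v hv hvu
        rcases Finset.mem_insert.1 hv with h2 | h2
        · subst h2
          exact h1
        · exact hmin v h2 hvu

theorem A2_claim (hR : Stmt_RGR) (hG : Geo Γ M F E bt d κ) (hθ : (κ : ℤ) + 2 ≤ θ)
    (hE : ∀ g, g ∉ E → ∀ e ∈ E, |bt (g * e) - bt g| ≤ θ)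
    (hA : ∀ g, g ∉ E → ∀ x, |bt x - bt g| ≤ θ ∨ |bt (g⁻¹ * x) - bt g⁻¹| ≤ θ) {x0 z : Γ} (n : ℕ) :
    ∀ S : Finset Γ, S.card = n → (∀ u ∈ S, ∀ v ∈ S, u ≠ v → u⁻¹ * v ∉ E) →
    (∀ u ∈ S, ¬ |bt (u⁻¹ * x0) - bt (u⁻¹ * z)| ≤ 10 * θ) → ∀ y : Γ,
    (∀ u ∈ S, |bt (u⁻¹ * y) - bt (u⁻¹ * x0)| ≤ 2 * θ) → d ^ n ≤ M (y⁻¹ * z) := by
  classical
  induction n with
  | zero =>
    intro S _ _ _ y _
    rw [pow_zero]
    exact hG.M1 _
  | succ n ih =>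
    intro S hcard hS hz y hy
    have hne : S.Nonempty := by
      rw [← Finset.card_pos]
      omega
    obtain ⟨u, hu, hmin⟩ := A2_min (by omega) hA S hS hz hne
    have h1 := hy u hu
    have h2 := hz u hu
    rw [abs_sub_le_iff] at h1 h2
    obtain ⟨r1, r2, -⟩ := hR Γ M F E bt d κ hG (u⁻¹ * y)
    -- the new point
    have key : ∀ m : ℤ, d ^ 2 ≤ M ((u⁻¹ * y)⁻¹ * F ^ m) →
        M ((u⁻¹ * y)⁻¹ * F ^ m) * M (F ^ (-m) * (u⁻¹ * z)) ≤ 2 * M ((u⁻¹ * y)⁻¹ * (u⁻¹ * z)) →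
        d ^ (n + 1) ≤ M (y⁻¹ * z) := by
      intro m h3 h4
      have e1 : (u⁻¹ * y)⁻¹ * (u⁻¹ * z) = y⁻¹ * z := by group
      have e2 : F ^ (-m) * (u⁻¹ * z) = (u * F ^ m)⁻¹ * z := by group
      rw [e1, e2] at h4
      have h5 : d ^ n ≤ M ((u * F ^ m)⁻¹ * z) := by
        refine ih (S.erase u) (by rw [Finset.card_erase_of_mem hu]; omega)
          (fun a ha b hb => hS a (Finset.mem_of_mem_erase ha) b (Finset.mem_of_mem_erase hb))
          (fun a ha => hz a (Finset.mem_of_mem_erase ha)) (u * F ^ m) ?_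
        intro v hv
        have hvu : v ≠ u := Finset.ne_of_mem_erase hv
        have hvS := Finset.mem_of_mem_erase hv
        have h6 := hmin v hvS hvu
        have h7 := hE (v⁻¹ * u) (hS v hvS u hu hvu) (F ^ m) (E.zpow_mem hG.FE m)
        rw [mul_assoc] at h7
        rw [abs_sub_le_iff] at h7 ⊢
        unfold A2_lt at h6
        omega
      have h6 : d ^ 2 * M ((u * F ^ m)⁻¹ * z) ≤ 2 * M (y⁻¹ * z) :=
        (Nat.mul_le_mul_right _ h3).trans h4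
      have hd := hG.d5
      have h7 : 2 * (d * M ((u * F ^ m)⁻¹ * z)) ≤ 2 * M (y⁻¹ * z) := by
        refine le_trans ?_ h6
        have : 2 * d ≤ d ^ 2 := by nlinarith
        calc 2 * (d * M ((u * F ^ m)⁻¹ * z)) = (2 * d) * M ((u * F ^ m)⁻¹ * z) := by ring
          _ ≤ d ^ 2 * M ((u * F ^ m)⁻¹ * z) := Nat.mul_le_mul_right _ this
      calc d ^ (n + 1) = d * d ^ n := by ring
        _ ≤ d * M ((u * F ^ m)⁻¹ * z) := Nat.mul_le_mul_left _ h5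
        _ ≤ M (y⁻¹ * z) := by omega
    rcases lt_or_ge (bt (u⁻¹ * y)) (bt (u⁻¹ * z)) with h3 | h3
    · refine key (bt (u⁻¹ * z) - κ) (r1 _ 2 ?_) (hG.mulr _ _ _ ?_ ?_)
      · push_cast
        omega
      · omega
      · omega
    · refine key (bt (u⁻¹ * z) + κ) (r2 _ 2 ?_) (hG.mull _ _ _ ?_ ?_)
      · push_cast
        omega
      · omega
      · omega

end

theorem p_A2 (hR : Stmt_RGR) : Stmt_A2 := by
  intro Γ _ M F E bt d κ θ hG hθ hE hA x z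
  classical
  by_contra hinf
  obtain ⟨T, hT, hcard⟩ := Set.Infinite.exists_subset_card_eq hinf (M (x⁻¹ * z) + 1)
  have hinj : Function.Injective (fun Y : Γ ⧸ E => Y.out) := by
    intro Y W h
    have h1 : ((Y.out : Γ) : Γ ⧸ E) = ((W.out : Γ) : Γ ⧸ E) := by
      show ((Y.out : Γ) : Γ ⧸ E) = ((W.out : Γ) : Γ ⧸ E)
      rw [show Y.out = W.out from h]
    rwa [QuotientGroup.out_eq', QuotientGroup.out_eq'] at h1
  have h1 := A2_claim (x0 := x) (z := z) hR hG hθ hE hA (T.image fun Y : Γ ⧸ E => Y.out).card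
    (T.image fun Y : Γ ⧸ E => Y.out) rfl ?_ ?_ x ?_
  · rw [Finset.card_image_of_injective _ hinj, hcard] at h1
    have h2 : M (x⁻¹ * z) + 1 < d ^ (M (x⁻¹ * z) + 1) :=
      Nat.lt_pow_self (by have := hG.d5; omega)
    omega
  · intro u hu v hv huv
    obtain ⟨Y, hY, rfl⟩ := Finset.mem_image.1 hu
    obtain ⟨W, hW, rfl⟩ := Finset.mem_image.1 hv
    intro hmem
    have h3 : ((Y.out : Γ) : Γ ⧸ E) = ((W.out : Γ) : Γ ⧸ E) := QuotientGroup.eq.2 hmem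
    rw [QuotientGroup.out_eq', QuotientGroup.out_eq'] at h3
    exact huv (by rw [h3])
  · intro u hu
    obtain ⟨Y, hY, rfl⟩ := Finset.mem_image.1 hu
    exact not_le.2 (hT hY)
  · intro u _
    rw [sub_self, abs_zero]
    omega

end Pool.Agent.Work.MP_b2cdcf_full
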