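import Pool.Agent.Work.MP_b2cdcf_full.IntA

set_option autoImplicit false

noncomputable section

namespace Pool.Agent.Work.MP_b2cdcf_full

theorem ACY_mem {Γ V I : Type} [Group Γ] [MulAction Γ V] [MulAction Γ I] {own : V → I}
    {B : I → V → ℤ} (hE : Eqv Γ own B) (g : Γ) (Y : I) (x z : V) :
    |B (g • Y) (g • x) - B (g • Y) (g • z)| = |B Y x - B Y z| := by
  obtain ⟨c, hc⟩ := hE.b_smul g Y
  rw [hc x, hc z]
  congr 1
  ring

theorem ACY_NK {Γ V I : Type} [Group Γ] [MulAction Γ V] [MulAction Γ I] {own : V → I}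
    {B : I → V → ℤ} {K : ℤ} (hE : Eqv Γ own B) (g : Γ) (x z : V) :
    NK B K (g • x) (g • z) = NK B K x z := by
  have h1 : YK B K (g • x) (g • z) = (g • ·) '' YK B K x z := by
    ext Y
    constructor
    · intro hY
      refine ⟨g⁻¹ • Y, ?_, smul_inv_smul g Y⟩
      show K ≤ _
      rw [← ACY_mem hE g (g⁻¹ • Y) x z, smul_inv_smul]
      exact hY
    · rintro ⟨W, hW, rfl⟩
      show K ≤ |B (g • W) (g • x) - B (g • W) (g • z)|
      rw [ACY_mem hE]
      exact hW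
  unfold NK
  rw [h1]
  exact Set.ncard_image_of_injective _ (MulAction.injective g)

theorem ACY_count {Γ I : Type} [Group Γ] [MulAction Γ I] (Cs w : ℕ) (P Q : I)
    (hst : {g : Γ | g • P = P ∧ g • Q = Q}.Finite ∧
      {g : Γ | g • P = P ∧ g • Q = Q}.ncard ≤ Cs) (W : Set I) (hW : W.Finite)
    (hw : W.ncard ≤ w) (S : Set Γ) (hS : ∀ g ∈ S, g⁻¹ • P ∈ W ∧ g⁻¹ • Q ∈ W) :
    S.Finite ∧ S.ncard ≤ Cs * (w * w) := by
  classical
  -- the fibres
  have hfib : ∀ (T : Finset Γ) (a : I × I), (T.filter fun g => (g⁻¹ • P, g⁻¹ • Q) = a).card ≤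
      Cs := by
    intro T a
    by_cases hne : (T.filter fun g => (g⁻¹ • P, g⁻¹ • Q) = a).Nonempty
    · obtain ⟨g0, hg0⟩ := hne
      have h0 := (Finset.mem_filter.1 hg0).2
      rw [Set.ncard_eq_toFinset_card _ hst.1] at hst
      refine le_trans ?_ hst.2
      apply Finset.card_le_card_of_injOn (fun g => g * g0⁻¹)
      · intro g hg
        have h1 := (Finset.mem_filter.1 hg).2
        rw [Finset.mem_coe, Set.Finite.mem_toFinset]
        have h2 := h1.trans h0.symm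
        have h3 : g⁻¹ • P = g0⁻¹ • P := congrArg Prod.fst h2
        have h4 : g⁻¹ • Q = g0⁻¹ • Q := congrArg Prod.snd h2
        refine ⟨?_, ?_⟩
        · show (g * g0⁻¹) • P = P
          rw [mul_smul, ← h3, smul_inv_smul]
        · show (g * g0⁻¹) • Q = Q
          rw [mul_smul, ← h4, smul_inv_smul]
      · intro g _ g' _ h
        exact mul_right_cancel h
    · rw [Finset.not_nonempty_iff_eq_empty] at hne
      rw [hne]
      simp
  have hcard : ∀ T : Finset Γ, (∀ g ∈ T, g ∈ S) → T.card ≤ Cs * (w * w) := by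
    intro T hT
    have h1 := Finset.card_le_mul_card_image (f := fun g : Γ => (g⁻¹ • P, g⁻¹ • Q)) T Cs
      (fun a _ => hfib T a)
    refine h1.trans (Nat.mul_le_mul_left _ ?_)
    have h2 : T.image (fun g : Γ => (g⁻¹ • P, g⁻¹ • Q)) ⊆ hW.toFinset ×ˢ hW.toFinset := by
      intro a ha
      obtain ⟨g, hg, rfl⟩ := Finset.mem_image.1 ha
      have h3 := hS g (hT g hg)
      exact Finset.mem_product.2 ⟨hW.mem_toFinset.2 h3.1, hW.mem_toFinset.2 h3.2⟩
    refine (Finset.card_le_card h2).trans ?_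
    rw [Finset.card_product, ← Set.ncard_eq_toFinset_card _ hW]
    exact Nat.mul_le_mul hw hw
  have hfin : S.Finite := by
    by_contra hinf
    obtain ⟨T, hT, hT2⟩ := Set.Infinite.exists_subset_card_eq hinf (Cs * (w * w) + 1)
    have := hcard T (fun g hg => hT hg)
    omega
  refine ⟨hfin, ?_⟩
  rw [Set.ncard_eq_toFinset_card _ hfin]
  exact hcard _ fun g hg => hfin.mem_toFinset.1 hg

theorem p_ACY (hFIN : Stmt_FIN) (hPOS : Stmt_POS) (hMIDX : Stmt_MIDX) (hGP : Stmt_GP) :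
    Stmt_ACY := by
  intro Γ V I _ _ _ own pt B Θ K hB hK hE ⟨Cs, hCs⟩ e
  refine ⟨2 * e + 10, Cs * ((2 * e + 8) * (2 * e + 8)), fun x z hR => ?_⟩
  obtain ⟨p1, p2, p3⟩ := hPOS V I own pt B Θ K hB hK x z
  obtain ⟨P, hP, hP'⟩ := p2 (e + 3) (by omega)
  obtain ⟨Q, hQ, hQ'⟩ := p2 (e + 4) (by omega)
  have hPQ : P ≠ Q := by
    intro h
    rw [h] at hP'
    omega
  have hsym := fun x z => (hFIN V I own pt B Θ K hB hK x z).2.1
  have htri := (hGP V I own pt B Θ K hB hK).1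
  -- the axes are moved little
  have key : ∀ (Y : I), Y ∈ YK B K x z → e + 3 ≤ pos pt B K x z Y → pos pt B K x z Y ≤ e + 4 →
      ∀ g : Γ, NK B K x (g • x) ≤ e → NK B K z (g • z) ≤ e →
      g⁻¹ • Y ∈ YK B K x z ∧ pos pt B K x z (g⁻¹ • Y) ≤ 2 * e + 7 := by
    intro Y hY h1 h2 g h3 h4
    have m1 := (hMIDX V I own pt B Θ K hB hK x z (g • x) Y hY).1 (by omega)
    have m2 := (hMIDX V I own pt B Θ K hB hK x z (g • z) Y hY).2 (by
      rw [hsym (g • z) z]; omega)
    have h5 : g⁻¹ • Y ∈ YK B K x z := by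
      show K ≤ |B (g⁻¹ • Y) x - B (g⁻¹ • Y) z|
      rw [← ACY_mem hE g (g⁻¹ • Y) x z, smul_inv_smul, m1, m2]
      exact hY
    refine ⟨h5, ?_⟩
    have h6 := (p3 Y hY).2 (pt Y) (hB.own_pt Y)
    have h7 := (p3 (g⁻¹ • Y) h5).2 (g⁻¹ • pt Y) (by rw [hE.own_smul, hB.own_pt])
    have h8 : NK B K x (g⁻¹ • pt Y) = NK B K (g • x) (pt Y) := by
      rw [← ACY_NK (K := K) hE g x (g⁻¹ • pt Y), smul_inv_smul]
    have h9 := htri (g • x) x (pt Y)
    rw [hsym (g • x) x] at h9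
    have h10 := h7.1
    have h11 := h6.2.1
    omega
  have hYfin := (hFIN V I own pt B Θ K hB hK x z).1
  have hWfin : {Y | Y ∈ YK B K x z ∧ pos pt B K x z Y ≤ 2 * e + 7}.Finite :=
    hYfin.subset fun Y hY => hY.1
  refine ACY_count Cs (2 * e + 8) P Q (hCs P Q hPQ)
    {Y | Y ∈ YK B K x z ∧ pos pt B K x z Y ≤ 2 * e + 7} hWfin ?_ _ ?_
  · rw [Set.ncard_eq_toFinset_card _ hWfin, ← Finset.card_range (2 * e + 8)]
    apply Finset.card_le_card_of_injOn (pos pt B K x z)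
    · intro Y hY
      rw [Finset.mem_coe, Set.Finite.mem_toFinset] at hY
      rw [Finset.mem_coe, Finset.mem_range]
      have := hY.2
      omega
    · intro Y hY W hW h
      rw [Finset.mem_coe, Set.Finite.mem_toFinset] at hY hW
      exact p1 hY.1 hW.1 h
  · intro g hg
    exact ⟨key P hP (by omega) (by omega) g hg.1 hg.2, key Q hQ (by omega) (by omega) g hg.1 hg.2⟩

end Pool.Agent.Work.MP_b2cdcf_full
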