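import Pool.Agent.Work.MP_b2cdcf_full.IntB
import Pool.Agent.Work.MP_b2cdcf_wpd.B_VEE

set_option autoImplicit false

/-! # BTX: the projection to the axis -/

open MvPolynomial

noncomputable section

namespace Pool.Agent.Work.MP_b2cdcf_full

open Pool.Agent.Work.MP_b2cdcf_wpd

theorem BTX_unique {k : Type} [Field k] {n : ℕ} [NeZero n] {c : ℕ} {F x : AutP k n} {b b' : ℤ}
    (h : IsBt c F x b) (h' : IsBt c F x b') : b = b' := by
  rcases lt_trichotomy b b' with hlt | heq | hgt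
  · exact absurd (h'.1 b hlt) h.2.2
  · exact heq
  · exact absurd (h.1 b' hgt) h'.2.2

theorem BTX_Cmul {k : Type} [Field k] {n : ℕ} (ζ : k) (hζ : ζ ≠ 0)
    (p : MvPolynomial (Fin n) k) : (C ζ * p).totalDegree = p.totalDegree := by
  have h1 : ∀ (a : k) (p : MvPolynomial (Fin n) k), (C a * p).totalDegree ≤ p.totalDegree := by
    intro a p
    refine (totalDegree_mul _ _).trans ?_
    rw [totalDegree_C, zero_add]
  apply le_antisymm (h1 ζ p)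
  have h2 := h1 ζ⁻¹ (C ζ * p)
  rwa [← mul_assoc, ← C_mul, inv_mul_cancel₀ hζ, C_1, one_mul] at h2

theorem BTX_inv {k : Type} [Field k] {n : ℕ} (μ : AutP k n) (ζ : k) (hζ : ζ ≠ 0)
    (hμ : ∀ i, μ (X i) = C ζ * X i) (i : Fin n) : μ⁻¹ (X i) = C ζ⁻¹ * X i := by
  apply μ.injective
  have h1 : μ (μ⁻¹ (X i)) = X i := by
    rw [← aut_mul_apply, mul_inv_cancel]
    rfl
  have h2 : μ (C ζ⁻¹) = C ζ⁻¹ := μ.commutes _
  rw [h1, map_mul, hμ, h2, ← mul_assoc, ← C_mul, inv_mul_cancel₀ hζ, C_1, one_mul]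

theorem BTX_le {k : Type} [Field k] {n : ℕ} (μ : AutP k n) (ζ : k)
    (hμ : ∀ i, μ (X i) = C ζ * X i) (p : MvPolynomial (Fin n) k) :
    (μ p).totalDegree ≤ p.totalDegree := by
  have h1 : mdeg μ ≤ 1 := by
    apply mdeg_le
    intro i
    unfold dg
    rw [hμ]
    refine (totalDegree_mul _ _).trans ?_
    rw [totalDegree_C, totalDegree_X, zero_add]
  refine (totalDegree_aut_le μ p).trans ?_
  calc mdeg μ * p.totalDegree ≤ 1 * p.totalDegree := Nat.mul_le_mul_right _ h1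
    _ = p.totalDegree := one_mul _

theorem BTX_deg {k : Type} [Field k] {n : ℕ} (μ : AutP k n) (ζ : k) (hζ : ζ ≠ 0)
    (hμ : ∀ i, μ (X i) = C ζ * X i) (p : MvPolynomial (Fin n) k) :
    (μ⁻¹ p).totalDegree = p.totalDegree := by
  apply le_antisymm
  · exact BTX_le μ⁻¹ ζ⁻¹ (BTX_inv μ ζ hζ hμ) p
  · have h1 := BTX_le μ ζ hμ (μ⁻¹ p)
    have h2 : μ (μ⁻¹ p) = p := by
      rw [← aut_mul_apply, mul_inv_cancel]
      rfl
    rwa [h2] at h1

theorem BTX_congr {k : Type} [Field k] {n : ℕ} {φ ψ : AutP k n} (h : ∀ i, dg φ i = dg ψ i)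
    (c : ℕ) (s : Fin n) : Dom c s φ ↔ Dom c s ψ := by
  unfold Dom
  simp only [h]

theorem BTX_bt {k : Type} [Field k] {n : ℕ} [NeZero n] {c : ℕ} {F x y : AutP k n} {b : ℤ}
    (h : IsBt c F x b) (hxy : ∀ (m : ℤ) i, dg (y⁻¹ * F ^ m) i = dg (x⁻¹ * F ^ m) i) :
    IsBt c F y b :=
  ⟨fun m hm => (BTX_congr (hxy m) c 0).2 (h.1 m hm),
    fun m hm => (BTX_congr (hxy m) c 1).2 (h.2.1 m hm),
    fun hd => h.2.2 ((BTX_congr (hxy b) c 0).1 hd)⟩

theorem p_BTX (hC : Stmt_CTXX) : Stmt_BTX := by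
  intro k _ n _ hn a h1 h2 hP
  have hctx := hC k n hn a h1 h2 hP
  obtain ⟨F, hF⟩ : ∃ F, F = FX k n hn a h1 h2 := ⟨_, rfl⟩
  obtain ⟨c, hc⟩ : ∃ c, c = h1 + h2 - n + 1 := ⟨_, rfl⟩
  rw [← hF, ← hc] at hctx ⊢
  have hex : ∀ x : AutP k n, ∃ b : ℤ, IsBt c F x b := by
    intro x
    obtain ⟨b, hb1, hb2, hb3, -⟩ := p_VEE k n c (h1 + h2) F 0 1 hctx x⁻¹
    exact ⟨b, hb1, hb2, hb3⟩
  choose bt hbt using hex
  refine ⟨bt, hbt, ?_, ?_⟩
  · intro x L
    apply BTX_unique (hbt (F ^ L * x))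
    have e : ∀ m : ℤ, (F ^ L * x)⁻¹ * F ^ m = x⁻¹ * F ^ (m - L) := by
      intro m
      rw [mul_inv_rev, mul_assoc, ← zpow_neg, ← zpow_add]
      congr 2
      ring
    have hx := hbt x
    refine ⟨fun m hm => ?_, fun m hm => ?_, ?_⟩
    · rw [e]
      exact hx.1 _ (by linarith)
    · rw [e]
      exact hx.2.1 _ (by linarith)
    · rw [e, add_sub_cancel_right]
      exact hx.2.2
  · intro μ ζ hζ hμ x
    refine ⟨?_, fun hcomm => ?_⟩
    · apply BTX_unique (hbt (x * μ))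
      apply BTX_bt (hbt x)
      intro m i
      have e : (x * μ)⁻¹ * F ^ m = μ⁻¹ * (x⁻¹ * F ^ m) := by group
      rw [e]
      unfold dg
      rw [aut_mul_apply μ⁻¹]
      exact BTX_deg μ ζ hζ hμ _
    · apply BTX_unique (hbt (μ * x))
      apply BTX_bt (hbt x)
      intro m i
      have h3 : Commute μ F := hcomm
      have h4 : μ⁻¹ * F ^ m = F ^ m * μ⁻¹ := (h3.inv_left.zpow_right m).eq
      have e : (μ * x)⁻¹ * F ^ m = x⁻¹ * F ^ m * μ⁻¹ := by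
        rw [mul_inv_rev, mul_assoc, h4, mul_assoc]
      rw [e]
      unfold dg
      rw [aut_mul_apply _ μ⁻¹, BTX_inv μ ζ hζ hμ, map_mul]
      have h5 : (x⁻¹ * F ^ m) (C ζ⁻¹) = C ζ⁻¹ := (x⁻¹ * F ^ m).commutes _
      rw [h5]
      exact BTX_Cmul _ (inv_ne_zero hζ) _

end Pool.Agent.Work.MP_b2cdcf_full
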