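import Pool.Agent.Work.MP_b2cdcf_full.IntA

set_option autoImplicit false

namespace Pool.Agent.Work.MP_b2cdcf_full

theorem CLS_list (hC : Stmt_CMPB) {V I : Type} {own : V → I} {pt : I → V} {b : I → V → ℤ} {θ : ℤ}
    (hP : PSys own pt b θ) (Y : I) {x x' : V}
    (h : Relation.ReflTransGen (RY own b (10 * θ) Y) x x') :
    x = x' ∨ ∃ (W : I) (l : List I), (∀ Z ∈ W :: l, Z ≠ Y) ∧
      (W :: l).IsChain (fun W W' => W = W' ∨ 8 * θ < vv pt b Y W (pt W') ∨
        8 * θ < vv pt b Y W' (pt W)) ∧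
      Beh own b (10 * θ) Y W x ∧ ∃ Z ∈ W :: l, Beh own b (10 * θ) Y Z x' := by
  induction h using Relation.ReflTransGen.head_induction_on with
  | refl => exact Or.inl rfl
  | @head a c hac _ ih =>
    right
    obtain ⟨W, hWY, h1, h2⟩ := hac
    rcases ih with rfl | ⟨W0, l, hl, hch, hb, Z, hZ, hZb⟩
    · refine ⟨W, [], ?_, List.isChain_singleton _, h1, W, by simp, h2⟩
      intro Z hZ
      rw [List.mem_singleton] at hZ
      rw [hZ]
      exact hWY
    · refine ⟨W, W0 :: l, ?_, ?_, h1, Z, List.mem_cons_of_mem _ hZ, hZb⟩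
      · intro Z' hZ'
        rcases List.mem_cons.1 hZ' with rfl | h
        · exact hWY
        · exact hl _ h
      · rw [List.isChain_cons_cons]
        refine ⟨?_, hch⟩
        by_cases hWW : W = W0
        · exact Or.inl hWW
        · exact Or.inr ((hC V I own pt b θ hP Y W c hWY h2).2 W0
            (hl W0 (by simp)) hWW hb)

theorem p_CLS (hL : Stmt_LEMT) (hT : Stmt_TTT) (hC : Stmt_CMPB) : Stmt_CLS := by
  intro V I own pt b θ hP Y x x' h
  have hθ := hP.th
  rcases CLS_list hC hP Y h with rfl | ⟨W0, l, hl, hch, hb, Z0, hZ0, hZb⟩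
  · rw [sub_self, abs_zero]
    linarith
  · obtain ⟨t1, t2, t3⟩ := hT V I own pt b θ hP Y
    obtain ⟨W, hW, hWl⟩ := hL I (fun W Z => vv pt b Y W (pt Z)) θ hθ t1 t2 t3 (W0 :: l)
      (List.cons_ne_nil _ _) hch
    have key : ∀ Z ∈ W0 :: l, |b Y (pt Z) - b Y (pt W)| ≤ θ := by
      intro Z hZ
      rcases hWl Z hZ with rfl | h6
      · rw [sub_self, abs_zero]
        linarith
      · rcases hP.p2 Y W (fun h => hl W hW h.symm) (pt Z) with h | h
        · exact h
        · exfalso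
          have : vv pt b Y W (pt Z) ≤ θ := h
          have h6' : 6 * θ < vv pt b Y W (pt Z) := h6
          linarith
    have k1 := key W0 (by simp)
    have k2 := key Z0 hZ0
    have c1 := (hC V I own pt b θ hP Y W0 x (hl W0 (by simp)) hb).1
    have c2 := (hC V I own pt b θ hP Y Z0 x' (hl Z0 hZ0) hZb).1
    rw [abs_le] at k1 k2 c1 c2 ⊢
    constructor <;> linarith [k1.1, k1.2, k2.1, k2.2, c1.1, c1.2, c2.1, c2.2]

end Pool.Agent.Work.MP_b2cdcf_full
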