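import Pool.Agent.Work.MP_b2cdcf_full.IntA

/-! # Block CMPB (helper55) -/

set_option autoImplicit false

namespace Pool.Agent.Work.MP_b2cdcf_full

theorem CMPB_tri {a b c θ : ℤ} {s : ℤ} (h1 : s + θ < |a - c|) (h2 : |a - b| ≤ θ) :
    s < |b - c| := by
  have h3 := abs_sub_le a b c
  linarith

theorem CMPB_key {V I : Type} {own : V → I} {pt : I → V} {b : I → V → ℤ} {θ : ℤ}
    (h : PSys own pt b θ) {Y W : I} {x : V} (hW : W ≠ Y) (hx : Beh own b (10 * θ) Y W x) :
    own x = W ∨ 9 * θ < |b W x - b W (pt Y)| := by
  rcases hx with hx | ⟨y, hy, hx⟩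
  · exact Or.inl hx
  · right
    have h1 := h.p1 W y (by rw [hy]; exact hW.symm)
    rw [hy] at h1
    have h2 := abs_sub_le (b W x) (b W (pt Y)) (b W y)
    rw [abs_sub_comm (b W (pt Y)) (b W y)] at h2
    linarith

theorem p_CMPB : Stmt_CMPB := by
  intro V I own pt b θ h Y W x hW hx
  have hth := h.th
  have k1 := CMPB_key h hW hx
  refine ⟨?_, ?_⟩
  · rcases k1 with k1 | k1
    · have h1 := h.p1 Y x (by rw [k1]; exact hW)
      rwa [k1] at h1
    · rcases h.p2 Y W hW.symm x with h1 | h1
      · exact h1
      · linarith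
  · intro W' hW' hne hx'
    have k2 := CMPB_key h hW' hx'
    rcases k1 with k1 | k1
    · rcases k2 with k2 | k2
      · exact absurd (k1.symm.trans k2) hne
      · right
        have h1 := h.p1 W' x (by rw [k1]; exact hne)
        rw [k1] at h1
        exact CMPB_tri (by linarith) h1
    · rcases k2 with k2 | k2
      · left
        have h1 := h.p1 W x (by rw [k2]; exact hne.symm)
        rw [k2] at h1
        exact CMPB_tri (by linarith) h1
      · rcases h.p2 W W' hne x with h1 | h1
        · left
          exact CMPB_tri (by linarith) h1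
        · right
          exact CMPB_tri (by linarith) h1

end Pool.Agent.Work.MP_b2cdcf_full
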