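import Pool.Agent.Work.MP_b2cdcf_full.IntA

/-! # Block CONC (helper40) -/

set_option autoImplicit false

noncomputable section

namespace Pool.Agent.Work.MP_b2cdcf_full

theorem p_CONC (hA1 : Stmt_A1) (hSTAB : Stmt_STAB) (hPS : Stmt_PS) (hSTR : Stmt_STR)
    (hEQB : Stmt_EQB) (hMET : Stmt_MET) (hHULL : Stmt_HULL) : Stmt_CONC := by
  intro Γ _ M F E bt d κ hG
  obtain ⟨θ, hθ, hE, hA⟩ := hA1 Γ M F E bt d κ hG
  obtain ⟨hps, heq⟩ := hPS Γ M F E bt d κ θ hG hθ hE hA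
  obtain ⟨hss, hclose⟩ := hSTR Γ (Γ ⧸ E) _ _ _ _ hps
  have heqB := hEQB Γ Γ (Γ ⧸ E) _ _ _ _ hps heq
  have hst := hSTAB Γ M F E bt d κ θ hG hE
  obtain ⟨a, ha⟩ := hG.proper
  obtain ⟨K, hK⟩ : ∃ K : ℤ, K = 4 * (14 * (10 * θ)) + 1 := ⟨_, rfl⟩
  obtain ⟨L, hL⟩ : ∃ L : ℤ, L = K + 81 * θ + |bt a| + |bt a⁻¹| := ⟨_, rfl⟩
  obtain ⟨t, ht⟩ : ∃ t : Γ, t = F ^ L * a := ⟨_, rfl⟩
  have hFL : F ^ L ∈ E := E.zpow_mem hG.FE L
  have htE : t ∉ E := by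
    intro h
    apply ha
    have h1 : a = (F ^ L)⁻¹ * t := by rw [ht]; group
    rw [h1]
    exact E.mul_mem (E.inv_mem hFL) h
  have ha' : a⁻¹ ∉ E := fun h => ha (by simpa using E.inv_mem h)
  obtain ⟨u, hu⟩ := QuotientGroup.mk_out_eq_mul E (1 : Γ)
  have huE : ((1 : Γ) : Γ ⧸ E).out⁻¹ ∈ E := by
    rw [hu, one_mul]
    exact E.inv_mem u.2
  obtain ⟨b0, -, hb0⟩ := hG.Eact _ huE
  have h1 : bt t = bt a + L := by rw [ht]; exact hG.shift a L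
  have h2 : |bt t⁻¹ - bt a⁻¹| ≤ θ := by
    have h3 := hE a⁻¹ ha' (F ^ L)⁻¹ (E.inv_mem hFL)
    rw [← mul_inv_rev, ← ht] at h3
    exact h3
  have hmet := hMET Γ Γ (Γ ⧸ E) _ _ _ _ K hss (by omega) heqB hst ?_
  · obtain ⟨hm, hh⟩ := hmet
    exact hHULL Γ Γ hh
  · refine ⟨t, 1, ?_, ?_⟩
    · intro h
      have h3 : ((t • (1 : Γ) : Γ) : Γ ⧸ E) = ((1 : Γ) : Γ ⧸ E) := h
      rw [smul_eq_mul, mul_one, eq_comm, QuotientGroup.eq, inv_one, one_mul] at h3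
      exact htE h3
    · have c1 := hclose ((1 : Γ) : Γ ⧸ E) (t • (1 : Γ))
      have c2 := hclose ((1 : Γ) : Γ ⧸ E) (t⁻¹ • (1 : Γ))
      have e1 : bt (((1 : Γ) : Γ ⧸ E).out⁻¹ * (t • (1 : Γ))) = bt t + b0 := by
        rw [smul_eq_mul, mul_one, hb0]
      have e2 : bt (((1 : Γ) : Γ ⧸ E).out⁻¹ * (t⁻¹ • (1 : Γ))) = bt t⁻¹ + b0 := by
        rw [smul_eq_mul, mul_one, hb0]
      rw [e1] at c1
      rw [e2] at c2
      have d1 := (abs_le.1 c1).1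
      have d2 := (abs_le.1 c2).2
      have d3 := (abs_le.1 h2).2
      have d4 := neg_abs_le (bt a)
      have d5 := le_abs_self (bt a⁻¹)
      refine le_trans ?_ (le_abs_self _)
      linarith

end Pool.Agent.Work.MP_b2cdcf_full
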