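import Pool.Agent.Work.MP_b2cdcf_full.IntA

/-!
# MP_b2cdcf_al, S02759: block CONV
-/

set_option autoImplicit false

namespace Pool.Agent.Work.MP_b2cdcf_full

/-- the first index exists -/
theorem CONV_ex (n : ℕ) (d : ℤ) (a b : ℤ → ℤ) (m : ℤ) (hn : 3 ≤ n) (ha : 1 ≤ a m)
    (hsum : a m ≤ n * d * ∑ i ∈ Finset.range n, b (m - i)) :
    ∃ i : ℕ, i < n ∧ a m ≤ 8 * (n : ℤ) ^ 2 * d * b (m - i) := by
  by_contra hcon
  push Not at hcon
  have hn' : (3 : ℤ) ≤ n := by exact_mod_cast hn
  have h1 : ∑ i ∈ Finset.range n, 8 * (n : ℤ) ^ 2 * d * b (m - i) ≤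
      ∑ _i ∈ Finset.range n, a m :=
    Finset.sum_le_sum fun i hi => (hcon i (Finset.mem_range.1 hi)).le
  rw [← Finset.mul_sum, Finset.sum_const, Finset.card_range, nsmul_eq_mul] at h1
  have h2 : 8 * (n : ℤ) * a m ≤ 8 * (n : ℤ) * (n * d * ∑ i ∈ Finset.range n, b (m - i)) :=
    mul_le_mul_of_nonneg_left hsum (by linarith)
  have h3 : 8 * (n : ℤ) * (n * d * ∑ i ∈ Finset.range n, b (m - i)) =
      8 * (n : ℤ) ^ 2 * d * ∑ i ∈ Finset.range n, b (m - i) := by ring
  nlinarith

/-- Block CONV. -/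
theorem p_CONV (hNEG : Stmt_NEG) (hFE : Stmt_FE) : Stmt_CONV := by
  intro n h d a b hn hh hd hL hL' e3 hsum m
  have hn' : (3 : ℤ) ≤ n := by exact_mod_cast hn
  have hn2 : (9 : ℤ) ≤ (n : ℤ) ^ 2 := by nlinarith
  have hd1 : 1000 ≤ d := by nlinarith
  have ham := hL.a1 m
  by_cases hc : 4 * a m ≤ (d + 1) * b (m + 1)
  · left
    have h1 := hFE d (fun m => a (-m)) (fun m => b (1 - m)) hd1 hL' (-m) (by
      show 4 * a (- -m) ≤ (d + 1) * b (1 - -m)
      have e1 : - -m = m := by ring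
      have e2 : 1 - -m = m + 1 := by ring
      rw [e1, e2]
      exact hc)
    have h2 : 5 * a (-(-m - 2)) ≤ 6 * b (1 - (-m - 2)) := h1
    have e1 : -(-m - 2) = m + 2 := by ring
    have e2 : 1 - (-m - 2) = m + 3 := by ring
    rw [e1, e2] at h2
    exact h2
  · right
    push Not at hc
    classical
    have hex := CONV_ex n d a b m hn ham (hsum m)
    obtain ⟨i, ⟨hin, hi⟩, hmin⟩ : ∃ i : ℕ, (i < n ∧ a m ≤ 8 * (n : ℤ) ^ 2 * d * b (m - i)) ∧
        ∀ j < i, ¬ (j < n ∧ a m ≤ 8 * (n : ℤ) ^ 2 * d * b (m - j)) :=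
      ⟨Nat.find hex, Nat.find_spec hex, fun j hj => Nat.find_min hex hj⟩
    have hlt : ∀ j < i, 8 * (n : ℤ) ^ 2 * d * b (m - j) < a m := by
      intro j hj
      by_contra hcon
      exact hmin j hj ⟨by omega, not_lt.1 hcon⟩
    have hN : 0 < (n : ℤ) ^ 2 * d := by positivity
    have hind : ∀ j : ℕ, j ≤ i → 8 * (n : ℤ) ^ 2 * d * a (m - j) ≤
        8 * (n : ℤ) ^ 2 * d * a m + (d - 1) * j * a m := by
      intro j
      induction j with
      | zero => intro _; simp
      | succ j ih =>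
        intro hj
        have h1 := ih (by omega)
        have h2 := hlt j (by omega)
        have h3 := hL.e2 (m - j)
        have e : m - ((j + 1 : ℕ) : ℤ) = m - j - 1 := by push_cast; ring
        rw [e]
        have h4 : 8 * (n : ℤ) ^ 2 * d * a (m - j - 1) ≤
            8 * (n : ℤ) ^ 2 * d * (a (m - j) + (d - 1) * b (m - j)) :=
          mul_le_mul_of_nonneg_left h3 (by linarith)
        have h5 : (d - 1) * (8 * (n : ℤ) ^ 2 * d * b (m - j)) ≤ (d - 1) * a m :=
          mul_le_mul_of_nonneg_left h2.le (by linarith)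
        push_cast
        linarith
    have hai : 8 * a (m - i) ≤ 9 * a m := by
      have h1 := hind i le_rfl
      have h2 : (i : ℤ) ≤ n := by exact_mod_cast hin.le
      have h3 : (d - 1) * (i : ℤ) * a m ≤ (n : ℤ) ^ 2 * d * a m := by
        refine mul_le_mul_of_nonneg_right ?_ (by linarith)
        have h4 : (d - 1) * (i : ℤ) ≤ d * n := by
          have h5 : (0 : ℤ) ≤ i := Int.natCast_nonneg i
          nlinarith
        nlinarith
      have h4 : (n : ℤ) ^ 2 * d * (8 * a (m - i)) ≤ (n : ℤ) ^ 2 * d * (9 * a m) := by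
        linarith
      exact le_of_mul_le_mul_left h4 hN
    have hB' : (d + 1) * b (m - i + 1) ≤ 4 * a m := by
      rcases Nat.eq_zero_or_pos i with h0 | h0
      · subst h0
        have e : m - ((0 : ℕ) : ℤ) + 1 = m + 1 := by simp
        rw [e]
        exact hc.le
      · obtain ⟨j, rfl⟩ : ∃ j, i = j + 1 := ⟨i - 1, by omega⟩
        have e : m - ((j + 1 : ℕ) : ℤ) + 1 = m - j := by push_cast; ring
        rw [e]
        have h1 := hlt j (by omega)
        have h2 := hL.b0 (m - j)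
        have h3 : (d + 1) * b (m - j) ≤ 8 * (n : ℤ) ^ 2 * d * b (m - j) := by
          refine mul_le_mul_of_nonneg_right ?_ h2
          nlinarith
        linarith
    have hB0 := hL.b0 (m - i)
    have h3 := e3 (m - i)
    have h4 := hL.e2 (m - i)
    have hfe : 4 * a (m - i - 1) ≤ (d + 1) * b (m - i - 1) := by
      have h5 : (d + 1) * (h * b (m - i)) ≤ (d + 1) * (b (m - i - 1) + b (m - i + 1)) :=
        mul_le_mul_of_nonneg_left h3 (by linarith)
      have h6 : 17 * a m + 8 * (d - 1) * b (m - i) ≤ 2 * ((d + 1) * (h * b (m - i))) := by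
        have h7 : (d + 1) * (100 * (n : ℤ) ^ 2 * b (m - i)) ≤ (d + 1) * (h * b (m - i)) :=
          mul_le_mul_of_nonneg_left (mul_le_mul_of_nonneg_right hh hB0) (by linarith)
        have h8 : 0 ≤ (n : ℤ) ^ 2 * b (m - i) := mul_nonneg (by positivity) hB0
        have h9 : b (m - i) ≤ (n : ℤ) ^ 2 * b (m - i) := by nlinarith
        have h10 : d * b (m - i) ≤ d * ((n : ℤ) ^ 2 * b (m - i)) :=
          mul_le_mul_of_nonneg_left h9 (by linarith)
        nlinarith
      linarith
    have hneg : 5 * a (m - i - 3) ≤ 6 * b (m - i - 3) := by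
      have h5 := hFE d a b hd1 hL (m - i - 1) hfe
      have e : m - (i : ℤ) - 1 - 2 = m - i - 3 := by ring
      rwa [e] at h5
    have hdown : ∀ s : ℕ, 5 * a (m - i - 3 - s) ≤ 6 * b (m - i - 3 - s) := by
      intro s
      induction s with
      | zero => simpa using hneg
      | succ s ih =>
        have h5 := (hNEG d a b (by linarith) hL _ ih).1
        have e : m - (i : ℤ) - 3 - ((s + 1 : ℕ) : ℤ) = m - i - 3 - s - 1 := by push_cast; ring
        rw [e]
        exact h5
    have h5 := hdown (n - i - 1)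
    have e : m - (i : ℤ) - 3 - ((n - i - 1 : ℕ) : ℤ) = m - n - 2 := by omega
    rwa [e] at h5

end Pool.Agent.Work.MP_b2cdcf_full
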