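import Pool.Agent.Work.MP_b2cdcf_full.IntA

/-!
# Block DEN of MP_b2cdcf_al, S02759 (helper12)
-/

set_option autoImplicit false

namespace Pool.Agent.Work.MP_b2cdcf_full

theorem p_DEN : Stmt_DEN := by
  intro V _ _ δ C h4 hgeo f
  obtain ⟨x⟩ := ‹Nonempty V›
  obtain ⟨y, hy⟩ := f.2.2 x 1 one_pos
  have hfx := Del.nonneg f.2.1 x
  have hfy := Del.nonneg f.2.1 y
  obtain ⟨v, hv1, hv2⟩ := hgeo x y (min (f.1 x) (dist x y)) (le_min hfx dist_nonneg)
    (min_le_right _ _)
  have hxy := f.2.1 x y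
  have hvx : dist v x ≤ f.1 x + C := by
    rw [dist_comm]
    have := min_le_left (f.1 x) (dist x y)
    linarith
  have hvy : dist v y ≤ f.1 y + C := by
    rcases min_choice (f.1 x) (dist x y) with h | h
    · rw [h] at hv2
      linarith
    · rw [h] at hv2
      linarith
  obtain ⟨z, hz⟩ := f.2.2 v 1 one_pos
  have h := h4 v x z y
  have hzy := f.2.1 z y
  have hxz := f.2.1 x z
  have hmax : max (dist v x + dist z y) (dist x z + dist v y) ≤ f.1 x + f.1 y + f.1 z + C := by
    apply max_le <;> linarith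
  have hfv : f.1 v ≤ C + δ + 2 := by linarith
  refine ⟨v, ?_⟩
  haveI : Nonempty V := ⟨v⟩
  refine le_trans (Ext.dist_le _ _ (f.1 v) ?_) hfv
  intro w
  show |dist v w - f.1 w| ≤ f.1 v
  rw [_root_.abs_le]
  constructor
  · have key : ∀ ε : ℝ, 0 < ε → f.1 w ≤ dist v w + f.1 v + ε := by
      intro ε hε
      obtain ⟨u, hu⟩ := f.2.2 w ε hε
      have h1 := dist_triangle w v u
      have h2 := f.2.1 v u
      rw [dist_comm w v] at h1
      linarith
    have := le_of_forall_pos_le_add key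
    linarith
  · have := f.2.1 v w
    linarith

end Pool.Agent.Work.MP_b2cdcf_full
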