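import Pool.Agent.Work.MP_b2cdcf_full.IntA

set_option autoImplicit false

namespace Pool.Agent.Work.MP_b2cdcf_full

section
variable {Γ V I : Type} [Group Γ] [MulAction Γ V] [MulAction Γ I] {own : V → I} {b : I → V → ℤ}

theorem EQB_beh (hE : Eqv Γ own b) (g : Γ) {τ : ℤ} {Y W : I} {x : V}
    (h : Beh own b τ Y W x) : Beh own b τ (g • Y) (g • W) (g • x) := by
  rcases h with h | ⟨y, hy, hlt⟩
  · left
    rw [hE.own_smul, h]
  · right
    refine ⟨g • y, ?_, ?_⟩
    · rw [hE.own_smul, hy]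
    · obtain ⟨c, hc⟩ := hE.b_smul g W
      rw [hc, hc]
      have : b W x + c - (b W y + c) = b W x - b W y := by ring
      rw [this]
      exact hlt

theorem EQB_ry (hE : Eqv Γ own b) (g : Γ) {τ : ℤ} {Y : I} {x x' : V}
    (h : RY own b τ Y x x') : RY own b τ (g • Y) (g • x) (g • x') := by
  obtain ⟨W, hW, h1, h2⟩ := h
  exact ⟨g • W, fun h => hW (smul_left_cancel g h), EQB_beh hE g h1, EQB_beh hE g h2⟩

theorem EQB_rtg (hE : Eqv Γ own b) (g : Γ) {τ : ℤ} {Y : I} {x x' : V}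
    (h : Relation.ReflTransGen (RY own b τ Y) x x') :
    Relation.ReflTransGen (RY own b τ (g • Y)) (g • x) (g • x') := by
  induction h with
  | refl => exact Relation.ReflTransGen.refl
  | tail _ hbc ih => exact ih.tail (EQB_ry hE g hbc)

end

theorem p_EQB (hCLS : Stmt_CLS) : Stmt_EQB := by
  intro Γ V I _ _ _ own pt b θ hP hE
  refine ⟨hE.own_smul, ?_⟩
  intro g Y
  obtain ⟨c, hc⟩ := hE.b_smul g Y
  refine ⟨c, ?_⟩
  intro x
  obtain ⟨S, hS⟩ : ∃ S : Set ℤ, S = {z | ∃ x', Relation.ReflTransGen (RY own b (10 * θ) Y) x x' ∧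
    b Y x' = z} := ⟨_, rfl⟩
  obtain ⟨S', hS'⟩ : ∃ S' : Set ℤ, S' = {z | ∃ x', Relation.ReflTransGen
    (RY own b (10 * θ) (g • Y)) (g • x) x' ∧ b (g • Y) x' = z} := ⟨_, rfl⟩
  have e1 : BB own b (10 * θ) Y x = sInf S := by rw [hS]; rfl
  have e2 : BB own b (10 * θ) (g • Y) (g • x) = sInf S' := by rw [hS']; rfl
  rw [e1, e2]
  have hne : S.Nonempty := by
    rw [hS]
    exact ⟨b Y x, x, Relation.ReflTransGen.refl, rfl⟩
  have hne' : S'.Nonempty := by
    rw [hS']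
    exact ⟨b (g • Y) (g • x), g • x, Relation.ReflTransGen.refl, rfl⟩
  have hbd : BddBelow S := by
    refine ⟨b Y x - 4 * θ, ?_⟩
    intro z hz
    rw [hS] at hz
    obtain ⟨x', hx', rfl⟩ := hz
    have h := hCLS V I own pt b θ hP Y x x' hx'
    have := (abs_le.mp h).2
    linarith
  have hbd' : BddBelow S' := by
    refine ⟨b (g • Y) (g • x) - 4 * θ, ?_⟩
    intro z hz
    rw [hS'] at hz
    obtain ⟨x', hx', rfl⟩ := hz
    have h := hCLS V I own pt b θ hP (g • Y) (g • x) x' hx'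
    have := (abs_le.mp h).2
    linarith
  have fwd : ∀ z ∈ S, z + c ∈ S' := by
    intro z hz
    rw [hS] at hz
    rw [hS']
    obtain ⟨x', hx', rfl⟩ := hz
    exact ⟨g • x', EQB_rtg hE g hx', hc x'⟩
  have bwd : ∀ z ∈ S', z - c ∈ S := by
    intro z hz
    rw [hS'] at hz
    rw [hS]
    obtain ⟨x', hx', rfl⟩ := hz
    have h := EQB_rtg hE g⁻¹ hx'
    rw [inv_smul_smul, inv_smul_smul] at h
    refine ⟨g⁻¹ • x', h, ?_⟩
    have h2 := hc (g⁻¹ • x')
    rw [smul_inv_smul] at h2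
    rw [h2]
    ring
  apply le_antisymm
  · exact csInf_le hbd' (fwd _ (Int.csInf_mem hne hbd))
  · apply le_csInf hne'
    intro z hz
    have := csInf_le hbd (bwd z hz)
    linarith

end Pool.Agent.Work.MP_b2cdcf_full
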