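import Pool.Agent.Work.MP_b2cdcf_full.IntA

set_option autoImplicit false

namespace Pool.Agent.Work.MP_b2cdcf_full

theorem p_FE : Stmt_FE := by
  intro d a b hd h m hm
  have hm2 : m - 2 = m - 1 - 1 := by ring
  rw [hm2]
  have e1 := h.e1 m
  have e2 := h.e2 m
  have f1 := h.e1 (m - 1)
  have f2 := h.e2 (m - 1)
  have hb := h.b0 m
  obtain ⟨A, hA⟩ : ∃ A, a m = A := ⟨_, rfl⟩
  obtain ⟨B, hB⟩ : ∃ B, b m = B := ⟨_, rfl⟩
  obtain ⟨A1, hA1⟩ : ∃ A1, a (m - 1) = A1 := ⟨_, rfl⟩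
  obtain ⟨B1, hB1⟩ : ∃ B1, b (m - 1) = B1 := ⟨_, rfl⟩
  obtain ⟨A2, hA2⟩ : ∃ A2, a (m - 1 - 1) = A2 := ⟨_, rfl⟩
  obtain ⟨B2, hB2⟩ : ∃ B2, b (m - 1 - 1) = B2 := ⟨_, rfl⟩
  rw [hA2, hB2]
  rw [hA, hB] at hm
  rw [hA, hB, hB1] at e1
  rw [hA, hB, hA1] at e2
  rw [hA1, hB1, hB2] at f1
  rw [hA1, hB1, hA2] at f2
  rw [hB] at hb
  -- `4 (d-1) B1 ≥ d (3 d - 1) B`
  have g1 : d * (3 * d - 1) * B ≤ 4 * (d - 1) * B1 := by
    have := mul_le_mul_of_nonneg_left hm (by linarith : (0 : ℤ) ≤ d)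
    nlinarith
  have g2 : 4 * A1 ≤ (5 * d - 3) * B := by nlinarith
  have g3 : (d ^ 2 + 10 * d - 5) * B1 - (11 * d - 5) * A1 ≤ (d - 1) * (6 * B2 - 5 * A2) := by
    have := mul_le_mul_of_nonneg_left f2 (by linarith : (0 : ℤ) ≤ 5 * (d - 1))
    nlinarith
  have g4 : (d ^ 2 + 10 * d - 5) * (d * (3 * d - 1) * B) ≤
      (d ^ 2 + 10 * d - 5) * (4 * (d - 1) * B1) :=
    mul_le_mul_of_nonneg_left g1 (by nlinarith)
  have g5 : ((d - 1) * (11 * d - 5)) * (4 * A1) ≤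
      ((d - 1) * (11 * d - 5)) * ((5 * d - 3) * B) :=
    mul_le_mul_of_nonneg_left g2 (mul_nonneg (by linarith) (by linarith))
  have hq : 0 ≤ (d ^ 2 + 10 * d - 5) * (d * (3 * d - 1)) -
      (d - 1) * (11 * d - 5) * (5 * d - 3) := by
    have k1 : 0 ≤ d ^ 3 * (d - 1000) := mul_nonneg (pow_nonneg (by linarith) 3) (by linarith)
    have k2 : 0 ≤ d ^ 2 := sq_nonneg d
    have k3 : 0 ≤ d ^ 2 * (d - 1000) := mul_nonneg k2 (by linarith)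
    nlinarith
  have g6 := mul_nonneg hq hb
  have g7 : 0 ≤ (4 * (d - 1)) * ((d ^ 2 + 10 * d - 5) * B1 - (11 * d - 5) * A1) := by
    nlinarith
  have g8 : 0 ≤ (d ^ 2 + 10 * d - 5) * B1 - (11 * d - 5) * A1 := by
    by_contra hcon
    push Not at hcon
    have : (4 * (d - 1)) * ((d ^ 2 + 10 * d - 5) * B1 - (11 * d - 5) * A1) < 0 :=
      mul_neg_of_pos_of_neg (by linarith) hcon
    linarith
  have g9 : 0 ≤ (d - 1) * (6 * B2 - 5 * A2) := le_trans g8 g3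
  have g10 : 0 ≤ 6 * B2 - 5 * A2 := by
    by_contra hcon
    push Not at hcon
    have : (d - 1) * (6 * B2 - 5 * A2) < 0 := mul_neg_of_pos_of_neg (by linarith) hcon
    linarith
  linarith

end Pool.Agent.Work.MP_b2cdcf_full
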