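import Pool.Agent.Work.MP_b2cdcf_full.IntA

/-!
# MP_b2cdcf_al, S02759: block FIN
-/

set_option autoImplicit false

namespace Pool.Agent.Work.MP_b2cdcf_full

theorem FIN_symm {V I : Type} (B : I → V → ℤ) (K : ℤ) (x z : V) : YK B K x z = YK B K z x := by
  unfold YK
  ext Y
  rw [Set.mem_ofPred_eq, Set.mem_ofPred_eq, abs_sub_comm]

/-- Block FIN. -/
theorem p_FIN : Stmt_FIN := by
  intro V I own pt B Θ K hS hK x z
  have h1 := hS.th
  refine ⟨?_, ?_, ?_⟩
  · refine (hS.s3 x z).subset ?_
    intro Y hY
    have h2 : K ≤ |B Y x - B Y z| := hY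
    show Θ < |B Y x - B Y z|
    linarith
  · unfold NK
    rw [FIN_symm]
  · unfold NK
    have h2 : YK B K x x = ∅ := by
      ext Y
      constructor
      · intro hY
        have h3 : K ≤ |B Y x - B Y x| := hY
        rw [sub_self, abs_zero] at h3
        linarith
      · intro hY
        exact absurd hY (Set.notMem_empty Y)
    rw [h2, Set.ncard_empty]

end Pool.Agent.Work.MP_b2cdcf_full
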