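import Pool.Agent.Work.MP_b2cdcf_full.IntA

set_option autoImplicit false

noncomputable section

namespace Pool.Agent.Work.MP_b2cdcf_full

theorem FOUR_pair {V : Type} [MetricSpace V] [Nonempty V] (e f : Ext V) (ε : ℝ) (hε : 0 < ε) :
    ∃ w x : V, dist e f ≤ dist w x - e.1 w - f.1 x + ε := by
  have h : dist e f - ε / 2 < ⨆ x, |e.1 x - f.1 x| := by
    rw [← Ext.dist_def]
    linarith
  obtain ⟨x, hx⟩ := exists_lt_of_lt_ciSup h
  rcases le_total (f.1 x) (e.1 x) with hc | hc
  · rw [abs_of_nonneg (by linarith)] at hx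
    obtain ⟨w, hw⟩ := e.2.2 x (ε / 2) (by linarith)
    refine ⟨w, x, ?_⟩
    rw [dist_comm w x]
    linarith
  · rw [abs_of_nonpos (by linarith)] at hx
    obtain ⟨y, hy⟩ := f.2.2 x (ε / 2) (by linarith)
    refine ⟨x, y, ?_⟩
    linarith

theorem FOUR_le {V : Type} [MetricSpace V] (e f : Ext V) (x y : V) :
    dist x y ≤ e.1 x + f.1 y + dist e f := by
  have h1 := e.2.1 x y
  have h2 := Ext.le_dist e f y
  have h3 := le_abs_self (e.1 y - f.1 y)
  linarith

theorem p_FOUR : Stmt_FOUR := by
  intro V _ _ δ hV e f g h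
  apply le_of_forall_pos_le_add
  intro ε hε
  obtain ⟨w, x, hwx⟩ := FOUR_pair e g (ε / 2) (by linarith)
  obtain ⟨y, z, hyz⟩ := FOUR_pair f h (ε / 2) (by linarith)
  have h4 := hV w y x z
  have a1 := FOUR_le e f w y
  have a2 := FOUR_le g h x z
  have a3 := FOUR_le f g y x
  have a4 := FOUR_le e h w z
  rcases le_total (dist w y + dist x z) (dist y x + dist w z) with hc | hc
  · rw [max_eq_right hc] at h4
    have := le_max_right (dist e f + dist g h) (dist f g + dist e h)
    linarith
  · rw [max_eq_left hc] at h4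
    have := le_max_left (dist e f + dist g h) (dist f g + dist e h)
    linarith

end Pool.Agent.Work.MP_b2cdcf_full
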