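import Pool.Agent.Work.MP_b2cdcf_full.IntA

/-!
# Block FT of MP_b2cdcf_al, S02759 (helper12)
-/

set_option autoImplicit false

namespace Pool.Agent.Work.MP_b2cdcf_full

theorem FT_arith (d κ l P Q R S : ℕ) (hd : 5 ≤ d) (h1 : P * Q ≤ 2 * d ^ l)
    (hkey : 2 * d ^ l * (R * S) ≤ 3 * d ^ (2 * κ + 1) * (P * Q)) :
    R * S ≤ d ^ (2 * κ + 2) := by
  have hpos : 0 < 2 * d ^ l := by positivity
  have h2 : 2 * d ^ l * (R * S) ≤ 2 * d ^ l * (3 * d ^ (2 * κ + 1)) := by
    calc 2 * d ^ l * (R * S) ≤ 3 * d ^ (2 * κ + 1) * (P * Q) := hkey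
      _ ≤ 3 * d ^ (2 * κ + 1) * (2 * d ^ l) := Nat.mul_le_mul_left _ h1
      _ = 2 * d ^ l * (3 * d ^ (2 * κ + 1)) := by ring
  have h3 : R * S ≤ 3 * d ^ (2 * κ + 1) := Nat.le_of_mul_le_mul_left h2 hpos
  calc R * S ≤ 3 * d ^ (2 * κ + 1) := h3
    _ ≤ d * d ^ (2 * κ + 1) := Nat.mul_le_mul_right _ (by omega)
    _ = d ^ (2 * κ + 2) := by ring

theorem p_FT (hR : Stmt_RGR) (hL : Stmt_LGR) : Stmt_FT := by
  intro Γ _ M F E bt d κ hG u i l hul
  have hd := hG.d5
  have hd1 : 1 ≤ d := by omega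
  have hpowk : 1 ≤ d ^ (2 * κ) := Nat.one_le_pow _ _ (by omega)
  rcases le_or_gt (bt u) i with h1 | h1
  · refine ⟨i, le_refl _, by omega, ?_⟩
    have h3 := ((hR Γ M F E bt d κ hG u).2.2 i l h1)
    refine FT_arith d κ l _ _ _ _ hd hul ?_
    generalize M (F ^ (-i) * u) = A at *
    generalize M (u⁻¹ * F ^ i) = B at *
    generalize M (u⁻¹ * F ^ (i + l)) = C at *
    have hp : d ^ (2 * κ + 1) = d ^ (2 * κ) * d := by ring
    calc 2 * d ^ l * (A * B) = 2 * A * (d ^ l * B) := by ring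
      _ ≤ 2 * A * (d * C) := Nat.mul_le_mul_left _ h3
      _ = 2 * d * (A * C) := by ring
      _ ≤ 3 * d ^ (2 * κ + 1) * (A * C) := by
          apply Nat.mul_le_mul_right
          rw [hp]
          nlinarith
  · rcases le_or_gt (i + l) (bt u) with h2 | h2
    · refine ⟨i + l, by omega, le_refl _, ?_⟩
      have h3 := hL Γ M F E bt d κ hG u i l h2
      refine FT_arith d κ l _ _ _ _ hd hul ?_
      generalize M (F ^ (-i) * u) = A at *
      generalize M (F ^ (-(i + l)) * u) = B at *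
      generalize M (u⁻¹ * F ^ (i + l)) = C at *
      have hp : d ^ (2 * κ + 1) = d ^ (2 * κ) * d := by ring
      calc 2 * d ^ l * (B * C) = (2 * d ^ l * B) * C := by ring
        _ ≤ (3 * d ^ (2 * κ) * A) * C := Nat.mul_le_mul_right _ h3
        _ = 3 * d ^ (2 * κ) * (A * C) := by ring
        _ ≤ 3 * d ^ (2 * κ + 1) * (A * C) := by
            apply Nat.mul_le_mul_right
            rw [hp]
            nlinarith
    · obtain ⟨l1, hl1⟩ : ∃ l1 : ℕ, bt u = i + l1 := ⟨(bt u - i).toNat, by omega⟩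
      obtain ⟨l2, hl2⟩ : ∃ l2 : ℕ, i + l = bt u + l2 := ⟨(i + l - bt u).toNat, by omega⟩
      refine ⟨bt u, by omega, by omega, ?_⟩
      have h3 := hL Γ M F E bt d κ hG u i l1 (by omega)
      have h4 := ((hR Γ M F E bt d κ hG u).2.2 (bt u) l2 (le_refl _))
      rw [← hl1] at h3
      rw [← hl2] at h4
      refine FT_arith d κ l _ _ _ _ hd hul ?_
      have hl : l = l1 + l2 := by omega
      generalize M (F ^ (-i) * u) = A at *
      generalize M (F ^ (-(bt u)) * u) = B at *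
      generalize M (u⁻¹ * F ^ (bt u)) = B' at *
      generalize M (u⁻¹ * F ^ (i + l)) = C at *
      have hp : d ^ (2 * κ + 1) = d ^ (2 * κ) * d := by ring
      calc 2 * d ^ l * (B * B') = (2 * d ^ l1 * B) * (d ^ l2 * B') := by
            rw [hl]; ring
        _ ≤ (3 * d ^ (2 * κ) * A) * (d * C) := Nat.mul_le_mul h3 h4
        _ = 3 * d ^ (2 * κ + 1) * (A * C) := by rw [hp]; ring

end Pool.Agent.Work.MP_b2cdcf_full
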