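import Pool.Agent.Work.MP_b2cdcf_full.IntA

set_option autoImplicit false

noncomputable section

namespace Pool.Agent.Work.MP_b2cdcf_full

/-- the convex combination -/
def GEOD_comb {V : Type} [MetricSpace V] (f g : Ext V) (D t : ℝ) : V → ℝ :=
  fun x => (1 - t / D) * f.1 x + (t / D) * g.1 x

theorem GEOD_del {V : Type} [MetricSpace V] (f g : Ext V) (D t : ℝ) (hD : 0 < D) (h0 : 0 ≤ t)
    (h1 : t ≤ D) : GEOD_comb f g D t ∈ Del V := by
  intro x y
  have a1 : 0 ≤ t / D := div_nonneg h0 hD.le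
  have a2 : 0 ≤ 1 - t / D := by
    have := (div_le_one hD).2 h1
    linarith
  have b1 := mul_le_mul_of_nonneg_left (f.2.1 x y) a2
  have b2 := mul_le_mul_of_nonneg_left (g.2.1 x y) a1
  unfold GEOD_comb
  nlinarith

theorem GEOD_diff {V : Type} [MetricSpace V] (f g : Ext V) (D s t : ℝ) (hD : 0 < D)
    (hfg : dist f g = D) (x : V) :
    |GEOD_comb f g D s x - GEOD_comb f g D t x| ≤ |s - t| := by
  have h : GEOD_comb f g D s x - GEOD_comb f g D t x = (-(s - t) / D) * (f.1 x - g.1 x) := by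
    unfold GEOD_comb
    field_simp
    ring
  rw [h, abs_mul, abs_div, abs_neg, abs_of_pos hD]
  have h2 := Ext.le_dist f g x
  rw [hfg] at h2
  calc |s - t| / D * |f.1 x - g.1 x| ≤ |s - t| / D * D :=
        mul_le_mul_of_nonneg_left h2 (div_nonneg (abs_nonneg _) hD.le)
    _ = |s - t| := by field_simp

theorem GEOD_ext {V : Type} [MetricSpace V] {f g : Ext V} (h : f.1 = g.1) : f = g := by
  cases f
  cases g
  simp only at h
  subst h
  rfl

theorem p_GEOD (h1 : Stmt_RET) : Stmt_GEOD := by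
  classical
  intro V _ _ f g
  obtain ⟨p, hp1, hp2, hp3⟩ := h1 V
  rcases eq_or_lt_of_le (dist_nonneg (x := f) (y := g)) with hD | hD
  · refine ⟨fun _ => f, rfl, ?_, ?_⟩
    · exact dist_eq_zero.1 hD.symm
    · intro s t hs0 hs1 ht0 ht1
      rw [← hD] at hs1 ht1
      have e1 : s = 0 := le_antisymm hs1 hs0
      have e2 : t = 0 := le_antisymm ht1 ht0
      subst e1; subst e2
      simp
  · obtain ⟨D, hDD⟩ : ∃ D, dist f g = D := ⟨_, rfl⟩
    rw [hDD] at hD ⊢
    let γ : ℝ → Ext V := fun t => if h : 0 ≤ t ∧ t ≤ D then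
      ⟨p (GEOD_comb f g D t), hp1 _ (GEOD_del f g D t hD h.1 h.2)⟩ else f
    have hγ : ∀ t, 0 ≤ t → t ≤ D → (γ t).1 = p (GEOD_comb f g D t) := by
      intro t h0 h1
      have : γ t = ⟨p (GEOD_comb f g D t), hp1 _ (GEOD_del f g D t hD h0 h1)⟩ := by
        simp only [γ]
        rw [dif_pos ⟨h0, h1⟩]
      rw [this]
    have hγ0 : γ 0 = f := by
      apply GEOD_ext
      rw [hγ 0 le_rfl hD.le]
      have : GEOD_comb f g D 0 = f.1 := by
        funext x
        simp [GEOD_comb]
      rw [this, hp3 _ f.2]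
    have hγD : γ D = g := by
      apply GEOD_ext
      rw [hγ D hD.le le_rfl]
      have : GEOD_comb f g D D = g.1 := by
        funext x
        unfold GEOD_comb
        rw [div_self hD.ne']
        ring
      rw [this, hp3 _ g.2]
    have hle : ∀ s t, 0 ≤ s → s ≤ D → 0 ≤ t → t ≤ D → dist (γ s) (γ t) ≤ |s - t| := by
      intro s t hs0 hs1 ht0 ht1
      apply Ext.dist_le
      intro x
      rw [hγ s hs0 hs1, hγ t ht0 ht1]
      exact hp2 _ (GEOD_del f g D s hD hs0 hs1) _ (GEOD_del f g D t hD ht0 ht1) _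
        (fun x => GEOD_diff f g D s t hD hDD x) x
    have hge : ∀ s t, 0 ≤ s → s ≤ D → 0 ≤ t → t ≤ D → s ≤ t → t - s ≤ dist (γ s) (γ t) := by
      intro s t hs0 hs1 ht0 ht1 hst
      have t1 := dist_triangle4 f (γ s) (γ t) g
      have t2 := hle 0 s le_rfl hD.le hs0 hs1
      have t3 := hle t D ht0 ht1 hD.le le_rfl
      rw [hγ0] at t2
      rw [hγD] at t3
      rw [abs_of_nonpos (by linarith)] at t2 t3
      linarith
    refine ⟨γ, hγ0, hγD, ?_⟩
    intro s t hs0 hs1 ht0 ht1
    apply le_antisymm (hle s t hs0 hs1 ht0 ht1)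
    rcases le_total s t with hst | hst
    · rw [abs_of_nonpos (by linarith)]
      have := hge s t hs0 hs1 ht0 ht1 hst
      linarith
    · rw [abs_of_nonneg (by linarith), dist_comm]
      exact hge t s ht0 ht1 hs0 hs1 hst

end Pool.Agent.Work.MP_b2cdcf_full
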