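import Pool.Agent.Work.MP_b2cdcf_full.IntA

/-!
# Block GP
-/

set_option autoImplicit false

namespace Pool.Agent.Work.MP_b2cdcf_full

theorem GP_cover {α : Type} {A S L E : Set α} (hA : A ⊆ S ∪ L ∪ E) (hS : S.Finite)
    (hL : L.Finite) (hE : E.Finite) : A.ncard ≤ S.ncard + L.ncard + E.ncard := by
  have h1 := Set.ncard_le_ncard hA ((hS.union hL).union hE)
  have h2 := Set.ncard_union_le (S ∪ L) E
  have h3 := Set.ncard_union_le S L
  omega

theorem GP_disj {α : Type} {A S L : Set α} (hS : S ⊆ A) (hL : L ⊆ A) (hA : A.Finite)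
    (hd : Disjoint S L) : S.ncard + L.ncard ≤ A.ncard := by
  rw [← Set.ncard_union_eq hd (hA.subset hS) (hA.subset hL)]
  exact Set.ncard_le_ncard (Set.union_subset hS hL) hA

theorem p_GP (hFIN : Stmt_FIN) (hSPL : Stmt_SPL) : Stmt_GP := by
  intro V I own pt B Θ K hS hK
  have hK0 : 0 < K := by
    have := hS.th
    linarith
  have hf : ∀ x z : V, (YK B K x z).Finite := fun x z => (hFIN V I own pt B Θ K hS hK x z).1
  have hspl := hSPL V I own pt B Θ K hS hK
  have hfe : ∀ x z y : V, {Y | Y ∈ YK B K x z ∧ B Y y ≠ B Y x ∧ B Y y ≠ B Y z}.Finite :=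
    fun x z y => (hf x z).subset fun Y hY => hY.1
  constructor
  · intro x y z
    have h1 : YK B K x z ⊆ YK B K x y ∪ YK B K y z ∪
        {Y | Y ∈ YK B K x z ∧ B Y y ≠ B Y x ∧ B Y y ≠ B Y z} := by
      intro Y hY
      by_cases h2 : B Y y = B Y x
      · left; right
        change K ≤ |B Y y - B Y z|
        rw [h2]; exact hY
      · by_cases h3 : B Y y = B Y z
        · left; left
          change K ≤ |B Y x - B Y y|
          rw [h3]; exact hY
        · right
          exact ⟨hY, h2, h3⟩
    have h2 := GP_cover h1 (hf x y) (hf y z) (hfe x z y)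
    have h3 := hspl x z y
    unfold NK
    omega
  · intro w x y
    set S := SK B K w x y with hSdef
    set L1 : Set I := {Y | Y ∈ YK B K w x ∧ B Y y = B Y w} with hL1
    set L2 : Set I := {Y | Y ∈ YK B K w y ∧ B Y x = B Y w} with hL2
    have hSx : S ⊆ YK B K w x := fun Y hY => hY.1
    have hSy : S ⊆ YK B K w y := by
      intro Y hY
      change K ≤ |B Y w - B Y y|
      rw [← hY.2]
      exact hY.1
    have hSf : S.Finite := (hf w x).subset hSx
    have hL1x : L1 ⊆ YK B K w x := fun Y hY => hY.1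
    have hL2y : L2 ⊆ YK B K w y := fun Y hY => hY.1
    have hL1f : L1.Finite := (hf w x).subset hL1x
    have hL2f : L2.Finite := (hf w y).subset hL2y
    have hL1xy : L1 ⊆ YK B K x y := by
      intro Y hY
      change K ≤ |B Y x - B Y y|
      rw [hY.2, abs_sub_comm]
      exact hY.1
    have hL2xy : L2 ⊆ YK B K x y := by
      intro Y hY
      change K ≤ |B Y x - B Y y|
      rw [hY.2]
      exact hY.1
    have hne : ∀ (Y : I) (a c : V), Y ∈ YK B K a c → B Y a ≠ B Y c := by
      intro Y a c h h2
      change K ≤ |B Y a - B Y c| at h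
      rw [h2, sub_self, abs_zero] at h
      omega
    have hd12 : Disjoint L1 L2 := by
      rw [Set.disjoint_left]
      intro Y h1 h2
      exact hne Y w x h1.1 h2.2.symm
    have hdS1 : Disjoint S L1 := by
      rw [Set.disjoint_left]
      intro Y h1 h2
      apply hne Y w x h2.1
      rw [h1.2, h2.2]
    have hdS2 : Disjoint S L2 := by
      rw [Set.disjoint_left]
      intro Y h1 h2
      apply hne Y w y h2.1
      rw [← h1.2, h2.2]
    have hcx : YK B K w x ⊆ S ∪ L1 ∪ {Y | Y ∈ YK B K w x ∧ B Y y ≠ B Y w ∧ B Y y ≠ B Y x} := by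
      intro Y hY
      by_cases h1 : B Y y = B Y w
      · left; right
        exact ⟨hY, h1⟩
      · by_cases h2 : B Y y = B Y x
        · left; left
          exact ⟨hY, h2.symm⟩
        · right
          exact ⟨hY, h1, h2⟩
    have hcy : YK B K w y ⊆ S ∪ L2 ∪ {Y | Y ∈ YK B K w y ∧ B Y x ≠ B Y w ∧ B Y x ≠ B Y y} := by
      intro Y hY
      by_cases h1 : B Y x = B Y w
      · left; right
        exact ⟨hY, h1⟩
      · by_cases h2 : B Y x = B Y y
        · left; left
          refine ⟨?_, h2⟩
          rw [h2]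
          exact hY
        · right
          exact ⟨hY, h1, h2⟩
    have hcxy : YK B K x y ⊆ L1 ∪ L2 ∪ {Y | Y ∈ YK B K x y ∧ B Y w ≠ B Y x ∧ B Y w ≠ B Y y} := by
      intro Y hY
      by_cases h1 : B Y w = B Y x
      · left; right
        refine ⟨?_, h1.symm⟩
        change K ≤ |B Y w - B Y y|
        rw [h1]
        exact hY
      · by_cases h2 : B Y w = B Y y
        · left; left
          refine ⟨?_, h2.symm⟩
          change K ≤ |B Y w - B Y x|
          rw [h2, abs_sub_comm]
          exact hY
        · right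
          exact ⟨hY, h1, h2⟩
    have e1 := GP_cover hcx hSf hL1f (hfe w x y)
    have e2 := GP_cover hcy hSf hL2f (hfe w y x)
    have e3 := GP_cover hcxy hL1f hL2f (hfe x y w)
    have f1 := GP_disj hL1xy hL2xy (hf x y) hd12
    have f2 := GP_disj hSx hL1x (hf w x) hdS1
    have f3 := GP_disj hSy hL2y (hf w y) hdS2
    have g1 := hspl w x y
    have g2 := hspl w y x
    have g3 := hspl x y w
    unfold NK
    omega

end Pool.Agent.Work.MP_b2cdcf_full
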