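import Pool.Agent.Work.MP_b2cdcf_full.IntA

set_option autoImplicit false

noncomputable section

namespace Pool.Agent.Work.MP_b2cdcf_full

section

variable {Γ : Type} [Group Γ] {M : Γ → ℕ} {F : Γ} {E : Subgroup Γ} {bt : Γ → ℤ}
  {d κ : ℕ}

theorem H1_two (hG : Geo Γ M F E bt d κ) {A : Γ} {C : ℕ} (h : M A⁻¹ * M A ≤ C) :
    M A ≤ C ∧ M A⁻¹ ≤ C := by
  have h1 := hG.M1 A
  have h2 := hG.M1 A⁻¹
  constructor <;> nlinarith

/-- the inequality at a shift `m` -/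
theorem H1_A (hFT : Stmt_FT) (hG : Geo Γ M F E bt d κ) (g : Γ) (i : ℤ) (l : ℕ) (m : ℤ)
    (h : M ((g * F ^ i)⁻¹ * F ^ m) * M (F ^ (-m) * (g * F ^ (i + l))) ≤
      2 * M ((g * F ^ i)⁻¹ * (g * F ^ (i + l)))) :
    ∃ t : ℤ, M (F ^ (-m) * g * F ^ t) ≤ d ^ (2 * κ + 2) ∧
      M (F ^ (-m) * g * F ^ t)⁻¹ ≤ d ^ (2 * κ + 2) := by
  have e1 : (g * F ^ i)⁻¹ * (g * F ^ (i + l)) = F ^ (l : ℤ) := by
    rw [zpow_add]
    group
  have e2 : (g * F ^ i)⁻¹ * F ^ m = F ^ (-i) * (g⁻¹ * F ^ m) := by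
    rw [mul_inv_rev, zpow_neg, mul_assoc]
  have e3 : F ^ (-m) * (g * F ^ (i + l)) = (g⁻¹ * F ^ m)⁻¹ * F ^ (i + l) := by
    rw [mul_inv_rev, inv_inv, zpow_neg, mul_assoc]
  have e4 : M (F ^ (l : ℤ)) = d ^ l := by
    rw [hG.Mpow, Int.natAbs_natCast]
  rw [e1, e2, e3, e4] at h
  obtain ⟨t, -, -, ht⟩ := hFT Γ M F E bt d κ hG (g⁻¹ * F ^ m) i l h
  refine ⟨t, ?_⟩
  have e5 : F ^ (-m) * g * F ^ t = (g⁻¹ * F ^ m)⁻¹ * F ^ t := by
    rw [mul_inv_rev, inv_inv, zpow_neg]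
  have e6 : (F ^ (-m) * g * F ^ t)⁻¹ = F ^ (-t) * (g⁻¹ * F ^ m) := by
    rw [mul_inv_rev, mul_inv_rev, zpow_neg, zpow_neg, inv_inv]
  rw [← e5, ← e6] at ht
  exact H1_two hG ht

theorem H1_main (hFT : Stmt_FT) (hG : Geo Γ M F E bt d κ) (M0 : ℕ)
    (r1 : ∀ φ, M φ ≤ d ^ (6 * κ + 6) → M φ⁻¹ ≤ d ^ (6 * κ + 6) →
      M (F ^ M0 * φ * (F ^ M0)⁻¹) ≤ d ^ (6 * κ + 6) →
      M (F ^ M0 * φ⁻¹ * (F ^ M0)⁻¹) ≤ d ^ (6 * κ + 6) → φ ∈ E)
    (r2 : ∀ φ, M φ ≤ d ^ (6 * κ + 6) → M φ⁻¹ ≤ d ^ (6 * κ + 6) →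
      M (F ^ M0 * φ * F ^ M0) ≤ d ^ (6 * κ + 6) →
      M ((F ^ M0 * φ * F ^ M0)⁻¹) ≤ d ^ (6 * κ + 6) → False)
    (g : Γ) (hg : g ∉ E) (i : ℤ) (l : ℕ) (ma : ℤ)
    (ha : M ((g * F ^ i)⁻¹ * F ^ ma) * M (F ^ (-ma) * (g * F ^ (i + l))) ≤
      2 * M ((g * F ^ i)⁻¹ * (g * F ^ (i + l))))
    (hb : M ((g * F ^ i)⁻¹ * F ^ (ma + M0)) * M (F ^ (-(ma + M0)) * (g * F ^ (i + l))) ≤
      2 * M ((g * F ^ i)⁻¹ * (g * F ^ (i + l)))) : False := by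
  obtain ⟨ta, a1, a2⟩ := H1_A hFT hG g i l ma ha
  obtain ⟨tb, b1, b2⟩ := H1_A hFT hG g i l (ma + M0) hb
  have hd : 1 < d := by have := hG.d5; omega
  have hd1 : 1 ≤ d := hd.le
  set A : Γ := F ^ (-ma) * g * F ^ ta with hA
  set B : Γ := F ^ (-(ma + M0)) * g * F ^ tb with hB
  set s : ℤ := tb - ta with hs
  have hBA : B = F ^ (-(M0 : ℤ)) * A * F ^ s := by
    rw [hB, hA, hs]
    rw [show F ^ (-(ma + (M0 : ℤ))) = F ^ (-(M0 : ℤ)) * F ^ (-ma) by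
      rw [← zpow_add]; congr 1; ring]
    rw [show F ^ tb = F ^ ta * F ^ (tb - ta) by rw [← zpow_add]; congr 1; ring]
    simp only [mul_assoc]
  have hMM : M (F ^ (M0 : ℤ)) = d ^ M0 := by rw [hG.Mpow, Int.natAbs_natCast]
  -- the length of s
  have l1 : s.natAbs ≤ M0 + (4 * κ + 4) := by
    have e1 : F ^ s = A⁻¹ * (F ^ (M0 : ℤ) * B) := by
      rw [hBA, zpow_neg]; group
    have e2 : d ^ s.natAbs ≤ d ^ (M0 + (4 * κ + 4)) := by
      calc d ^ s.natAbs = M (F ^ s) := (hG.Mpow s).symm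
        _ ≤ M A⁻¹ * (M (F ^ (M0 : ℤ)) * M B) := by
          rw [e1]
          exact (hG.Mmul _ _).trans (Nat.mul_le_mul_left _ (hG.Mmul _ _))
        _ ≤ d ^ (2 * κ + 2) * (d ^ M0 * d ^ (2 * κ + 2)) := by
          rw [hMM]
          exact Nat.mul_le_mul a2 (Nat.mul_le_mul_left _ b1)
        _ = d ^ (M0 + (4 * κ + 4)) := by rw [← pow_add, ← pow_add]; congr 1; ring
    exact (Nat.pow_le_pow_iff_right hd).1 e2
  have l2 : M0 ≤ s.natAbs + (4 * κ + 4) := by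
    have e1 : F ^ (M0 : ℤ) = A * (F ^ s * B⁻¹) := by
      rw [hBA, zpow_neg]; group
    have e2 : d ^ M0 ≤ d ^ (s.natAbs + (4 * κ + 4)) := by
      calc d ^ M0 = M (F ^ (M0 : ℤ)) := hMM.symm
        _ ≤ M A * (M (F ^ s) * M B⁻¹) := by
          rw [e1]
          exact (hG.Mmul _ _).trans (Nat.mul_le_mul_left _ (hG.Mmul _ _))
        _ ≤ d ^ (2 * κ + 2) * (d ^ s.natAbs * d ^ (2 * κ + 2)) := by
          rw [hG.Mpow]
          exact Nat.mul_le_mul a1 (Nat.mul_le_mul_left _ b2)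
        _ = d ^ (s.natAbs + (4 * κ + 4)) := by rw [← pow_add, ← pow_add]; congr 1; ring
    exact (Nat.pow_le_pow_iff_right hd).1 e2
  -- bounds for ψ = B F^(-r)
  have hψ : ∀ r : ℤ, r.natAbs ≤ 4 * κ + 4 → M (B * F ^ (-r)) ≤ d ^ (6 * κ + 6) ∧
      M (B * F ^ (-r))⁻¹ ≤ d ^ (6 * κ + 6) := by
    intro r hr
    have e1 : d ^ (2 * κ + 2) * d ^ r.natAbs ≤ d ^ (6 * κ + 6) := by
      rw [← pow_add]
      exact Nat.pow_le_pow_right hd1 (by omega)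
    constructor
    · refine le_trans ((hG.Mmul _ _).trans ?_) e1
      rw [hG.Mpow, Int.natAbs_neg]
      exact Nat.mul_le_mul_right _ b1
    · rw [mul_inv_rev, zpow_neg, inv_inv]
      refine le_trans ((hG.Mmul _ _).trans ?_) e1
      rw [hG.Mpow, mul_comm]
      exact Nat.mul_le_mul_right _ b2
  have hbig : d ^ (2 * κ + 2) ≤ d ^ (6 * κ + 6) := Nat.pow_le_pow_right hd1 (by omega)
  have hgA : A ∈ E → False := by
    intro h
    apply hg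
    have e1 : g = F ^ ma * A * F ^ (-ta) := by rw [hA]; group
    rw [e1]
    exact E.mul_mem (E.mul_mem (E.zpow_mem hG.FE _) h) (E.zpow_mem hG.FE _)
  rcases le_or_gt 0 s with h0 | h0
  · set r : ℤ := s - M0 with hr
    obtain ⟨c1, c2⟩ := hψ r (by omega)
    set ψ : Γ := B * F ^ (-r) with hψd
    have e1 : F ^ M0 * ψ * (F ^ M0)⁻¹ = A := by
      rw [hψd, hBA, hr, ← zpow_natCast, ← zpow_neg]
      rw [show F ^ (-(s - (M0 : ℤ))) = F ^ (-s) * F ^ (M0 : ℤ) by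
        rw [← zpow_add]; congr 1; ring]
      rw [zpow_neg, zpow_neg]
      group
    have e2 : F ^ M0 * ψ⁻¹ * (F ^ M0)⁻¹ = A⁻¹ := by
      rw [← e1]; group
    have h1 := r1 ψ c1 c2 (by rw [e1]; exact a1.trans hbig) (by rw [e2]; exact a2.trans hbig)
    apply hgA
    rw [← e1]
    exact E.mul_mem (E.mul_mem (E.pow_mem hG.FE _) h1) (E.inv_mem (E.pow_mem hG.FE _))
  · set r : ℤ := s + M0 with hr
    obtain ⟨c1, c2⟩ := hψ r (by omega)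
    set ψ : Γ := B * F ^ (-r) with hψd
    have e1 : F ^ M0 * ψ * F ^ M0 = A := by
      rw [hψd, hBA, hr, ← zpow_natCast]
      rw [show F ^ (-(s + (M0 : ℤ))) = F ^ (-s) * F ^ (-(M0 : ℤ)) by
        rw [← zpow_add]; congr 1; ring]
      rw [zpow_neg, zpow_neg]
      group
    exact r2 ψ c1 c2 (by rw [e1]; exact a1.trans hbig) (by rw [e1]; exact a2.trans hbig)

end

theorem p_H1 (hFT : Stmt_FT) : Stmt_H1 := by
  intro Γ _ M F E bt d κ hG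
  obtain ⟨N1, hN1⟩ := hG.rig1 (d ^ (6 * κ + 6))
  obtain ⟨N2, hN2⟩ := hG.rig2 (d ^ (6 * κ + 6))
  set M0 : ℕ := max N1 N2 with hM0
  have hk := hG.k1
  refine ⟨(M0 : ℤ) + κ + 1, by positivity, ?_⟩
  have key : ∀ g, g ∉ E → ∀ (i : ℤ) (l : ℕ),
      |bt (g * F ^ i) - bt (g * F ^ (i + l))| ≤ (M0 : ℤ) + κ + 1 := by
    intro g hg i l
    by_contra hcon
    push Not at hcon
    rcases lt_or_ge (bt (g * F ^ i)) (bt (g * F ^ (i + l))) with h1 | h1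
    · rw [abs_sub_comm, abs_of_pos (by linarith)] at hcon
      refine H1_main hFT hG M0 (hN1 M0 (le_max_left _ _)) (hN2 M0 (le_max_right _ _)) g hg i l
        (bt (g * F ^ i) + 1) ?_ ?_
      · exact hG.mulr _ _ _ (by linarith) (by linarith)
      · exact hG.mulr _ _ _ (by linarith) (by linarith)
    · rw [abs_of_nonneg (by linarith)] at hcon
      refine H1_main hFT hG M0 (hN1 M0 (le_max_left _ _)) (hN2 M0 (le_max_right _ _)) g hg i l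
        (bt (g * F ^ (i + l)) + κ) ?_ ?_
      · exact hG.mull _ _ _ (by linarith) (by linarith)
      · exact hG.mull _ _ _ (by linarith) (by linarith)
  intro g hg i j
  rcases le_total i j with h | h
  · obtain ⟨l, hl⟩ := Int.eq_ofNat_of_zero_le (sub_nonneg.2 h)
    have e : j = i + l := by linarith
    rw [e]
    exact key g hg i l
  · obtain ⟨l, hl⟩ := Int.eq_ofNat_of_zero_le (sub_nonneg.2 h)
    have e : i = j + l := by linarith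
    rw [e, abs_sub_comm]
    exact key g hg j l

end Pool.Agent.Work.MP_b2cdcf_full
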