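import Pool.Agent.Work.MP_b2cdcf_full.IntA

set_option autoImplicit false

noncomputable section

namespace Pool.Agent.Work.MP_b2cdcf_full

section HULL

variable {Γ V : Type} [Group Γ] [MetricSpace V] [MulAction Γ V]

theorem HULL_isExt (hinv : ∀ (g : Γ) (x y : V), dist (g • x) (g • y) = dist x y) (g : Γ)
    (f : Ext V) : IsExt V (fun x => f.1 (g⁻¹ • x)) := by
  refine ⟨fun x y => ?_, fun x ε hε => ?_⟩
  · have h := f.2.1 (g⁻¹ • x) (g⁻¹ • y)
    rw [hinv] at h
    exact h
  · obtain ⟨y, hy⟩ := f.2.2 (g⁻¹ • x) ε hε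
    refine ⟨g • y, ?_⟩
    show f.1 (g⁻¹ • x) + f.1 (g⁻¹ • (g • y)) ≤ dist x (g • y) + ε
    rw [inv_smul_smul]
    have h : dist x (g • y) = dist (g⁻¹ • x) y := by
      rw [← hinv g⁻¹ x (g • y), inv_smul_smul]
    rw [h]
    exact hy

/-- the action on the injective hull -/
def HULL_act (hinv : ∀ (g : Γ) (x y : V), dist (g • x) (g • y) = dist x y) (g : Γ)
    (f : Ext V) : Ext V := ⟨fun x => f.1 (g⁻¹ • x), HULL_isExt hinv g f⟩

theorem HULL_eq {f g : Ext V} (h : ∀ x, f.1 x = g.1 x) : f = g := by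
  have h0 : f.1 = g.1 := funext h
  cases f
  cases g
  simp only at h0
  subst h0
  rfl

theorem HULL_act_of (hinv : ∀ (g : Γ) (x y : V), dist (g • x) (g • y) = dist x y) (g : Γ)
    (v : V) : HULL_act hinv g (Ext.of v) = Ext.of (g • v) := by
  apply HULL_eq
  intro x
  show dist v (g⁻¹ • x) = dist (g • v) x
  rw [← hinv g v (g⁻¹ • x), smul_inv_smul]

theorem HULL_dist_of [Nonempty V] (v v' : V) : dist (Ext.of v) (Ext.of v') = dist v v' := by
  apply le_antisymm
  · apply Ext.dist_le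
    intro x
    exact abs_dist_sub_le v v' x
  · have h := Ext.le_dist (Ext.of v) (Ext.of v') v'
    have h2 : |dist v v' - dist v' v'| ≤ dist (Ext.of v) (Ext.of v') := h
    rw [dist_self, sub_zero, abs_of_nonneg dist_nonneg] at h2
    exact h2

theorem HULL_dist_act [Nonempty V]
    (hinv : ∀ (g : Γ) (x y : V), dist (g • x) (g • y) = dist x y) (g : Γ)
    (f h : Ext V) : dist (HULL_act hinv g f) (HULL_act hinv g h) = dist f h := by
  apply le_antisymm
  · apply Ext.dist_le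
    intro x
    exact Ext.le_dist f h (g⁻¹ • x)
  · apply Ext.dist_le
    intro x
    have h1 := Ext.le_dist (HULL_act hinv g f) (HULL_act hinv g h) (g • x)
    have h2 : |f.1 (g⁻¹ • (g • x)) - h.1 (g⁻¹ • (g • x))| ≤
      dist (HULL_act hinv g f) (HULL_act hinv g h) := h1
    rw [inv_smul_smul] at h2
    exact h2

end HULL

theorem p_HULL (h1 : Stmt_GEOD) (h2 : Stmt_FOUR) (h3 : Stmt_DEN) : Stmt_HULL := by
  intro Γ V _ _ _ _ hM
  obtain ⟨δ, hδ, hhyp⟩ := hM.hyp
  obtain ⟨C, hgeo⟩ := hM.geo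
  have hden := h3 V δ C hhyp hgeo
  have hfour := h2 V δ hhyp
  have hC : 0 ≤ C + δ + 2 := by
    obtain ⟨v0⟩ := (inferInstance : Nonempty V)
    obtain ⟨v, hv⟩ := hden (Ext.of v0)
    exact le_trans dist_nonneg hv
  refine ⟨Ext V, inferInstance, HULL_act hM.inv, ?_, ?_, ?_, ?_, ?_, ?_, ?_⟩
  · intro f
    apply HULL_eq
    intro x
    show f.1 ((1 : Γ)⁻¹ • x) = f.1 x
    rw [inv_one, one_smul]
  · intro g h f
    apply HULL_eq
    intro x
    show f.1 ((g * h)⁻¹ • x) = f.1 (h⁻¹ • (g⁻¹ • x))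
    rw [mul_inv_rev, mul_smul]
  · intro g
    exact Isometry.of_dist_eq fun f h => HULL_dist_act hM.inv g f h
  · intro f g
    exact h1 V f g
  · refine ⟨δ / 2, by linarith, ?_⟩
    intro x y z w
    have h := hfour x y z w
    rcases le_total (dist x y + dist z w) (dist y z + dist x w) with hc | hc
    · rw [max_eq_right hc] at h
      have hmin := min_le_right ((dist x w + dist y w - dist x y) / 2)
        ((dist y w + dist z w - dist y z) / 2)
      linarith
    · rw [max_eq_left hc] at h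
      have hmin := min_le_left ((dist x w + dist y w - dist x y) / 2)
        ((dist y w + dist z w - dist y z) / 2)
      linarith
  · intro ε hε
    obtain ⟨R, N, hRN⟩ := hM.acy (ε + 2 * (C + δ + 2)) (by linarith)
    refine ⟨R + 2 * (C + δ + 2), N, ?_⟩
    intro f1 f2 hf
    obtain ⟨v1, hv1⟩ := hden f1
    obtain ⟨v2, hv2⟩ := hden f2
    have hv : R ≤ dist v1 v2 := by
      rw [← HULL_dist_of v1 v2]
      have t1 := dist_triangle f1 (Ext.of v1) f2
      have t2 := dist_triangle (Ext.of v1) (Ext.of v2) f2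
      rw [dist_comm f1 (Ext.of v1)] at t1
      linarith
    have key : ∀ (g : Γ) (f : Ext V) (v : V), dist (Ext.of v) f ≤ C + δ + 2 →
        dist f (HULL_act hM.inv g f) ≤ ε → dist v (g • v) ≤ ε + 2 * (C + δ + 2) := by
      intro g f v hv hg
      rw [← HULL_dist_of, ← HULL_act_of hM.inv]
      have t1 := dist_triangle (Ext.of v) f (HULL_act hM.inv g (Ext.of v))
      have t2 := dist_triangle f (HULL_act hM.inv g f) (HULL_act hM.inv g (Ext.of v))
      rw [HULL_dist_act hM.inv g f (Ext.of v), dist_comm f (Ext.of v)] at t2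
      linarith
    have hsub : {g : Γ | dist f1 (HULL_act hM.inv g f1) ≤ ε ∧
        dist f2 (HULL_act hM.inv g f2) ≤ ε} ⊆
        {g : Γ | dist v1 (g • v1) ≤ ε + 2 * (C + δ + 2) ∧
          dist v2 (g • v2) ≤ ε + 2 * (C + δ + 2)} := by
      rintro g ⟨hg1, hg2⟩
      exact ⟨key g f1 v1 hv1 hg1, key g f2 v2 hv2 hg2⟩
    obtain ⟨hfin, hcard⟩ := hRN v1 v2 hv
    exact ⟨hfin.subset hsub, (Set.ncard_le_ncard hsub hfin).trans hcard⟩
  · obtain ⟨x, hx⟩ := hM.unb
    refine ⟨Ext.of x, fun C => ?_⟩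
    obtain ⟨g, hg⟩ := hx C
    refine ⟨g, ?_⟩
    rw [HULL_act_of, HULL_dist_of]
    exact hg

end Pool.Agent.Work.MP_b2cdcf_full
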