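import Pool.Agent.Work.MP_b2cdcf_full.IntA

/-!
# MP_b2cdcf_al, S02759: block HYP
-/

set_option autoImplicit false

namespace Pool.Agent.Work.MP_b2cdcf_full

/-- Block HYP. -/
theorem p_HYP (hGP : Stmt_GP) (hNEST : Stmt_NEST) (hFIN : Stmt_FIN) : Stmt_HYP := by
  intro V I own pt B Θ K hS hK x y z w
  have g1 := (hGP V I own pt B Θ K hS hK).2 w x y
  have g2 := (hGP V I own pt B Θ K hS hK).2 w y z
  have g3 := (hGP V I own pt B Θ K hS hK).2 w x z
  have n1 := hNEST V I own pt B Θ K hS hK w x y z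
  have f1 := (hFIN V I own pt B Θ K hS hK y w).2.1
  have f2 := (hFIN V I own pt B Θ K hS hK z w).2.1
  have f3 := (hFIN V I own pt B Θ K hS hK x w).2.1
  rw [f1, f2, f3]
  rcases min_le_iff.1 n1 with h | h
  · have h2 := le_max_left (NK B K x y + NK B K w z) (NK B K y z + NK B K w x)
    omega
  · have h2 := le_max_right (NK B K x y + NK B K w z) (NK B K y z + NK B K w x)
    omega

end Pool.Agent.Work.MP_b2cdcf_full
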