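import Pool.Agent.Work.MP_b2cdcf_full.IntC

set_option autoImplicit false

open MvPolynomial

noncomputable section

namespace Pool.Agent.Work.MP_b2cdcf_full

open Pool.Agent.Work.MP_b2cdcf_wpd

/-- a monomial with the largest exponent of `X q` -/
theorem IZB_exists {k : Type} [Field k] {n : ℕ} (q : Fin n) (V : MvPolynomial (Fin n) k)
    (hV : V ≠ 0) : ∃ s ∈ V.support, s q = degreeOf q V := by
  have hne : V.support.Nonempty := support_nonempty.2 hV
  obtain ⟨s, hs, h1⟩ := Finset.exists_mem_eq_sup V.support hne (fun m => m q)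
  exact ⟨s, hs, by rw [degreeOf_eq_sup]; exact h1.symm⟩

theorem p_IZB : Stmt_IZB := by
  intro k _ n φ q hq V hV hle
  have : NeZero n := ⟨by have := q.isLt; omega⟩
  obtain ⟨s, hs, hsq⟩ := IZB_exists q V hV
  have h1 := le_totalDegree hs
  have h2 := MULT_deg q s
  have h3 : s = Finsupp.single q (degreeOf q V) := by
    apply MULT_single q s _ hsq
    omega
  have h4 := degreeOf_le_totalDegree V q
  have h5 : V.totalDegree = degreeOf q V := le_antisymm hle h4
  have h6 := p_MULT k n φ q hq V (by
    rw [h5, ← h3]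
    exact mem_support_iff.1 hs)
  rw [h6, h5]

end Pool.Agent.Work.MP_b2cdcf_full
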