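import Pool.Agent.Work.MP_b2cdcf_full.IntA

/-!
# LEMT: chains of axes have a dominating element (helper29)
-/

set_option autoImplicit false

noncomputable section

namespace Pool.Agent.Work.MP_b2cdcf_full

theorem LEMT_aux (I : Type) (v : I → I → ℤ) (θ : ℤ) (hθ : 1 ≤ θ)
    (T1 : ∀ W W', W ≠ W' → θ < v W W' → v W' W ≤ θ)
    (T2 : ∀ W W' Z (s : ℤ), W ≠ W' → θ ≤ s → s < v W W' → 2 * θ < v W' Z → s - θ < v W Z)
    (T3 : ∀ W W' Z (s s' : ℤ), W ≠ W' → s < v W Z → s' < v W' Z →
      s - θ < v W W' ∨ s' - θ < v W' W) (n : ℕ) :
    ∀ l : List I, l.length = n → l ≠ [] →
    l.IsChain (fun W W' => W = W' ∨ 8 * θ < v W W' ∨ 8 * θ < v W' W) →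
    ∃ W ∈ l, ∀ Z ∈ l, Z = W ∨ 6 * θ < v W Z := by
  classical
  induction n using Nat.strong_induction_on with
  | _ n ih =>
    intro l hl hne hch
    cases l with
    | nil => exact absurd rfl hne
    | cons W0 l' =>
      by_cases hl' : l' = []
      · subst hl'
        refine ⟨W0, by simp, ?_⟩
        intro Z hZ
        left
        simpa using hZ
      · rw [List.length_cons] at hl
        obtain ⟨W, hW, hWZ⟩ := ih l'.length (by omega) l' rfl hl' hch.tail
        obtain ⟨l1, l2, hsplit, hWl1⟩ := List.eq_append_cons_of_mem hW
        by_cases h0 : W0 = W
        · refine ⟨W, by simp [hW], ?_⟩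
          intro Z hZ
          rcases List.mem_cons.1 hZ with rfl | hZ
          · exact Or.inl h0
          · exact hWZ Z hZ
        -- taking W
        have takeW : 6 * θ < v W W0 → ∃ W ∈ W0 :: l', ∀ Z ∈ W0 :: l', Z = W ∨ 6 * θ < v W Z := by
          intro h
          refine ⟨W, by simp [hW], ?_⟩
          intro Z hZ
          rcases List.mem_cons.1 hZ with rfl | hZ
          · exact Or.inr h
          · exact hWZ Z hZ
        -- taking W0
        have takeW0 : 7 * θ < v W0 W →
            ∃ W ∈ W0 :: l', ∀ Z ∈ W0 :: l', Z = W ∨ 6 * θ < v W Z := by
          intro h
          refine ⟨W0, by simp, ?_⟩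
          intro Z hZ
          rcases List.mem_cons.1 hZ with rfl | hZ
          · exact Or.inl rfl
          · right
            rcases hWZ Z hZ with rfl | h1
            · linarith
            · have := T2 W0 W Z (7 * θ) h0 (by linarith) h (by linarith)
              linarith
        by_cases hl1 : l1 = []
        · subst hl1
          rw [List.nil_append] at hsplit
          rw [hsplit] at hch
          have hadj := (List.isChain_cons_cons.1 hch).1
          rcases hadj with h | h | h
          · exact absurd h h0
          · exact takeW0 (by linarith)
          · exact takeW (by linarith)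
        · -- the last element of `l1`
          obtain ⟨l1', WL, hL⟩ := (List.eq_nil_or_concat l1).resolve_left hl1
          obtain ⟨W1, l1'', hF⟩ := List.exists_cons_of_ne_nil hl1
          have hWLmem : WL ∈ l1 := by rw [hL]; simp
          have hW1mem : W1 ∈ l1 := by rw [hF]; simp
          have hl1sub : ∀ Z ∈ l1, Z ∈ l' := by
            intro Z hZ
            rw [hsplit]
            exact List.mem_append_left _ hZ
          have hne1 : ∀ Z ∈ l1, Z ≠ W := by
            rintro Z hZ rfl
            exact hWl1 hZ
          have hv1 : ∀ Z ∈ l1, 6 * θ < v W Z := fun Z hZ =>
            (hWZ Z (hl1sub Z hZ)).resolve_left (hne1 Z hZ)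
          have hadj1 : WL = W ∨ 8 * θ < v WL W ∨ 8 * θ < v W WL := by
            have h1 : (W0 :: l') = (W0 :: l1') ++ WL :: W :: l2 := by
              rw [hsplit, hL]
              simp
            rw [h1] at hch
            exact (List.isChain_append_cons_cons.1 hch).2.1
          have h8 : 8 * θ < v W WL := by
            rcases hadj1 with h | h | h
            · exact absurd h (hne1 WL hWLmem)
            · have := T1 WL W (hne1 WL hWLmem) (by linarith)
              have := hv1 WL hWLmem
              linarith
            · exact h
          have hch1 : (W0 :: l1).IsChain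
              (fun W W' => W = W' ∨ 8 * θ < v W W' ∨ 8 * θ < v W' W) := by
            have h1 : (W0 :: l') = (W0 :: l1) ++ W :: l2 := by
              rw [hsplit]
              simp
            rw [h1] at hch
            exact hch.left_of_append
          have hlen : l1.length + 1 < n := by
            have := congrArg List.length hsplit
            rw [List.length_append, List.length_cons] at this
            omega
          obtain ⟨U, hU, hUZ⟩ := ih (l1.length + 1) hlen (W0 :: l1) (by simp) (by simp) hch1
          by_cases hU1 : U ∈ l1
          · -- (c1)
            have h7 : 7 * θ < v W U := by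
              by_cases hUL : U = WL
              · rw [hUL]
                linarith
              · have h2 : 6 * θ < v U WL :=
                  (hUZ WL (List.mem_cons_of_mem _ hWLmem)).resolve_left (fun h => hUL h.symm)
                rcases T3 W U WL (8 * θ) (6 * θ) (hne1 U hU1).symm h8 h2 with h | h
                · linarith
                · have h3 := T1 W U (hne1 U hU1).symm (by have := hv1 U hU1; linarith)
                  linarith
            rcases hUZ W0 (by simp) with h | h
            · exact takeW (by rw [h]; linarith)
            · have := T2 W U W0 (7 * θ) (hne1 U hU1).symm (by linarith) h7 (by linarith)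
              exact takeW (by linarith)
          · -- (c2)
            have hUW0 : U = W0 := by
              rcases List.mem_cons.1 hU with h | h
              · exact h
              · exact absurd h hU1
            subst hUW0
            have hv0 : ∀ Z ∈ l1, 6 * θ < v U Z := by
              intro Z hZ
              refine (hUZ Z (List.mem_cons_of_mem _ hZ)).resolve_left ?_
              rintro rfl
              exact hU1 hZ
            have hW01 : U ≠ W1 := by
              rintro rfl
              exact hU1 hW1mem
            rcases T3 U W W1 (8 * θ) (6 * θ) h0 (by
              have hadj2 : U = W1 ∨ 8 * θ < v U W1 ∨ 8 * θ < v W1 U := by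
                rw [hF] at hch1
                exact (List.isChain_cons_cons.1 hch1).1
              rcases hadj2 with h | h | h
              · exact absurd h hW01
              · exact h
              · have := T1 U W1 hW01 (by have := hv0 W1 hW1mem; linarith)
                linarith) (hv1 W1 hW1mem) with h | h
            · exact takeW0 (by linarith)
            · rcases T3 W U WL (8 * θ) (6 * θ) (Ne.symm h0) h8 (hv0 WL hWLmem) with h3 | h3
              · exact takeW (by linarith)
              · have := T1 W U (Ne.symm h0) (by linarith)
                linarith

theorem p_LEMT : Stmt_LEMT := by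
  intro I v θ hθ T1 T2 T3 l hl hch
  exact LEMT_aux I v θ hθ T1 T2 T3 l.length l rfl hl hch

end Pool.Agent.Work.MP_b2cdcf_full
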