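import Pool.Agent.Work.MP_b2cdcf_full.IntA

/-!
# MP_b2cdcf_al, S02759: block LGR
-/

set_option autoImplicit false

noncomputable section

namespace Pool.Agent.Work.MP_b2cdcf_full

/-- the degree grows by a factor of at most `d ^ l` over `l` steps -/
theorem LGR_step {Γ : Type} [Group Γ] {M : Γ → ℕ} {F : Γ} {E : Subgroup Γ} {bt : Γ → ℤ}
    {d κ : ℕ} (h : Geo Γ M F E bt d κ) (u : Γ) (i j : ℤ) (l : ℕ) (hj : j = i + l) :
    M (F ^ (-j) * u) ≤ d ^ l * M (F ^ (-i) * u) := by
  have e : F ^ (-j) * u = F ^ (-(l : ℤ)) * (F ^ (-i) * u) := by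
    rw [← mul_assoc, ← zpow_add, hj]
    congr 2
    ring
  rw [e]
  have h1 := h.Mmul (F ^ (-(l : ℤ))) (F ^ (-i) * u)
  have h2 := h.Mpow (-(l : ℤ))
  rw [Int.natAbs_neg, Int.natAbs_natCast] at h2
  rwa [h2] at h1

/-- the common estimate: `s` steps controlled by `lup`, `r ≤ κ` steps uncontrolled -/
theorem LGR_comb {d κ s r A B C : ℕ} (hd : 1 ≤ d) (hr : r ≤ κ)
    (h1 : 2 * d ^ s * B ≤ 3 * A) (h2 : C ≤ d ^ r * B) :
    2 * d ^ (s + r) * C ≤ 3 * d ^ (2 * κ) * A := by
  calc 2 * d ^ (s + r) * C ≤ 2 * d ^ (s + r) * (d ^ r * B) := Nat.mul_le_mul_left _ h2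
    _ = d ^ (2 * r) * (2 * d ^ s * B) := by
        rw [pow_add, two_mul r, pow_add]
        ring
    _ ≤ d ^ (2 * r) * (3 * A) := Nat.mul_le_mul_left _ h1
    _ ≤ d ^ (2 * κ) * (3 * A) :=
        Nat.mul_le_mul_right _ (Nat.pow_le_pow_right hd (by omega))
    _ = 3 * d ^ (2 * κ) * A := by ring

theorem p_LGR : Stmt_LGR := by
  intro Γ _ M F E bt d κ h u i l hl
  have hd : 1 ≤ d := le_trans (by norm_num) h.d5
  rcases le_or_gt (i + l) (bt u - κ) with h1 | h1
  · -- everything is controlled by `lup`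
    have h2 := h.lup u (i + l) l h1
    have e : i + (l : ℤ) - l = i := by ring
    rw [e] at h2
    have h3 := LGR_comb (κ := κ) (r := 0) (C := M (F ^ (-(i + l)) * u)) hd (Nat.zero_le _) h2
      (by simp)
    simpa using h3
  · rcases le_or_gt i (bt u - κ) with h4 | h4
    · obtain ⟨s, hs⟩ := Int.eq_ofNat_of_zero_le (sub_nonneg.mpr h4)
      obtain ⟨r, hr⟩ := Int.eq_ofNat_of_zero_le
        (show (0 : ℤ) ≤ i + l - (bt u - κ) by linarith)
      have hrκ : r ≤ κ := by omega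
      have hlsr : l = s + r := by omega
      have h2 := h.lup u (bt u - κ) s le_rfl
      have e : bt u - (κ : ℤ) - s = i := by omega
      rw [e] at h2
      have h3 := LGR_step h u (bt u - κ) (i + l) r (by omega)
      have h5 := LGR_comb (κ := κ) hd hrκ h2 h3
      rw [hlsr] at h5 ⊢
      exact h5
    · have hlκ : l ≤ κ := by omega
      have h3 := LGR_step h u i (i + l) l rfl
      have h5 := LGR_comb (κ := κ) (s := 0) (r := l) (A := M (F ^ (-i) * u))
        (B := M (F ^ (-i) * u)) hd hlκ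
        (by rw [pow_zero, mul_one]; exact Nat.mul_le_mul_right _ (by norm_num)) h3
      rwa [zero_add] at h5

end Pool.Agent.Work.MP_b2cdcf_full
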