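import Pool.Agent.Work.MP_b2cdcf_full.IntA

/-! Block MET (helper88): the metric. -/

set_option autoImplicit false

noncomputable section

namespace Pool.Agent.Work.MP_b2cdcf_full

section
variable {V I : Type}

open Classical in
/-- the distance -/
def MET_D (B : I → V → ℤ) (K : ℤ) (x z : V) : ℕ := if x = z then 0 else NK B K x z + 2

variable {B : I → V → ℤ} {K : ℤ}

theorem MET_self (x : V) : MET_D B K x x = 0 := if_pos rfl

theorem MET_ne {x z : V} (h : x ≠ z) : MET_D B K x z = NK B K x z + 2 := if_neg h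

theorem MET_le (h0 : ∀ x, NK B K x x = 0) (x z : V) : NK B K x z ≤ MET_D B K x z := by
  by_cases h : x = z
  · subst h
    rw [h0]
    exact Nat.zero_le _
  · rw [MET_ne h]
    omega

theorem MET_ge (x z : V) : MET_D B K x z ≤ NK B K x z + 2 := by
  by_cases h : x = z
  · subst h
    rw [MET_self]
    omega
  · rw [MET_ne h]

/-- the metric space -/
@[reducible] def MET_ms (B : I → V → ℤ) (K : ℤ) (hc : ∀ x z : V, NK B K x z = NK B K z x)
    (ht : ∀ x y z : V, NK B K x z ≤ NK B K x y + NK B K y z + 2) : MetricSpace V where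
  dist x z := ((MET_D B K x z : ℕ) : ℝ)
  dist_self x := by rw [MET_self, Nat.cast_zero]
  dist_comm x z := by
    by_cases h : x = z
    · subst h
      rfl
    · rw [MET_ne h, MET_ne (Ne.symm h), hc]
  dist_triangle x y z := by
    rw [← Nat.cast_add, Nat.cast_le]
    by_cases h1 : x = z
    · subst h1
      rw [MET_self]
      exact Nat.zero_le _
    · by_cases h2 : x = y
      · subst h2
        rw [MET_self, Nat.zero_add]
      · by_cases h3 : y = z
        · subst h3
          rw [MET_self, Nat.add_zero]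
        · rw [MET_ne h1, MET_ne h2, MET_ne h3]
          have := ht x y z
          omega
  eq_of_dist_eq_zero := by
    intro x z h
    by_contra h1
    rw [MET_ne h1, Nat.cast_eq_zero] at h
    omega

end

theorem MET_inv {Γ V I : Type} [Group Γ] [MulAction Γ V] [MulAction Γ I] {own : V → I}
    {B : I → V → ℤ} {K : ℤ} (hE : Eqv Γ own B) (g : Γ) (x z : V) :
    NK B K (g • x) (g • z) = NK B K x z := by
  have h1 : YK B K (g • x) (g • z) = (fun Y : I => g • Y) '' YK B K x z := by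
    ext Y
    constructor
    · intro hY
      refine ⟨g⁻¹ • Y, ?_, smul_inv_smul g Y⟩
      obtain ⟨c, hc⟩ := hE.b_smul g (g⁻¹ • Y)
      have h2 := hc x
      have h3 := hc z
      rw [smul_inv_smul] at h2 h3
      have h4 : K ≤ |B Y (g • x) - B Y (g • z)| := hY
      rw [h2, h3] at h4
      show K ≤ |B (g⁻¹ • Y) x - B (g⁻¹ • Y) z|
      rwa [add_sub_add_right_eq_sub] at h4
    · rintro ⟨W, hW, rfl⟩
      obtain ⟨c, hc⟩ := hE.b_smul g W
      show K ≤ |B (g • W) (g • x) - B (g • W) (g • z)|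
      rw [hc x, hc z, add_sub_add_right_eq_sub]
      exact hW
  unfold NK
  rw [h1]
  exact Set.ncard_image_of_injective _ (MulAction.injective g)

theorem p_MET (hFIN : Stmt_FIN) (hPOS : Stmt_POS) (hGP : Stmt_GP) (hHYP : Stmt_HYP)
    (hACY : Stmt_ACY) (hUNB : Stmt_UNB) : Stmt_MET := by
  intro Γ V I _ _ _ own pt B Θ K hS hK hE hst ht
  have hF := hFIN V I own pt B Θ K hS hK
  have h0 : ∀ x, NK B K x x = 0 := fun x => (hF x x).2.2
  have hc : ∀ x z : V, NK B K x z = NK B K z x := fun x z => (hF x z).2.1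
  have htr := (hGP V I own pt B Θ K hS hK).1
  refine ⟨MET_ms B K hc htr, ?_⟩
  letI := MET_ms B K hc htr
  have hd : ∀ x z : V, dist x z = ((MET_D B K x z : ℕ) : ℝ) := fun _ _ => rfl
  refine ⟨?_, ?_, ?_, ?_, ?_⟩
  · intro g x y
    rw [hd, hd]
    congr 1
    by_cases h : x = y
    · subst h
      rw [MET_self, MET_self]
    · rw [MET_ne h, MET_ne (fun e => h (MulAction.injective g e)), MET_inv hE]
  · refine ⟨10, by norm_num, ?_⟩
    intro x y z w
    rw [hd, hd, hd, hd, hd, hd]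
    have h1 := hHYP V I own pt B Θ K hS hK x y z w
    have a1 := MET_ge (B := B) (K := K) x z
    have a2 := MET_ge (B := B) (K := K) y w
    have a3 := MET_le h0 x y
    have a4 := MET_le h0 z w
    have a5 := MET_le h0 y z
    have a6 := MET_le h0 x w
    have h2 : MET_D B K x z + MET_D B K y w ≤
        max (MET_D B K x y + MET_D B K z w) (MET_D B K y z + MET_D B K x w) + 10 := by
      omega
    exact_mod_cast h2
  · refine ⟨3, ?_⟩
    intro x y t ht0 ht1
    rw [hd] at ht1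
    by_cases c1 : t ≤ 3
    · refine ⟨x, ?_, ?_⟩
      · rw [hd, MET_self, Nat.cast_zero]
        linarith
      · linarith
    · by_cases c2 : ((MET_D B K x y : ℕ) : ℝ) - t ≤ 3
      · refine ⟨y, ?_, ?_⟩
        · rw [hd]
          linarith
        · rw [hd, hd, MET_self, Nat.cast_zero]
          linarith
      · push Not at c1 c2
        have h1 : ((MET_D B K x y : ℕ) : ℝ) ≤ ((NK B K x y + 2 : ℕ) : ℝ) :=
          Nat.cast_le.2 (MET_ge x y)
        have h2 : ⌊t⌋₊ ≤ t := Nat.floor_le ht0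
        have h3 : t < ⌊t⌋₊ + 1 := Nat.lt_floor_add_one t
        have h4 : 3 ≤ ⌊t⌋₊ := Nat.le_floor (by push_cast; linarith)
        obtain ⟨p, hp⟩ : ∃ p, ⌊t⌋₊ = p + 1 := ⟨⌊t⌋₊ - 1, by omega⟩
        rw [hp] at h2 h3
        push_cast at h1 h2 h3
        have h5 : p < NK B K x y := by
          have : (p : ℝ) < (NK B K x y : ℝ) := by linarith
          exact_mod_cast this
        obtain ⟨-, hp2, hp3⟩ := hPOS V I own pt B Θ K hS hK x y
        obtain ⟨Y, hY, hpY⟩ := hp2 p h5
        obtain ⟨-, h6⟩ := hp3 Y hY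
        obtain ⟨-, h7, -, h8⟩ := h6 (pt Y) (hS.own_pt Y)
        rw [hpY] at h7 h8
        have hne : x ≠ y := by
          rintro rfl
          rw [h0] at h5
          omega
        refine ⟨pt Y, ?_, ?_⟩
        · rw [hd]
          have h9 := MET_ge (B := B) (K := K) x (pt Y)
          have h10 : ((MET_D B K x (pt Y) : ℕ) : ℝ) ≤ ((p + 3 : ℕ) : ℝ) :=
            Nat.cast_le.2 (by omega)
          push_cast at h10
          linarith
        · rw [hd, hd, MET_ne hne]
          have h9 := MET_ge (B := B) (K := K) (pt Y) y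
          have h10 : ((MET_D B K (pt Y) y + p : ℕ) : ℝ) ≤ ((NK B K x y + 2 : ℕ) : ℝ) :=
            Nat.cast_le.2 (by omega)
          push_cast at h10 ⊢
          linarith
  · intro ε hε
    obtain ⟨R, Nn, hRN⟩ := hACY Γ V I own pt B Θ K hS hK hE hst ⌈ε⌉₊
    refine ⟨((R + 2 : ℕ) : ℝ), Nn, ?_⟩
    intro x y hxy
    rw [hd, Nat.cast_le] at hxy
    have h1 := MET_ge (B := B) (K := K) x y
    obtain ⟨h2, h3⟩ := hRN x y (by omega)
    have hsub : {g : Γ | dist x (g • x) ≤ ε ∧ dist y (g • y) ≤ ε} ⊆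
        {g : Γ | NK B K x (g • x) ≤ ⌈ε⌉₊ ∧ NK B K y (g • y) ≤ ⌈ε⌉₊} := by
      rintro g ⟨h4, h5⟩
      rw [hd] at h4 h5
      have h6 : ε ≤ ⌈ε⌉₊ := Nat.le_ceil ε
      constructor
      · exact (MET_le h0 _ _).trans (Nat.cast_le.1 (h4.trans h6))
      · exact (MET_le h0 _ _).trans (Nat.cast_le.1 (h5.trans h6))
    exact ⟨h2.subset hsub, (Set.ncard_le_ncard hsub h2).trans h3⟩
  · obtain ⟨t, x0, h1, h2⟩ := ht
    refine ⟨x0, fun C => ⟨t ^ (⌈C⌉₊ + 2), ?_⟩⟩
    have h3 := hUNB Γ V I own pt B Θ K hS hK hE t x0 h1 h2 (⌈C⌉₊ + 2)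
    have h4 := MET_le h0 x0 (t ^ (⌈C⌉₊ + 2) • x0)
    rw [hd]
    have h5 : C ≤ ⌈C⌉₊ := Nat.le_ceil C
    have h6 : ((⌈C⌉₊ + 1 : ℕ) : ℝ) ≤ ((MET_D B K x0 (t ^ (⌈C⌉₊ + 2) • x0) : ℕ) : ℝ) :=
      Nat.cast_le.2 (by omega)
    push_cast at h6
    linarith

end Pool.Agent.Work.MP_b2cdcf_full
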