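import Pool.Agent.Work.MP_b2cdcf_full.IntA

set_option autoImplicit false

noncomputable section

namespace Pool.Agent.Work.MP_b2cdcf_full

theorem MIDX_card {I : Type} (S T : Set I) (hS : S.Finite) (hT : T.Finite)
    (h : ∀ W ∈ S, ∀ W' ∈ S, W ≠ W' → W ∈ T ∨ W' ∈ T) : S.ncard ≤ T.ncard + 1 := by
  have hfin : (S \ T).Finite := hS.subset Set.diff_subset
  have h1 : (S \ T).ncard ≤ 1 := by
    rw [Set.ncard_le_one hfin]
    intro a ha b hb
    by_contra hne
    rcases h a ha.1 b hb.1 hne with h2 | h2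
    · exact ha.2 h2
    · exact hb.2 h2
  have h2 : S ⊆ T ∪ (S \ T) := by
    intro x hx
    by_cases hxT : x ∈ T
    · exact Or.inl hxT
    · exact Or.inr ⟨hx, hxT⟩
  have h3 := Set.ncard_le_ncard h2 (hT.union hfin)
  have h4 := Set.ncard_union_le T (S \ T)
  omega

theorem p_MIDX (hORD : Stmt_ORD) (hFIN : Stmt_FIN) : Stmt_MIDX := by
  intro V I own pt B Θ K hB hK x z y Y hY
  obtain ⟨o1, o2, -, -, -⟩ := hORD V I own pt B Θ K hB hK x z
  have hfin := (hFIN V I own pt B Θ K hB hK x z).1
  have hth := hB.th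
  have hne : ∀ W ∈ YK B K x z, Bef pt B x z W Y → W ≠ Y := by
    rintro W hW h rfl
    exact o2 W hW W hW ⟨h, h⟩
  have hne' : ∀ W ∈ YK B K x z, Bef pt B x z Y W → W ≠ Y := by
    rintro W hW h rfl
    exact o2 W hW W hW ⟨h, h⟩
  have hbb : ∀ W ∈ YK B K x z, ∀ W' ∈ YK B K x z, Bef pt B x z W' W → W' ≠ W := by
    rintro W hW W' hW' h rfl
    exact o2 W' hW W' hW ⟨h, h⟩
  constructor
  · intro hpos
    by_contra hcon
    have hfar : ∀ W ∈ YK B K x z, Bef pt B x z W Y → Θ < |B W y - B W x| := by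
      intro W hW hb
      have h1 : ¬ Θ < |B W y - B W (pt Y)| := by
        intro h2
        have h3 := hB.s2 W Y (hne W hW hb) y h2
        exact hcon (h3.trans hb.1.symm)
      have h2 : K ≤ |B W x - B W z| := hW
      rw [← hb.2] at h1
      push Not at h1
      have h3 : |B W x - B W z| ≤ |B W y - B W x| + |B W y - B W z| := by
        rw [abs_sub_comm (B W y) (B W x)]
        exact abs_sub_le _ _ _
      linarith
    have h1 := MIDX_card {W | W ∈ YK B K x z ∧ Bef pt B x z W Y} (YK B K x y)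
      (hfin.subset fun W hW => hW.1) (hFIN V I own pt B Θ K hB hK x y).1 ?_
    · unfold pos at hpos
      unfold NK at hpos
      omega
    · have hstep : ∀ W ∈ {W | W ∈ YK B K x z ∧ Bef pt B x z W Y},
          ∀ W' ∈ {W | W ∈ YK B K x z ∧ Bef pt B x z W Y}, Bef pt B x z W' W →
          W' ∈ YK B K x y := by
        rintro W ⟨hW, hb⟩ W' ⟨hW', hb'⟩ hb2
        have h2 := hfar W hW hb
        rw [hb2.1] at h2
        have h3 := hB.s2 W W' (hbb W hW W' hW' hb2).symm y h2
        show K ≤ |B W' x - B W' y|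
        rw [h3, ← hb2.2]
        exact hW'
      intro W hW W' hW' hWW
      rcases o1 W hW.1 W' hW'.1 hWW with h2 | h2
      · exact Or.inl (hstep W' hW' W hW h2)
      · exact Or.inr (hstep W hW W' hW' h2)
  · intro hpos
    by_contra hcon
    have hfar : ∀ W ∈ YK B K x z, Bef pt B x z Y W → Θ < |B W y - B W z| := by
      intro W hW hb
      have h1 : ¬ Θ < |B W y - B W (pt Y)| := by
        intro h2
        have h3 := hB.s2 W Y (hne' W hW hb) y h2
        exact hcon (h3.trans hb.2.symm)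
      have h2 : K ≤ |B W x - B W z| := hW
      rw [← hb.1] at h1
      push Not at h1
      have h3 : |B W x - B W z| ≤ |B W y - B W x| + |B W y - B W z| := by
        rw [abs_sub_comm (B W y) (B W x)]
        exact abs_sub_le _ _ _
      linarith
    have h1 := MIDX_card {W | W ∈ YK B K x z ∧ Bef pt B x z Y W} (YK B K y z)
      (hfin.subset fun W hW => hW.1) (hFIN V I own pt B Θ K hB hK y z).1 ?_
    · have h2 : YK B K x z ⊆ {W | W ∈ YK B K x z ∧ Bef pt B x z W Y} ∪
          ({Y} ∪ {W | W ∈ YK B K x z ∧ Bef pt B x z Y W}) := by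
        intro W hW
        by_cases hWY : W = Y
        · exact Or.inr (Or.inl hWY)
        · rcases o1 W hW Y hY hWY with h3 | h3
          · exact Or.inl ⟨hW, h3⟩
          · exact Or.inr (Or.inr ⟨hW, h3⟩)
      have h3 := Set.ncard_le_ncard h2
        ((hfin.subset fun W hW => hW.1).union ((Set.finite_singleton Y).union
          (hfin.subset fun W hW => hW.1)))
      have h4 := Set.ncard_union_le {W | W ∈ YK B K x z ∧ Bef pt B x z W Y}
        ({Y} ∪ {W | W ∈ YK B K x z ∧ Bef pt B x z Y W})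
      have h5 := Set.ncard_union_le {Y} {W | W ∈ YK B K x z ∧ Bef pt B x z Y W}
      rw [Set.ncard_singleton] at h5
      unfold pos at hpos
      unfold NK at hpos
      omega
    · have hstep : ∀ W ∈ {W | W ∈ YK B K x z ∧ Bef pt B x z Y W},
          ∀ W' ∈ {W | W ∈ YK B K x z ∧ Bef pt B x z Y W}, Bef pt B x z W W' →
          W' ∈ YK B K y z := by
        rintro W ⟨hW, hb⟩ W' ⟨hW', hb'⟩ hb2
        have h2 := hfar W hW hb
        rw [hb2.2] at h2
        have h3 := hB.s2 W W' (hbb W' hW' W hW hb2) y h2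
        show K ≤ |B W' y - B W' z|
        rw [h3, ← hb2.1]
        exact hW'
      intro W hW W' hW' hWW
      rcases o1 W hW.1 W' hW'.1 hWW with h2 | h2
      · exact Or.inr (hstep W hW W' hW' h2)
      · exact Or.inl (hstep W' hW' W hW h2)

end Pool.Agent.Work.MP_b2cdcf_full
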