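import Pool.Agent.Work.MP_b2cdcf_full.IntB

set_option autoImplicit false

open MvPolynomial

noncomputable section

namespace Pool.Agent.Work.MP_b2cdcf_full

open Pool.Agent.Work.MP_b2cdcf_wpd

theorem p_MULX (hIZ : Stmt_IZ) : Stmt_MULX := by
  intro k _ n _ c φ q hn hc hd V hV
  have hn1 : 1 ≤ n - 1 := by omega
  have hc2 : 2 ≤ c := by omega
  have he := hd.mdeg_eq (by omega : 1 ≤ c)
  rcases eq_or_ne V 0 with rfl | hV0
  · rw [totalDegree_zero, zero_mul]
    exact Nat.zero_le _
  have hiz := hIZ k n φ q (fun i hi => hd.lt hc2 hi) V hV0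
  have hS1 : (n - 1) * (100 * ∑ i ∈ Finset.univ.erase q, dg φ i) ≤ (n - 1) * dg φ q := by
    calc (n - 1) * (100 * ∑ i ∈ Finset.univ.erase q, dg φ i)
        = ∑ i ∈ Finset.univ.erase q, (100 * (n - 1)) * dg φ i := by
          rw [← Finset.mul_sum]
          ring
      _ ≤ ∑ _i ∈ Finset.univ.erase q, dg φ q := by
          apply Finset.sum_le_sum
          intro i hi
          exact (Nat.mul_le_mul_right _ hc).trans (hd i (Finset.ne_of_mem_erase hi))
      _ = (n - 1) * dg φ q := by
          rw [Finset.sum_const, smul_eq_mul, Finset.card_erase_of_mem (Finset.mem_univ q),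
            Finset.card_univ, Fintype.card_fin]
  have hS2 : 100 * ∑ i ∈ Finset.univ.erase q, dg φ i ≤ dg φ q :=
    Nat.le_of_mul_le_mul_left hS1 (by omega)
  have hS : 100 * ∑ i, dg φ i ≤ 101 * dg φ q := by
    rw [← Finset.add_sum_erase _ _ (Finset.mem_univ q)]
    omega
  unfold NE at hV
  have hb : degreeOf q V ≤ V.totalDegree := degreeOf_le_totalDegree V q
  rw [he]
  obtain ⟨t, ht⟩ := Nat.exists_eq_add_of_le hb
  have ht2 : V.totalDegree - degreeOf q V = t := by omega
  rw [ht2] at hiz
  have h5 : 5 * t ≤ degreeOf q V := by omega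
  rw [ht]
  generalize (φ V).totalDegree = D at *
  generalize dg φ q = e at *
  generalize degreeOf q V = b at *
  generalize ∑ i, dg φ i = S at *
  have h6 : t * (100 * S) ≤ t * (101 * e) := Nat.mul_le_mul_left _ hS
  have h7 : 5 * t * e ≤ b * e := Nat.mul_le_mul_right _ h5
  nlinarith

end Pool.Agent.Work.MP_b2cdcf_full
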