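import Pool.Agent.Work.MP_b2cdcf_full.IntA

set_option autoImplicit false

namespace Pool.Agent.Work.MP_b2cdcf_full

theorem NEG_step {d : ℤ} {a b : ℤ → ℤ} (hd : 9 ≤ d) (h : LHalf d a b) (m : ℤ) :
    d * (2 * b m - a m) ≤ 2 * b (m - 1) - a (m - 1) := by
  have e1 := h.e1 m
  have e2 := h.e2 m
  have hba := h.ba m
  have hq : 0 ≤ (d ^ 2 - 4 * d + 1) * (a m - b m) :=
    mul_nonneg (by nlinarith) (by linarith)
  have h2 : (d - 1) * a (m - 1) ≤ (d - 1) * (a m + (d - 1) * b m) :=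
    mul_le_mul_of_nonneg_left e2 (by linarith)
  have h3 : (d - 1) * (d * (2 * b m - a m)) ≤ (d - 1) * (2 * b (m - 1) - a (m - 1)) := by
    nlinarith
  exact le_of_mul_le_mul_left h3 (by linarith)

theorem NEG_iter {d : ℤ} {a b : ℤ → ℤ} (hd : 9 ≤ d) (h : LHalf d a b) (m : ℤ) (s : ℕ) :
    d ^ s * (2 * b m - a m) ≤ 2 * b (m - s) - a (m - s) := by
  induction s with
  | zero => simp
  | succ s ih =>
    have h1 := NEG_step hd h (m - s)
    have h2 : m - ((s + 1 : ℕ) : ℤ) = m - s - 1 := by push_cast; ring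
    rw [h2, pow_succ]
    have h3 : d * (d ^ s * (2 * b m - a m)) ≤ d * (2 * b (m - s) - a (m - s)) :=
      mul_le_mul_of_nonneg_left ih (by linarith)
    calc d ^ s * d * (2 * b m - a m) = d * (d ^ s * (2 * b m - a m)) := by ring
      _ ≤ d * (2 * b (m - s) - a (m - s)) := h3
      _ ≤ _ := h1

theorem p_NEG : Stmt_NEG := by
  intro d a b hd h m hm
  refine ⟨?_, ?_⟩
  · have e1 := h.e1 m
    have e2 := h.e2 m
    have hb := h.b0 m
    have h2 : (d - 1) * a (m - 1) ≤ (d - 1) * (a m + (d - 1) * b m) :=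
      mul_le_mul_of_nonneg_left e2 (by linarith)
    have h4 : (11 * d - 5) * (5 * a m) ≤ (11 * d - 5) * (6 * b m) :=
      mul_le_mul_of_nonneg_left hm (by linarith)
    have h5 : 0 ≤ (5 * d ^ 2 - 16 * d + 5) * b m := mul_nonneg (by nlinarith) hb
    have h3 : (d - 1) * (5 * a (m - 1)) ≤ (d - 1) * (6 * b (m - 1)) := by
      nlinarith
    exact le_of_mul_le_mul_left h3 (by linarith)
  · intro s
    have h1 := NEG_iter hd h m s
    have h2 := h.ba (m - s)
    have hp : 0 ≤ d ^ s := pow_nonneg (by linarith) s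
    have h3 : d ^ s * (2 * a m) ≤ d ^ s * (3 * (2 * b m - a m)) :=
      mul_le_mul_of_nonneg_left (by linarith) hp
    nlinarith

end Pool.Agent.Work.MP_b2cdcf_full
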