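import Pool.Agent.Work.MP_b2cdcf_full.IntA

/-! # Block NEST -/

set_option autoImplicit false

namespace Pool.Agent.Work.MP_b2cdcf_full

theorem NEST_down {V I : Type} {own : V → I} {pt : I → V} {B : I → V → ℤ} {Θ K : ℤ}
    (hS : SSys own pt B Θ) (hK : 4 * Θ < K) (w y v : V) (Y Y' : I)
    (hY : Y ∈ YK B K w y) (hv : B Y v = B Y y)
    (hne : Y ≠ Y') (hb : Bef pt B w y Y' Y) : B Y' v = B Y' y := by
  have hth := hS.th
  have h1 : K ≤ |B Y w - B Y y| := hY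
  have h2 : Θ < |B Y v - B Y (pt Y')| := by
    rw [← hb.1, hv, abs_sub_comm]
    omega
  rw [hS.s2 Y Y' hne v h2, hb.2]

theorem NEST_sub {V I : Type} {own : V → I} {pt : I → V} {B : I → V → ℤ} {Θ K : ℤ}
    (hS : SSys own pt B Θ) (hK : 4 * Θ < K) (w y x z : V)
    (hO : ∀ Y ∈ YK B K w y, ∀ W ∈ YK B K w y, Y ≠ W → Bef pt B w y Y W ∨ Bef pt B w y W Y) :
    (∀ Y ∈ YK B K w y, B Y x = B Y y → B Y z = B Y y) ∨
    (∀ Y ∈ YK B K w y, B Y z = B Y y → B Y x = B Y y) := by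
  by_contra hcon
  push Not at hcon
  obtain ⟨⟨Y, hY, hYx, hYz⟩, ⟨W, hW, hWz, hWx⟩⟩ := hcon
  have hne : Y ≠ W := by
    rintro rfl
    exact hYz hWz
  rcases hO Y hY W hW hne with hb | hb
  · exact hYz (NEST_down hS hK w y z W Y hW hWz hne.symm hb)
  · exact hWx (NEST_down hS hK w y x Y W hY hYx hne hb)

theorem p_NEST (h1 : Stmt_ORD) (h2 : Stmt_FIN) : Stmt_NEST := by
  intro V I own pt B Θ K hS hK w x y z
  have hO := (h1 V I own pt B Θ K hS hK w y).1
  have hfin : (SK B K w x z).Finite :=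
    ((h2 V I own pt B Θ K hS hK w x).1).subset (fun Y hY => hY.1)
  rcases NEST_sub hS hK w y x z hO with h | h
  · refine (min_le_left _ _).trans (Set.ncard_le_ncard ?_ hfin)
    rintro Y ⟨ha, hb⟩
    have hm : Y ∈ YK B K w y := by
      show K ≤ |B Y w - B Y y|
      rw [← hb]
      exact ha
    exact ⟨ha, by rw [hb, h Y hm hb]⟩
  · refine (min_le_right _ _).trans (Set.ncard_le_ncard ?_ hfin)
    rintro Y ⟨ha, hb⟩
    have hx : B Y x = B Y y := h Y ha hb.symm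
    refine ⟨?_, by rw [hx, hb]⟩
    rw [hx]
    exact ha

end Pool.Agent.Work.MP_b2cdcf_full
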