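import Pool.Agent.Work.MP_b2cdcf_full.IntA

/-!
# Block NVC: the automorphism group of a polynomial ring is not virtually cyclic
-/

set_option autoImplicit false

noncomputable section

namespace Pool.Agent.Work.MP_b2cdcf_full

open MvPolynomial

/-- the additive group of `k[x]` has no cyclic subgroup of finite index -/
theorem NVC_poly (k : Type) [Field k] (K : Subgroup (Multiplicative (Polynomial k)))
    [K.FiniteIndex] [IsCyclic K] : False := by
  obtain ⟨g, hg⟩ := IsCyclic.exists_generator (α := K)
  obtain ⟨g0, hg0⟩ := g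
  set q0 : Polynomial k := Multiplicative.toAdd g0 with hq0
  set N := K.index with hN
  have hN0 : N ≠ 0 := Subgroup.FiniteIndex.index_ne_zero
  -- every polynomial has a multiple in the cyclic group
  have h1 : ∀ p : Polynomial k, ∃ m : ℤ, (N : Polynomial k) * p = (m : Polynomial k) * q0 := by
    intro p
    have h2 : (Multiplicative.ofAdd p) ^ N ∈ K := K.pow_index_mem _
    obtain ⟨m, hm⟩ := Subgroup.mem_zpowers_iff.1 (hg ⟨_, h2⟩)
    refine ⟨m, ?_⟩
    have h3 := congrArg (fun z : K => Multiplicative.toAdd (z : Multiplicative (Polynomial k))) hm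
    simp only [SubgroupClass.coe_zpow, toAdd_zpow, toAdd_pow, toAdd_ofAdd, zsmul_eq_mul,
      nsmul_eq_mul] at h3
    rw [← h3]
  obtain ⟨p, hp⟩ := CharP.exists k
  by_cases hp0 : p = 0
  · subst hp0
    have : CharZero k := CharP.charP_to_charZero k
    have hNk : (N : k) ≠ 0 := by exact_mod_cast hN0
    obtain ⟨m, hm⟩ := h1 1
    obtain ⟨m', hm'⟩ := h1 Polynomial.X
    have hm0 : (m : k) ≠ 0 := by
      intro h
      have h5 : (m : Polynomial k) = 0 := by
        rw [← Polynomial.C_0, ← h]
        exact (map_intCast (Polynomial.C : k →+* Polynomial k) m).symm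
      rw [h5, zero_mul, mul_one] at hm
      have h6 : (N : Polynomial k) = Polynomial.C (N : k) :=
        (map_natCast (Polynomial.C : k →+* Polynomial k) N).symm
      rw [h6, Polynomial.C_eq_zero] at hm
      exact hNk hm
    have hq : q0.coeff 1 = 0 := by
      have h7 := congrArg (fun z : Polynomial k => z.coeff 1) hm
      have h6 : (N : Polynomial k) = Polynomial.C (N : k) :=
        (map_natCast (Polynomial.C : k →+* Polynomial k) N).symm
      have h8 : (m : Polynomial k) = Polynomial.C (m : k) :=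
        (map_intCast (Polynomial.C : k →+* Polynomial k) m).symm
      rw [mul_one, h6, h8, Polynomial.coeff_C_mul, Polynomial.coeff_C] at h7
      rw [if_neg (by norm_num)] at h7
      rcases mul_eq_zero.1 h7.symm with h9 | h9
      · exact absurd h9 hm0
      · exact h9
    have h7 := congrArg (fun z : Polynomial k => z.coeff 1) hm'
    have h6 : (N : Polynomial k) = Polynomial.C (N : k) :=
      (map_natCast (Polynomial.C : k →+* Polynomial k) N).symm
    have h8 : (m' : Polynomial k) = Polynomial.C (m' : k) :=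
      (map_intCast (Polynomial.C : k →+* Polynomial k) m').symm
    rw [h6, h8, Polynomial.coeff_C_mul, Polynomial.coeff_C_mul, hq, Polynomial.coeff_X_one, mul_one,
      mul_zero] at h7
    exact hNk h7
  · -- positive characteristic: the cyclic group is finite
    have h2 : IsOfFinOrder (⟨g0, hg0⟩ : K) := by
      rw [isOfFinOrder_iff_pow_eq_one]
      refine ⟨p, Nat.pos_of_ne_zero hp0, ?_⟩
      apply Subtype.ext
      change g0 ^ p = 1
      have h3 : Multiplicative.toAdd (g0 ^ p) = 0 := by
        rw [toAdd_pow, nsmul_eq_mul]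
        have h4 : (p : Polynomial k) = Polynomial.C (p : k) :=
          (map_natCast (Polynomial.C : k →+* Polynomial k) p).symm
        rw [h4, CharP.cast_eq_zero, Polynomial.C_0, zero_mul]
      exact h3
    have h3 : (Subgroup.zpowers (⟨g0, hg0⟩ : K)) = ⊤ := by
      rw [eq_top_iff]
      exact fun x _ => hg x
    have : Finite K := by
      have h4 : Finite (Subgroup.zpowers (⟨g0, hg0⟩ : K)) := by
        exact (finite_zpowers (a := (⟨g0, hg0⟩ : K))).2 h2
      rw [h3] at h4
      exact (Subgroup.topEquiv (G := K)).toEquiv.finite_iff.1 h4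
    have : Finite (Multiplicative (Polynomial k) ⧸ K) := Subgroup.finite_quotient_of_finiteIndex
    have h5 : Finite (Multiplicative (Polynomial k)) := Finite.of_subgroup_quotient K
    have h6 : Finite (Polynomial k) := h5
    exact not_finite (Polynomial k)

section
variable {k : Type} [Field k] {n : ℕ} (i0 i1 : Fin n)

/-- `X i0 ↦ X i0 + q (X i1)` -/
def NVC_phi (q : Polynomial k) : MvPolynomial (Fin n) k →ₐ[k] MvPolynomial (Fin n) k :=
  aeval fun i => if i = i0 then X i0 + Polynomial.aeval (X i1) q else X i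

theorem NVC_phi_X0 (q : Polynomial k) :
    NVC_phi i0 i1 q (X i0) = X i0 + Polynomial.aeval (X i1) q := by
  simp [NVC_phi]

theorem NVC_phi_X (q : Polynomial k) {i : Fin n} (h : i ≠ i0) : NVC_phi i0 i1 q (X i) = X i := by
  simp [NVC_phi, h]

theorem NVC_phi_comp (h : i1 ≠ i0) (q r : Polynomial k) :
    (NVC_phi i0 i1 q).comp (NVC_phi i0 i1 r) = NVC_phi i0 i1 (q + r) := by
  apply MvPolynomial.algHom_ext
  intro i
  rw [AlgHom.comp_apply]
  by_cases hi : i = i0
  · subst hi
    rw [NVC_phi_X0, NVC_phi_X0, map_add, NVC_phi_X0, ← Polynomial.aeval_algHom_apply,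
      NVC_phi_X _ _ _ h, map_add, add_assoc]
  · rw [NVC_phi_X _ _ _ hi, NVC_phi_X _ _ _ hi, NVC_phi_X _ _ _ hi]

theorem NVC_phi_zero : NVC_phi i0 i1 (0 : Polynomial k) = AlgHom.id k _ := by
  apply MvPolynomial.algHom_ext
  intro i
  by_cases hi : i = i0
  · subst hi
    rw [NVC_phi_X0]
    simp
  · rw [NVC_phi_X _ _ _ hi]
    rfl

/-- the automorphism -/
def NVC_E (h : i1 ≠ i0) (q : Polynomial k) : MvPolynomial (Fin n) k ≃ₐ[k] MvPolynomial (Fin n) k :=
  AlgEquiv.ofAlgHom (NVC_phi i0 i1 q) (NVC_phi i0 i1 (-q))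
    (by rw [NVC_phi_comp _ _ h, add_neg_cancel, NVC_phi_zero])
    (by rw [NVC_phi_comp _ _ h, neg_add_cancel, NVC_phi_zero])

theorem NVC_E_apply (h : i1 ≠ i0) (q : Polynomial k) (f : MvPolynomial (Fin n) k) :
    NVC_E i0 i1 h q f = NVC_phi i0 i1 q f := rfl

/-- the homomorphism -/
def NVC_hom (h : i1 ≠ i0) : Multiplicative (Polynomial k) →*
    (MvPolynomial (Fin n) k ≃ₐ[k] MvPolynomial (Fin n) k) where
  toFun q := NVC_E i0 i1 h q.toAdd
  map_one' := by
    ext1 f
    change NVC_phi i0 i1 0 f = f
    rw [NVC_phi_zero]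
    rfl
  map_mul' q r := by
    ext1 f
    change NVC_phi i0 i1 (q.toAdd + r.toAdd) f =
      NVC_phi i0 i1 q.toAdd (NVC_phi i0 i1 r.toAdd f)
    rw [← NVC_phi_comp _ _ h]
    rfl

theorem NVC_hom_inj (h : i1 ≠ i0) : Function.Injective (NVC_hom (k := k) i0 i1 h) := by
  rw [injective_iff_map_eq_one]
  intro q hq
  have h1 : NVC_hom i0 i1 h q (X i0) = X i0 := by
    rw [hq]
    rfl
  change NVC_phi i0 i1 q.toAdd (X i0) = X i0 at h1
  rw [NVC_phi_X0] at h1
  have h2 : Polynomial.aeval (X i1 : MvPolynomial (Fin n) k) q.toAdd = 0 := by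
    have h4 : (X i0 : MvPolynomial (Fin n) k) + Polynomial.aeval (X i1) q.toAdd = X i0 + 0 := by
      rw [h1, add_zero]
    exact add_left_cancel h4
  have h3 := congrArg (aeval (R := k) (fun _ : Fin n => (Polynomial.X : Polynomial k))) h2
  rw [← Polynomial.aeval_algHom_apply, aeval_X, Polynomial.aeval_X_left, map_zero] at h3
  exact h3

end

theorem p_NVC : Stmt_NVC := by
  rintro k _ n hn ⟨H, hcyc, hfin⟩
  have h01 : (⟨1, by omega⟩ : Fin n) ≠ ⟨0, by omega⟩ := by
    intro h
    have := congrArg Fin.val h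
    simp at this
  set e := NVC_hom (k := k) (⟨0, by omega⟩ : Fin n) ⟨1, by omega⟩ h01 with he
  have hinj : Function.Injective e := NVC_hom_inj _ _ h01
  have : IsCyclic H := hcyc
  have : H.FiniteIndex := hfin
  have : (H.comap e).FiniteIndex := by
    refine ⟨?_⟩
    rw [Subgroup.index_comap]
    exact (inferInstance : (H.subgroupOf e.range).FiniteIndex).index_ne_zero
  have : IsCyclic (H.comap e) := by
    let f : H.comap e →* H := (e.comp (H.comap e).subtype).codRestrict H fun x => x.2
    refine isCyclic_of_injective f ?_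
    intro x y hxy
    have h1 : e (x : Multiplicative (Polynomial k)) = e y := congrArg Subtype.val hxy
    exact Subtype.ext (hinj h1)
  exact NVC_poly k (H.comap e)

end Pool.Agent.Work.MP_b2cdcf_full
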