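import Pool.Agent.Work.MP_b2cdcf_full.IntA

set_option autoImplicit false

noncomputable section

namespace Pool.Agent.Work.MP_b2cdcf_full

theorem ORD_K {V I : Type} {own : V → I} {pt : I → V} {B : I → V → ℤ} {Θ K : ℤ}
    (hS : SSys own pt B Θ) (hK : 4 * Θ < K) {x z : V} {Y : I} (hY : Y ∈ YK B K x z) :
    K ≤ |B Y x - B Y z| ∧ 1 ≤ Θ ∧ Θ < |B Y x - B Y z| := by
  have h1 : K ≤ |B Y x - B Y z| := hY
  have h2 := hS.th
  exact ⟨h1, h2, by linarith⟩

/-- if `B W x = B W (pt Y)` then `Y` is before `W` -/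
theorem ORD_3 {V I : Type} {own : V → I} {pt : I → V} {B : I → V → ℤ} {Θ K : ℤ}
    (hS : SSys own pt B Θ) (hK : 4 * Θ < K) {x z : V} {Y W : I}
    (hW : W ∈ YK B K x z) (hne : Y ≠ W) (h : B W x = B W (pt Y)) : Bef pt B x z Y W := by
  obtain ⟨_, _, h3⟩ := ORD_K hS hK hW
  refine ⟨h, hS.s2 W Y hne.symm z ?_⟩
  rw [← h, abs_sub_comm]
  exact h3

theorem ORD_4 {V I : Type} {own : V → I} {pt : I → V} {B : I → V → ℤ} {Θ K : ℤ}
    (hS : SSys own pt B Θ) (hK : 4 * Θ < K) {x z : V} {Y W : I}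
    (hY : Y ∈ YK B K x z) (hne : Y ≠ W) (h : B Y z = B Y (pt W)) : Bef pt B x z Y W := by
  obtain ⟨_, _, h3⟩ := ORD_K hS hK hY
  refine ⟨hS.s2 Y W hne x ?_, h⟩
  rw [← h]
  exact h3

theorem p_ORD : Stmt_ORD := by
  intro V I own pt B Θ K hS hK x z
  refine ⟨?_, ?_, ?_, ?_, ?_⟩
  · intro Y hY W hW hne
    obtain ⟨k1, t1, l1⟩ := ORD_K hS hK hY
    by_cases h : Θ < |B Y x - B Y (pt W)|
    · exact Or.inl (ORD_3 hS hK hW hne (hS.s2 Y W hne x h))
    · right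
      rw [not_lt] at h
      have h2 : Θ < |B Y z - B Y (pt W)| := by
        have h3 := abs_sub_le (B Y x) (B Y (pt W)) (B Y z)
        rw [abs_sub_comm (B Y (pt W)) (B Y z)] at h3
        linarith
      exact ORD_4 hS hK hW hne.symm (hS.s2 Y W hne z h2)
  · intro Y hY W hW ⟨h1, h2⟩
    obtain ⟨k1, t1, l1⟩ := ORD_K hS hK hW
    rw [h1.1, h2.2, sub_self, abs_zero] at l1
    linarith
  · intro Y hY W hW hne h
    exact ORD_3 hS hK hW hne h
  · intro Y hY W hW hne h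
    exact ORD_4 hS hK hY hne h
  · intro Y hY W hW Z hZ h1 h2
    obtain ⟨k1, t1, l1⟩ := ORD_K hS hK hW
    by_cases hYW : Y = W
    · rw [hYW]; exact h2
    have hYZ : Y ≠ Z := by
      intro hYZ
      rw [← hYZ] at h2
      rw [h1.1, h2.2, sub_self, abs_zero] at l1
      linarith
    have h3 : B Y (pt Z) = B Y (pt W) := by
      apply hS.s2 W Y (fun h => hYW h.symm)
      rw [← h1.1, ← h2.2, abs_sub_comm]
      exact l1
    exact ORD_4 hS hK hY hYZ (by rw [h3]; exact h1.2)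

end Pool.Agent.Work.MP_b2cdcf_full
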