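import Pool.Agent.Work.MP_b2cdcf_full.IntA

/-!
# POS: positions on the way from `x` to `z` (helper29)
-/

set_option autoImplicit false

noncomputable section

namespace Pool.Agent.Work.MP_b2cdcf_full

theorem p_POS (h1 : Stmt_ORD) (h2 : Stmt_FIN) : Stmt_POS := by
  classical
  intro V I own pt B Θ K hS hK x z
  obtain ⟨o1, o2, o3, o4, o5⟩ := h1 V I own pt B Θ K hS hK x z
  have hfin : ∀ x z : V, (YK B K x z).Finite := fun x z => (h2 V I own pt B Θ K hS hK x z).1
  set N := NK B K x z with hN
  set S := YK B K x z with hSdef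
  have hSfin : S.Finite := hfin x z
  have hth := hS.th
  -- before, after
  set L : I → Set I := fun Y => {W | W ∈ S ∧ Bef pt B x z W Y} with hL
  set R : I → Set I := fun Y => {W | W ∈ S ∧ Bef pt B x z Y W} with hR
  have hLfin : ∀ Y, (L Y).Finite := fun Y => hSfin.subset fun W hW => hW.1
  have hRfin : ∀ Y, (R Y).Finite := fun Y => hSfin.subset fun W hW => hW.1
  have hpos : ∀ Y, pos pt B K x z Y = (L Y).ncard := fun Y => rfl
  have hirr : ∀ Y ∈ S, ¬ Bef pt B x z Y Y := fun Y hY h => o2 Y hY Y hY ⟨h, h⟩
  have hlt : ∀ Y ∈ S, ∀ W ∈ S, Bef pt B x z Y W → pos pt B K x z Y < pos pt B K x z W := by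
    intro Y hY W hW hYW
    rw [hpos, hpos]
    apply Set.ncard_lt_ncard _ (hLfin W)
    refine ⟨?_, ?_⟩
    · rintro Z ⟨hZ, hZY⟩
      exact ⟨hZ, o5 Z hZ Y hY W hW hZY hYW⟩
    · intro hsub
      exact hirr Y hY (hsub (show Y ∈ L W from ⟨hY, hYW⟩)).2
  have hinj : Set.InjOn (pos pt B K x z) S := by
    intro Y hY W hW hYW
    by_contra hne
    rcases o1 Y hY W hW hne with h | h
    · have := hlt Y hY W hW h
      omega
    · have := hlt W hW Y hY h
      omega
  have hcard : ∀ Y ∈ S, (L Y).ncard + (R Y).ncard + 1 = N := by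
    intro Y hY
    have e1 : S = insert Y (L Y ∪ R Y) := by
      ext W
      constructor
      · intro hW
        by_cases h : W = Y
        · exact Or.inl h
        · rcases o1 W hW Y hY h with h | h
          · exact Or.inr (Or.inl ⟨hW, h⟩)
          · exact Or.inr (Or.inr ⟨hW, h⟩)
      · rintro (rfl | h | h)
        · exact hY
        · exact h.1
        · exact h.1
    have e2 : Y ∉ L Y ∪ R Y := by
      rintro (h | h)
      · exact hirr Y hY h.2
      · exact hirr Y hY h.2
    have e3 : Disjoint (L Y) (R Y) := by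
      rw [Set.disjoint_left]
      intro W hW hW'
      exact o2 W hW.1 Y hY ⟨hW.2, hW'.2⟩
    have e4 : N = S.ncard := rfl
    rw [e4, e1, Set.ncard_insert_of_notMem e2 ((hLfin Y).union (hRfin Y)),
      Set.ncard_union_eq e3 (hLfin Y) (hRfin Y)]
  have hposlt : ∀ Y ∈ S, pos pt B K x z Y < N := by
    intro Y hY
    have := hcard Y hY
    rw [hpos]
    omega
  refine ⟨hinj, ?_, ?_⟩
  · intro p hp
    have e1 : hSfin.toFinset.image (pos pt B K x z) = Finset.range N := by
      apply Finset.eq_of_subset_of_card_le
      · intro q hq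
        obtain ⟨Y, hY, rfl⟩ := Finset.mem_image.1 hq
        exact Finset.mem_range.2 (hposlt Y (hSfin.mem_toFinset.1 hY))
      · rw [Finset.card_range, Finset.card_image_of_injOn (by simpa using hinj)]
        have : N = S.ncard := rfl
        rw [this, Set.ncard_eq_toFinset_card S hSfin]
    have e2 : p ∈ hSfin.toFinset.image (pos pt B K x z) := by
      rw [e1]
      exact Finset.mem_range.2 hp
    obtain ⟨Y, hY, rfl⟩ := Finset.mem_image.1 e2
    exact ⟨Y, hSfin.mem_toFinset.1 hY, rfl⟩
  · intro Y hY
    refine ⟨hposlt Y hY, ?_⟩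
    intro v hv
    have hvW : ∀ W, W ≠ Y → B W v = B W (pt Y) := by
      intro W hW
      have := hS.s1 W v (by rw [hv]; exact Ne.symm hW)
      rw [hv] at this
      exact this
    have hYK : K ≤ |B Y x - B Y z| := hY
    have hc := hcard Y hY
    have memYK : ∀ (a b : V) (W : I), W ∈ YK B K a b ↔ K ≤ |B W a - B W b| := fun a b W => Iff.rfl
    have hΘ : Θ < K := by linarith
    -- A
    have hA : L Y ⊆ YK B K x v := by
      rintro W ⟨hW, hWY⟩
      have hne : W ≠ Y := by
        rintro rfl
        exact hirr W hW hWY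
      rw [memYK, hvW W hne, ← hWY.2]
      exact hW
    -- B
    have hB : R Y ⊆ YK B K v z := by
      rintro W ⟨hW, hYW⟩
      have hne : W ≠ Y := by
        rintro rfl
        exact hirr W hW hYW
      rw [memYK, hvW W hne, ← hYW.1]
      exact hW
    -- C
    have hC : YK B K x v ⊆ insert Y (L Y) := by
      intro W hW
      rw [memYK] at hW
      by_cases hne : W = Y
      · exact Or.inl hne
      · right
        rw [hvW W hne] at hW
        have e1 : B Y x = B Y (pt W) := hS.s2 W Y hne x (by linarith)
        have e2 : B W z = B W (pt Y) := by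
          apply hS.s2 Y W (Ne.symm hne) z
          rw [← e1, abs_sub_comm]
          linarith
        refine ⟨?_, e1, e2⟩
        show K ≤ |B W x - B W z|
        rw [e2]
        exact hW
    -- D
    have hD : YK B K v z ⊆ insert Y (R Y) := by
      intro W hW
      rw [memYK] at hW
      by_cases hne : W = Y
      · exact Or.inl hne
      · right
        rw [hvW W hne] at hW
        have e1 : B Y z = B Y (pt W) := by
          apply hS.s2 W Y hne z
          rw [abs_sub_comm]
          linarith
        have e2 : B W x = B W (pt Y) := by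
          apply hS.s2 Y W (Ne.symm hne) x
          rw [← e1]
          linarith
        refine ⟨?_, e2, e1⟩
        show K ≤ |B W x - B W z|
        rw [e2]
        exact hW
    have i1 := Set.ncard_le_ncard hA (hfin x v)
    have i2 := Set.ncard_le_ncard hB (hfin v z)
    have i3 := Set.ncard_le_ncard hC ((hLfin Y).insert Y)
    have i4 := Set.ncard_le_ncard hD ((hRfin Y).insert Y)
    have i5 := Set.ncard_insert_le Y (L Y)
    have i6 := Set.ncard_insert_le Y (R Y)
    have n1 : NK B K x v = (YK B K x v).ncard := rfl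
    have n2 : NK B K v z = (YK B K v z).ncard := rfl
    rw [hpos, n1, n2]
    refine ⟨?_, ?_, ?_, ?_⟩ <;> omega

end Pool.Agent.Work.MP_b2cdcf_full
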