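import Pool.Agent.Work.MP_b2cdcf_full.IntA

/-! # Block PS (helper65): the projection system of a group with an axis -/

set_option autoImplicit false

noncomputable section

namespace Pool.Agent.Work.MP_b2cdcf_full

theorem PS_out_mem {Γ : Type} [Group Γ] (E : Subgroup Γ) (v : Γ) :
    ((v : Γ ⧸ E).out)⁻¹ * v ∈ E := by
  rw [← QuotientGroup.eq]
  exact QuotientGroup.out_eq' _

theorem PS_notMem {Γ : Type} [Group Γ] (E : Subgroup Γ) (Y : Γ ⧸ E) (v : Γ)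
    (h : (v : Γ ⧸ E) ≠ Y) : Y.out⁻¹ * v ∉ E := by
  intro hm
  apply h
  rw [← QuotientGroup.eq] at hm
  rw [← hm]
  exact QuotientGroup.out_eq' _

theorem p_PS (hA2 : Stmt_A2) : Stmt_PS := by
  intro Γ _ M F E bt d κ θ hG hθ hE hA
  have hκ : (0 : ℤ) ≤ (κ : ℤ) := Int.natCast_nonneg κ
  refine ⟨⟨by linarith, fun Y => QuotientGroup.out_eq' Y, ?_, ?_, ?_⟩, ⟨?_, ?_⟩⟩
  · intro Y v hv
    have h1 := PS_out_mem E v
    have h2 : Y.out⁻¹ * (v : Γ ⧸ E).out ∉ E := by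
      refine PS_notMem E Y _ ?_
      have h3 : (((v : Γ ⧸ E).out : Γ) : Γ ⧸ E) = (v : Γ ⧸ E) := QuotientGroup.out_eq' _
      rw [h3]
      exact hv
    have h3 := hE _ h2 _ h1
    have h4 : Y.out⁻¹ * (v : Γ ⧸ E).out * (((v : Γ ⧸ E).out)⁻¹ * v) = Y.out⁻¹ * v := by group
    rw [h4] at h3
    show |bt (Y.out⁻¹ * v) - bt (Y.out⁻¹ * (v : Γ ⧸ E).out)| ≤ 10 * θ
    linarith
  · intro Y W hYW x
    have h2 : Y.out⁻¹ * W.out ∉ E := by
      refine PS_notMem E Y _ ?_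
      rw [show ((W.out : Γ) : Γ ⧸ E) = W from QuotientGroup.out_eq' _]
      exact hYW.symm
    have h3 := hA _ h2 (Y.out⁻¹ * x)
    have h4 : (Y.out⁻¹ * W.out)⁻¹ * (Y.out⁻¹ * x) = W.out⁻¹ * x := by group
    have h5 : (Y.out⁻¹ * W.out)⁻¹ = W.out⁻¹ * Y.out := by group
    rw [h4, h5] at h3
    show |bt (Y.out⁻¹ * x) - bt (Y.out⁻¹ * W.out)| ≤ 10 * θ ∨
      |bt (W.out⁻¹ * x) - bt (W.out⁻¹ * Y.out)| ≤ 10 * θ
    rcases h3 with h3 | h3
    · left; linarith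
    · right; linarith
  · intro x z
    exact hA2 Γ M F E bt d κ θ hG hθ hE hA x z
  · intro g v
    rfl
  · intro g Y
    have h1 : (g • Y).out⁻¹ * (g * Y.out) ∈ E := by
      rw [← QuotientGroup.eq]
      rw [show (((g • Y).out : Γ) : Γ ⧸ E) = g • Y from QuotientGroup.out_eq' _]
      have h2 : ((g * Y.out : Γ) : Γ ⧸ E) = g • ((Y.out : Γ) : Γ ⧸ E) := rfl
      rw [h2, show ((Y.out : Γ) : Γ ⧸ E) = Y from QuotientGroup.out_eq' _]
    obtain ⟨b, -, hb⟩ := hG.Eact _ h1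
    refine ⟨b, fun x => ?_⟩
    have h3 := hb (Y.out⁻¹ * x)
    have h4 : (g • Y).out⁻¹ * (g * Y.out) * (Y.out⁻¹ * x) = (g • Y).out⁻¹ * (g * x) := by group
    rw [h4] at h3
    exact h3

end Pool.Agent.Work.MP_b2cdcf_full
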