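import Pool.Agent.Work.MP_b2cdcf_full.IntA

set_option autoImplicit false

noncomputable section

namespace Pool.Agent.Work.MP_b2cdcf_full

section
variable {V : Type} [MetricSpace V] [Nonempty V]

/-- the conjugate function -/
def RET_st (f : V → ℝ) (x : V) : ℝ := ⨆ y, (dist x y - f y)

theorem RET_bdd {f : V → ℝ} (hf : f ∈ Del V) (x : V) :
    BddAbove (Set.range fun y => dist x y - f y) := by
  refine ⟨f x, ?_⟩
  rintro _ ⟨y, rfl⟩
  have := hf x y
  show dist x y - f y ≤ f x
  linarith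

theorem RET_st_le {f : V → ℝ} (hf : f ∈ Del V) (x : V) : RET_st f x ≤ f x :=
  ciSup_le (fun y => by have := hf x y; linarith)

theorem RET_le_st {f : V → ℝ} (hf : f ∈ Del V) (x y : V) : dist x y ≤ RET_st f x + f y := by
  have h : dist x y - f y ≤ RET_st f x := le_ciSup (RET_bdd hf x) y
  linarith

/-- the half way step -/
def RET_q (f : V → ℝ) : V → ℝ := fun x => (f x + RET_st f x) / 2

theorem RET_q_mem {f : V → ℝ} (hf : f ∈ Del V) : RET_q f ∈ Del V := by
  intro x y
  have h1 := RET_le_st hf x y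
  have h2 := RET_le_st hf y x
  rw [dist_comm] at h2
  unfold RET_q
  linarith

theorem RET_q_le {f : V → ℝ} (hf : f ∈ Del V) (x : V) : RET_q f x ≤ f x := by
  have h1 := RET_st_le hf x
  unfold RET_q
  linarith

theorem RET_st_le_add {f g : V → ℝ} (hf : f ∈ Del V) (C : ℝ)
    (h : ∀ x, |f x - g x| ≤ C) (x : V) : RET_st g x ≤ RET_st f x + C := by
  apply ciSup_le
  intro y
  have h1 := RET_le_st hf x y
  have h2 := (abs_le.1 (h y)).2
  linarith

theorem RET_q_lip {f g : V → ℝ} (hf : f ∈ Del V) (hg : g ∈ Del V) (C : ℝ)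
    (h : ∀ x, |f x - g x| ≤ C) (x : V) : |RET_q f x - RET_q g x| ≤ C := by
  have h1 := RET_st_le_add hf C h x
  have h2 := RET_st_le_add (f := g) (g := f) hg C (fun x => by rw [abs_sub_comm]; exact h x) x
  have h3 := abs_le.1 (h x)
  unfold RET_q
  rw [abs_le]
  constructor <;> linarith [h3.1, h3.2]

theorem RET_it_mem {f : V → ℝ} (hf : f ∈ Del V) (n : ℕ) : RET_q^[n] f ∈ Del V := by
  induction n with
  | zero => exact hf
  | succ n ih =>
    rw [Function.iterate_succ_apply']
    exact RET_q_mem ih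

theorem RET_it_lip {f g : V → ℝ} (hf : f ∈ Del V) (hg : g ∈ Del V) (C : ℝ)
    (h : ∀ x, |f x - g x| ≤ C) (n : ℕ) (x : V) : |RET_q^[n] f x - RET_q^[n] g x| ≤ C := by
  induction n generalizing x with
  | zero => exact h x
  | succ n ih =>
    rw [Function.iterate_succ_apply', Function.iterate_succ_apply']
    exact RET_q_lip (RET_it_mem hf n) (RET_it_mem hg n) C ih x

theorem RET_it_anti {f : V → ℝ} (hf : f ∈ Del V) (x : V) : Antitone fun n : ℕ => RET_q^[n] f x := by
  apply antitone_nat_of_succ_le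
  intro n
  rw [Function.iterate_succ_apply']
  exact RET_q_le (RET_it_mem hf n) x

/-- the retraction -/
def RET_p (f : V → ℝ) : V → ℝ := fun x => ⨅ n : ℕ, RET_q^[n] f x

theorem RET_it_bdd {f : V → ℝ} (hf : f ∈ Del V) (x : V) :
    BddBelow (Set.range fun n : ℕ => RET_q^[n] f x) := by
  refine ⟨0, ?_⟩
  rintro _ ⟨n, rfl⟩
  exact Del.nonneg (RET_it_mem hf n) x

theorem RET_tend {f : V → ℝ} (hf : f ∈ Del V) (x : V) :
    Filter.Tendsto (fun n : ℕ => RET_q^[n] f x) Filter.atTop (nhds (RET_p f x)) :=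
  tendsto_atTop_ciInf (RET_it_anti hf x) (RET_it_bdd hf x)

theorem RET_p_le {f : V → ℝ} (hf : f ∈ Del V) (n : ℕ) (x : V) : RET_p f x ≤ RET_q^[n] f x :=
  ciInf_le (RET_it_bdd hf x) n

theorem RET_p_mem {f : V → ℝ} (hf : f ∈ Del V) : RET_p f ∈ Del V := by
  intro x y
  exact ge_of_tendsto' ((RET_tend hf x).add (RET_tend hf y)) (fun n => RET_it_mem hf n x y)

theorem RET_p_lip {f g : V → ℝ} (hf : f ∈ Del V) (hg : g ∈ Del V) (C : ℝ)
    (h : ∀ x, |f x - g x| ≤ C) (x : V) : |RET_p f x - RET_p g x| ≤ C :=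
  le_of_tendsto' ((RET_tend hf x).sub (RET_tend hg x)).abs (fun n => RET_it_lip hf hg C h n x)

theorem RET_p_st {f : V → ℝ} (hf : f ∈ Del V) (x : V) : RET_p f x ≤ RET_st (RET_p f) x := by
  have h1 : Filter.Tendsto (fun n : ℕ => 2 * RET_q^[n + 1] f x - RET_q^[n] f x) Filter.atTop
      (nhds (2 * RET_p f x - RET_p f x)) :=
    (((RET_tend hf x).comp (Filter.tendsto_add_atTop_nat 1)).const_mul 2).sub (RET_tend hf x)
  have h2 : 2 * RET_p f x - RET_p f x = RET_p f x := by ring
  rw [h2] at h1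
  refine le_of_tendsto' h1 (fun n => ?_)
  rw [Function.iterate_succ_apply']
  have h3 : 2 * RET_q (RET_q^[n] f) x - RET_q^[n] f x = RET_st (RET_q^[n] f) x := by
    unfold RET_q
    ring
  rw [h3]
  apply ciSup_le
  intro y
  have h4 := RET_le_st (RET_p_mem hf) x y
  have h5 := RET_p_le hf n y
  linarith

theorem RET_p_ext {f : V → ℝ} (hf : f ∈ Del V) : IsExt V (RET_p f) := by
  refine ⟨RET_p_mem hf, fun x ε hε => ?_⟩
  have h1 := RET_p_st hf x
  obtain ⟨y, hy⟩ := exists_lt_of_lt_ciSup (show RET_p f x - ε < ⨆ y, (dist x y - RET_p f y) from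
    lt_of_lt_of_le (by linarith) h1)
  exact ⟨y, by linarith⟩

theorem RET_p_fix {f : V → ℝ} (hf : IsExt V f) : RET_p f = f := by
  have h1 : RET_q f = f := by
    funext x
    have h2 := RET_st_le hf.1 x
    have h3 : f x ≤ RET_st f x := by
      apply le_of_forall_pos_le_add
      intro ε hε
      obtain ⟨y, hy⟩ := hf.2 x ε hε
      have h4 := RET_le_st hf.1 x y
      linarith
    unfold RET_q
    linarith
  have h2 : ∀ n : ℕ, RET_q^[n] f = f := fun n => Function.iterate_fixed h1 n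
  funext x
  unfold RET_p
  simp only [h2]
  exact ciInf_const

end

theorem p_RET : Stmt_RET := by
  intro V _ _
  exact ⟨RET_p, fun f hf => RET_p_ext hf, fun f hf g hg C h x => RET_p_lip hf hg C h x,
    fun f hf => RET_p_fix hf⟩

end Pool.Agent.Work.MP_b2cdcf_full
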