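import Pool.Agent.Work.MP_b2cdcf_full.IntA

/-!
# Block RGR: growth to the right of the projection
-/

set_option autoImplicit false

noncomputable section

namespace Pool.Agent.Work.MP_b2cdcf_full

theorem RGR_up {Γ : Type} [Group Γ] {M : Γ → ℕ} {F : Γ} {E : Subgroup Γ} {bt : Γ → ℤ}
    {d κ : ℕ} (G : Geo Γ M F E bt d κ) (x : Γ) (m : ℤ) (h : bt x < m) (l : ℕ) :
    M (x⁻¹ * F ^ (m + l)) = d ^ l * M (x⁻¹ * F ^ m) := by
  induction l with
  | zero => simp
  | succ l ih =>
    have h1 := G.up x (m + l) (by omega)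
    have h2 : m + ((l + 1 : ℕ) : ℤ) = m + (l : ℤ) + 1 := by push_cast; ring
    rw [h2, h1, ih, pow_succ]
    ring

theorem RGR_down {Γ : Type} [Group Γ] {M : Γ → ℕ} {F : Γ} {E : Subgroup Γ} {bt : Γ → ℤ}
    {d κ : ℕ} (G : Geo Γ M F E bt d κ) (x : Γ) (m : ℤ) (h : m < bt x) (l : ℕ) :
    M (x⁻¹ * F ^ (m - l)) = d ^ l * M (x⁻¹ * F ^ m) := by
  induction l with
  | zero => simp
  | succ l ih =>
    have h1 := G.down x (m - l) (by omega)
    have h2 : m - ((l + 1 : ℕ) : ℤ) = m - (l : ℤ) - 1 := by push_cast; ring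
    rw [h2, h1, ih, pow_succ]
    ring

theorem p_RGR : Stmt_RGR := by
  intro Γ _ M F E bt d κ G x
  have hd : 1 ≤ d := le_trans (by norm_num) G.d5
  refine ⟨?_, ?_, ?_⟩
  · intro m l hm
    have h1 := RGR_up G x (m - l) (by omega) l
    rw [sub_add_cancel] at h1
    rw [h1]
    exact Nat.le_mul_of_pos_right _ (G.M1 _)
  · intro m l hm
    have h1 := RGR_down G x (m + l) (by omega) l
    rw [add_sub_cancel_right] at h1
    rw [h1]
    exact Nat.le_mul_of_pos_right _ (G.M1 _)
  · intro i l hi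
    rcases lt_or_eq_of_le hi with h | h
    · rw [RGR_up G x i h l]
      exact Nat.le_mul_of_pos_left _ hd
    · cases l with
      | zero =>
        simp only [pow_zero, one_mul, Nat.cast_zero, add_zero]
        exact Nat.le_mul_of_pos_left _ hd
      | succ l =>
        have h1 := RGR_up G x (i + 1) (by omega) l
        have h2 : i + ((l + 1 : ℕ) : ℤ) = i + 1 + (l : ℤ) := by push_cast; ring
        have h3 : M (x⁻¹ * F ^ i) ≤ M (x⁻¹ * F ^ (i + 1)) := by
          have := G.mid x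
          rw [h] at this
          exact this
        rw [h2, h1, pow_succ]
        calc d ^ l * d * M (x⁻¹ * F ^ i) ≤ d ^ l * d * M (x⁻¹ * F ^ (i + 1)) :=
              Nat.mul_le_mul_left _ h3
          _ = d * (d ^ l * M (x⁻¹ * F ^ (i + 1))) := by ring

end Pool.Agent.Work.MP_b2cdcf_full
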