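import Pool.Agent.Work.MP_b2cdcf_full.IntA

/-!
# Block SPL: at most two axes see three different projections
-/

set_option autoImplicit false

noncomputable section

namespace Pool.Agent.Work.MP_b2cdcf_full

theorem SPL_chain {V I : Type} {own : V → I} {pt : I → V} {B : I → V → ℤ} {Θ K : ℤ}
    (S : SSys own pt B Θ) (hK : 4 * Θ < K) {x z y : V} {Y1 Y2 Y3 : I}
    (h12 : Y1 ≠ Y2) (h23 : Y2 ≠ Y3) (m2 : K ≤ |B Y2 x - B Y2 z|)
    (b12 : Bef pt B x z Y1 Y2) (b23 : Bef pt B x z Y2 Y3)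
    (n1 : B Y1 y ≠ B Y1 z) (n3 : B Y3 y ≠ B Y3 x) : False := by
  have hΘ := S.th
  by_cases h : Θ < |B Y2 y - B Y2 x|
  · rw [b12.1] at h
    exact n1 ((S.s2 Y2 Y1 h12.symm y h).trans b12.2.symm)
  · have h' : Θ < |B Y2 y - B Y2 z| := by
      have h1 := abs_sub_le (B Y2 x) (B Y2 y) (B Y2 z)
      have h2 : |B Y2 x - B Y2 y| = |B Y2 y - B Y2 x| := abs_sub_comm _ _
      omega
    rw [b23.2] at h'
    exact n3 ((S.s2 Y2 Y3 h23 y h').trans b23.1.symm)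

theorem p_SPL (hORD : Stmt_ORD) (hFIN : Stmt_FIN) : Stmt_SPL := by
  intro V I own pt B Θ K S hK x z y
  by_contra hcon
  push Not at hcon
  have hfin : {Y | Y ∈ YK B K x z ∧ B Y y ≠ B Y x ∧ B Y y ≠ B Y z}.Finite :=
    (hFIN V I own pt B Θ K S hK x z).1.subset fun Y hY => hY.1
  obtain ⟨a, b, c, ha, hb, hc, hab, hac, hbc⟩ := (Set.two_lt_ncard_iff hfin).1 hcon
  have hO := (hORD V I own pt B Θ K S hK x z).1
  have key : ∀ Y1 ∈ {Y | Y ∈ YK B K x z ∧ B Y y ≠ B Y x ∧ B Y y ≠ B Y z},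
      ∀ Y2 ∈ {Y | Y ∈ YK B K x z ∧ B Y y ≠ B Y x ∧ B Y y ≠ B Y z},
      ∀ Y3 ∈ {Y | Y ∈ YK B K x z ∧ B Y y ≠ B Y x ∧ B Y y ≠ B Y z}, Y1 ≠ Y2 → Y2 ≠ Y3 →
      Bef pt B x z Y1 Y2 → Bef pt B x z Y2 Y3 → False := by
    intro Y1 h1 Y2 h2 Y3 h3 h12 h23 b12 b23
    exact SPL_chain S hK h12 h23 h2.1 b12 b23 h1.2.2 h3.2.1
  rcases hO a ha.1 b hb.1 hab with h1 | h1
  · rcases hO b hb.1 c hc.1 hbc with h2 | h2
    · exact key a ha b hb c hc hab hbc h1 h2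
    · rcases hO a ha.1 c hc.1 hac with h3 | h3
      · exact key a ha c hc b hb hac hbc.symm h3 h2
      · exact key c hc a ha b hb hac.symm hab h3 h1
  · rcases hO b hb.1 c hc.1 hbc with h2 | h2
    · rcases hO a ha.1 c hc.1 hac with h3 | h3
      · exact key b hb a ha c hc hab.symm hac h1 h3
      · exact key b hb c hc a ha hbc hac.symm h2 h3
    · exact key c hc b hb a ha hbc.symm hab.symm h2 h1

end Pool.Agent.Work.MP_b2cdcf_full
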