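import Pool.Agent.Work.MP_b2cdcf_full.IntA

/-!
# Block STAB
-/

set_option autoImplicit false

namespace Pool.Agent.Work.MP_b2cdcf_full

theorem STAB_pow {Γ : Type} [Group Γ] {bt : Γ → ℤ} {e : Γ} {b : ℤ}
    (h : ∀ x, bt (e * x) = bt x + b) (w : Γ) (m : ℕ) : bt (e ^ m * w) = bt w + m * b := by
  induction m with
  | zero => simp
  | succ m ih =>
    rw [pow_succ', mul_assoc, h, ih]
    push_cast
    ring

theorem p_STAB : Stmt_STAB := by
  intro Γ _ M F E bt d κ θ hG hE
  refine ⟨{e | e ∈ E ∧ ∀ x, bt (e * x) = bt x}.ncard, ?_⟩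
  intro Y W hYW
  set u := Y.out with hu
  set v := W.out with hv
  have hw : u⁻¹ * v ∉ E := by
    intro h
    apply hYW
    rw [← QuotientGroup.out_eq' Y, ← QuotientGroup.out_eq' W]
    exact QuotientGroup.eq.2 h
  have hsub : {g : Γ | g • Y = Y ∧ g • W = W} ⊆
      (fun e => u * e * u⁻¹) '' {e | e ∈ E ∧ ∀ x, bt (e * x) = bt x} := by
    rintro g ⟨hY, hW⟩
    have h1 : ∀ Z : Γ ⧸ E, g • Z = Z → Z.out⁻¹ * (g * Z.out) ∈ E := by
      intro Z hZ
      have h2 : ((Z.out : Γ) : Γ ⧸ E) = ((g * Z.out : Γ) : Γ ⧸ E) := by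
        rw [QuotientGroup.out_eq']
        conv_lhs => rw [← hZ]
        conv_lhs => rw [← QuotientGroup.out_eq' Z]
        rfl
      exact QuotientGroup.eq.1 h2
    have hYe := h1 Y hY
    have hWe := h1 W hW
    rw [← hu] at hYe
    rw [← hv] at hWe
    set e := u⁻¹ * (g * u) with he
    set w := u⁻¹ * v with hwd
    have h3 : w⁻¹ * e * w = v⁻¹ * (g * v) := by
      rw [hwd, he]; group
    obtain ⟨b, _, hb⟩ := hG.Eact e hYe
    have h4 : ∀ m : ℕ, |(m : ℤ) * b| ≤ θ := by
      intro m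
      have h5 := STAB_pow hb w m
      have h6 : e ^ m * w = w * (w⁻¹ * e * w) ^ m := by
        have h7 : (w⁻¹ * e * w) ^ m = w⁻¹ * e ^ m * w := by
          have := conj_pow (i := m) (a := w⁻¹) (b := e)
          rw [inv_inv] at this
          exact this
        rw [h7]; group
      have h8 := hE w hw ((w⁻¹ * e * w) ^ m) (by
        rw [h3]
        exact E.pow_mem hWe m)
      rw [← h6, h5] at h8
      have h9 : bt w + (m : ℤ) * b - bt w = (m : ℤ) * b := by ring
      rwa [h9] at h8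
    have hb0 : b = 0 := by
      by_contra hb0
      have h5 := h4 (θ.toNat + 1)
      rw [abs_mul] at h5
      have h6 : 1 ≤ |b| := Int.one_le_abs hb0
      have h7 : θ ≤ (θ.toNat : ℤ) := Int.self_le_toNat θ
      have h8 : |((θ.toNat + 1 : ℕ) : ℤ)| = (θ.toNat : ℤ) + 1 := by
        rw [abs_of_nonneg (by positivity)]
        push_cast
        ring
      rw [h8] at h5
      nlinarith
    refine ⟨e, ⟨hYe, fun x => by rw [hb, hb0, add_zero]⟩, ?_⟩
    change u * (u⁻¹ * (g * u)) * u⁻¹ = g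
    group
  have hfin := hG.Efin
  refine ⟨(hfin.image _).subset hsub, ?_⟩
  exact (Set.ncard_le_ncard hsub (hfin.image _)).trans (Set.ncard_image_le hfin)

end Pool.Agent.Work.MP_b2cdcf_full
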