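import Pool.Agent.Work.MP_b2cdcf_full.IntA

/-! # Block STR -/

set_option autoImplicit false

namespace Pool.Agent.Work.MP_b2cdcf_full

theorem STR_bd (h1 : Stmt_CLS) {V I : Type} {own : V → I} {pt : I → V} {b : I → V → ℤ} {θ : ℤ}
    (hP : PSys own pt b θ) (Y : I) (x : V) :
    b Y x - 4 * θ ≤ BB own b (10 * θ) Y x ∧ BB own b (10 * θ) Y x ≤ b Y x := by
  have hlow : ∀ z ∈ {z | ∃ x', Relation.ReflTransGen (RY own b (10 * θ) Y) x x' ∧ b Y x' = z},
      b Y x - 4 * θ ≤ z := by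
    rintro z ⟨x', hx', rfl⟩
    have h2 := h1 V I own pt b θ hP Y x x' hx'
    have h3 := (abs_le.1 h2).2
    omega
  have hmem : b Y x ∈ {z | ∃ x', Relation.ReflTransGen (RY own b (10 * θ) Y) x x' ∧
      b Y x' = z} := ⟨x, Relation.ReflTransGen.refl, rfl⟩
  exact ⟨le_csInf ⟨_, hmem⟩ hlow, csInf_le ⟨_, hlow⟩ hmem⟩

theorem STR_eq {V I : Type} {own : V → I} {b : I → V → ℤ} {τ : ℤ} {Y : I} {x x' : V}
    (h : RY own b τ Y x x') : BB own b τ Y x = BB own b τ Y x' := by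
  have hs : RY own b τ Y x' x := by
    obtain ⟨W, h1, h2, h3⟩ := h
    exact ⟨W, h1, h3, h2⟩
  unfold BB
  congr 1
  ext z
  constructor
  · rintro ⟨y, hy, rfl⟩
    exact ⟨y, Relation.ReflTransGen.head hs hy, rfl⟩
  · rintro ⟨y, hy, rfl⟩
    exact ⟨y, Relation.ReflTransGen.head h hy, rfl⟩

theorem p_STR (h1 : Stmt_CLS) : Stmt_STR := by
  intro V I own pt b θ hP
  have hth := hP.th
  have hbd := fun Y x => STR_bd h1 hP Y x
  refine ⟨⟨by omega, hP.own_pt, ?_, ?_, ?_⟩, ?_⟩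
  · intro Y v hv
    exact STR_eq ⟨own v, hv, Or.inl rfl, Or.inl (hP.own_pt _)⟩
  · intro Y W hYW x hx
    have ha := hbd Y x
    have hb := hbd Y (pt W)
    have hc : 10 * θ < |b Y x - b Y (pt W)| := by
      rcases lt_abs.1 hx with h | h
      · exact lt_abs.2 (Or.inl (by omega))
      · exact lt_abs.2 (Or.inr (by omega))
    exact STR_eq ⟨Y, hYW, Or.inr ⟨pt W, hP.own_pt W, hc⟩, Or.inl (hP.own_pt Y)⟩
  · intro x z
    refine (hP.p3 x z).subset ?_
    intro Y hY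
    have hY' : 14 * θ < |BB own b (10 * θ) Y x - BB own b (10 * θ) Y z| := hY
    have ha := hbd Y x
    have hb := hbd Y z
    show θ < |b Y x - b Y z|
    rcases lt_abs.1 hY' with h | h
    · exact lt_abs.2 (Or.inl (by omega))
    · exact lt_abs.2 (Or.inr (by omega))
  · intro Y x
    have ha := hbd Y x
    exact abs_le.2 ⟨by omega, by omega⟩

end Pool.Agent.Work.MP_b2cdcf_full
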