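import Pool.Agent.Work.MP_b2cdcf_full.IntB

set_option autoImplicit false

open MvPolynomial

noncomputable section

namespace Pool.Agent.Work.MP_b2cdcf_full

open Pool.Agent.Work.MP_b2cdcf_wpd

theorem TAU_rename {k : Type} [Field k] {n : ℕ} [NeZero n] (a : k) (h1 h2 : ℕ) :
    rename (fun i : Fin n => i - 1) (PP k n a h1 h2 1 0 (1 + 1)) = PP k n a h1 h2 0 (-1) 1 := by
  unfold PP
  rw [map_mul, map_add, map_mul, map_sum, map_pow, map_pow, rename_X, rename_X, rename_C, zero_sub,
    add_sub_cancel_right]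
  have e : ∑ j ∈ Finset.univ.erase (1 : Fin n),
      rename (fun i : Fin n => i - 1) ((X j : MvPolynomial (Fin n) k) ^ (h1 + h2)) =
      ∑ j ∈ Finset.univ.erase (0 : Fin n), (X j : MvPolynomial (Fin n) k) ^ (h1 + h2) := by
    apply Finset.sum_bij (fun j _ => j - 1)
    · intro j hj
      rw [Finset.mem_erase] at hj ⊢
      exact ⟨sub_ne_zero.2 hj.1, Finset.mem_univ _⟩
    · intro j _ j' _ h
      exact sub_left_injective h
    · intro j hj
      rw [Finset.mem_erase] at hj
      refine ⟨j + 1, ?_, by simp⟩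
      rw [Finset.mem_erase]
      refine ⟨?_, Finset.mem_univ _⟩
      intro h
      exact hj.1 (by simpa using h)
    · intro j _
      rw [map_pow, rename_X]
  rw [e]

theorem TAU_eq {k : Type} [Field k] {n : ℕ} [NeZero n] (hn : 3 ≤ n) (a : k) (h1 h2 : ℕ)
    (V : MvPolynomial (Fin n) k) :
    FX k n hn a h1 h2 V =
      rename (fun i : Fin n => i - 1) (el (PP k n a h1 h2 1 0 (1 + 1)) V) := by
  have h : (FX k n hn a h1 h2 : MvPolynomial (Fin n) k →ₐ[k] MvPolynomial (Fin n) k) =
      (rename (fun i : Fin n => i - 1)).comp (el (PP k n a h1 h2 1 0 (1 + 1))) := by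
    apply algHom_ext
    intro i
    rw [AlgHom.comp_apply, el, aeval_X]
    by_cases hi : i = 1
    · subst hi
      rw [if_pos rfl, map_add, rename_X, TAU_rename, sub_self]
      exact FX_one hn a h1 h2
    · rw [if_neg hi, rename_X]
      exact FX_ne hn a h1 h2 hi
  have h' := congrArg (fun g : MvPolynomial (Fin n) k →ₐ[k] MvPolynomial (Fin n) k => g V) h
  exact h'

theorem p_TAU : Stmt_TAU := by
  intro k _ n _ hn a h1 h2 V
  have hinj : Function.Injective (fun i : Fin n => i - 1) := sub_left_injective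
  rw [TAU_eq hn a h1 h2 V]
  refine ⟨fun j => ?_, ?_⟩
  swap
  · have e := totalDegree_renameEquiv (Equiv.subRight (1 : Fin n))
      (el (PP k n a h1 h2 1 0 (1 + 1)) V)
    rw [renameEquiv_apply] at e
    exact e
  have e := degreeOf_rename_of_injective (p := el (PP k n a h1 h2 1 0 (1 + 1)) V) hinj (j + 1)
  rw [← e]
  simp only [add_sub_cancel_right]

end Pool.Agent.Work.MP_b2cdcf_full
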