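import Pool.Agent.Work.MP_b2cdcf_full.IntA

set_option autoImplicit false

namespace Pool.Agent.Work.MP_b2cdcf_full

theorem TTT_tri1 (x y z : ℤ) : |x - z| ≤ |x - y| + |y - z| := by
  have h : x - z = (x - y) + (y - z) := by ring
  rw [h]
  exact abs_add_le _ _

theorem p_TTT : Stmt_TTT := by
  intro V I own pt b θ hP Y
  have T1 : ∀ W W', W ≠ W' → θ < vv pt b Y W (pt W') → vv pt b Y W' (pt W) ≤ θ := by
    intro W W' hne hlt
    unfold vv at hlt ⊢
    rcases hP.p2 W W' hne (pt Y) with h | h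
    · exfalso
      rw [abs_sub_comm] at h
      linarith
    · rw [abs_sub_comm] at h
      exact h
  refine ⟨T1, ?_, ?_⟩
  · intro W W' Z s hne hs h1 h2
    have h3 := T1 W W' hne (lt_of_le_of_lt hs h1)
    unfold vv at h1 h2 h3 ⊢
    rcases hP.p2 W W' hne (pt Z) with h | h
    · have t1 := TTT_tri1 (b W (pt W')) (b W (pt Z)) (b W (pt Y))
      rw [abs_sub_comm (b W (pt W')) (b W (pt Z))] at t1
      linarith
    · exfalso
      have t1 := TTT_tri1 (b W' (pt Z)) (b W' (pt W)) (b W' (pt Y))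
      linarith
  · intro W W' Z s s' hne h1 h2
    unfold vv at h1 h2 ⊢
    rcases hP.p2 W W' hne (pt Z) with h | h
    · left
      have t1 := TTT_tri1 (b W (pt Z)) (b W (pt W')) (b W (pt Y))
      linarith
    · right
      have t1 := TTT_tri1 (b W' (pt Z)) (b W' (pt W)) (b W' (pt Y))
      linarith

end Pool.Agent.Work.MP_b2cdcf_full
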