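import Pool.Agent.Work.MP_b2cdcf_full.IntA

/-! # S02759, block UNB: the number of axes between `x0` and `t ^ m • x0` grows (helper53) -/

set_option autoImplicit false

namespace Pool.Agent.Work.MP_b2cdcf_full

section UNB

variable {Γ V I : Type} [Group Γ] [MulAction Γ V] [MulAction Γ I] {own : V → I}
  {pt : I → V} {B : I → V → ℤ} {Θ K : ℤ}

theorem UNB_ne (hE : Eqv Γ own B) {t : Γ} {x0 : V} (hne : own (t • x0) ≠ own x0) (j : ℤ) :
    own (t ^ (j + 1) • x0) ≠ own (t ^ j • x0) := by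
  intro h
  rw [zpow_add_one, mul_smul, hE.own_smul, hE.own_smul (t ^ j) x0] at h
  exact hne (smul_left_cancel _ h)

theorem UNB_gap (hE : Eqv Γ own B) {t : Γ} {x0 : V}
    (hgap : K ≤ |B (own x0) (t • x0) - B (own x0) (t⁻¹ • x0)|) (j : ℤ) :
    K ≤ |B (own (t ^ j • x0)) (t ^ (j + 1) • x0) - B (own (t ^ j • x0)) (t ^ (j - 1) • x0)| := by
  obtain ⟨c, hc⟩ := hE.b_smul (t ^ j) (own x0)
  rw [hE.own_smul, zpow_add_one, zpow_sub_one, mul_smul, mul_smul, hc, hc]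
  have e : B (own x0) (t • x0) + c - (B (own x0) (t⁻¹ • x0) + c) =
      B (own x0) (t • x0) - B (own x0) (t⁻¹ • x0) := by ring
  rw [e]
  exact hgap

theorem UNB_fwd (hS : SSys own pt B Θ) (hK : Θ < K) (hE : Eqv Γ own B) {t : Γ} {x0 : V}
    (hne : own (t • x0) ≠ own x0)
    (hgap : K ≤ |B (own x0) (t • x0) - B (own x0) (t⁻¹ • x0)|) (n : ℕ) :
    ∀ j : ℤ, B (own (t ^ j • x0)) (t ^ (j + 1 + n) • x0) =
      B (own (t ^ j • x0)) (t ^ (j + 1) • x0) := by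
  induction n with
  | zero =>
    intro j
    rw [Nat.cast_zero, add_zero]
  | succ n ih =>
    intro j
    have h1 := ih (j + 1)
    have h2 := UNB_gap hE hgap (j + 1)
    have h3 := UNB_ne hE hne j
    have h4 := hS.s1 (own (t ^ (j + 1) • x0)) (t ^ j • x0) (fun h => h3 h.symm)
    have e1 : j + 1 - 1 = j := by ring
    have e2 : j + 1 + ((n + 1 : ℕ) : ℤ) = j + 1 + 1 + (n : ℤ) := by push_cast; ring
    rw [e1, ← h1, h4] at h2
    have h5 := hS.s2 (own (t ^ (j + 1) • x0)) (own (t ^ j • x0)) h3 (t ^ (j + 1 + 1 + (n : ℤ)) • x0)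
      (lt_of_lt_of_le hK h2)
    have h6 := hS.s1 (own (t ^ j • x0)) (t ^ (j + 1) • x0) h3
    rw [e2, h5, h6]

theorem UNB_bwd (hS : SSys own pt B Θ) (hK : Θ < K) (hE : Eqv Γ own B) {t : Γ} {x0 : V}
    (hne : own (t • x0) ≠ own x0)
    (hgap : K ≤ |B (own x0) (t • x0) - B (own x0) (t⁻¹ • x0)|) (n : ℕ) :
    ∀ j : ℤ, B (own (t ^ j • x0)) (t ^ (j - 1 - n) • x0) =
      B (own (t ^ j • x0)) (t ^ (j - 1) • x0) := by
  induction n with
  | zero =>
    intro j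
    rw [Nat.cast_zero, sub_zero]
  | succ n ih =>
    intro j
    have h1 := ih (j - 1)
    have h2 := UNB_gap hE hgap (j - 1)
    have h3 := UNB_ne hE hne (j - 1)
    have e1 : j - 1 + 1 = j := by ring
    have e2 : j - 1 - ((n + 1 : ℕ) : ℤ) = j - 1 - 1 - (n : ℤ) := by push_cast; ring
    rw [e1] at h2 h3
    have h4 := hS.s1 (own (t ^ (j - 1) • x0)) (t ^ j • x0) h3
    rw [← h1, h4, abs_sub_comm] at h2
    have h5 := hS.s2 (own (t ^ (j - 1) • x0)) (own (t ^ j • x0)) (fun h => h3 h.symm)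
      (t ^ (j - 1 - 1 - (n : ℤ)) • x0) (lt_of_lt_of_le hK h2)
    have h6 := hS.s1 (own (t ^ j • x0)) (t ^ (j - 1) • x0) (fun h => h3 h.symm)
    rw [e2, h5, h6]

theorem UNB_inj (hS : SSys own pt B Θ) (hK : Θ < K) (h0 : 0 < K) (hE : Eqv Γ own B) {t : Γ}
    {x0 : V} (hne : own (t • x0) ≠ own x0)
    (hgap : K ≤ |B (own x0) (t • x0) - B (own x0) (t⁻¹ • x0)|) (i : ℤ) (n : ℕ) :
    own (t ^ i • x0) ≠ own (t ^ (i + 1 + n) • x0) := by
  intro h
  rcases n with _ | n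
  · rw [Nat.cast_zero, add_zero] at h
    exact UNB_ne hE hne i h.symm
  · have h1 := UNB_fwd hS hK hE hne hgap n (i + 1)
    have h2 := UNB_gap hE hgap (i + 1)
    have h3 := UNB_ne hE hne i
    have e1 : i + 1 - 1 = i := by ring
    have e2 : i + 1 + ((n + 1 : ℕ) : ℤ) = i + 1 + 1 + (n : ℤ) := by push_cast; ring
    rw [e2] at h
    have h4 := hS.s1 (own (t ^ (i + 1) • x0)) (t ^ i • x0) (fun h => h3 h.symm)
    have h5 := hS.s1 (own (t ^ (i + 1) • x0)) (t ^ (i + 1 + 1 + (n : ℤ)) • x0)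
      (fun h' => h3 (by rw [← h', h]))
    rw [e1, ← h1, h4, h5, h, sub_self, abs_zero] at h2
    omega

end UNB

theorem p_UNB (hFIN : Stmt_FIN) : Stmt_UNB := by
  classical
  intro Γ V I _ _ _ own pt B Θ K hS hK4 hE t x0 hne hgap m
  have hth := hS.th
  have hK : Θ < K := by linarith
  have h0 : 0 < K := by linarith
  obtain ⟨hfin, _, _⟩ := hFIN V I own pt B Θ K hS hK4 x0 (t ^ m • x0)
  have hsub : (fun j : ℕ => own (t ^ (j : ℤ) • x0)) '' ((Finset.Ioo 0 m : Finset ℕ) : Set ℕ) ⊆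
      YK B K x0 (t ^ m • x0) := by
    rintro _ ⟨j, hj, rfl⟩
    have hj' := Finset.mem_Ioo.1 (Finset.mem_coe.1 hj)
    obtain ⟨a, ha⟩ : ∃ a : ℕ, m = j + 1 + a := ⟨m - (j + 1), by omega⟩
    obtain ⟨b, hb⟩ : ∃ b : ℕ, j = b + 1 := ⟨j - 1, by omega⟩
    have h1 := UNB_fwd hS hK hE hne hgap a (j : ℤ)
    have h2 := UNB_bwd hS hK hE hne hgap b (j : ℤ)
    have h3 := UNB_gap hE hgap (j : ℤ)
    have e1 : (j : ℤ) + 1 + (a : ℤ) = ((m : ℕ) : ℤ) := by rw [ha]; push_cast; ring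
    have e2 : (j : ℤ) - 1 - (b : ℤ) = 0 := by rw [hb]; push_cast; ring
    rw [e1, zpow_natCast t m] at h1
    rw [e2, zpow_zero, one_smul] at h2
    rw [← h1, ← h2, abs_sub_comm] at h3
    exact h3
  have hinj : Set.InjOn (fun j : ℕ => own (t ^ (j : ℤ) • x0))
      ((Finset.Ioo 0 m : Finset ℕ) : Set ℕ) := by
    have key : ∀ i j : ℕ, i < j → own (t ^ (i : ℤ) • x0) ≠ own (t ^ (j : ℤ) • x0) := by
      intro i j hij
      obtain ⟨n, hn⟩ : ∃ n : ℕ, j = i + 1 + n := ⟨j - (i + 1), by omega⟩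
      have e1 : (j : ℤ) = (i : ℤ) + 1 + (n : ℤ) := by rw [hn]; push_cast; ring
      rw [e1]
      exact UNB_inj hS hK h0 hE hne hgap i n
    intro i _ j _ hij
    rcases lt_trichotomy i j with h | h | h
    · exact absurd hij (key i j h)
    · exact h
    · exact absurd hij.symm (key j i h)
  have h1 := Set.ncard_le_ncard hsub hfin
  rw [hinj.ncard_image, Set.ncard_coe_finset, Nat.card_Ioo] at h1
  show m ≤ (YK B K x0 (t ^ m • x0)).ncard + 1
  omega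

end Pool.Agent.Work.MP_b2cdcf_full
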