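import Pool.Agent.Work.MP_b2cdcf_full.IntA

/-!
# Block VCMP (helper46)
-/

set_option autoImplicit false

namespace Pool.Agent.Work.MP_b2cdcf_full

theorem stmt_VCMP : Stmt_VCMP := by
  intro d c f1 f2 β1 β2 hd hf h1 h1' h2 h2' hle hge
  have hdd : ∀ n : ℕ, 4 * n ≤ d * (d * n) := by
    intro n
    calc 4 * n = 2 * (2 * n) := by ring
      _ ≤ d * (d * n) := Nat.mul_le_mul hd (Nat.mul_le_mul hd le_rfl)
  rw [abs_le]
  constructor
  · by_contra hcon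
    have hlt : β1 + 3 ≤ β2 := by omega
    have e1 : f1 (β1 + 1 + 1) = d * f1 (β1 + 1) := h1 (β1 + 1) (by omega)
    have e2 : f2 (β1 + 1 + 1 - 1) = d * f2 (β1 + 1 + 1) := h2' (β1 + 1 + 1) (by omega)
    rw [show β1 + 1 + 1 - 1 = β1 + 1 by ring] at e2
    have e3 : d * f1 (β1 + 1 + 1) ≤ 2 * f1 (β1 + 1) := by
      calc d * f1 (β1 + 1 + 1) ≤ d * (c * f2 (β1 + 1 + 1)) := Nat.mul_le_mul le_rfl (hle _)
        _ = c * (d * f2 (β1 + 1 + 1)) := by ring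
        _ = c * f2 (β1 + 1) := by rw [e2]
        _ ≤ 2 * f1 (β1 + 1) := hge _
    rw [e1] at e3
    have := hdd (f1 (β1 + 1))
    have := hf (β1 + 1)
    omega
  · by_contra hcon
    have hlt : β2 + 3 ≤ β1 := by omega
    have e1 : f2 (β2 + 1 + 1) = d * f2 (β2 + 1) := h2 (β2 + 1) (by omega)
    have e2 : f1 (β2 + 1 + 1 - 1) = d * f1 (β2 + 1 + 1) := h1' (β2 + 1 + 1) (by omega)
    rw [show β2 + 1 + 1 - 1 = β2 + 1 by ring] at e2
    have e3 : d * (d * f1 (β2 + 1)) ≤ 2 * f1 (β2 + 1) := by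
      calc d * (d * f1 (β2 + 1)) ≤ d * (d * (c * f2 (β2 + 1))) :=
            Nat.mul_le_mul le_rfl (Nat.mul_le_mul le_rfl (hle _))
        _ = d * (c * (d * f2 (β2 + 1))) := by ring
        _ = d * (c * f2 (β2 + 1 + 1)) := by rw [e1]
        _ ≤ d * (2 * f1 (β2 + 1 + 1)) := Nat.mul_le_mul le_rfl (hge _)
        _ = 2 * (d * f1 (β2 + 1 + 1)) := by ring
        _ = 2 * f1 (β2 + 1) := by rw [e2]
    have := hdd (f1 (β2 + 1))
    have := hf (β2 + 1)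
    omega

end Pool.Agent.Work.MP_b2cdcf_full
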