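import Mathlib

/-!
# MP_b2cdcf_al, S02759: the abstract part (definitions)

`LHalf`: integer sequences; `Geo`: the data of the group; `PSys`, `SSys`: weak and strong projection
systems; `Ext`: the injective hull of a metric space.
-/

set_option autoImplicit false

noncomputable section

namespace Pool.Agent.Work.MP_b2cdcf_full

/-! ### integer sequences -/

/-- half of the properties of the degree sequences `a m = deg (F^(-m) U)`, `b m = deg_1 (F^(-m) U)` -/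
structure LHalf (d : ℤ) (a b : ℤ → ℤ) : Prop where
  b0 : ∀ m, 0 ≤ b m
  ba : ∀ m, b m ≤ a m
  a1 : ∀ m, 1 ≤ a m
  e1 : ∀ m, d * (d * b m - a m) ≤ (d - 1) * b (m - 1)
  e2 : ∀ m, a (m - 1) ≤ a m + (d - 1) * b m

/-! ### the group with its axis -/

/-- The data of a group: `M` = the degree, `F` = the shift along the axis, `E` = the stabiliser of
the axis, `bt` = the projection to the axis. -/
structure Geo (Γ : Type) [Group Γ] (M : Γ → ℕ) (F : Γ) (E : Subgroup Γ) (bt : Γ → ℤ)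
    (d κ : ℕ) : Prop where
  d5 : 5 ≤ d
  k1 : 1 ≤ κ
  M1 : ∀ x, 1 ≤ M x
  Mmul : ∀ x y, M (x * y) ≤ M x * M y
  Mpow : ∀ m : ℤ, M (F ^ m) = d ^ m.natAbs
  up : ∀ x (m : ℤ), bt x < m → M (x⁻¹ * F ^ (m + 1)) = d * M (x⁻¹ * F ^ m)
  down : ∀ x (m : ℤ), m < bt x → M (x⁻¹ * F ^ (m - 1)) = d * M (x⁻¹ * F ^ m)
  mid : ∀ x, M (x⁻¹ * F ^ (bt x)) ≤ M (x⁻¹ * F ^ (bt x + 1))
  lup : ∀ y (m : ℤ) (s : ℕ), m ≤ bt y - κ →
    2 * d ^ s * M (F ^ (-m) * y) ≤ 3 * M (F ^ (-(m - s)) * y)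
  ldn : ∀ y (m : ℤ) (s : ℕ), bt y + κ ≤ m →
    2 * d ^ s * M (F ^ (-m) * y) ≤ 3 * M (F ^ (-(m + s)) * y)
  mulr : ∀ x y (m : ℤ), bt x < m → m ≤ bt y - κ →
    M (x⁻¹ * F ^ m) * M (F ^ (-m) * y) ≤ 2 * M (x⁻¹ * y)
  mull : ∀ x y (m : ℤ), m < bt x → bt y + κ ≤ m →
    M (x⁻¹ * F ^ m) * M (F ^ (-m) * y) ≤ 2 * M (x⁻¹ * y)
  shift : ∀ x (L : ℤ), bt (F ^ L * x) = bt x + L
  FE : F ∈ E
  Eact : ∀ e ∈ E, ∃ b : ℤ, (∀ x, bt (x * e) = bt (x * F ^ b)) ∧ ∀ x, bt (e * x) = bt x + b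
  Efin : {e | e ∈ E ∧ ∀ x, bt (e * x) = bt x}.Finite
  rig1 : ∀ B : ℕ, ∃ M0 : ℕ, ∀ m : ℕ, M0 ≤ m → ∀ φ, M φ ≤ B → M φ⁻¹ ≤ B →
    M (F ^ m * φ * (F ^ m)⁻¹) ≤ B → M (F ^ m * φ⁻¹ * (F ^ m)⁻¹) ≤ B → φ ∈ E
  rig2 : ∀ B : ℕ, ∃ M0 : ℕ, ∀ m : ℕ, M0 ≤ m → ∀ φ, M φ ≤ B → M φ⁻¹ ≤ B →
    M (F ^ m * φ * F ^ m) ≤ B → M ((F ^ m * φ * F ^ m)⁻¹) ≤ B → False
  proper : ∃ a, a ∉ E

/-! ### projection systems -/

/-- A weak projection system: points `V`, axes `I`; every point `v` lies on exactly one axis `own v`;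
`pt Y` is a point on the axis `Y`; `b Y x` is the position of the projection of `x` to the axis `Y`. -/
structure PSys {V I : Type} (own : V → I) (pt : I → V) (b : I → V → ℤ) (θ : ℤ) : Prop where
  th : 1 ≤ θ
  own_pt : ∀ Y, own (pt Y) = Y
  p1 : ∀ Y v, own v ≠ Y → |b Y v - b Y (pt (own v))| ≤ θ
  p2 : ∀ Y W, Y ≠ W → ∀ x, |b Y x - b Y (pt W)| ≤ θ ∨ |b W x - b W (pt Y)| ≤ θ
  p3 : ∀ x z, {Y | θ < |b Y x - b Y z|}.Finite

/-- A strong projection system. -/
structure SSys {V I : Type} (own : V → I) (pt : I → V) (B : I → V → ℤ) (Θ : ℤ) : Prop where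
  th : 1 ≤ Θ
  own_pt : ∀ Y, own (pt Y) = Y
  s1 : ∀ Y v, own v ≠ Y → B Y v = B Y (pt (own v))
  s2 : ∀ Y W, Y ≠ W → ∀ x, Θ < |B Y x - B Y (pt W)| → B W x = B W (pt Y)
  s3 : ∀ x z, {Y | Θ < |B Y x - B Y z|}.Finite

/-- The group `Γ` acts on points and axes, compatibly with the projections (up to shifts). -/
structure Eqv (Γ : Type) {V I : Type} [Group Γ] [MulAction Γ V] [MulAction Γ I]
    (own : V → I) (b : I → V → ℤ) : Prop where
  own_smul : ∀ (g : Γ) v, own (g • v) = g • own v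
  b_smul : ∀ (g : Γ) Y, ∃ c : ℤ, ∀ x, b (g • Y) (g • x) = b Y x + c

section
variable {V I : Type}

/-- `x` is behind the axis `W`, seen from the axis `Y` -/
def Beh (own : V → I) (b : I → V → ℤ) (τ : ℤ) (Y W : I) (x : V) : Prop :=
  own x = W ∨ ∃ y, own y = Y ∧ τ < |b W x - b W y|

/-- `x`, `x'` are behind a common axis, seen from `Y` -/
def RY (own : V → I) (b : I → V → ℤ) (τ : ℤ) (Y : I) (x x' : V) : Prop :=
  ∃ W, W ≠ Y ∧ Beh own b τ Y W x ∧ Beh own b τ Y W x'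

/-- the corrected projection: the minimum over the classes of the equivalence relation generated
by `RY` -/
def BB (own : V → I) (b : I → V → ℤ) (τ : ℤ) (Y : I) (x : V) : ℤ :=
  sInf {z | ∃ x', Relation.ReflTransGen (RY own b τ Y) x x' ∧ b Y x' = z}

/-- the depth of `x` behind `W`, seen from `Y` -/
def vv (pt : I → V) (b : I → V → ℤ) (Y W : I) (x : V) : ℤ := |b W x - b W (pt Y)|

/-- the axes at which the projections of `x`, `z` are at distance at least `K` -/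
def YK (B : I → V → ℤ) (K : ℤ) (x z : V) : Set I := {Y | K ≤ |B Y x - B Y z|}

/-- their number -/
def NK (B : I → V → ℤ) (K : ℤ) (x z : V) : ℕ := (YK B K x z).ncard

/-- `Y` comes before `W` on the way from `x` to `z` -/
def Bef (pt : I → V) (B : I → V → ℤ) (x z : V) (Y W : I) : Prop :=
  B W x = B W (pt Y) ∧ B Y z = B Y (pt W)

/-- the number of the elements of `YK x z` before `Y` -/
def pos (pt : I → V) (B : I → V → ℤ) (K : ℤ) (x z : V) (Y : I) : ℕ :=
  {W | W ∈ YK B K x z ∧ Bef pt B x z W Y}.ncard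

/-- the common initial part of the ways from `w` to `x` and to `y` -/
def SK (B : I → V → ℤ) (K : ℤ) (w x y : V) : Set I := {Y | K ≤ |B Y w - B Y x| ∧ B Y x = B Y y}

end

/-! ### the injective hull -/

section
variable (V : Type) [MetricSpace V]

/-- the functions with `dist x y ≤ f x + f y` -/
def Del : Set (V → ℝ) := {f | ∀ x y, dist x y ≤ f x + f y}

/-- the extremal functions -/
def IsExt (f : V → ℝ) : Prop := f ∈ Del V ∧ ∀ x, ∀ ε : ℝ, 0 < ε → ∃ y, f x + f y ≤ dist x y + ε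

/-- the injective hull -/
structure Ext : Type where
  toFun : V → ℝ
  prop : IsExt V toFun

end

section
variable {V : Type} [MetricSpace V]

theorem Del.nonneg {f : V → ℝ} (hf : f ∈ Del V) (x : V) : 0 ≤ f x := by
  have h := hf x x
  rw [dist_self] at h
  linarith

theorem Ext.le (f g : Ext V) (x x0 : V) : f.1 x - g.1 x ≤ f.1 x0 + g.1 x0 := by
  by_contra hcon
  push Not at hcon
  obtain ⟨y, hy⟩ := f.2.2 x (((f.1 x - g.1 x) - (f.1 x0 + g.1 x0)) / 2) (by linarith)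
  have h1 := g.2.1 x x0
  have h2 := dist_triangle x x0 y
  have h3 := f.2.1 x0 y
  linarith

theorem Ext.abs_le (f g : Ext V) (x x0 : V) : |f.1 x - g.1 x| ≤ f.1 x0 + g.1 x0 := by
  rw [_root_.abs_le]
  have h1 := Ext.le f g x x0
  have h2 := Ext.le g f x x0
  constructor <;> linarith

theorem Ext.bdd (f g : Ext V) : BddAbove (Set.range fun x => |f.1 x - g.1 x|) := by
  by_cases hV : Nonempty V
  · obtain ⟨x0⟩ := hV
    refine ⟨f.1 x0 + g.1 x0, ?_⟩
    rintro _ ⟨x, rfl⟩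
    exact Ext.abs_le f g x x0
  · rw [not_nonempty_iff] at hV
    rw [Set.range_eq_empty]
    exact bddAbove_empty

instance : Dist (Ext V) := ⟨fun f g => ⨆ x, |f.1 x - g.1 x|⟩

theorem Ext.dist_def (f g : Ext V) : dist f g = ⨆ x, |f.1 x - g.1 x| := rfl

theorem Ext.le_dist (f g : Ext V) (x : V) : |f.1 x - g.1 x| ≤ dist f g :=
  le_ciSup (f := fun x => |f.1 x - g.1 x|) (Ext.bdd f g) x

theorem Ext.dist_le [Nonempty V] (f g : Ext V) (C : ℝ) (h : ∀ x, |f.1 x - g.1 x| ≤ C) :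
    dist f g ≤ C := ciSup_le h

instance [Nonempty V] : MetricSpace (Ext V) where
  dist_self f := by
    rw [Ext.dist_def]
    simp
  dist_comm f g := by
    rw [Ext.dist_def, Ext.dist_def]
    congr 1
    funext x
    exact abs_sub_comm _ _
  dist_triangle f g h := by
    apply Ext.dist_le
    intro x
    have h1 := Ext.le_dist f g x
    have h2 := Ext.le_dist g h x
    calc |f.1 x - h.1 x| ≤ |f.1 x - g.1 x| + |g.1 x - h.1 x| := abs_sub_le _ _ _
      _ ≤ _ := by linarith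
  eq_of_dist_eq_zero := by
    intro f g h
    have h0 : f.1 = g.1 := by
     funext x
     have h1 := Ext.le_dist f g x
     rw [h] at h1
     have h2 := abs_nonneg (f.1 x - g.1 x)
     have h3 : |f.1 x - g.1 x| = 0 := le_antisymm h1 h2
     rw [abs_eq_zero, sub_eq_zero] at h3
     exact h3
    cases f
    cases g
    simp only at h0
    subst h0
    rfl

theorem IsExt_dist (v : V) : IsExt V (fun x => dist v x) := by
  refine ⟨fun x y => ?_, fun x ε hε => ⟨v, ?_⟩⟩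
  · show dist x y ≤ dist v x + dist v y
    rw [dist_comm v x]
    exact dist_triangle x v y
  · show dist v x + dist v v ≤ dist x v + ε
    rw [dist_self, add_zero, dist_comm]
    linarith

/-- the Kuratowski point of `v` -/
def Ext.of (v : V) : Ext V := ⟨fun x => dist v x, IsExt_dist v⟩

end

end Pool.Agent.Work.MP_b2cdcf_full
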