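import Pool.Agent.Work.MP_b2cdcf_wpd.Interface

/-!
# MP_b2cdcf_al, S02759: the shift with a mixed term (definitions)

Conventions of `MP_b2cdcf_wpd`: `(φ * ψ) p = φ (ψ p)`, indices modulo `n`,
`F (X 1) = X 0 + P`, `F (X i) = X (i - 1)` for `i ≠ 1`.
-/

set_option autoImplicit false

open MvPolynomial

noncomputable section

namespace Pool.Agent.Work.MP_b2cdcf_full

open Pool.Agent.Work.MP_b2cdcf_wpd

/-- `a (∑_{j ≠ r} X_j^(h1+h2) + X_u^h1 X_v^h2)` -/
def PP (k : Type) [Field k] (n : ℕ) (a : k) (h1 h2 : ℕ) (r u v : Fin n) :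
    MvPolynomial (Fin n) k :=
  C a * (∑ j ∈ Finset.univ.erase r, X j ^ (h1 + h2) + X u ^ h1 * X v ^ h2)

/-- The numerical hypotheses. -/
structure Par (k : Type) [Field k] (n : ℕ) (a : k) (h1 h2 : ℕ) : Prop where
  n3 : 3 ≤ n
  a0 : a ≠ 0
  hh : h1 = h2 + 1 ∨ h2 = h1 + 1
  l1 : 100 * n ^ 2 ≤ h1
  l2 : 100 * n ^ 2 ≤ h2
  d0 : ((h1 + h2 : ℕ) : k) ≠ 0
  disc : ((h1 + h2 : ℕ) : k) ^ (h1 + h2) + (h1 : k) ^ h1 * (h2 : k) ^ h2 ≠ 0

theorem Par.symm {k : Type} [Field k] {n : ℕ} {a : k} {h1 h2 : ℕ} (h : Par k n a h1 h2) :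
    Par k n (-a) h2 h1 where
  n3 := h.n3
  a0 := neg_ne_zero.2 h.a0
  hh := h.hh.symm
  l1 := h.l2
  l2 := h.l1
  d0 := by rw [add_comm]; exact h.d0
  disc := by rw [add_comm h2 h1, mul_comm]; exact h.disc

theorem Par.h1pos {k : Type} [Field k] {n : ℕ} {a : k} {h1 h2 : ℕ} (h : Par k n a h1 h2) :
    900 ≤ h1 := by
  have h1 := h.l1
  have h2 := h.n3
  nlinarith

theorem Par.h2pos {k : Type} [Field k] {n : ℕ} {a : k} {h1 h2 : ℕ} (h : Par k n a h1 h2) :
    900 ≤ h2 := h.symm.h1pos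

section
variable (k : Type) [Field k] (n : ℕ) [NeZero n]

/-- images of the variables under the shift -/
def fx (a : k) (h1 h2 : ℕ) (i : Fin n) : MvPolynomial (Fin n) k :=
  if i = 1 then X 0 + PP k n a h1 h2 0 (-1) 1 else X (i - 1)

/-- images of the variables under the inverse of the shift -/
def bx (a : k) (h1 h2 : ℕ) (i : Fin n) : MvPolynomial (Fin n) k :=
  if i = 0 then X 1 - PP k n a h1 h2 1 0 (1 + 1) else X (i + 1)

variable {k n}

theorem fin01 (hn : 3 ≤ n) : (0 : Fin n) ≠ 1 := by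
  intro h
  have := congrArg Fin.val h
  rw [Fin.val_zero, Fin.val_one', Nat.mod_eq_of_lt (by omega)] at this
  omega

theorem fin02 (hn : 3 ≤ n) : (1 + 1 : Fin n) ≠ 0 := by
  intro h
  have := congrArg Fin.val h
  rw [Fin.val_add, Fin.val_one', Nat.mod_eq_of_lt (by omega : 1 < n), Fin.val_zero,
    Nat.mod_eq_of_lt (by omega)] at this
  omega

theorem fin12 (hn : 3 ≤ n) : (1 + 1 : Fin n) ≠ 1 := by
  intro h
  exact fin01 hn (by simpa using h.symm)

theorem finm1 (hn : 3 ≤ n) : (-1 : Fin n) ≠ 1 := by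
  intro h
  apply fin02 hn
  rw [neg_eq_iff_add_eq_zero] at h
  exact h

theorem finm0 (hn : 3 ≤ n) : (-1 : Fin n) ≠ 0 := by
  intro h
  exact fin01 hn (neg_eq_zero.1 h).symm

theorem fx_bx (hn : 3 ≤ n) (a : k) (h1 h2 : ℕ) (i : Fin n) :
    aeval (fx k n a h1 h2) (bx k n a h1 h2 i) = X i := by
  unfold bx
  split_ifs with h
  · subst h
    rw [map_sub, PP, map_mul, map_add, map_mul, map_sum, map_pow, map_pow, aeval_X, aeval_X,
      aeval_X, algHom_C]
    have h1' : ∑ j ∈ Finset.univ.erase (1 : Fin n),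
        aeval (fx k n a h1 h2) ((X j : MvPolynomial (Fin n) k) ^ (h1 + h2)) =
        ∑ j ∈ Finset.univ.erase (0 : Fin n), (X j : MvPolynomial (Fin n) k) ^ (h1 + h2) := by
      apply Finset.sum_bij (fun j _ => j - 1)
      · intro j hj
        rw [Finset.mem_erase] at hj ⊢
        exact ⟨sub_ne_zero.2 hj.1, Finset.mem_univ _⟩
      · intro j _ j' _ h
        exact sub_left_injective h
      · intro j hj
        rw [Finset.mem_erase] at hj
        refine ⟨j + 1, ?_, by simp⟩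
        rw [Finset.mem_erase]
        refine ⟨?_, Finset.mem_univ _⟩
        intro h
        exact hj.1 (by simpa using h)
      · intro j hj
        rw [Finset.mem_erase] at hj
        rw [map_pow, aeval_X, fx, if_neg hj.1]
    rw [h1', fx, if_pos rfl, fx, if_neg (fin01 hn), fx, if_neg (fin12 hn), PP, zero_sub,
      add_sub_cancel_right, algebraMap_eq]
    ring
  · have h2 : i + 1 ≠ 1 := by
      intro h3
      exact h (by simpa using h3)
    rw [aeval_X, fx, if_neg h2, add_sub_cancel_right]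

theorem bx_fx (hn : 3 ≤ n) (a : k) (h1 h2 : ℕ) (i : Fin n) :
    aeval (bx k n a h1 h2) (fx k n a h1 h2 i) = X i := by
  unfold fx
  split_ifs with h
  · subst h
    rw [map_add, PP, map_mul, map_add, map_mul, map_sum, map_pow, map_pow, aeval_X, aeval_X,
      aeval_X, algHom_C]
    have h1' : ∑ j ∈ Finset.univ.erase (0 : Fin n),
        aeval (bx k n a h1 h2) ((X j : MvPolynomial (Fin n) k) ^ (h1 + h2)) =
        ∑ j ∈ Finset.univ.erase (1 : Fin n), (X j : MvPolynomial (Fin n) k) ^ (h1 + h2) := by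
      apply Finset.sum_bij (fun j _ => j + 1)
      · intro j hj
        rw [Finset.mem_erase] at hj ⊢
        refine ⟨?_, Finset.mem_univ _⟩
        intro h
        exact hj.1 (by simpa using h)
      · intro j _ j' _ h
        exact add_left_injective _ h
      · intro j hj
        rw [Finset.mem_erase] at hj
        refine ⟨j - 1, ?_, by simp⟩
        rw [Finset.mem_erase]
        exact ⟨sub_ne_zero.2 hj.1, Finset.mem_univ _⟩
      · intro j hj
        rw [Finset.mem_erase] at hj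
        rw [map_pow, aeval_X, bx, if_neg hj.1]
    rw [h1', bx, if_pos rfl, bx, if_neg (finm0 hn), bx, if_neg (fin01 hn).symm, PP,
      neg_add_cancel, algebraMap_eq]
    ring
  · have h2 : i - 1 ≠ 0 := sub_ne_zero.2 h
    rw [aeval_X, bx, if_neg h2, sub_add_cancel]

variable (k n)

/-- the shift `F = F(a, h1, h2)` -/
def FX (hn : 3 ≤ n) (a : k) (h1 h2 : ℕ) : AutP k n :=
  AlgEquiv.ofAlgHom (aeval (fx k n a h1 h2)) (aeval (bx k n a h1 h2))
    (algHom_ext fun i => by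
      rw [AlgHom.comp_apply, aeval_X]
      exact fx_bx hn a h1 h2 i)
    (algHom_ext fun i => by
      rw [AlgHom.comp_apply, aeval_X]
      exact bx_fx hn a h1 h2 i)

variable {k n}

theorem FX_X (hn : 3 ≤ n) (a : k) (h1 h2 : ℕ) (i : Fin n) :
    FX k n hn a h1 h2 (X i) = fx k n a h1 h2 i := aeval_X _ _

theorem FX_inv_X (hn : 3 ≤ n) (a : k) (h1 h2 : ℕ) (i : Fin n) :
    (FX k n hn a h1 h2)⁻¹ (X i) = bx k n a h1 h2 i := aeval_X _ _

theorem FX_one (hn : 3 ≤ n) (a : k) (h1 h2 : ℕ) :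
    FX k n hn a h1 h2 (X 1) = X 0 + PP k n a h1 h2 0 (-1) 1 := by
  rw [FX_X, fx, if_pos rfl]

theorem FX_ne (hn : 3 ≤ n) (a : k) (h1 h2 : ℕ) {i : Fin n} (hi : i ≠ 1) :
    FX k n hn a h1 h2 (X i) = X (i - 1) := by
  rw [FX_X, fx, if_neg hi]

theorem FX_inv_zero (hn : 3 ≤ n) (a : k) (h1 h2 : ℕ) :
    (FX k n hn a h1 h2)⁻¹ (X 0) = X 1 - PP k n a h1 h2 1 0 (1 + 1) := by
  rw [FX_inv_X, bx, if_pos rfl]

theorem FX_inv_ne (hn : 3 ≤ n) (a : k) (h1 h2 : ℕ) {i : Fin n} (hi : i ≠ 0) :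
    (FX k n hn a h1 h2)⁻¹ (X i) = X (i + 1) := by
  rw [FX_inv_X, bx, if_neg hi]

variable (k n)

/-- the reversal of the variables, `X i ↦ X (1 - i)` -/
def rev : AutP k n := renameEquiv k (Equiv.subLeft (1 : Fin n))

variable {k n}

theorem rev_X (i : Fin n) : rev k n (X i) = X (1 - i) := by
  rw [rev, renameEquiv_apply, rename_X, Equiv.subLeft_apply]

/-- The stabiliser of the axis: generated by `F` and the homotheties of order dividing `d - 1`. -/
def EX (F : AutP k n) (d : ℕ) : Subgroup (AutP k n) :=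
  Subgroup.closure ({F} ∪ {μ | ∃ ζ : k, ζ ^ (d - 1) = 1 ∧ ∀ i, μ (X i) = C ζ * X i})

/-- the elementary substitution `X 1 ↦ X 1 + Q`, the other variables fixed -/
def el (Q : MvPolynomial (Fin n) k) : MvPolynomial (Fin n) k →ₐ[k] MvPolynomial (Fin n) k :=
  aeval fun i => if i = 1 then X 1 + Q else X i

/-- near extremal in the direction `q`: `5 (totalDegree - degreeOf q) ≤ degreeOf q` -/
def NE (q : Fin n) (V : MvPolynomial (Fin n) k) : Prop := 5 * V.totalDegree ≤ 6 * degreeOf q V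

/-- `bt x` is the position of the projection of `x` to the axis `F^m`: the least `m` such that
`X 0` does not dominate in `x⁻¹ F^m` -/
def IsBt (c : ℕ) (F x : AutP k n) (b : ℤ) : Prop :=
  (∀ m : ℤ, m < b → Dom c 0 (x⁻¹ * F ^ m)) ∧ (∀ m : ℤ, b < m → Dom c 1 (x⁻¹ * F ^ m)) ∧
    ¬ Dom c 0 (x⁻¹ * F ^ b)

end

end Pool.Agent.Work.MP_b2cdcf_full
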