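import Pool.Agent.Work.MP_b2cdcf_full.B_A1
import Pool.Agent.Work.MP_b2cdcf_full.B_A2
import Pool.Agent.Work.MP_b2cdcf_full.B_ACY
import Pool.Agent.Work.MP_b2cdcf_full.B_CLS
import Pool.Agent.Work.MP_b2cdcf_full.B_CMPB
import Pool.Agent.Work.MP_b2cdcf_full.B_CONC
import Pool.Agent.Work.MP_b2cdcf_full.B_CONV
import Pool.Agent.Work.MP_b2cdcf_full.B_DEN
import Pool.Agent.Work.MP_b2cdcf_full.B_EQB
import Pool.Agent.Work.MP_b2cdcf_full.B_FE
import Pool.Agent.Work.MP_b2cdcf_full.B_FIN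
import Pool.Agent.Work.MP_b2cdcf_full.B_FOUR
import Pool.Agent.Work.MP_b2cdcf_full.B_FT
import Pool.Agent.Work.MP_b2cdcf_full.B_GEOD
import Pool.Agent.Work.MP_b2cdcf_full.B_GP
import Pool.Agent.Work.MP_b2cdcf_full.B_H1
import Pool.Agent.Work.MP_b2cdcf_full.B_HULL
import Pool.Agent.Work.MP_b2cdcf_full.B_HYP
import Pool.Agent.Work.MP_b2cdcf_full.B_LEMT
import Pool.Agent.Work.MP_b2cdcf_full.B_LGR
import Pool.Agent.Work.MP_b2cdcf_full.B_MET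
import Pool.Agent.Work.MP_b2cdcf_full.B_MIDX
import Pool.Agent.Work.MP_b2cdcf_full.B_NEG
import Pool.Agent.Work.MP_b2cdcf_full.B_NEST
import Pool.Agent.Work.MP_b2cdcf_full.B_NVC
import Pool.Agent.Work.MP_b2cdcf_full.B_ORD
import Pool.Agent.Work.MP_b2cdcf_full.B_POS
import Pool.Agent.Work.MP_b2cdcf_full.B_PS
import Pool.Agent.Work.MP_b2cdcf_full.B_RET
import Pool.Agent.Work.MP_b2cdcf_full.B_RGR
import Pool.Agent.Work.MP_b2cdcf_full.B_SPL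
import Pool.Agent.Work.MP_b2cdcf_full.B_STAB
import Pool.Agent.Work.MP_b2cdcf_full.B_STR
import Pool.Agent.Work.MP_b2cdcf_full.B_TTT
import Pool.Agent.Work.MP_b2cdcf_full.B_UNB
import Pool.Agent.Work.MP_b2cdcf_full.B_VCMP

/-! # MP_b2cdcf_al, S02759: the abstract part together -/

set_option autoImplicit false

noncomputable section

namespace Pool.Agent.Work.MP_b2cdcf_full

theorem t_CONV : Stmt_CONV := p_CONV p_NEG p_FE
theorem t_FT : Stmt_FT := p_FT p_RGR p_LGR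
theorem t_H1 : Stmt_H1 := p_H1 t_FT
theorem t_A1 : Stmt_A1 := p_A1 t_H1 stmt_VCMP
theorem t_A2 : Stmt_A2 := p_A2 p_RGR
theorem t_PS : Stmt_PS := p_PS t_A2
theorem t_CLS : Stmt_CLS := p_CLS p_LEMT p_TTT p_CMPB
theorem t_STR : Stmt_STR := p_STR t_CLS
theorem t_EQB : Stmt_EQB := p_EQB t_CLS
theorem t_POS : Stmt_POS := p_POS p_ORD p_FIN
theorem t_MIDX : Stmt_MIDX := p_MIDX p_ORD p_FIN
theorem t_SPL : Stmt_SPL := p_SPL p_ORD p_FIN
theorem t_GP : Stmt_GP := p_GP p_FIN t_SPL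
theorem t_NEST : Stmt_NEST := p_NEST p_ORD p_FIN
theorem t_HYP : Stmt_HYP := p_HYP t_GP t_NEST p_FIN
theorem t_ACY : Stmt_ACY := p_ACY p_FIN t_POS t_MIDX t_GP
theorem t_UNB : Stmt_UNB := p_UNB p_FIN
theorem t_GEOD : Stmt_GEOD := p_GEOD p_RET
theorem t_HULL : Stmt_HULL := p_HULL t_GEOD p_FOUR p_DEN
theorem t_MET : Stmt_MET := p_MET p_FIN t_POS t_GP t_HYP t_ACY t_UNB
theorem t_CONC : Stmt_CONC := p_CONC t_A1 p_STAB t_PS t_STR t_EQB t_MET t_HULL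

end Pool.Agent.Work.MP_b2cdcf_full
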