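import Pool.Agent.Work.MP_b2cdcf_full.DefsA

/-!
# MP_b2cdcf_al, S02759: the abstract blocks (statements; the docstrings are complete proofs)

File `B_X.lean` (import this file), namespace `Pool.Agent.Work.MP_b2cdcf_full`, helper lemmas prefixed
`X_`, final theorem `p_X (h1 : Stmt_Y) ... : Stmt_X` (the used blocks in the order of the column uses).
-/

set_option autoImplicit false

noncomputable section

namespace Pool.Agent.Work.MP_b2cdcf_full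

/-! ## 1. Integer sequences -/

/-- NEG (50 lines). Put `P m = 2 * b m - a m`. From e1, e2:
`(d-1) * P (m-1) ≥ 2 d (d b - a) - (d-1) a - (d-1)^2 b = (d-1) d P m + (d^2 - 4 d + 1)(a - b)`
(`a = a m`, `b = b m`), so `P (m-1) ≥ d * P m`, and by induction `P (m-s) ≥ d^s * P m`. If `5 a ≤ 6 b`
then `3 P m ≥ 2 a`, and `a (m-s) ≥ b (m-s) ≥ P (m-s)`: this is the second claim. First claim:
`(d-1) (6 b (m-1) - 5 a (m-1)) ≥ 6 d (d b - a) - 5 (d-1)(a + (d-1) b) = (d^2 + 10 d - 5) b - (11 d - 5) a`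
and `5 a ≤ 6 b`, so `5 * this ≥ (5 d^2 - 16 d + 5) b ≥ 0`. -/
def Stmt_NEG : Prop := ∀ (d : ℤ) (a b : ℤ → ℤ), 9 ≤ d → LHalf d a b → ∀ m : ℤ, 5 * a m ≤ 6 * b m →
  5 * a (m - 1) ≤ 6 * b (m - 1) ∧ ∀ s : ℕ, 2 * d ^ s * a m ≤ 3 * a (m - s)

/-- FE (40 lines). `a = a m ≤ (d+1) b / 4`, `b = b m`. e1: `4 (d-1) b (m-1) ≥ 4 d (d b - a) ≥ d (3 d - 1) b`;
e2: `4 a (m-1) ≤ 4 a + 4 (d-1) b ≤ (5 d - 3) b`. As in NEG with `m-1` for `m`:
`(d-1) (6 b (m-2) - 5 a (m-2)) ≥ (d^2 + 10 d - 5) b (m-1) - (11 d - 5) a (m-1)`; multiplied by `4 (d-1)`: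
`≥ ((d^2 + 10 d - 5) d (3 d - 1) - (d-1)(11 d - 5)(5 d - 3)) b ≥ 0` for `d ≥ 1000`. -/
def Stmt_FE : Prop := ∀ (d : ℤ) (a b : ℤ → ℤ), 1000 ≤ d → LHalf d a b → ∀ m : ℤ,
  4 * a m ≤ (d + 1) * b m → 5 * a (m - 2) ≤ 6 * b (m - 2)

/-- CONV (120 lines, uses NEG, FE). Let `a = a m ≥ 1`. If `4 a ≤ (d+1) b (m+1)`: FE for the mirrored
sequences at `-m` gives the first alternative. Otherwise let `i < n` be the first index with
`a ≤ 8 n^2 d b (m-i)`; it exists, since otherwise `n d ∑ b (m-i) < a`. For `i' < i`: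
`8 n^2 d b (m-i') < a`. By e2 `a (m-i) ≤ a + (d-1) ∑_{i' < i} b (m-i')`, so `8 a (m-i) ≤ 9 a`
(multiply by `8 n^2 d`). Let `b = b (m-i)`, `b' = b (m-i+1)`. In both cases `i = 0`, `i ≥ 1` we have
`(d+1) b' ≤ 4 a` (for `i ≥ 1` because `8 n^2 d b' < a`). By e3 `b (m-i-1) ≥ h b - b'`, so
`(d+1) b (m-i-1) ≥ (d+1) h b - 4 a`, by e2 `4 a (m-i-1) ≤ 4 a (m-i) + 4 (d-1) b ≤ 9 a / 2 + 4 (d-1) b`, and
`17 a / 2 + 4 (d-1) b ≤ 68 n^2 d b + 4 d b ≤ (d+1) h b` as `h ≥ 100 n^2`. So FE applies at `m-i-1`: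
`5 a (m-i-3) ≤ 6 b (m-i-3)`; NEG downwards to `m-n-2 ≤ m-i-3`. -/
def Stmt_CONV : Prop := ∀ (n : ℕ) (h d : ℤ) (a b : ℤ → ℤ), 3 ≤ n → 100 * (n : ℤ) ^ 2 ≤ h →
  d = 2 * h + 1 → LHalf d a b → LHalf d (fun m => a (-m)) (fun m => b (1 - m)) →
  (∀ m, h * b m ≤ b (m - 1) + b (m + 1)) →
  (∀ m, a m ≤ n * d * ∑ i ∈ Finset.range n, b (m - i)) →
  ∀ m, 5 * a (m + 2) ≤ 6 * b (m + 3) ∨ 5 * a (m - n - 2) ≤ 6 * b (m - n - 2)

/-! ## 2. The group with its axis -/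

/-- RGR (60 lines). (1), (2): iterate `up` from `bt x + 1`, `down` from `bt x - 1`, and `M ≥ 1`.
(3): if `bt x < i` then `M (x⁻¹ F^(i+l)) = d^l M (x⁻¹ F^i)`; if `bt x = i` and `l ≥ 1`:
`M (x⁻¹ F^(i+l)) = d^(l-1) M (x⁻¹ F^(i+1)) ≥ d^(l-1) M (x⁻¹ F^i)` by `mid`. -/
def Stmt_RGR : Prop := ∀ (Γ : Type) [Group Γ] (M : Γ → ℕ) (F : Γ) (E : Subgroup Γ) (bt : Γ → ℤ)
  (d κ : ℕ), Geo Γ M F E bt d κ → ∀ x : Γ,
    (∀ (m : ℤ) (l : ℕ), bt x + 1 + l ≤ m → d ^ l ≤ M (x⁻¹ * F ^ m)) ∧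
    (∀ (m : ℤ) (l : ℕ), m + 1 + l ≤ bt x → d ^ l ≤ M (x⁻¹ * F ^ m)) ∧
    (∀ (i : ℤ) (l : ℕ), bt x ≤ i → d ^ l * M (x⁻¹ * F ^ i) ≤ d * M (x⁻¹ * F ^ (i + l)))

/-- LGR (60 lines). Let `j' = min (i + l) (bt u - κ)`. If `i ≤ j'`: `lup` with `m = j'`, `s = j' - i`:
`2 d^(j'-i) M (F^(-j') u) ≤ 3 M (F^(-i) u)`, and `M (F^(-(i+l)) u) ≤ M (F^(j'-(i+l))) M (F^(-j') u)`
`= d^(i+l-j') M (F^(-j') u)` with `i + l - j' ≤ κ`; so `2 d^l M (F^(-(i+l)) u) ≤`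
`2 d^(j'-i) d^(2(i+l-j')) M (F^(-j') u) ≤ 3 d^(2κ) M (F^(-i) u)`. If `j' < i` then `l < κ` and
`M (F^(-(i+l)) u) ≤ d^l M (F^(-i) u)`. -/
def Stmt_LGR : Prop := ∀ (Γ : Type) [Group Γ] (M : Γ → ℕ) (F : Γ) (E : Subgroup Γ) (bt : Γ → ℤ)
  (d κ : ℕ), Geo Γ M F E bt d κ → ∀ (u : Γ) (i : ℤ) (l : ℕ), i + l ≤ bt u →
    2 * d ^ l * M (F ^ (-(i + l)) * u) ≤ 3 * d ^ (2 * κ) * M (F ^ (-i) * u)

/-- FT (60 lines, uses RGR, LGR). Let `j = i + l`, `β = bt u`. If `β ≤ i`: `t = i`: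
`d^l M (u⁻¹ F^i) M (F^(-i) u) ≤ d M (u⁻¹ F^j) M (F^(-i) u) ≤ 2 d d^l` (RGR 3). If `β ≥ j`: `t = j`:
`2 d^l M (F^(-j) u) M (u⁻¹ F^j) ≤ 3 d^(2κ) * 2 d^l` (LGR). If `i < β < j`: `t = β`: LGR from `i` to `β`, RGR 3
from `β` to `j`: `2 d^(β-i) M (F^(-β) u) d^(j-β) M (u⁻¹ F^β) ≤ 3 d^(2κ) d * 2 d^l`. In all cases the
product is at most `3 d^(2κ+1) ≤ d^(2κ+2)`. -/
def Stmt_FT : Prop := ∀ (Γ : Type) [Group Γ] (M : Γ → ℕ) (F : Γ) (E : Subgroup Γ) (bt : Γ → ℤ)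
  (d κ : ℕ), Geo Γ M F E bt d κ → ∀ (u : Γ) (i : ℤ) (l : ℕ),
    M (F ^ (-i) * u) * M (u⁻¹ * F ^ (i + l)) ≤ 2 * d ^ l →
    ∃ t : ℤ, i ≤ t ∧ t ≤ i + l ∧ M (F ^ (-t) * u) * M (u⁻¹ * F ^ t) ≤ d ^ (2 * κ + 2)

/-- H1 (150 lines, uses FT). Let `B = d^(6κ+6)`, `M0` = the maximum of the two bounds of rig1, rig2 for
`B`, `D1 = M0 + κ + 1`. Let `g ∉ E`, `x1 = g F^i`, `x2 = g F^j`, without restriction `i ≤ j`
(the claim is symmetric), and suppose `|bt x1 - bt x2| > D1`. If `bt x1 < bt x2` let `ma = bt x1 + 1`,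
otherwise `ma = bt x2 + κ`; `mb = ma + M0`. By mulr (resp. mull), for `m = ma` and `m = mb`:
`M (x1⁻¹ F^m) M (F^(-m) x2) ≤ 2 M (x1⁻¹ x2) = 2 d^(j-i)`. With `u = g⁻¹ F^m` this is
`M (F^(-i) u) M (u⁻¹ F^j) ≤ 2 d^(j-i)`. FT gives `ta`, `tb` such that for `A = F^(-ma) g F^ta`,
`B' = F^(-mb) g F^tb`: `M A⁻¹ * M A ≤ d^(2κ+2)`, the same for `B'`; so `M A`, `M A⁻¹`, `M B'`, `M B'⁻¹` are
`≤ d^(2κ+2)`. `B' = F^(-M0) A F^s`, `s = tb - ta`. From `F^s = A⁻¹ F^M0 B'` and `F^M0 = A F^s B'⁻¹` and Mpow: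
`| |s| - M0 | ≤ 4κ+4`. If `s ≥ 0`, `s = M0 + r`: `ψ = F^(-M0) A F^M0 = B' F^(-r)`, `M ψ, M ψ⁻¹ ≤ d^(6κ+6)`,
`A = F^M0 ψ F^(-M0)`: rig1 gives `ψ ∈ E`, hence `A ∈ E` and `g ∈ E`. If `s < 0`, `s = -M0 + r`:
`ψ = F^(-M0) A F^(-M0) = B' F^(-r)`, `A = F^M0 ψ F^M0`: contradiction to rig2. -/
def Stmt_H1 : Prop := ∀ (Γ : Type) [Group Γ] (M : Γ → ℕ) (F : Γ) (E : Subgroup Γ) (bt : Γ → ℤ)
  (d κ : ℕ), Geo Γ M F E bt d κ → ∃ D1 : ℤ, 0 ≤ D1 ∧ ∀ g, g ∉ E → ∀ i j : ℤ,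
    |bt (g * F ^ i) - bt (g * F ^ j)| ≤ D1

/-- VCMP (30 lines). If `β2 ≥ β1 + 3`, `t = β1 + 1`: `f1 (t+1) = d f1 t`, `f2 t = d f2 (t+1)`, so
`d^2 f1 t = d f1 (t+1) ≤ d c f2 (t+1) = c f2 t ≤ 2 f1 t`, impossible. If `β1 ≥ β2 + 3`, `t = β2 + 1`:
`2 f1 t = 2 d f1 (t+1) ≥ d c f2 (t+1) = d^2 c f2 t ≥ d^2 f1 t`, impossible. -/
def Stmt_VCMP : Prop := ∀ (d c : ℕ) (f1 f2 : ℤ → ℕ) (β1 β2 : ℤ), 2 ≤ d → (∀ t, 1 ≤ f1 t) →
  (∀ t, β1 < t → f1 (t + 1) = d * f1 t) → (∀ t, t < β1 → f1 (t - 1) = d * f1 t) →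
  (∀ t, β2 < t → f2 (t + 1) = d * f2 t) → (∀ t, t < β2 → f2 (t - 1) = d * f2 t) →
  (∀ t, f1 t ≤ c * f2 t) → (∀ t, c * f2 t ≤ 2 * f1 t) → |β1 - β2| ≤ 2

/-- A1 (100 lines, uses H1, VCMP). `θ = D1 + κ + 3`. Second claim: `bt (g e) = bt (g F^b)` (Eact), H1 with
`i = b`, `j = 0`. Third claim: suppose `bt x > bt g + θ`, put `m = bt g + D1 + κ`; for every `t`
`bt (g F^t) + κ ≤ m < bt x` (H1), so by mull and Mmul, with `c = M (x⁻¹ F^m)`,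
`f1 t = M (x⁻¹ g F^t) = M ((g⁻¹ x)⁻¹ F^t)`, `f2 t = M (F^(-m) g F^t) = M ((g⁻¹ F^m)⁻¹ F^t)`:
`c f2 t ≤ 2 f1 t`, `f1 t ≤ c f2 t`. VCMP with `β1 = bt (g⁻¹ x)`, `β2 = bt (g⁻¹ F^m)` (up, down):
`|β1 - β2| ≤ 2`; `|bt (g⁻¹ F^m) - bt g⁻¹| ≤ D1` by H1 for `g⁻¹ ∉ E`. If `bt x < bt g - θ`: the same with
`m = bt g - D1 - κ` and mulr. -/
def Stmt_A1 : Prop := ∀ (Γ : Type) [Group Γ] (M : Γ → ℕ) (F : Γ) (E : Subgroup Γ) (bt : Γ → ℤ)
  (d κ : ℕ), Geo Γ M F E bt d κ → ∃ θ : ℤ, (κ : ℤ) + 2 ≤ θ ∧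
    (∀ g, g ∉ E → ∀ e ∈ E, |bt (g * e) - bt g| ≤ θ) ∧
    (∀ g, g ∉ E → ∀ x, |bt x - bt g| ≤ θ ∨ |bt (g⁻¹ * x) - bt g⁻¹| ≤ θ)

/-- A2 (200 lines, uses RGR). For `u : Γ` (an axis `u E`) write `b_u x = bt (u⁻¹ x)`. Let `S` be a finite set
of elements in different cosets of `E`, with `|b_u x0 - b_u z| > 10 θ` for `u ∈ S`. Claim: if
`|b_u y - b_u x0| ≤ 2 θ` for all `u ∈ S` then `d^|S| ≤ M (y⁻¹ z)`. (Then `|S| ≤ d^|S| ≤ M (x0⁻¹ z)`, so the set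
of cosets is finite: `Set.Finite` from a bound on the cardinality of finite subsets.)
Order on `S`: `u < v` iff `|b_v x0 - b_v u| ≤ θ` (`u ≠ v`). By (hA) for `g = u⁻¹ v ∉ E` and the point `u⁻¹ x`:
(B) `|b_u x - b_u v| ≤ θ` or `|b_v x - b_v u| ≤ θ`, for all `x`. So `u < v` or `v < u`. Transitive: let
`u < v`, `v < w`, `u ≠ w`. `|b_w x0 - b_w v| ≤ θ`, so `|b_w z - b_w v| > θ`, so by (B) `|b_v z - b_v w| ≤ θ`;
with `|b_v x0 - b_v u| ≤ θ`: `|b_v u - b_v w| > θ`, so by (B) for the point `u` and the pair `v, w`: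
`|b_w u - b_w v| ≤ θ`, hence `|b_w u - b_w x0| ≤ 2 θ`. If not `u < w` then `w < u`: `|b_u x0 - b_u w| ≤ θ`, so
`|b_u z - b_u w| > θ`, so `|b_w z - b_w u| ≤ θ` and `|b_w z - b_w x0| ≤ 3 θ`, a contradiction. So a
nonempty `S` has an element `u` with `u < v` for all other `v ∈ S` (induction on `S`).
Induction step of the claim: `u` this element, `bu = b_u y`, `bz = b_u z`, `|bu - bz| > 8 θ ≥ 8 (κ + 2)`. If
`bu < bz` let `m = bz - κ`, otherwise `m = bz + κ`; `y1 = u F^m`. mulr, mull for `u⁻¹ y`, `u⁻¹ z`: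
`M (y⁻¹ y1) M (y1⁻¹ z) ≤ 2 M (y⁻¹ z)`, and `M (y⁻¹ y1) ≥ d^2 ≥ 2 d` by RGR. So
`d M (y1⁻¹ z) ≤ M (y⁻¹ z)`. For `v ∈ S \ {u}`: `|b_v x0 - b_v u| ≤ θ` and `|b_v y1 - b_v u| ≤ θ` (hE for
`g = v⁻¹ u`, `e = F^m ∈ E`), so `|b_v y1 - b_v x0| ≤ 2 θ`: induction. -/
def Stmt_A2 : Prop := ∀ (Γ : Type) [Group Γ] (M : Γ → ℕ) (F : Γ) (E : Subgroup Γ) (bt : Γ → ℤ)
  (d κ : ℕ) (θ : ℤ), Geo Γ M F E bt d κ → (κ : ℤ) + 2 ≤ θ →
    (∀ g, g ∉ E → ∀ e ∈ E, |bt (g * e) - bt g| ≤ θ) →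
    (∀ g, g ∉ E → ∀ x, |bt x - bt g| ≤ θ ∨ |bt (g⁻¹ * x) - bt g⁻¹| ≤ θ) →
    ∀ x z : Γ, {Y : Γ ⧸ E | 10 * θ < |bt (Y.out⁻¹ * x) - bt (Y.out⁻¹ * z)|}.Finite

/-- STAB (60 lines). Let `u = Y.out`, `v = W.out`, `w = u⁻¹ v ∉ E`, `g • Y = Y`, `g • W = W`,
`e = u⁻¹ g u ∈ E` (`QuotientGroup.eq`), `w⁻¹ e w ∈ E`. By Eact `bt (e x) = bt x + b` for all `x`, so
`bt (e^m w) = bt w + m b`, and `e^m w = w (w⁻¹ e^m w)` with `w⁻¹ e^m w ∈ E`, so `|m b| ≤ θ` for all `m : ℕ`;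
hence `b = 0`. So `g ∈ u Efin u⁻¹` (`Set.ncard_image_le`, `Set.Finite.subset`); `Cs` = the ncard of the
set Efin. -/
def Stmt_STAB : Prop := ∀ (Γ : Type) [Group Γ] (M : Γ → ℕ) (F : Γ) (E : Subgroup Γ) (bt : Γ → ℤ)
  (d κ : ℕ) (θ : ℤ), Geo Γ M F E bt d κ →
    (∀ g, g ∉ E → ∀ e ∈ E, |bt (g * e) - bt g| ≤ θ) →
    ∃ Cs : ℕ, ∀ Y W : Γ ⧸ E, Y ≠ W → {g : Γ | g • Y = Y ∧ g • W = W}.Finite ∧
      {g : Γ | g • Y = Y ∧ g • W = W}.ncard ≤ Cs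

/-- PS (80 lines, uses A2). `own_pt`: `Quotient.out_eq'` (`QuotientGroup.out_eq'`). p1: `v = v' e`,
`v' = (own v).out`, `e ∈ E`, `Y.out⁻¹ v' ∉ E`: hE. p2: hA with `g = Y.out⁻¹ W.out`, at the point `Y.out⁻¹ x`.
p3: A2. b_smul: `(g • Y).out = g * Y.out * e` with `e ∈ E`, so
`(g • Y).out⁻¹ (g x) = e⁻¹ (Y.out⁻¹ x)`; Eact for `e⁻¹`. -/
def Stmt_PS : Prop := ∀ (Γ : Type) [Group Γ] (M : Γ → ℕ) (F : Γ) (E : Subgroup Γ) (bt : Γ → ℤ)
  (d κ : ℕ) (θ : ℤ), Geo Γ M F E bt d κ → (κ : ℤ) + 2 ≤ θ →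
    (∀ g, g ∉ E → ∀ e ∈ E, |bt (g * e) - bt g| ≤ θ) →
    (∀ g, g ∉ E → ∀ x, |bt x - bt g| ≤ θ ∨ |bt (g⁻¹ * x) - bt g⁻¹| ≤ θ) →
    PSys (V := Γ) (I := Γ ⧸ E) (fun x => (x : Γ ⧸ E)) (fun Y => Y.out)
      (fun Y x => bt (Y.out⁻¹ * x)) (10 * θ) ∧
    Eqv Γ (V := Γ) (I := Γ ⧸ E) (fun x => (x : Γ ⧸ E)) (fun Y x => bt (Y.out⁻¹ * x))

/-! ## 3. From weak to strong projection systems -/

/-- LEMT (120 lines), pure. Strong induction on the length of `l`. For one element: `v`-condition with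
`Z = W`. Let `l = W0 :: l'`, `l' ≠ []`, and let `W` be given for `l'`. Split `l' = l1 ++ W :: l2` with `W ∉ l1`
(`List.eq_append_cons_of_mem`).
(a) `W0 = W`: take `W`. (b) `l1 = []`: `W0`, `W` are adjacent: if `8 θ < v W W0` take `W`; if
`8 θ < v W0 W` take `W0`: for `Z ∈ l'`, `Z ≠ W`, `6 θ < v W Z`, T2 with `s = 8 θ` gives `7 θ < v W0 Z`.
(c) `l1 ≠ []`, `W0 ≠ W`. Let `WL` be the last element of `l1`, adjacent to `W`, `WL ≠ W`, so `6 θ < v W WL`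
and by T1 not `8 θ < v WL W`, hence `8 θ < v W WL`. Let `U` be given by induction for `W0 :: l1`.
(c1) `U ∈ l1`: then `6 θ < v W U`. If `U = WL`: `8 θ < v W U`. If `U ≠ WL`: `6 θ < v U WL`, T3 for `W, U` and
`WL`: `7 θ < v W U` or `5 θ < v U W`, the second contradicts T1. So `7 θ < v W U`. `W0 = U` or
`6 θ < v U W0`, then T2 gives `6 θ < v W W0`: take `W`.
(c2) `U = W0`, `W0 ∉ l1`: `6 θ < v W0 Z` for all `Z ∈ l1`. Let `W1` be the first element of `l1`, adjacent to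
`W0`: by T1 `8 θ < v W0 W1`; also `6 θ < v W W1`. T3 for `W0, W` and `W1`: `7 θ < v W0 W` or
`5 θ < v W W0`. If `7 θ < v W0 W`: take `W0` (T2 with `s = 7 θ`). If `5 θ < v W W0`: T3 for `W, W0` and `WL`
(`8 θ < v W WL`, `6 θ < v W0 WL`): `7 θ < v W W0`, or `5 θ < v W0 W`, which contradicts T1. Take `W`. -/
def Stmt_LEMT : Prop := ∀ (I : Type) (v : I → I → ℤ) (θ : ℤ), 1 ≤ θ →
  (∀ W W', W ≠ W' → θ < v W W' → v W' W ≤ θ) →
  (∀ W W' Z (s : ℤ), W ≠ W' → θ ≤ s → s < v W W' → 2 * θ < v W' Z → s - θ < v W Z) →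
  (∀ W W' Z (s s' : ℤ), W ≠ W' → s < v W Z → s' < v W' Z → s - θ < v W W' ∨ s' - θ < v W' W) →
  ∀ l : List I, l ≠ [] →
    l.IsChain (fun W W' => W = W' ∨ 8 * θ < v W W' ∨ 8 * θ < v W' W) →
    ∃ W ∈ l, ∀ Z ∈ l, Z = W ∨ 6 * θ < v W Z

/-- TTT (60 lines), `v W Z = vv pt b Y W (pt Z) = |b W (pt Z) - b W (pt Y)|`. T1: p2 for `W, W'` and the
point `pt Y`. T2: by T1 `v W' W ≤ θ`, so `|b W' (pt Z) - b W' (pt W)| > θ`, p2 for `W', W` and `pt Z`: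
`|b W (pt Z) - b W (pt W')| ≤ θ`. T3: p2 for `W, W'` and `pt Z`. -/
def Stmt_TTT : Prop := ∀ (V I : Type) (own : V → I) (pt : I → V) (b : I → V → ℤ) (θ : ℤ),
  PSys own pt b θ → ∀ Y : I,
  (∀ W W', W ≠ W' → θ < vv pt b Y W (pt W') → vv pt b Y W' (pt W) ≤ θ) ∧
  (∀ W W' Z (s : ℤ), W ≠ W' → θ ≤ s → s < vv pt b Y W (pt W') → 2 * θ < vv pt b Y W' (pt Z) →
    s - θ < vv pt b Y W (pt Z)) ∧
  (∀ W W' Z (s s' : ℤ), W ≠ W' → s < vv pt b Y W (pt Z) → s' < vv pt b Y W' (pt Z) →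
    s - θ < vv pt b Y W (pt W') ∨ s' - θ < vv pt b Y W' (pt W))

/-- CMPB (60 lines). `W, W' ≠ Y`. If `x` is behind `W` then `own x = W` or `9 θ < vv pt b Y W x` (the point `y`
of `Beh` is on `Y ≠ W`, so `|b W y - b W (pt Y)| ≤ θ` by p1). (1) If `own x = W`: p1. Otherwise p2 for `Y, W`
and `x`. (2) If `own x = W ≠ W'`: `9 θ < vv pt b Y W' x` and `|b W' x - b W' (pt W)| ≤ θ` (p1). The same if
`own x = W'`. Otherwise p2 for `W, W'` and `x`: `|b W x - b W (pt W')| ≤ θ` or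
`|b W' x - b W' (pt W)| ≤ θ`. -/
def Stmt_CMPB : Prop := ∀ (V I : Type) (own : V → I) (pt : I → V) (b : I → V → ℤ) (θ : ℤ),
  PSys own pt b θ → ∀ (Y W : I) (x : V), W ≠ Y → Beh own b (10 * θ) Y W x →
    |b Y x - b Y (pt W)| ≤ θ ∧
    ∀ W', W' ≠ Y → W ≠ W' → Beh own b (10 * θ) Y W' x →
      8 * θ < vv pt b Y W (pt W') ∨ 8 * θ < vv pt b Y W' (pt W)

/-- CLS (100 lines, uses LEMT, TTT, CMPB). If `x = x'` this is clear. Otherwise there is a nonempty list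
`l` of axes `≠ Y` such that consecutive elements have a common point behind them, `x` is behind the first
and `x'` behind the last (induction on `ReflTransGen`). By CMPB (2) and TTT, LEMT applies to `l`: `W`.
For `Z ∈ l`, `Z ≠ W`: `6 θ < vv pt b Y W (pt Z)`, p2 for `Y, W` and `pt Z` gives
`|b Y (pt Z) - b Y (pt W)| ≤ θ` (also for `Z = W`). With CMPB (1) for `x`, the first element, and for `x'`,
the last element: `|b Y x - b Y x'| ≤ 4 θ`. -/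
def Stmt_CLS : Prop := ∀ (V I : Type) (own : V → I) (pt : I → V) (b : I → V → ℤ) (θ : ℤ),
  PSys own pt b θ → ∀ (Y : I) (x x' : V),
    Relation.ReflTransGen (RY own b (10 * θ) Y) x x' → |b Y x - b Y x'| ≤ 4 * θ

/-- STR (80 lines, uses CLS). The set in `BB` is nonempty (`b Y x`) and bounded below by `b Y x - 4 θ`.
So `b Y x - 4 θ ≤ BB Y x ≤ b Y x` (`csInf_le`, `le_csInf`). If `RY Y x x'` then `BB Y x = BB Y x'` (the
relation is symmetric, so both classes are equal). s1: `v`, `pt (own v)` are behind `own v`. s2: if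
`14 θ < |BB Y x - BB Y (pt W)|` then `10 θ < |b Y x - b Y (pt W)|`, so `x` is behind `Y` seen from `W`, as is
`pt Y`: `RY W x (pt Y)`. s3: subset of p3. -/
def Stmt_STR : Prop := ∀ (V I : Type) (own : V → I) (pt : I → V) (b : I → V → ℤ) (θ : ℤ),
  PSys own pt b θ → SSys own pt (BB own b (10 * θ)) (14 * θ) ∧
    ∀ Y x, |BB own b (10 * θ) Y x - b Y x| ≤ 4 * θ

/-- EQB (60 lines, uses CLS). `Beh (g • Y) (g • W) (g • x) ↔ Beh Y W x` (for the point `y` use `g⁻¹ • y`,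
`own (g⁻¹ • y) = g⁻¹ • own y`), so `RY` and its `ReflTransGen` are invariant. The set for
`BB (g • Y) (g • x)` is the set for `BB Y x` shifted by `c`; both are nonempty and bounded below (CLS). -/
def Stmt_EQB : Prop := ∀ (Γ V I : Type) [Group Γ] [MulAction Γ V] [MulAction Γ I] (own : V → I)
  (pt : I → V) (b : I → V → ℤ) (θ : ℤ), PSys own pt b θ → Eqv Γ own b →
    Eqv Γ own (BB own b (10 * θ))

/-! ## 4. Strong projection systems: order, metric, hyperbolicity -/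

/-- ORD (100 lines). `Y ≠ W` in `YK x z`, `K > 4 Θ`. Either `Θ < |B Y x - B Y (pt W)|` or
`Θ < |B Y z - B Y (pt W)|`. First case: s2: `B W x = B W (pt Y)`, so `Θ < |B W z - B W (pt Y)|`, s2 (for
`W, Y`): `B Y z = B Y (pt W)`: `Bef Y W`. Second case: s2: `B W z = B W (pt Y)`, so
`Θ < |B W x - B W (pt Y)|`, s2: `B Y x = B Y (pt W)`: `Bef W Y`. This is (1). (2): `B W x = B W (pt Y)` and
`B W z = B W (pt Y)` contradict `K > 0`. (3): if `B W x = B W (pt Y)` then not `Bef W Y` (it contains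
`B W z = B W (pt Y)`). (4): the same. (5): `Y`, `W`, `Z` in `YK`, `Bef Y W`, `Bef W Z`:
`|B W (pt Y) - B W (pt Z)| = |B W x - B W z| > Θ`, so (s2 for the pair `W, Y` and the point `pt Z`)
`B Y (pt Z) = B Y (pt W) = B Y z`; `Y ≠ Z` by (2); so (4) gives `Bef Y Z`. -/
def Stmt_ORD : Prop := ∀ (V I : Type) (own : V → I) (pt : I → V) (B : I → V → ℤ) (Θ K : ℤ),
  SSys own pt B Θ → 4 * Θ < K → ∀ x z : V,
    (∀ Y ∈ YK B K x z, ∀ W ∈ YK B K x z, Y ≠ W → Bef pt B x z Y W ∨ Bef pt B x z W Y) ∧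
    (∀ Y ∈ YK B K x z, ∀ W ∈ YK B K x z, ¬ (Bef pt B x z Y W ∧ Bef pt B x z W Y)) ∧
    (∀ Y ∈ YK B K x z, ∀ W ∈ YK B K x z, Y ≠ W → B W x = B W (pt Y) → Bef pt B x z Y W) ∧
    (∀ Y ∈ YK B K x z, ∀ W ∈ YK B K x z, Y ≠ W → B Y z = B Y (pt W) → Bef pt B x z Y W) ∧
    (∀ Y ∈ YK B K x z, ∀ W ∈ YK B K x z, ∀ Z ∈ YK B K x z, Bef pt B x z Y W →
      Bef pt B x z W Z → Bef pt B x z Y Z)

/-- FIN (15 lines). `YK x z` is a subset of the finite set of s3; `YK` and `NK` are symmetric;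
`YK x x = ∅`. -/
def Stmt_FIN : Prop := ∀ (V I : Type) (own : V → I) (pt : I → V) (B : I → V → ℤ) (Θ K : ℤ),
  SSys own pt B Θ → 4 * Θ < K → ∀ x z : V, (YK B K x z).Finite ∧ NK B K x z = NK B K z x ∧
    NK B K x x = 0

/-- POS (120 lines, uses ORD, FIN). `YK x z` is finite and strictly totally ordered by `Bef` (ORD), so `pos`
is strictly increasing, hence injective, with values `< N`, so it is a bijection onto `{0, ..., N-1}`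
((1), (2)). (3): let `v` be on `Y ∈ YK x z`, `p = pos Y`. If `W` is before `Y`: `B W v = B W (pt Y)` (s1)
`= B W z`, so `W ∈ YK x v`: `p ≤ NK x v`. If `Y` is before `W`: `B W v = B W (pt Y) = B W x`, so
`W ∈ YK v z`: `N - p - 1 ≤ NK v z`. If `W ∈ YK x v`, `W ≠ Y`: `B W v = B W (pt Y)`, so
`Θ < |B W x - B W (pt Y)|`, s2: `B Y x = B Y (pt W)`, so `Θ < |B Y z - B Y (pt W)|`, s2:
`B W z = B W (pt Y) = B W v`: `W ∈ YK x z` is before `Y`. So `NK x v ≤ p + 1`. In the same way a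
`W ∈ YK v z`, `W ≠ Y`, is in `YK x z` after `Y`: `NK v z ≤ N - p`. -/
def Stmt_POS : Prop := ∀ (V I : Type) (own : V → I) (pt : I → V) (B : I → V → ℤ) (Θ K : ℤ),
  SSys own pt B Θ → 4 * Θ < K → ∀ x z : V,
    Set.InjOn (pos pt B K x z) (YK B K x z) ∧
    (∀ p : ℕ, p < NK B K x z → ∃ Y ∈ YK B K x z, pos pt B K x z Y = p) ∧
    (∀ Y ∈ YK B K x z, pos pt B K x z Y < NK B K x z ∧ ∀ v, own v = Y →
      pos pt B K x z Y ≤ NK B K x v ∧ NK B K x v ≤ pos pt B K x z Y + 1 ∧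
      NK B K x z ≤ NK B K v z + pos pt B K x z Y + 1 ∧
      NK B K v z + pos pt B K x z Y ≤ NK B K x z)

/-- MIDX (60 lines, uses ORD, FIN). Suppose `B Y y ≠ B Y x`. Let `W` be before `Y`: `B Y x = B Y (pt W)`, so
by s2 (contrapositive) `|B W y - B W (pt Y)| ≤ Θ`, `B W (pt Y) = B W z`, so `|B W y - B W x| > Θ`. If `W'` is
before `W`: `|B W y - B W (pt W')| = |B W y - B W x| > Θ`, so `B W' y = B W' (pt W) = B W' z`, so
`W' ∈ YK x y`. So all elements before `Y`, except the last of them, are in `YK x y`: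
`pos Y ≤ NK x y + 1`. The second claim is the mirror image (exchange `x` and `z`: `Bef z x Y W` is
`Bef x z W Y`), the number of elements after `Y` is `N - 1 - pos Y`. -/
def Stmt_MIDX : Prop := ∀ (V I : Type) (own : V → I) (pt : I → V) (B : I → V → ℤ) (Θ K : ℤ),
  SSys own pt B Θ → 4 * Θ < K → ∀ x z y : V, ∀ Y ∈ YK B K x z,
    (NK B K x y + 2 ≤ pos pt B K x z Y → B Y y = B Y x) ∧
    (NK B K y z + 3 + pos pt B K x z Y ≤ NK B K x z → B Y y = B Y z)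

/-- SPL (60 lines, uses ORD, FIN). Otherwise there are three different elements, which are ordered:
`Y1` before `Y2` before `Y3`, with `B Y y ≠ B Y x`, `B Y y ≠ B Y z` for each. If `|B Y2 y - B Y2 x| > Θ`:
`B Y2 x = B Y2 (pt Y1)`, so s2: `B Y1 y = B Y1 (pt Y2) = B Y1 z`, a contradiction. Otherwise
`|B Y2 y - B Y2 z| > Θ`, `B Y2 z = B Y2 (pt Y3)`, s2: `B Y3 y = B Y3 (pt Y2) = B Y3 x`, a contradiction. -/
def Stmt_SPL : Prop := ∀ (V I : Type) (own : V → I) (pt : I → V) (B : I → V → ℤ) (Θ K : ℤ),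
  SSys own pt B Θ → 4 * Θ < K → ∀ x z y : V,
    {Y | Y ∈ YK B K x z ∧ B Y y ≠ B Y x ∧ B Y y ≠ B Y z}.ncard ≤ 2

/-- GP (80 lines, uses FIN, SPL). Let `L1 = {Y ∈ YK w x | B Y y = B Y w}`, `L2 = {Y ∈ YK w y | B Y x = B Y w}`,
`S = SK w x y`. `S` and `L1` are disjoint subsets of `YK w x`, the rest has at most 2 elements (SPL). `S`
(`= SK w y x`) and `L2` are disjoint subsets of `YK w y`, the rest has at most 2 elements. `L1` and `L2`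
are disjoint subsets of `YK x y` (`L1 = {Y ∈ YK x y | B Y w = B Y y}`, `L2 = {Y ∈ YK x y | B Y w = B Y x}`),
the rest has at most 2 elements. Add up. Triangle inequality: `YK x z` is contained in the union of
`YK x y`, `YK y z` and the set of SPL. -/
def Stmt_GP : Prop := ∀ (V I : Type) (own : V → I) (pt : I → V) (B : I → V → ℤ) (Θ K : ℤ),
  SSys own pt B Θ → 4 * Θ < K → (∀ x y z : V, NK B K x z ≤ NK B K x y + NK B K y z + 2) ∧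
    ∀ w x y : V, NK B K w x + NK B K w y ≤ NK B K x y + 2 * (SK B K w x y).ncard + 4 ∧
      NK B K x y + 2 * (SK B K w x y).ncard ≤ NK B K w x + NK B K w y + 2

/-- NEST (60 lines, uses ORD, FIN). `S1 = SK w x y` and `S2 = SK w y z` are subsets of `YK w y`. They are
closed downwards: let `Y ∈ S1`, `Y' ∈ YK w y` before `Y` (`Bef w y Y' Y`): `|B Y x - B Y (pt Y')| =`
`|B Y y - B Y w| > Θ`, so `B Y' x = B Y' (pt Y) = B Y' y`; the same for `S2`. As `YK w y` is totally ordered,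
one of `S1`, `S2` contains the other, and the intersection is contained in `SK w x z`. -/
def Stmt_NEST : Prop := ∀ (V I : Type) (own : V → I) (pt : I → V) (B : I → V → ℤ) (Θ K : ℤ),
  SSys own pt B Θ → 4 * Θ < K → ∀ w x y z : V,
    min (SK B K w x y).ncard (SK B K w y z).ncard ≤ (SK B K w x z).ncard

/-- HYP (40 lines, uses GP, NEST, FIN). Write `2 (x|y) = N w x + N w y - N x y`, by GP
`2 s - 2 ≤ 2 (x|y) ≤ 2 s + 4`, and NEST: `2 (x|z) ≥ min (2 (x|y)) (2 (y|z)) - 6`. -/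
def Stmt_HYP : Prop := ∀ (V I : Type) (own : V → I) (pt : I → V) (B : I → V → ℤ) (Θ K : ℤ),
  SSys own pt B Θ → 4 * Θ < K → ∀ x y z w : V, NK B K x z + NK B K y w ≤
    max (NK B K x y + NK B K z w) (NK B K y z + NK B K x w) + 6

/-- ACY (150 lines, uses FIN, POS, MIDX, GP). `R = 2 e + 10`. Let `S` be the set of `g`, `N = NK x z ≥ R`. Choose
`P, Q ∈ YK x z` with `pos P = e + 3`, `pos Q = e + 4` (POS 2), so `P ≠ Q`. For `g ∈ S`: `NK x (g x) ≤ e`,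
`NK (g z) z ≤ e`, so by MIDX `B P (g x) = B P x`, `B P (g z) = B P z`, the same for `Q`. So
`P ∈ YK (g x) (g z)`, and by Eqv `g⁻¹ • P ∈ YK x z` (`|B (g Y) (g x) - B (g Y) (g z)| = |B Y x - B Y z|`,
so `NK (g x) (g z) = NK x z` for all points). Let `v = pt P`, `v' = g⁻¹ v`, `own v' = g⁻¹ P`:
`NK x v' = NK (g x) v`, which differs from `NK x v` by at most `e + 2` (GP), and `NK x v ∈ {pos P, pos P + 1}`,
`NK x v' ∈ {pos (g⁻¹ P), pos (g⁻¹ P) + 1}`: `|pos (g⁻¹ P) - pos P| ≤ e + 3`, so `pos (g⁻¹ P) ≤ 2 e + 7`. By POS 1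
`g⁻¹ • P` is in a set `Win` of at most `2 e + 8` elements (those `Y ∈ YK x z` with
`pos Y ≤ 2 e + 7`), the same for `Q` (`≤ 2 e + 9` elements with `pos Y ≤ 2 e + 8`). The map
`g ↦ (g⁻¹ P, g⁻¹ Q)` from `S` to `Win × Win`: if `g`, `g0` have the same image then `g g0⁻¹` fixes `P` and
`Q`, so each fibre has at most `Cs` elements. `Nn = (2 e + 9)^2 * Cs`
(`Set.Finite` of the preimage, `Finset.card_le_mul_card_image` or a similar counting lemma). -/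
def Stmt_ACY : Prop := ∀ (Γ V I : Type) [Group Γ] [MulAction Γ V] [MulAction Γ I] (own : V → I)
  (pt : I → V) (B : I → V → ℤ) (Θ K : ℤ), SSys own pt B Θ → 4 * Θ < K → Eqv Γ own B →
    (∃ Cs : ℕ, ∀ Y W : I, Y ≠ W → {g : Γ | g • Y = Y ∧ g • W = W}.Finite ∧
      {g : Γ | g • Y = Y ∧ g • W = W}.ncard ≤ Cs) →
    ∀ e : ℕ, ∃ R Nn : ℕ, ∀ x z : V, R ≤ NK B K x z →
      {g : Γ | NK B K x (g • x) ≤ e ∧ NK B K z (g • z) ≤ e}.Finite ∧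
      {g : Γ | NK B K x (g • x) ≤ e ∧ NK B K z (g • z) ≤ e}.ncard ≤ Nn

/-- UNB (120 lines, uses FIN). `x j = t^j • x0`, `Y j = own (x j) = t^j • own x0` (`j : ℤ`). `Y (j+1) ≠ Y j`. By
Eqv `|B (Y j) (x (j+1)) - B (Y j) (x (j-1))| ≥ K`. Claim 1: `B (Y j) (x m) = B (Y j) (x (j+1))` for
`m ≥ j + 1`: induction on `m - j`: for `m ≥ j + 2`, by induction
`B (Y (j+1)) (x m) = B (Y (j+1)) (x (j+2))`, so `|B (Y (j+1)) (x m) - B (Y (j+1)) (x j)| ≥ K > Θ`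
(and `B (Y (j+1)) (x j) = B (Y (j+1)) (pt (Y j))` by s1), so s2: `B (Y j) (x m) = B (Y j) (pt (Y (j+1)))
= B (Y j) (x (j+1))`. Claim 2 (mirror): `B (Y j) (x i) = B (Y j) (x (j-1))` for `i ≤ j - 1`. So for
`0 < j < m`: `Y j ∈ YK (x 0) (x m)`. They are different: if `i < j`, `Y i = Y j` then `j ≥ i + 2`,
`B (Y (i+1)) (x j) = B (Y (i+1)) (x (i+2))` (claim 1) and `B (Y (i+1)) (x j) = B (Y (i+1)) (x i)` (s1, both are
on `Y i ≠ Y (i+1)`), a contradiction to `K > 0`. -/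
def Stmt_UNB : Prop := ∀ (Γ V I : Type) [Group Γ] [MulAction Γ V] [MulAction Γ I] (own : V → I)
  (pt : I → V) (B : I → V → ℤ) (Θ K : ℤ), SSys own pt B Θ → 4 * Θ < K → Eqv Γ own B →
    ∀ (t : Γ) (x0 : V), own (t • x0) ≠ own x0 →
      K ≤ |B (own x0) (t • x0) - B (own x0) (t⁻¹ • x0)| →
      ∀ m : ℕ, m ≤ NK B K x0 (t ^ m • x0) + 1

/-- NVC (120 lines). For `q : Polynomial k` let `e q` be the automorphism `X 0 ↦ X 0 + q (X 1)`, `X i ↦ X i`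
(`i ≠ 0`); `e (q + r) = e q * e r`, `e` is injective. `G ⧸ H` is finite, so there is an infinite set
`T ⊆ ℕ` such that the classes of `e (X^i)`, `i ∈ T`, are equal (`Finite.exists_infinite_fiber`), so
`e (X^i - X^j) ∈ H` for `i, j ∈ T`. Let `h` generate `H`. If `k` has characteristic 0: take `i, j, l ∈ T`
different, `e (X^i - X^j) = h^a`, `e (X^i - X^l) = h^b`, so `b (X^i - X^j) = a (X^i - X^l)`; the coefficient of
`X^j` gives `b = 0`, so `e (X^i - X^l) = 1`, a contradiction. If the characteristic is `p > 0`: the infinitely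
many elements `e (X^i - X^i0)`, `i ∈ T`, of `H` satisfy `x^p = 1`; if `h` has infinite order only `x = 1`
does; if it has finite order then `H` is finite. -/
def Stmt_NVC : Prop := ∀ (k : Type) [Field k] (n : ℕ), 3 ≤ n →
  ¬ ∃ H : Subgroup (MvPolynomial (Fin n) k ≃ₐ[k] MvPolynomial (Fin n) k),
    IsCyclic H ∧ H.FiniteIndex

/-! ## 5. The injective hull -/

/-- an isometric action on a coarsely geodesic hyperbolic space, acylindrical, with unbounded orbit -/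
structure IsHMet (Γ V : Type) [Group Γ] [MetricSpace V] [MulAction Γ V] : Prop where
  inv : ∀ (g : Γ) (x y : V), dist (g • x) (g • y) = dist x y
  hyp : ∃ δ : ℝ, 0 ≤ δ ∧ ∀ x y z w : V,
    dist x z + dist y w ≤ max (dist x y + dist z w) (dist y z + dist x w) + δ
  geo : ∃ C : ℝ, ∀ (x y : V) (t : ℝ), 0 ≤ t → t ≤ dist x y →
    ∃ v, dist x v ≤ t + C ∧ dist v y ≤ dist x y - t + C
  acy : ∀ ε : ℝ, 0 < ε → ∃ (R : ℝ) (N : ℕ), ∀ x y : V, R ≤ dist x y →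
    {g : Γ | dist x (g • x) ≤ ε ∧ dist y (g • y) ≤ ε}.Finite ∧
    {g : Γ | dist x (g • x) ≤ ε ∧ dist y (g • y) ≤ ε}.ncard ≤ N
  unb : ∃ x : V, ∀ C : ℝ, ∃ g : Γ, C < dist x (g • x)

/-- the conclusion of the frozen statement for a group `Γ` -/
def Concl (Γ : Type) [Group Γ] : Prop :=
  ∃ (X : Type) (_ : MetricSpace X) (act : Γ → X → X),
    (∀ x : X, act 1 x = x) ∧
    (∀ g h x, act (g * h) x = act g (act h x)) ∧
    (∀ g, Isometry (act g)) ∧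
    (∀ x y : X, ∃ γ : ℝ → X, γ 0 = x ∧ γ (dist x y) = y ∧
      ∀ s t : ℝ, 0 ≤ s → s ≤ dist x y → 0 ≤ t → t ≤ dist x y →
        dist (γ s) (γ t) = |s - t|) ∧
    (∃ δ : ℝ, 0 ≤ δ ∧ ∀ x y z w : X,
      min ((dist x w + dist y w - dist x y) / 2) ((dist y w + dist z w - dist y z) / 2) - δ
        ≤ (dist x w + dist z w - dist x z) / 2) ∧
    (∀ ε : ℝ, 0 < ε → ∃ (R : ℝ) (N : ℕ), ∀ x y : X, R ≤ dist x y →
      {g | dist x (act g x) ≤ ε ∧ dist y (act g y) ≤ ε}.Finite ∧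
      {g | dist x (act g x) ≤ ε ∧ dist y (act g y) ≤ ε}.ncard ≤ N) ∧
    (∃ x : X, ∀ C : ℝ, ∃ g, C < dist x (act g x))

/-- RET (150 lines): a 1-Lipschitz retraction of `Del V` onto the extremal functions. For `f ∈ Del V` let
`f* x = sup_y (dist x y - f y)`; `f* ≤ f` as `dist x y ≤ f x + f y`, and the sup is over a set bounded by
`f x`, nonempty; `f x + f* y ≥ dist x y`. `q f = (f + f*)/2 ∈ Del V` (`q f x + q f y =
((f x + f* y) + (f* x + f y))/2`), `q f ≤ f`; if `|f - g| ≤ C` everywhere then `|f* - g*| ≤ C`, so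
`|q f - q g| ≤ C`. `q^n f` is decreasing and `≥ 0` (Del.nonneg), so it converges pointwise to
`p f ∈ Del V`, `|p f - p g| ≤ C`. `q^n f ≥ p f` gives `(q^n f)* ≤ (p f)*`, and
`(q^n f)* = 2 q^(n+1) f - q^n f → p f`; so `p f ≤ (p f)* ≤ p f`: `p f` is extremal. If `f` is extremal then
`f* = f`, `q f = f`, `p f = f`. -/
def Stmt_RET : Prop := ∀ (V : Type) [MetricSpace V] [Nonempty V], ∃ p : (V → ℝ) → (V → ℝ),
  (∀ f ∈ Del V, IsExt V (p f)) ∧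
  (∀ f ∈ Del V, ∀ g ∈ Del V, ∀ C : ℝ, (∀ x, |f x - g x| ≤ C) → ∀ x, |p f x - p g x| ≤ C) ∧
  (∀ f, IsExt V f → p f = f)

/-- GEOD (80 lines, uses RET). `D = dist f g`. If `D = 0` constant. Otherwise for `0 ≤ t ≤ D` let
`γ t = p ((1 - t/D) f + (t/D) g)` (the argument is in `Del V`, a convex set), `γ t = f` for other `t`.
`|(1-s/D) f + (s/D) g - (1-t/D) f - (t/D) g| = |s-t|/D |f - g| ≤ |s-t|`, so `dist (γ s) (γ t) ≤ |s-t|`;
for `s ≤ t`: `D = dist f g ≤ s + dist (γ s) (γ t) + (D - t)` gives equality. -/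
def Stmt_GEOD : Prop := ∀ (V : Type) [MetricSpace V] [Nonempty V] (f g : Ext V),
  ∃ γ : ℝ → Ext V, γ 0 = f ∧ γ (dist f g) = g ∧
    ∀ s t : ℝ, 0 ≤ s → s ≤ dist f g → 0 ≤ t → t ≤ dist f g → dist (γ s) (γ t) = |s - t|

/-- FOUR (80 lines). First: for `e f : Ext V`, `ε > 0` there are `w x` with
`dist e f ≤ dist w x - e w - f x + ε`: take `x` with `dist e f ≤ |e x - f x| + ε/2`; if
`e x ≥ f x` take `w` with `e x + e w ≤ dist x w + ε/2`; otherwise exchange `e` and `f`. Now let `w, x` be such for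
`e, g` and `y, z` for `f, h`: `dist e g + dist f h ≤ dist w x + dist y z - e w - g x - f y - h z + 2 ε`, and the
inequality of `V` gives at most `max (dist w y + dist x z) (dist y x + dist w z) + δ - ...` with
`dist w y ≤ e w + dist e f + f y` (as `e w + e y ≥ dist w y`, `|e y - f y| ≤ dist e f`) etc. -/
def Stmt_FOUR : Prop := ∀ (V : Type) [MetricSpace V] [Nonempty V] (δ : ℝ),
  (∀ x y z w : V, dist x z + dist y w ≤ max (dist x y + dist z w) (dist y z + dist x w) + δ) →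
  ∀ e f g h : Ext V, dist e g + dist f h ≤ max (dist e f + dist g h) (dist f g + dist e h) + δ

/-- DEN (60 lines). Take any `x`, and `y` with `f x + f y ≤ dist x y + 1`; `t = min (f x) (dist x y)`, `v` from
geo: `dist x v ≤ f x + C`, `dist v y ≤ f y + C` (if `t = f x`: `dist x y - f x ≤ f y`; otherwise
`dist v y ≤ C` and `f y ≥ 0`). Take `z` with `f v + f z ≤ dist v z + 1`. The four point inequality for
`v z`, `x y`: `dist v z + dist x y ≤ max (dist v x + dist z y) (dist v y + dist x z) + δ ≤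
f x + f y + f z + C + δ`. So `f v ≤ C + δ + 2`. The second claim: `dist (Ext.of v) f = f v` (`≤`:
`|dist v x - f x| ≤ f v`, because `dist v x ≤ f v + f x` and `f x ≤ dist x v + f v`). -/
def Stmt_DEN : Prop := ∀ (V : Type) [MetricSpace V] [Nonempty V] (δ C : ℝ),
  (∀ x y z w : V, dist x z + dist y w ≤ max (dist x y + dist z w) (dist y z + dist x w) + δ) →
  (∀ (x y : V) (t : ℝ), 0 ≤ t → t ≤ dist x y →
    ∃ v, dist x v ≤ t + C ∧ dist v y ≤ dist x y - t + C) →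
  ∀ f : Ext V, ∃ v : V, dist (Ext.of v) f ≤ C + δ + 2

/-- HULL (150 lines, uses GEOD, FOUR, DEN). `X = Ext V`, `act g f = f ∘ (g⁻¹ • ·)`; `act g (Ext.of v) = Ext.of
(g • v)`, `dist (Ext.of v) (Ext.of v') = dist v v'`. The hyperbolicity in the form of `Concl` with `δ/2` is the
four point inequality. Acylindrical: given `f1`, `f2` with `dist f1 f2 ≥ R`, choose `v1`, `v2` within `C'` (DEN):
`dist v1 (g v1) ≤ ε + 2 C'` etc., so the set is contained in the set for `V` with `ε + 2 C'`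
(`Set.ncard_le_ncard`). -/
def Stmt_HULL : Prop := ∀ (Γ V : Type) [Group Γ] [MetricSpace V] [MulAction Γ V] [Nonempty V],
  IsHMet Γ V → Concl Γ

/-- MET (200 lines, uses FIN, POS, GP, HYP, ACY, UNB): the metric `dist x z = 0` if `x = z`, otherwise
`NK x z + 2`, on `V`. Triangle inequality: GP. inv: `NK (g x) (g z) = NK x z` by Eqv
(`YK (g x) (g z) = g YK x z`). hyp: `NK ≤ dist ≤ NK + 2`, HYP: `δ = 10`. geo: `C = 3`: if `x = z` or `t < 1` take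
`v = x`; otherwise `N = NK x z`, `p = min (⌊t⌋ - 1) (N - 1)`; if `N = 0` take `v = x` (`dist x z = 2`); otherwise
`Y` with `pos Y = p`, `v = pt Y`: `dist x v ≤ p + 3 ≤ t + 3`, `dist v z ≤ N - p + 2`, with `p ≥ t - 2` or
`p = N - 1`. acy: `ε` given, `e = ⌈ε⌉`, `dist x (g x) ≤ ε` gives `NK x (g x) ≤ e`. unb: UNB. -/
def Stmt_MET : Prop := ∀ (Γ V I : Type) [Group Γ] [MulAction Γ V] [MulAction Γ I] (own : V → I)
  (pt : I → V) (B : I → V → ℤ) (Θ K : ℤ), SSys own pt B Θ → 4 * Θ < K → Eqv Γ own B →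
    (∃ Cs : ℕ, ∀ Y W : I, Y ≠ W → {g : Γ | g • Y = Y ∧ g • W = W}.Finite ∧
      {g : Γ | g • Y = Y ∧ g • W = W}.ncard ≤ Cs) →
    (∃ (t : Γ) (x0 : V), own (t • x0) ≠ own x0 ∧
      K ≤ |B (own x0) (t • x0) - B (own x0) (t⁻¹ • x0)|) →
    ∃ _ : MetricSpace V, IsHMet Γ V

/-- CONC (80 lines, uses A1, STAB, PS, STR, EQB, MET, HULL). Take `θ` from A1, PS gives a weak system with
constant `10 θ`, STR a strong system `BB` with `Θ = 140 θ`, `|BB - b| ≤ 40 θ`, EQB its equivariance, STAB the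
stabilisers. `K = 4 Θ + 1`. Let `a ∉ E`, `t = F^L a` with `L ≥ 0` large, `x0 = 1`: `own (t • 1) = t E ≠ E`. With
`u = (own 1).out ∈ E`: `b (own 1) x = bt (u⁻¹ x) = bt x + const` (Eact), so
`b (own 1) t - b (own 1) t⁻¹ = bt (F^L a) - bt (a⁻¹ F^(-L)) ≥ L + bt a - bt a⁻¹ - θ` (shift; hE for
`a⁻¹ ∉ E` and `F^(-L) ∈ E`). MET, HULL. -/
def Stmt_CONC : Prop := ∀ (Γ : Type) [Group Γ] (M : Γ → ℕ) (F : Γ) (E : Subgroup Γ) (bt : Γ → ℤ)
  (d κ : ℕ), Geo Γ M F E bt d κ → Concl Γ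

end Pool.Agent.Work.MP_b2cdcf_full
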