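import Pool.Agent.Work.MP_b2cdcf_full.DefsB
import Pool.Agent.Work.MP_b2cdcf_full.IntA

/-!
# MP_b2cdcf_al, S02759: the polynomial blocks (statements; the docstrings are complete proofs)

File `B_X.lean` (import this file; you may also import the proved files of `MP_b2cdcf_wpd`), namespace
`Pool.Agent.Work.MP_b2cdcf_full`, `open Pool.Agent.Work.MP_b2cdcf_wpd`, helper lemmas prefixed `X_`, final
theorem `p_X (h1 : Stmt_Y) ... : Stmt_X`. Notation of the docstrings: `d = h1 + h2`, `F = FX k n hn a h1 h2`,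
`t = 1 + 1 : Fin n`.
-/

set_option autoImplicit false

open MvPolynomial

noncomputable section

namespace Pool.Agent.Work.MP_b2cdcf_full

open Pool.Agent.Work.MP_b2cdcf_wpd

/-! ## 1. The right V shape -/

/-- PAR (40 lines). `p = ringExpChar k`, `h1 = 100 n^2 p`, `h2 = h1 + 1`. In characteristic `p > 1`:
`h1 = 0`, `h2 = 1`, `d = 1` in `k`, `disc = 1`. In characteristic 0 both numbers are casts of positive
natural numbers. -/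
def Stmt_PAR : Prop := ∀ (k : Type) [Field k] (n : ℕ), 3 ≤ n → ∃ h1 h2 : ℕ, Par k n 1 h1 h2

/-- JACG (130 lines): the Jacobian inequality for a general polynomial `Q` without the variable `j`; copy
`MP_b2cdcf_wpd/B_JAC.lean`. There is `l` with `det J' ≠ 0`, `J' = (JAC_J φ).updateRow j (Pi.single l 1)`.
`pderiv l' (φ Q) = ∑ i, φ (pderiv i Q) * J' i l'` (JAC_chain, the term `i = j` is 0), so
`det (J'.updateRow r (fun l' => pderiv l' (φ Q))) = φ (pderiv r Q) * det J'`, of degree `≥ e M`, and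
`≤ (deg (φ Q) - 1) + (n-2)(M-1)` by JAC_deg (`deg (φ Q) ≥ 1`, otherwise the gradient is zero). -/
def Stmt_JACG : Prop := ∀ (k : Type) [Field k] (n : ℕ) (φ : AutP k n) (j : Fin n)
  (Q : MvPolynomial (Fin n) k) (M e : ℕ), 2 ≤ n → pderiv j Q = 0 → 1 ≤ M →
  (∀ i, i ≠ j → dg φ i ≤ M) →
  (∃ r, r ≠ j ∧ φ (pderiv r Q) ≠ 0 ∧ e * M ≤ (φ (pderiv r Q)).totalDegree) →
  e * M + 1 ≤ (φ Q).totalDegree + (n - 2) * (M - 1)

/-- PD (150 lines). `P = PP k n a h1 h2 r u v`, `f = φ (X u)`, `g = φ (X v)`, `D = totalDegree`.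
`pderiv i P = C a * (d X_i^(d-1))` for `i ∉ {r, u, v}`,
`pderiv u P = C a * (d X_u^(d-1) + h1 X_u^(h1-1) X_v^h2)`,
`pderiv v P = C a * (d X_v^(d-1) + h2 X_u^h1 X_v^(h2-1))`. If some `i ∉ {r,u,v}` has `dg φ i = M` take it. If
`D f = M > D g`: `D (h1 f^(h1-1) g^h2) < (d-1) M = D (d f^(d-1))`: take `u`; if `D g = M > D f`: take `v`.
Let `D f = D g = M` and suppose that both `u`, `v` fail (degree `< (d-1) M` or zero). As
`d f^(d-1) + h1 f^(h1-1) g^h2 = f^(h1-1) (d f^h2 + h1 g^h2)`: `x = d f^h2`, `y = - h1 g^h2` differ by a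
polynomial of degree `< h2 M` (or zero), and `x' = d g^h1`, `y' = - h2 f^h1` by one of degree `< h1 M`.
`x^h1 - y^h1 = (x - y) (sum)` has degree `< h1 h2 M`, the same for `x'^h2 - y'^h2`. So, up to degree
`< h1 h2 M`: `d^h1 f^(h1 h2) = (-h1)^h1 g^(h1 h2)`, `d^h2 g^(h1 h2) = (-h2)^h2 f^(h1 h2)`, hence
`d^d f^(h1 h2) = (-h1)^h1 (-h2)^h2 f^(h1 h2)`; `(-h1)^h1 (-h2)^h2 = - h1^h1 h2^h2` (one of `h1`, `h2` is
odd, the other even), so `disc * f^(h1 h2)` has degree `< h1 h2 M`, contradiction. -/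
def Stmt_PD : Prop := ∀ (k : Type) [Field k] (n : ℕ) (a : k) (h1 h2 : ℕ),
  Par k n a h1 h2 → ∀ (φ : AutP k n) (r u v : Fin n) (M : ℕ), u ≠ r → v ≠ r → u ≠ v →
    (∃ i, i ≠ r ∧ dg φ i = M) → (∀ i, i ≠ r → dg φ i ≤ M) →
    ∃ i, i ≠ r ∧ φ (pderiv i (PP k n a h1 h2 r u v)) ≠ 0 ∧
      (h1 + h2 - 1) * M ≤ (φ (pderiv i (PP k n a h1 h2 r u v))).totalDegree

/-- JACP (40 lines, uses JACG, PD). JACG with `Q = PP ..`, `e = d - 1`; `pderiv r (PP ..) = 0`. -/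
def Stmt_JACP : Prop := ∀ (k : Type) [Field k] (n : ℕ) (a : k) (h1 h2 : ℕ),
  Par k n a h1 h2 → ∀ (φ : AutP k n) (r u v : Fin n) (M : ℕ), u ≠ r → v ≠ r → u ≠ v →
    (∃ i, i ≠ r ∧ dg φ i = M) → (∀ i, i ≠ r → dg φ i ≤ M) →
    (h1 + h2 - n + 1) * M + (n - 1) ≤ (φ (PP k n a h1 h2 r u v)).totalDegree

/-- HALFX (150 lines, uses JACP). As in `MP_b2cdcf_wpd/B_CTX.lean`. `c = d - n + 1`.
dom, big, lt: `M = max_{i ≠ p} dg φ i`; not `Dom c p φ` gives `dg φ p < c M`; `φ (PP ..)` has degree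
`≥ c M + (n-1)`, so `dg (φ * G) q ≥ c M + (n-1)`, `dg (φ * G) i = dg φ (σ i) ≤ M` for `i ≠ q` (`σ i ≠ p`).
step, mul: `Dom c q φ`, `e = dg φ q`: in `φ (PP ..)` the term `φ (X q)^d` has degree `d e`, the other
powers `≤ d e / c`, and the mixed term has degree `h1 dg φ u + h2 dg φ v < d e` as `u ≠ v` (at most one of
them is `q`). So `dg (φ * G) q = d e`. dq: the coefficient of `X_q^d` in `G (X q)` is `a`. -/
def Stmt_HALFX : Prop := ∀ (k : Type) [Field k] (n : ℕ) (a : k) (h1 h2 : ℕ),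
  Par k n a h1 h2 → ∀ (G : AutP k n) (p q u v : Fin n) (σ : Equiv.Perm (Fin n)),
    p ≠ q → u ≠ p → v ≠ p → u ≠ v → G (X q) = X p + PP k n a h1 h2 p u v →
    (∀ i, i ≠ q → G (X i) = X (σ i)) → σ q = p → Half (h1 + h2 - n + 1) (h1 + h2) G p q

/-- CTXX (40 lines, uses HALFX). `h1`: `G = F`, `p = 0`, `q = 1`, `u = -1`, `v = 1`, `σ i = i - 1`
(`Equiv.subRight 1`). `h2`: `G = F⁻¹`, `p = 1`, `q = 0`, `u = 0`, `v = 1 + 1`, `σ i = i + 1`, with `-a` for `a`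
(`X 1 - PP a = X 1 + PP (-a)`; `Par k n (-a) h1 h2`). `d < c * c`: `d ≥ 200 n^2`. -/
def Stmt_CTXX : Prop := ∀ (k : Type) [Field k] (n : ℕ) [NeZero n] (hn : 3 ≤ n) (a : k) (h1 h2 : ℕ),
  Par k n a h1 h2 → Ctx (h1 + h2 - n + 1) (h1 + h2) (FX k n hn a h1 h2) 0 1

/-- REV (80 lines). `rev` maps `PP a h1 h2 1 0 (1+1)` to `PP a h1 h2 0 1 (-1) = PP a h2 h1 0 (-1) 1`
(`1 - (1+1) = -1`), so `(rev * F⁻¹ * rev) (X 1) = rev (F⁻¹ (X 0)) = X 0 - PP a h2 h1 0 (-1) 1`. Degrees: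
`rename` by a permutation (`totalDegree_rename_of_injective`, `degreeOf_rename_of_injective`). -/
def Stmt_REV : Prop := ∀ (k : Type) [Field k] (n : ℕ) [NeZero n] (hn : 3 ≤ n) (a : k) (h1 h2 : ℕ),
  rev k n * rev k n = 1 ∧
  rev k n * (FX k n hn a h1 h2)⁻¹ * rev k n = FX k n hn (-a) h2 h1 ∧
  (∀ φ : AutP k n, mdeg (φ * rev k n) = mdeg φ ∧ mdeg (rev k n * φ) = mdeg φ) ∧
  (∀ (V : MvPolynomial (Fin n) k) (q : Fin n), (rev k n V).totalDegree = V.totalDegree ∧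
    degreeOf q (rev k n V) = degreeOf (1 - q) V)

/-! ## 2. The growth of a single polynomial -/

/-- ELD (60 lines), `Q` without the variable `X 1`. `el (-Q)` is inverse to `el Q` (both orders, check on
variables). A monomial `X^s` goes to `(X 1 + Q)^(s 1) * ∏_{i ≠ 1} X_i^(s i)`: `degreeOf 1 ≤ s 1`; equality of the
degrees by applying this to `el (-Q)`. Third: `degreeOf q` of the image of `X^s` is `≤ s q`. -/
def Stmt_ELD : Prop := ∀ (k : Type) [Field k] (n : ℕ) [NeZero n] (Q : MvPolynomial (Fin n) k),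
  degreeOf 1 Q = 0 → (∀ V, el (-Q) (el Q V) = V) ∧ (∀ V, degreeOf 1 (el Q V) = degreeOf 1 V) ∧
    ∀ q, q ≠ 1 → degreeOf q Q = 0 → ∀ V, degreeOf q (el Q V) ≤ degreeOf q V

/-- TAU (50 lines). `F V = rename (fun i => i - 1) (el Q V)`, `Q = PP k n a h1 h2 1 0 (1 + 1)`: check on
variables (`rename` maps `PP a h1 h2 1 0 (1+1)` to `PP a h1 h2 0 (-1) 1`). Degrees under `rename` by a
permutation. -/
def Stmt_TAU : Prop := ∀ (k : Type) [Field k] (n : ℕ) [NeZero n] (hn : 3 ≤ n) (a : k) (h1 h2 : ℕ)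
  (V : MvPolynomial (Fin n) k),
  (∀ j, degreeOf j (FX k n hn a h1 h2 V) =
    degreeOf (j + 1) (el (PP k n a h1 h2 1 0 (1 + 1)) V)) ∧
  (FX k n hn a h1 h2 V).totalDegree = (el (PP k n a h1 h2 1 0 (1 + 1)) V).totalDegree

/-- EDEG (80 lines, uses ELD, TAU). (1): TAU, ELD (2). (2): `aut_eq_sum`, `totalDegree_prod_le`: the image of
`X^s` has degree at most `∑ s i * dg F i = |s| + (d-1) s 1` (`totalDegree (F (X 1)) ≤ d`). (3): the image of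
`X^s` under `F⁻¹` is `∏_{i ≠ 0} X_(i+1)^(s i) * (X 1 - PP ..)^(s 0)`, and for `j ≠ 1` its `degreeOf j` is at most
`s (j-1) + d s 0`. -/
def Stmt_EDEG : Prop := ∀ (k : Type) [Field k] (n : ℕ) [NeZero n] (hn : 3 ≤ n) (a : k) (h1 h2 : ℕ),
  1 ≤ h1 → 1 ≤ h2 → ∀ V : MvPolynomial (Fin n) k,
  degreeOf 0 (FX k n hn a h1 h2 V) = degreeOf 1 V ∧
  (FX k n hn a h1 h2 V).totalDegree ≤ V.totalDegree + (h1 + h2 - 1) * degreeOf 1 V ∧
  ∀ j, j ≠ 1 → degreeOf j ((FX k n hn a h1 h2)⁻¹ V) ≤ degreeOf (j - 1) V + (h1 + h2) * degreeOf 0 V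

/-- WSUB (120 lines). (1): by linearity for a monomial `X^s`: `∏ (g0 i)^(s i)` is weighted homogeneous of
weight `weight w s`. (2): `aeval g V - aeval g0 V` has only monomials of weight `< W`: for a monomial `X^s`,
`∏ (g i)^(s i) - ∏ (g0 i)^(s i)` has only monomials of weight `< weight w s` (products of polynomials with
monomials of weight `≤ m`, `≤ m'` have weight `≤ m + m'`, and `<` if one of them is `<`); then (1). -/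
def Stmt_WSUB : Prop := ∀ (k : Type) [Field k] (n : ℕ) (w : Fin n → ℕ)
  (g0 : Fin n → MvPolynomial (Fin n) k), (∀ i, IsWeightedHomogeneous w (g0 i) (w i)) →
  (∀ (V : MvPolynomial (Fin n) k) (W : ℕ), weightedHomogeneousComponent w W (aeval g0 V) =
    aeval g0 (weightedHomogeneousComponent w W V)) ∧
  ∀ g : Fin n → MvPolynomial (Fin n) k,
    (∀ i, ∀ s ∈ (g i - g0 i).support, Finsupp.weight w s < w i) →
    ∀ (V : MvPolynomial (Fin n) k) (W : ℕ), (∀ s ∈ V.support, Finsupp.weight w s ≤ W) →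
      weightedHomogeneousComponent w W (aeval g V) =
        aeval g0 (weightedHomogeneousComponent w W V)

/-- E1X (150 lines, uses ELD, WSUB). Let `V ≠ 0`, `a' = totalDegree V`, `b = degreeOf 1 V`. Weights `w 1 = d`,
`w t = 1`, the others 0. `W` = the largest weight of a monomial of `V`, `T = weightedHomogeneousComponent w W V`,
`T ≠ 0`. `W ≥ d b`. For `s ∈ T.support`: `s t + d s 1 = W`, `s t + s 1 ≤ a'`, so `(d-1) s 1 ≥ W - a' ≥ d b - a'`.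
Let `k0` be the least `s 1`: `T = X 1 ^ k0 * Q0` (every monomial is divisible). WSUB (2) with
`g 1 = X 1 + PP ..`, `g0 1 = X 1 + C a * X t ^ d` (the other terms of `PP a h1 h2 1 0 t` have weights `0` and
`h2 < d`): the component of `el (PP ..) V` of weight `W` is `el (C a * X t ^ d) T =
(X 1 + C a * X t ^ d)^k0 * el (C a * X t^d) Q0`, not zero (ELD (1)), so its `degreeOf t` is `≥ d k0`
(`degreeOf_mul_eq`), and `degreeOf t (el (PP ..) V)` is at least that of the component. -/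
def Stmt_E1X : Prop := ∀ (k : Type) [Field k] (n : ℕ) [NeZero n] (a : k) (h1 h2 : ℕ),
  3 ≤ n → a ≠ 0 → 1 ≤ h1 → 1 ≤ h2 → ∀ V : MvPolynomial (Fin n) k,
    ((h1 + h2 : ℕ) : ℤ) * (((h1 + h2 : ℕ) : ℤ) * (degreeOf 1 V : ℤ) - (V.totalDegree : ℤ)) ≤
      (((h1 + h2 : ℕ) : ℤ) - 1) * (degreeOf (1 + 1) (el (PP k n a h1 h2 1 0 (1 + 1)) V) : ℤ)

/-- the weights `X 0 : 1`, `X (1+1) : 1`, `X 1 : d`, the other variables: 0 -/
def w3 (n d : ℕ) [NeZero n] (i : Fin n) : ℕ :=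
  if i = 1 then d else if i = 0 ∨ i = 1 + 1 then 1 else 0

/-- the part of weight `d` of `PP k n a h1 h2 1 0 (1+1)` -/
def Q3 (k : Type) [Field k] (n : ℕ) [NeZero n] (a : k) (h1 h2 : ℕ) : MvPolynomial (Fin n) k :=
  C a * (X 0 ^ (h1 + h2) + X (1 + 1) ^ (h1 + h2) + X 0 ^ h1 * X (1 + 1) ^ h2)

/-- `X 1 - a X_t^d` -/
def W1 (k : Type) [Field k] (n : ℕ) [NeZero n] (a : k) (h1 h2 : ℕ) : MvPolynomial (Fin n) k :=
  X 1 - C a * X (1 + 1) ^ (h1 + h2)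

/-- `X 1 - a X_t^d - a X_0^h1 X_t^h2` -/
def W2 (k : Type) [Field k] (n : ℕ) [NeZero n] (a : k) (h1 h2 : ℕ) : MvPolynomial (Fin n) k :=
  X 1 - C a * (X (1 + 1) ^ (h1 + h2) + X 0 ^ h1 * X (1 + 1) ^ h2)

/-- E3D (180 lines). `d = h1 + h2`, `Z' = el (Q3) Z`, `e1 = degreeOf 0 Z`, `e2 = degreeOf t Z'`; `Z'` is weighted
homogeneous of weight `M` too. Lemma: for `q` without `X 1`, `X 1 - q` divides `Z - ev_q Z`, `ev_q` = the
substitution `X 1 ↦ q` (induction on `Z`).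
(1) `q = C a * X t ^ d`, `A = ev_q Z ≠ 0`. A monomial `X^s` of `Z` goes to a multiple of
`∏_{i ≠ 1} X_i^(s i) * X_t^(d s 1)`, with `X 0`-exponent `s 0 ≤ e1` and `X_0`, `X_t` exponents adding up to
`s 0 + s t + d s 1 = M`. So every monomial `v` of `A` has `v 0 ≤ e1`, `v 0 + v t = M`; hence
`M ≤ e1 + degreeOf t A`. On the other hand `A = ev_{q'} Z'` with `q' = C a * X t ^ d - Q3 =
- C a * (X 0 ^ d + X 0 ^ h1 * X t ^ h2)`, and a monomial `X^s` of `Z'` goes to a polynomial of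
`degreeOf t ≤ s t + h2 s 1`, where `d (s t + h2 s 1) = d s t + h2 (M - s 0 - s t) ≤ h1 s t + h2 M ≤
h1 e2 + h2 M`. So `d * degreeOf t A ≤ h1 e2 + h2 M`.
(2) `q = C a * (X t ^ d + X 0 ^ h1 * X t ^ h2)`, `A = ev_q Z ≠ 0`, `A = ev_{q'} Z'`, `q' = q - Q3 =
- C a * X 0 ^ d`. From `Z'`: every monomial `v` of `A` has `v t ≤ e2`, `v 0 + v t = M`, so
`M ≤ e2 + degreeOf 0 A`. From `Z`: `degreeOf 0` of the image of `X^s` is `≤ s 0 + h1 s 1`,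
`d (s 0 + h1 s 1) ≤ h2 s 0 + h1 M ≤ h2 e1 + h1 M`. -/
def Stmt_E3D : Prop := ∀ (k : Type) [Field k] (n : ℕ) [NeZero n] (a : k) (h1 h2 : ℕ),
  3 ≤ n → a ≠ 0 → 1 ≤ h1 → 1 ≤ h2 → ∀ (Z : MvPolynomial (Fin n) k) (M : ℕ),
    IsWeightedHomogeneous (w3 n (h1 + h2)) Z M →
    (¬ W1 k n a h1 h2 ∣ Z → (h1 + h2) * M ≤ (h1 + h2) * degreeOf 0 Z +
      (h1 * degreeOf (1 + 1) (el (Q3 k n a h1 h2) Z) + h2 * M)) ∧
    (¬ W2 k n a h1 h2 ∣ Z → (h1 + h2) * M ≤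
      (h1 + h2) * degreeOf (1 + 1) (el (Q3 k n a h1 h2) Z) + (h2 * degreeOf 0 Z + h1 * M))

/-- E3C (120 lines, uses ELD, E3D). Induction on `b = degreeOf 1 Z` (all `M`). `b = 0` is trivial.
If `W1 ∣ Z`: `Z = W1 * Z1`, and `Z1` may be replaced by its weighted homogeneous component of weight `M - d`
(`W1` is weighted homogeneous of weight `d`; cancel `W1`), so it is weighted homogeneous, `≠ 0`,
`degreeOf 1 Z1 = b - 1` (`degreeOf_mul_eq`, `degreeOf 1 W1 = 1`), `degreeOf 0 W1 = 0`,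
`el Q3 W1 = X 1 + C a * (X 0^d + X 0^h1 X t^h2)` has `degreeOf t = h2 ≥ h`. If `W2 ∣ Z` the same with
`degreeOf 0 W2 = h1 ≥ h`, `el Q3 W2 = X 1 + C a * X 0^d`. Otherwise by E3D, adding:
`d M ≤ d (e1 + e2) + h1 e2 + h2 e1 ≤ (3 h + 2) (e1 + e2)`, `M ≥ d b` (a monomial with `s 1 = b`), and
`h (3 h + 2) ≤ d^2 = (2 h + 1)^2`. -/
def Stmt_E3C : Prop := ∀ (k : Type) [Field k] (n : ℕ) [NeZero n] (a : k) (h h1 h2 : ℕ),
  3 ≤ n → a ≠ 0 → 1 ≤ h → h ≤ h1 → h ≤ h2 → h1 + h2 = 2 * h + 1 →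
  ∀ (Z : MvPolynomial (Fin n) k) (M : ℕ), IsWeightedHomogeneous (w3 n (h1 + h2)) Z M → Z ≠ 0 →
    h * degreeOf 1 Z ≤ degreeOf 0 Z + degreeOf (1 + 1) (el (Q3 k n a h1 h2) Z)

/-- E3X (100 lines, uses ELD, WSUB, E3C). `Q = PP k n a h1 h2 1 0 t = Q3 + r`, `r = C a * ∑_{j ∉ {0,1,t}} X_j^d`.
`el Q V = el Q3 (el r V)`. Let `V' = el r V`: `degreeOf 1 V' = degreeOf 1 V = b`, `degreeOf 0 V' ≤ degreeOf 0 V`
(ELD). Let `s` be a monomial of `V'` with `s 1 = b`, `M` its weight (weights `w3`), `Z` the component of `V'`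
of weight `M`: `degreeOf 1 Z = b`, `degreeOf 0 Z ≤ degreeOf 0 V'`. By WSUB (1) `el Q3 Z` is the component of
`el Q3 V'` of weight `M`, so `degreeOf t (el Q3 Z) ≤ degreeOf t (el Q V)`. E3C. -/
def Stmt_E3X : Prop := ∀ (k : Type) [Field k] (n : ℕ) [NeZero n] (a : k) (h h1 h2 : ℕ),
  3 ≤ n → a ≠ 0 → 1 ≤ h → h ≤ h1 → h ≤ h2 → h1 + h2 = 2 * h + 1 →
  ∀ V : MvPolynomial (Fin n) k,
    h * degreeOf 1 V ≤ degreeOf 0 V + degreeOf (1 + 1) (el (PP k n a h1 h2 1 0 (1 + 1)) V)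

/-- E4S (80 lines, uses EDEG). Let `V m = F^(-m) U`, `b m = degreeOf 1 (V m)`; `V m = F⁻¹ (V (m-1))`,
`V (m-1) = F (V m)`, so `degreeOf 0 (V (m-1)) = b m`, and by EDEG (3) for `j ≠ 1`:
`degreeOf j (V m) ≤ degreeOf (j-1) (V (m-1)) + d b m`. Iterating from `j = 1 + i`, `i < n`:
`degreeOf (1+i) (V m) ≤ b (m-i) + d ∑_{i' < i} b (m-i')`. `totalDegree ≤ ∑_j degreeOf j`, and
`∑_{i<n} (b (m-i) + d ∑_{i'<i} b (m-i')) ≤ n d ∑_{i<n} b (m-i)`. -/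
def Stmt_E4S : Prop := ∀ (k : Type) [Field k] (n : ℕ) [NeZero n] (hn : 3 ≤ n) (a : k) (h1 h2 : ℕ),
  1 ≤ h1 → 1 ≤ h2 → ∀ (U : MvPolynomial (Fin n) k) (m : ℤ),
    (((FX k n hn a h1 h2) ^ (-m)) U).totalDegree ≤ n * (h1 + h2) *
      ∑ i ∈ Finset.range n, degreeOf 1 (((FX k n hn a h1 h2) ^ (-(m - i))) U)

/-- SEQ (150 lines, uses NEG, CONV, REV, EDEG, TAU, E1X, E3X, E4S). `V m = F^(-m) U`, `A m = totalDegree (V m)`,
`b m = degreeOf 1 (V m)` as integers; `V (m-1) = F (V m)`, `degreeOf 0 (V m) = b (m+1)` (EDEG (1) for `V (m+1)`).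
`LHalf d A b`: e1: E1X and TAU (`degreeOf 1 (F V) = degreeOf (1+1) (el .. V)`), e2: EDEG (2), `A ≥ 1` as `F^m`
is an automorphism (a constant goes to a constant). `LHalf d (fun m => A (-m)) (fun m => b (1-m))`: the same
for `F' = rev F⁻¹ rev = FX (-a) h2 h1` and `rev (V m)`: `F' (rev (V m)) = rev (V (m+1))`,
`degreeOf 1 (rev (V m)) = degreeOf 0 (V m) = b (m+1)`. e3 of CONV: E3X for `V m` with `h = min h1 h2`. e4: E4S.
(1) is CONV; (2), (3) are NEG for the two sequences. -/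
def Stmt_SEQ : Prop := ∀ (k : Type) [Field k] (n : ℕ) [NeZero n] (hn : 3 ≤ n) (a : k) (h1 h2 : ℕ),
  Par k n a h1 h2 → ∀ U : MvPolynomial (Fin n) k, 1 ≤ U.totalDegree →
  (∀ m : ℤ, NE 0 (((FX k n hn a h1 h2) ^ (-(m + 2))) U) ∨
    NE 1 (((FX k n hn a h1 h2) ^ (-(m - n - 2))) U)) ∧
  (∀ m : ℤ, NE 1 (((FX k n hn a h1 h2) ^ (-m)) U) → ∀ s : ℕ,
    2 * (h1 + h2) ^ s * (((FX k n hn a h1 h2) ^ (-m)) U).totalDegree ≤
      3 * (((FX k n hn a h1 h2) ^ (-(m - s))) U).totalDegree) ∧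
  (∀ m : ℤ, NE 0 (((FX k n hn a h1 h2) ^ (-m)) U) → ∀ s : ℕ,
    2 * (h1 + h2) ^ s * (((FX k n hn a h1 h2) ^ (-m)) U).totalDegree ≤
      3 * (((FX k n hn a h1 h2) ^ (-(m + s))) U).totalDegree)

/-! ## 3. Multiplicativity -/

/-- IZ (written by helper91 in IntC): Izumi type inequality in all characteristics. -/
def Stmt_IZ : Prop := ∀ (k : Type) [Field k] (n : ℕ) (φ : AutP k n) (q : Fin n),
  (∀ i, i ≠ q → dg φ i < dg φ q) → ∀ V : MvPolynomial (Fin n) k, V ≠ 0 →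
    degreeOf q V * dg φ q ≤
      (φ V).totalDegree + (V.totalDegree - degreeOf q V) * ∑ i, dg φ i

/-- MULX (60 lines, uses IZ). `e = dg φ q = mdeg φ` (Dom.mdeg_eq), `c ≥ 100`, so `q` dominates strictly
(Dom.lt). `100 (n-1) dg φ i ≤ c dg φ i ≤ e` for `i ≠ q`, so `100 ∑ i, dg φ i ≤ 101 e`. `A = totalDegree V`,
`b = degreeOf q V ≤ A`, `5 A ≤ 6 b`, `D = (φ V).totalDegree`: IZ: `b e ≤ D + (A - b) S`, `100 S ≤ 101 e`. So
`100 D ≥ (100 b - 101 (A - b)) e`, and `200 b - 202 (A - b) - 100 A = 402 b - 302 A ≥ 0`: `A e ≤ 2 D`. -/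
def Stmt_MULX : Prop := ∀ (k : Type) [Field k] (n : ℕ) [NeZero n] (c : ℕ) (φ : AutP k n)
  (q : Fin n), 2 ≤ n → 100 * (n - 1) ≤ c → Dom c q φ → ∀ V : MvPolynomial (Fin n) k, NE q V →
    V.totalDegree * mdeg φ ≤ 2 * (φ V).totalDegree

/-- LRX (80 lines, uses SEQ, MULX). `U = y (X j)`, of degree `≥ 1`. If `NE 1 (F^(-m) U)` then `m ≤ b`: otherwise
`Dom c 1 (y⁻¹ F^m)` and MULX: `totalDegree (F^(-m) U) * mdeg (y⁻¹ F^m) ≤ 2 * totalDegree (y⁻¹ U) = 2`, but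
`mdeg ≥ c ≥ 3` (Dom.le_mdeg). In the same way `NE 0 (F^(-m) U)` implies `b ≤ m`. If `m ≤ b - (n+5)`, SEQ (1)
for `m + n + 2`: the first alternative would give `b ≤ m + n + 4`. If `b + (n+5) ≤ m`, SEQ (1) for
`m - 2`: the second would give `m - n - 4 ≤ b`. (`c = h1 + h2 - n + 1 ≥ 100 (n-1)`.) -/
def Stmt_LRX : Prop := ∀ (k : Type) [Field k] (n : ℕ) [NeZero n] (hn : 3 ≤ n) (a : k) (h1 h2 : ℕ),
  Par k n a h1 h2 → ∀ (y : AutP k n) (b : ℤ),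
    IsBt (h1 + h2 - n + 1) (FX k n hn a h1 h2) y b → ∀ (j : Fin n) (m : ℤ),
    (m ≤ b - (n + 5) → NE 1 (((FX k n hn a h1 h2) ^ (-m)) (y (X j)))) ∧
    (b + (n + 5) ≤ m → NE 0 (((FX k n hn a h1 h2) ^ (-m)) (y (X j))))

/-- GL (100 lines, uses SEQ, MULX, LRX). `mdeg (F^(-m) * y) = max_j totalDegree (F^(-m) (y (X j)))`. (1), (2):
for every `j` LRX and SEQ (2), (3) for `U = y (X j)`. (3): choose `j` with
`mdeg (F^(-m) * y) = totalDegree V`, `V = F^(-m) (y (X j))`, `NE 1 V` by LRX, MULX for `φ = x⁻¹ * F^m`: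
`totalDegree V * mdeg φ ≤ 2 * totalDegree (φ V)`, `φ V = (x⁻¹ * y) (X j)`. (4): the same with `0`. -/
def Stmt_GL : Prop := ∀ (k : Type) [Field k] (n : ℕ) [NeZero n] (hn : 3 ≤ n) (a : k) (h1 h2 : ℕ),
  Par k n a h1 h2 → ∀ (y : AutP k n) (b : ℤ),
    IsBt (h1 + h2 - n + 1) (FX k n hn a h1 h2) y b →
    (∀ (m : ℤ) (s : ℕ), m ≤ b - (n + 5) → 2 * (h1 + h2) ^ s * mdeg ((FX k n hn a h1 h2) ^ (-m) * y) ≤
      3 * mdeg ((FX k n hn a h1 h2) ^ (-(m - s)) * y)) ∧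
    (∀ (m : ℤ) (s : ℕ), b + (n + 5) ≤ m → 2 * (h1 + h2) ^ s * mdeg ((FX k n hn a h1 h2) ^ (-m) * y) ≤
      3 * mdeg ((FX k n hn a h1 h2) ^ (-(m + s)) * y)) ∧
    ∀ (x : AutP k n) (m : ℤ),
      (Dom (h1 + h2 - n + 1) 1 (x⁻¹ * (FX k n hn a h1 h2) ^ m) → m ≤ b - (n + 5) →
        mdeg (x⁻¹ * (FX k n hn a h1 h2) ^ m) * mdeg ((FX k n hn a h1 h2) ^ (-m) * y) ≤
          2 * mdeg (x⁻¹ * y)) ∧
      (Dom (h1 + h2 - n + 1) 0 (x⁻¹ * (FX k n hn a h1 h2) ^ m) → b + (n + 5) ≤ m →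
        mdeg (x⁻¹ * (FX k n hn a h1 h2) ^ m) * mdeg ((FX k n hn a h1 h2) ^ (-m) * y) ≤
          2 * mdeg (x⁻¹ * y))

/-! ## 4. Rigidity for pairs -/

/-- KEYP (80 lines): `MP_b2cdcf_wpd` KEY for a pair `G`, `G'`. `i = B + 1`, `m` large,
`Q = (θ * G'^m) (X q)`, `Q.totalDegree = cp d G' θ * d^m`;
`(G Q).totalDegree = dg ((G * θ * G'⁻¹) * G'^(m+1)) q = cp d G' (G * θ * G'⁻¹) * d^(m+1) = d * Q.totalDegree`, REG for
`G`; `ψ * G^i` is dominated by `q`, MULT: `((ψ * G^i) Q).totalDegree = cp d G' θ * d^m * cp d G ψ * d^i`; this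
is `dg (π * G'^(m+i)) q`, `π = ψ * (G^i * θ * (G'^i)⁻¹)`, and `mdeg (π * G'^(m+i)) ≤ mdeg (ψ * G^i) *
mdeg (θ * G'^m)` is the same number. Use the proved theorems of `MP_b2cdcf_wpd` (t_CP, t_CPF, p_REG, p_MULT
in Final.lean). -/
def Stmt_KEYP : Prop := ∀ (k : Type) [Field k] (n : ℕ) [NeZero n] (c d : ℕ) (G G' : AutP k n)
  (p q : Fin n), Ctx c d G p q → Ctx c d G' p q → ∀ (ψ θ : AutP k n) (B : ℕ), mdeg ψ ≤ B →
    cp d G' (G * θ * G'⁻¹) = cp d G' θ →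
    cp d G' (ψ * (G ^ (B + 1) * θ * (G' ^ (B + 1))⁻¹)) = cp d G ψ * cp d G' θ

/-- CONSTP (150 lines, uses KEYP): `MP_b2cdcf_wpd` CONST for a pair. `φ_j = G^j * φ * (G'^j)⁻¹`,
`u j = cp d G' φ_j`, `v j = cp d G'⁻¹ φ_j`: `u (j+1) ≤ u j`, `v j ≤ v (j+1)`, `u 0, v M ≤ B`, exactly as there;
in the interval where `u`, `v` are constant KEYP for `(G, G')`, `ψ = φ_j⁻¹`, `θ = φ_(j-E)`:
`1 = cp d G (φ_j⁻¹) * u j`; KEYP for `(G⁻¹, G'⁻¹)` (Ctx.symm), `θ = φ_(j+E)`: `1 = cp d G⁻¹ (φ_j⁻¹) * v j`. KAP for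
`G'` and `φ_j`, and for `G` and `φ_j⁻¹`: `u j * v j = 1`, KAP 2 for `G'` gives `b`, which does not depend on
`j`. (The bound for `mdeg φ_j⁻¹`: use `cp d G`, `cp d G⁻¹` of `φ_j⁻¹ = G'^j * φ⁻¹ * (G^j)⁻¹`.) -/
def Stmt_CONSTP : Prop := ∀ (k : Type) [Field k] (n : ℕ) [NeZero n] (c d : ℕ) (G G' : AutP k n)
  (p q : Fin n), Ctx c d G p q → Ctx c d G' p q → ∀ B L : ℕ, ∃ M0 : ℕ, ∀ M : ℕ, M0 ≤ M →
    ∀ φ : AutP k n, mdeg φ ≤ B → mdeg φ⁻¹ ≤ B → mdeg (G ^ M * φ * (G' ^ M)⁻¹) ≤ B →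
    mdeg (G' ^ M * φ⁻¹ * (G ^ M)⁻¹) ≤ B →
    ∃ (J : ℕ) (b : ℤ), ∀ j, J ≤ j → j ≤ J + L → ∀ i,
      dg (G ^ j * φ * (G' ^ j)⁻¹ * G' ^ b) i = 1

/-- R1X (120 lines): `MP_b2cdcf_wpd` R1 for a pair with mixed terms. `F * α = α' * F'` at `X i`, `i ≠ 1`:
`F (α (X i)) = α' (X (i-1))`; the left side contains `bc α i 1 * (X 0 + PP a h1 h2 0 (-1) 1)`: coefficient of
`X 1 ^ d` (`= a`; the mixed term does not contribute as `h1, h2 ≥ 1`). (2): `F⁻¹ * α' = α * F'⁻¹` at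
`X i`, `i ≠ 0`. -/
def Stmt_R1X : Prop := ∀ (k : Type) [Field k] (n : ℕ) [NeZero n] (hn : 3 ≤ n) (a a' : k)
  (h1 h2 h1' h2' : ℕ), Par k n a h1 h2 → Par k n a' h1' h2' → h1 + h2 = h1' + h2' →
  ∀ α α' : AutP k n, (∀ i, dg α i = 1) → (∀ i, dg α' i = 1) →
    FX k n hn a h1 h2 * α = α' * FX k n hn a' h1' h2' →
    (∀ i, i ≠ 1 → bc α i 1 = 0) ∧ (∀ i, i ≠ 0 → bc α' i 0 = 0) ∧
    (∀ i l, i ≠ 1 → bc α' (i - 1) (l - 1) = bc α i l) ∧ (∀ i, i ≠ 1 → tc α' (i - 1) = tc α i)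

/-- R2X (120 lines): `F * α = α' * F'` at `X 1`, diagonal case:
`C (b 1) * (X 0 + PP a h1 h2 0 (-1) 1) + C (t 1) = C (b' 0) * X 0 + C (t' 0) +
C a' * (∑ l ≠ 0, (C (b' l) * X l + C (t' l))^d + (C (b' (-1)) * X (-1) + C (t' (-1)))^h1' * (C (b' 1) * X 1 + C (t' 1))^h2')`.
Coefficients: of `X 0`: `b' 0 = b 1`; of `X l ^ d`, `l ≠ 0`: `a b 1 = a' (b' l)^d` (the mixed product
contributes nothing to pure powers of degree `d`); of `X l ^ (d-1)`: `0 = a' d (b' l)^(d-1) t' l` (the pure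
powers in the mixed product have degree `≤ max h1' h2' < d - 1`), `b' l ≠ 0` as `α'` is injective, so
`t' l = 0`; of `X (-1)^h1 X 1^h2`: `a b 1 ≠ 0` on the left, so on the right it must occur: `h1 = h1'`,
`h2 = h2'`. -/
def Stmt_R2X : Prop := ∀ (k : Type) [Field k] (n : ℕ) [NeZero n] (hn : 3 ≤ n) (a a' : k)
  (h1 h2 h1' h2' : ℕ), Par k n a h1 h2 → Par k n a' h1' h2' → h1 + h2 = h1' + h2' →
  ∀ (α α' : AutP k n) (b t b' t' : Fin n → k),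
    (∀ i, α (X i) = C (b i) * X i + C (t i)) → (∀ i, α' (X i) = C (b' i) * X i + C (t' i)) →
    FX k n hn a h1 h2 * α = α' * FX k n hn a' h1' h2' →
    h1 = h1' ∧ b' 0 = b 1 ∧ ∀ l, l ≠ 0 → t' l = 0 ∧ a' * b' l ^ (h1 + h2) = a * b 1

/-- RIGX (120 lines, uses R1X, R2X): as `MP_b2cdcf_wpd` RIG (use p_R3, p_AFF). For `n ≤ j ≤ 3 n` the `α j` are
diagonal; `b (j+1) (i-1) = b j i` for all `i`, `t (j+1) (i-1) = t j i` for `i ≠ 1`, `t (j+1) l = 0` and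
`a' (b (j+1) l)^d = a b j 1 = a b (j+1) 0` for `l ≠ 0`. So `t (2n) = 0` and, shifting by `s`,
`a' (b i)^d = a (b s)` for `i ≠ s` (`b = b (2n)`). For `s ≠ s'` choose `i` different from both: all `b s` are
equal to `ζ`, `a' ζ^d = a ζ`, `ζ ≠ 0`. -/
def Stmt_RIGX : Prop := ∀ (k : Type) [Field k] (n : ℕ) [NeZero n] (hn : 3 ≤ n) (a a' : k)
  (h1 h2 h1' h2' : ℕ), Par k n a h1 h2 → Par k n a' h1' h2' → h1 + h2 = h1' + h2' →
  ∀ α : ℕ → AutP k n, (∀ j, j ≤ 4 * n → ∀ i, dg (α j) i = 1) →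
    (∀ j, j < 4 * n → FX k n hn a h1 h2 * α j = α (j + 1) * FX k n hn a' h1' h2') →
    h1 = h1' ∧ ∃ ζ : k, a' * ζ ^ (h1 + h2 - 1) = a ∧ ∀ i, α (2 * n) (X i) = C ζ * X i

/-- RIGP (60 lines, uses CTXX, CONSTP, RIGX). CONSTP with `L = 4 n`, `G = F`, `G' = F'`:
`α j = F^(J+j) * φ * (F'^(J+j))⁻¹ * F'^b`, `F * α j = α (j+1) * F'`. RIGX: `μ = α (2n)` is the homothety by `ζ`,
`h1 = h1'` (so `h2 = h2'`), `a' ζ^(d-1) = a`, so `F * μ = μ * F'` (at `X 1`: `ζ (X 0 + P)` and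
`ζ X 0 + a' ζ^d (..)`). With `N = J + 2 n`: `φ = F^(-N) * μ * F'^(-b) * F'^N = F^(-b) * μ`, so
`φ (X i) = C ζ * (F^(-b)) (X i)`. -/
def Stmt_RIGP : Prop := ∀ (k : Type) [Field k] (n : ℕ) [NeZero n] (hn : 3 ≤ n) (a a' : k)
  (h1 h2 h1' h2' : ℕ), Par k n a h1 h2 → Par k n a' h1' h2' → h1 + h2 = h1' + h2' →
  ∀ B : ℕ, ∃ M0 : ℕ, ∀ M : ℕ, M0 ≤ M → ∀ φ : AutP k n, mdeg φ ≤ B → mdeg φ⁻¹ ≤ B →
    mdeg ((FX k n hn a h1 h2) ^ M * φ * ((FX k n hn a' h1' h2') ^ M)⁻¹) ≤ B →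
    mdeg ((FX k n hn a' h1' h2') ^ M * φ⁻¹ * ((FX k n hn a h1 h2) ^ M)⁻¹) ≤ B →
    h1 = h1' ∧ ∃ (ζ : k) (b : ℤ), a' * ζ ^ (h1 + h2 - 1) = a ∧
      ∀ i, φ (X i) = C ζ * ((FX k n hn a h1 h2) ^ b) (X i)

/-! ## 5. The group -/

/-- EXM (100 lines). A homothety `μ` by `ζ` with `ζ^(d-1) = 1` commutes with `F` (at `X 1`:
`F (ζ X 1) = ζ (X 0 + P)`, `μ (X 0 + P) = ζ X 0 + ζ^d P`, `P` homogeneous of degree `d`; `ζ^d = ζ`).
(1) So the set of the right side is a subgroup (it is `{F^b * μ}`, `(F^b * μ) (X i) = C ζ * (F^b) (X i)`) which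
contains the generators, and it is contained in `EX`. (2) is the commutation. -/
def Stmt_EXM : Prop := ∀ (k : Type) [Field k] (n : ℕ) [NeZero n] (hn : 3 ≤ n) (a : k) (h1 h2 : ℕ),
  Par k n a h1 h2 →
  (∀ φ : AutP k n, φ ∈ EX (FX k n hn a h1 h2) (h1 + h2) ↔ ∃ (ζ : k) (b : ℤ),
    ζ ^ (h1 + h2 - 1) = 1 ∧ ∀ i, φ (X i) = C ζ * ((FX k n hn a h1 h2) ^ b) (X i)) ∧
  (∀ (μ : AutP k n) (ζ : k), ζ ^ (h1 + h2 - 1) = 1 → (∀ i, μ (X i) = C ζ * X i) →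
    μ * FX k n hn a h1 h2 = FX k n hn a h1 h2 * μ)

/-- BTX (80 lines, uses CTXX). Existence: `MP_b2cdcf_wpd` p_VEE for `φ = x⁻¹`; the `b` of IsBt is unique
(`Dom c 0 (x⁻¹ F^m)` holds exactly for `m < b`: for `m > b` `Dom c 1` excludes it, not_dom_both, `c ≥ 2`).
(2): `(F^L x)⁻¹ F^m = x⁻¹ F^(m-L)`. (3): `(x μ)⁻¹ F^m = μ⁻¹ (x⁻¹ F^m)` and `μ⁻¹` preserves the degree of every
polynomial (it multiplies the coefficient of `X^s` by `ζ^(-|s|)`); `(μ x)⁻¹ F^m = x⁻¹ F^m μ⁻¹`, whose value at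
`X i` is `C ζ⁻¹ * (x⁻¹ F^m) (X i)`. -/
def Stmt_BTX : Prop := ∀ (k : Type) [Field k] (n : ℕ) [NeZero n] (hn : 3 ≤ n) (a : k) (h1 h2 : ℕ),
  Par k n a h1 h2 → ∃ bt : AutP k n → ℤ,
    (∀ x, IsBt (h1 + h2 - n + 1) (FX k n hn a h1 h2) x (bt x)) ∧
    (∀ x (L : ℤ), bt ((FX k n hn a h1 h2) ^ L * x) = bt x + L) ∧
    (∀ (μ : AutP k n) (ζ : k), ζ ≠ 0 → (∀ i, μ (X i) = C ζ * X i) → ∀ x, bt (x * μ) = bt x ∧
      (μ * FX k n hn a h1 h2 = FX k n hn a h1 h2 * μ → bt (μ * x) = bt x))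

/-- GR (80 lines, uses REV, RIGP, EXM). (1): RIGP with `F' = F`. (2): RIGP with
`F' = FX (-a) h2 h1 = rev * F⁻¹ * rev` (Par.symm) and `φ * rev`: `(F'^m)⁻¹ = rev * F^m * rev`, so
`F^m * (φ * rev) * (F'^m)⁻¹ = F^m * φ * F^m * rev`, and its inverse is `rev * (F^m φ F^m)⁻¹`; the degrees are
not changed by `rev` (REV 3). RIGP would give `h1 = h2`, against `Par.hh`. -/
def Stmt_GR : Prop := ∀ (k : Type) [Field k] (n : ℕ) [NeZero n] (hn : 3 ≤ n) (a : k) (h1 h2 : ℕ),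
  Par k n a h1 h2 →
  (∀ B : ℕ, ∃ M0 : ℕ, ∀ m : ℕ, M0 ≤ m → ∀ φ : AutP k n, mdeg φ ≤ B → mdeg φ⁻¹ ≤ B →
    mdeg ((FX k n hn a h1 h2) ^ m * φ * ((FX k n hn a h1 h2) ^ m)⁻¹) ≤ B →
    mdeg ((FX k n hn a h1 h2) ^ m * φ⁻¹ * ((FX k n hn a h1 h2) ^ m)⁻¹) ≤ B →
    φ ∈ EX (FX k n hn a h1 h2) (h1 + h2)) ∧
  (∀ B : ℕ, ∃ M0 : ℕ, ∀ m : ℕ, M0 ≤ m → ∀ φ : AutP k n, mdeg φ ≤ B → mdeg φ⁻¹ ≤ B →
    mdeg ((FX k n hn a h1 h2) ^ m * φ * (FX k n hn a h1 h2) ^ m) ≤ B →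
    mdeg (((FX k n hn a h1 h2) ^ m * φ * (FX k n hn a h1 h2) ^ m)⁻¹) ≤ B → False)

/-- GEOX (150 lines, uses CTXX, GL, EXM, BTX, GR). `bt` from BTX. up, down, mid: `Half.mul`, `Half.lt` for
`φ = x⁻¹ * F^m` (`(Ctx).h1`, `(Ctx).h2`). Mpow: `Ctx.mdeg_zpow` (MP_b2cdcf_wpd/Final.lean). lup, ldn, mulr, mull:
GL. Eact: `e = F^b * μ` (EXM): `bt (x e) = bt (x F^b)` (BTX 3), `bt (e x) = bt (μ x) + b = bt x + b`. Efin: then
`b = 0`, `e` is determined by `ζ` with `ζ^(d-1) = 1`: finitely many (roots of a polynomial). rig1, rig2: GR.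
proper: the translation `X 0 ↦ X 0 + 1` has `mdeg = 1`, so in the form of EXM `b = 0` (mdeg_homothety and
mdeg_zpow in Final.lean), but it is not a homothety (constant coefficient). -/
def Stmt_GEOX : Prop := ∀ (k : Type) [Field k] (n : ℕ) [NeZero n] (hn : 3 ≤ n) (a : k) (h1 h2 : ℕ),
  Par k n a h1 h2 → ∃ bt : AutP k n → ℤ, Geo (AutP k n) mdeg (FX k n hn a h1 h2)
    (EX (FX k n hn a h1 h2) (h1 + h2)) bt (h1 + h2) (n + 5)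

end Pool.Agent.Work.MP_b2cdcf_full
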