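import Pool.Agent.Work.MP_b2cdcf_full.IntB
import Pool.Agent.Work.MP_b2cdcf_wpd.B_JAC
import Pool.Agent.Work.MP_b2cdcf_wpd.B_MULT

/-!
# MP_b2cdcf_al, S02759: the Izumi type inequality `Stmt_IZ` (blocks; the docstrings are complete proofs)

File `B_X.lean` (import this file), namespace `Pool.Agent.Work.MP_b2cdcf_full`,
`open Pool.Agent.Work.MP_b2cdcf_wpd`, helper lemmas prefixed `X_`, final theorem
`p_X (h1 : Stmt_Y) ... : Stmt_X`. Available: `JAC_pderiv`, `JAC_chain`, `JAC_det`, `JAC_deg`,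
`p_MULT`, `MULT_pow`, `MULT_single`, `aut_eq_sum`, `one_le_dg`, ... of `MP_b2cdcf_wpd`.
Notation of the docstrings: `S = ∑ i, dg φ i`, `deg = totalDegree`.
-/

set_option autoImplicit false

open MvPolynomial

noncomputable section

namespace Pool.Agent.Work.MP_b2cdcf_full

open Pool.Agent.Work.MP_b2cdcf_wpd

/-! ## 0. The operator `TT` -/

/-- the exponent `(N - 1, ..., N - 1)` -/
def on (n N : ℕ) : Fin n →₀ ℕ := Finsupp.equivFunOnFinite.symm fun _ => N - 1

theorem on_apply (n N : ℕ) (i : Fin n) : on n N i = N - 1 := rfl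

/-- The linear map with `X^s ↦ X^(s - (N-1, ..., N-1))` if all `s i ≡ N - 1` modulo `N`, and
`X^s ↦ 0` otherwise. -/
def TT (k : Type) [Field k] (n N : ℕ) : MvPolynomial (Fin n) k →ₗ[k] MvPolynomial (Fin n) k :=
  (basisMonomials (Fin n) k).constr k fun s =>
    if ∀ i, s i % N = N - 1 then monomial (s - on n N) (1 : k) else 0

variable {k : Type} [Field k] {n : ℕ}

theorem TT_monomial (N : ℕ) (s : Fin n →₀ ℕ) (c : k) : TT k n N (monomial s c) =
    if ∀ i, s i % N = N - 1 then monomial (s - on n N) c else 0 := by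
  have h1 : (monomial s c : MvPolynomial (Fin n) k) = c • basisMonomials (Fin n) k s := by
    rw [coe_basisMonomials, smul_monomial, smul_eq_mul, mul_one]
  rw [h1, map_smul, TT, Module.Basis.constr_basis]
  split_ifs with h
  · rw [smul_monomial, smul_eq_mul, mul_one]
  · rw [smul_zero]

/-- the coefficients of `TT f` -/
theorem TT_coeff {N : ℕ} (hN : 0 < N) (u : Fin n →₀ ℕ) (f : MvPolynomial (Fin n) k) :
    coeff u (TT k n N f) = if ∀ i, N ∣ u i then coeff (u + on n N) f else 0 := by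
  induction f using MvPolynomial.induction_on' with
  | add p q hp hq =>
    rw [map_add, coeff_add, coeff_add, hp, hq]
    split_ifs
    · rfl
    · rw [add_zero]
  | monomial s c =>
    rw [TT_monomial]
    by_cases hs : ∀ i, s i % N = N - 1
    · rw [if_pos hs]
      have h1 : ∀ i, s i = N * (s i / N) + (N - 1) := fun i => by
        have := Nat.div_add_mod (s i) N
        rw [hs i] at this
        omega
      rw [coeff_monomial, coeff_monomial]
      by_cases hu : s = u + on n N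
      · have h2 : ∀ i, N ∣ u i := by
          intro i
          have h3 := h1 i
          rw [hu, Finsupp.add_apply, on_apply] at h3
          exact ⟨_, Nat.add_right_cancel h3⟩
        rw [if_pos h2, if_pos hu, if_pos (by rw [hu, add_tsub_cancel_right])]
      · rw [if_neg hu]
        have h2 : s - on n N ≠ u := by
          intro h
          apply hu
          rw [← h]
          ext i
          rw [Finsupp.add_apply, Finsupp.tsub_apply, on_apply]
          have := h1 i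
          omega
        rw [if_neg h2]
        simp
    · rw [if_neg hs, coeff_zero, coeff_monomial]
      by_cases hu : ∀ i, N ∣ u i
      · rw [if_pos hu, if_neg]
        intro h
        apply hs
        intro i
        rw [h, Finsupp.add_apply, on_apply]
        obtain ⟨c, hc⟩ := hu i
        rw [hc, Nat.mul_add_mod]
        exact Nat.mod_eq_of_lt (by omega)
      · rw [if_neg hu]

/-! ## 1. Characteristic zero -/

/-- CRA (50 lines). Cramer. May assume `φ (pderiv i V) ≠ 0`. Replace the row `i` of the Jacobian matrix by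
the gradient of `φ V`: by `JAC_chain` this row is `∑ m, φ (pderiv m V) • (row m)`, so
`((JAC_J φ).updateRow i fun l => pderiv l (φ V)).det = φ (pderiv i V) * (JAC_J φ).det`
(`Matrix.det_updateRow_sum`), which has degree `≥ deg (φ (pderiv i V))` (`JAC_det`,
`totalDegree_mul_of_isDomain`); `JAC_deg` with `r i = deg (φ V)`, `r m = dg φ m` for `m ≠ i`. -/
def Stmt_CRA : Prop := ∀ (k : Type) [Field k] (n : ℕ) (φ : AutP k n)
  (V : MvPolynomial (Fin n) k) (i : Fin n),
    (φ (pderiv i V)).totalDegree ≤ (φ V).totalDegree + ∑ r ∈ Finset.univ.erase i, dg φ r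

/-- IZB (40 lines). `b = degreeOf q V`; there is `s ∈ V.support` with `s q = b` (`degreeOf_eq_sup`), and
`|s| ≤ deg V ≤ b`, so `s = single q b` and `b = deg V`; `p_MULT` (`NeZero n` because of `q`). -/
def Stmt_IZB : Prop := ∀ (k : Type) [Field k] (n : ℕ) (φ : AutP k n) (q : Fin n),
  (∀ i, i ≠ q → dg φ i < dg φ q) → ∀ V : MvPolynomial (Fin n) k, V ≠ 0 →
    V.totalDegree ≤ degreeOf q V → (φ V).totalDegree = degreeOf q V * dg φ q

/-- IZ0 (120 lines, uses CRA, IZB). Induction on `e`, for all `V`. `e = 0`: IZB. Step `e + 1`, with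
`deg V = b + e + 1`, `b = degreeOf q V` (otherwise the induction hypothesis for `V`).
(B) there are `s ∈ V.support`, `s q = b`, and `j ≠ q` with `s j ≠ 0`: `V' = pderiv j V`. The coefficient of
`s - single j 1` is `s j * coeff s V ≠ 0` (`coeff_pderiv`), `degreeOf q V' = b` (a monomial `u` of `V'` gives
the monomial `u + single j 1` of `V`), `deg V' ≤ deg V - 1` (`JAC_pderiv`), `deg (φ V') ≤ deg (φ V) + S`
(CRA). Induction hypothesis for `V'`.
(A) otherwise `s = single q b ∈ V.support`. `a = deg V > b`, `V' = C (a : k) * V - ∑ j, X j * pderiv j V`: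
`coeff u V' = (a - |u|) * coeff u V` for all `u`. So `V' ≠ 0`, `degreeOf q V' = b`, `deg V' ≤ a - 1`, and
`deg (φ V') ≤ deg (φ V) + S` because `deg (φ (X j) * φ (pderiv j V)) ≤ dg φ j + deg (φ V) + ∑_{r ≠ j} dg φ r`.
Induction hypothesis for `V'`. -/
def Stmt_IZ0 : Prop := ∀ (k : Type) [Field k] [CharZero k] (n : ℕ) (φ : AutP k n) (q : Fin n),
  (∀ i, i ≠ q → dg φ i < dg φ q) → ∀ (e : ℕ) (V : MvPolynomial (Fin n) k), V ≠ 0 →
    V.totalDegree ≤ degreeOf q V + e →
    degreeOf q V * dg φ q ≤ (φ V).totalDegree + e * ∑ i, dg φ i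

/-! ## 2. Characteristic `p` -/

/-- TLIN (80 lines). (1) By linearity (`MvPolynomial.induction_on'` for `Q` and `f`) for monomials:
`expand N (monomial s c) = monomial (N • s) c` (`expand_monomial`), `(N s + t) i % N = t i % N`,
`N s + t - on = N s + (t - on)` if all `t i ≥ N - 1`. (2) by induction on `f`: for a monomial, `s - on` is a
multiple of `N`: `monomial (s - on) c = expand N (monomial u c)`; sums. (3) A monomial `u` of `TT f` gives the
monomial `u + on` of `f` (TT_coeff), and `|u + on| = |u| + n (N - 1)`; a nonzero `TT f` has a monomial `u`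
with `|u| = deg (TT f)`. (4) If `coeff s h ≠ 0`, take `f = monomial t 1`, `t i = N - 1 - s i % N`,
`u i = s i - s i % N`: `u + on = s + t`, so `coeff u (TT (h * f)) = coeff (s + t) (h * monomial t 1) =
coeff s h ≠ 0`. -/
def Stmt_TLIN : Prop := ∀ (k : Type) [Field k] (n N : ℕ), 0 < N →
  (∀ Q f : MvPolynomial (Fin n) k, TT k n N (expand N Q * f) = expand N Q * TT k n N f) ∧
  (∀ f : MvPolynomial (Fin n) k, ∃ Q, TT k n N f = expand N Q) ∧
  (∀ f : MvPolynomial (Fin n) k, TT k n N f ≠ 0 →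
    (TT k n N f).totalDegree + n * (N - 1) ≤ f.totalDegree) ∧
  (∀ h : MvPolynomial (Fin n) k, (∀ f, TT k n N (h * f) = 0) → h = 0)

/-- TDUAL (80 lines, uses TLIN). Index set: `δ : Fin n → Fin N`, `X^δ = ∏ i, X i ^ (δ i)` (or the monomial
with these exponents), `g = ∑ δ, l (X^δ) * X^(N-1-δ)`. `TT (X^δ' * X^(N-1-δ)) = if δ' = δ then 1 else 0`
(TT_monomial: `(δ' i + (N - 1 - δ i)) % N = N - 1` iff `δ' i = δ i`), so by TLIN (1)
(`l (X^δ) = expand N Q`) `TT (g * X^δ') = l (X^δ')`. A monomial `f = monomial s c`: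
`f = expand N (monomial u c) * X^δ'`, `s = N u + δ'`: both sides are `expand N (monomial u c) * l (X^δ')`.
Sums: induction on `f`. -/
def Stmt_TDUAL : Prop := ∀ (k : Type) [Field k] (n N : ℕ), 0 < N →
  ∀ l : MvPolynomial (Fin n) k → MvPolynomial (Fin n) k, (∀ f g, l (f + g) = l f + l g) →
    (∀ Q f, l (expand N Q * f) = expand N Q * l f) → (∀ f, ∃ Q, l f = expand N Q) →
    ∃ g, ∀ f, l f = TT k n N (g * f)

/-- RN (40 lines). `N = p ^ r`. The range of the algebra homomorphism `expand N` is a subalgebra. Every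
`f ^ N` is in it: induction on `f`: constants; sums: `add_pow_char_pow`; `(f * X i) ^ N = f ^ N * X i ^ N`,
`X i ^ N = expand N (X i)`. Then induction on `Q`: `φ (expand N (X i)) = φ (X i) ^ N`. -/
def Stmt_RN : Prop := ∀ (k : Type) [Field k] (p : ℕ) [Fact p.Prime] [CharP k p] (n r : ℕ)
  (φ : AutP k n) (Q : MvPolynomial (Fin n) k), ∃ Q', φ (expand (p ^ r) Q) = expand (p ^ r) Q'

/-- TCOM (60 lines, uses TLIN, TDUAL, RN). `N = p ^ r`, `T = TT k n N`. `l f = φ (T (φ⁻¹ f))` satisfies the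
hypotheses of TDUAL (RN for `φ⁻¹` and `φ`, TLIN (1), (2)), so `φ (T (φ⁻¹ f)) = T (g * f)` for all `f`; in the
same way `φ⁻¹ (T (φ f)) = T (g' * f)`. So `T f = φ (φ⁻¹ (T (φ (φ⁻¹ f)))) = φ (T (g' * φ⁻¹ f)) =
φ (T (φ⁻¹ (φ g' * f))) = T (g * (φ g' * f))`, and `T ((1 - g * φ g') * f) = 0` for all `f`: TLIN (4):
`g * φ g' = 1`. A unit is a nonzero constant (`deg` of the factors is 0,
`totalDegree_mul_of_isDomain`, `totalDegree_eq_zero_iff_eq_C`): `g = C c`, `φ (T V) = T (g * φ V) =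
C c * T (φ V)`. -/
def Stmt_TCOM : Prop := ∀ (k : Type) [Field k] (p : ℕ) [Fact p.Prime] [CharP k p] (n r : ℕ)
  (φ : AutP k n), ∃ c : k, c ≠ 0 ∧ ∀ V : MvPolynomial (Fin n) k,
    φ (TT k n (p ^ r) V) = C c * TT k n (p ^ r) (φ V)

/-- TMON (80 lines, uses TLIN). `|γ| ≤ deg W ≤ γ q + (N - 1)`, so `∑_{j ≠ q} γ j ≤ N - 1`.
`δ j = N - 1 - γ j` for `j ≠ q`, `δ q = N - 1 - γ q % N`, `B = γ q - γ q % N`, `T' = TT (W * monomial δ 1)`.
`single q B + on = γ + δ`, `N ∣ B`, so `coeff (single q B) T' = coeff (γ + δ) (W * monomial δ 1) = coeff γ W ≠ 0`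
(TT_coeff, `coeff_mul_monomial`). By TLIN (3) `deg T' + n (N - 1) ≤ deg W + |δ|`, and
`|δ| = δ q + (n - 1) (N - 1) - ∑_{j ≠ q} γ j`, so `deg T' ≤ deg W + δ q - (N - 1) - ∑_{j ≠ q} γ j <
γ q + N + δ q - (N - 1) = B + N`. `deg T'` is a multiple of `N` (TLIN (2), `totalDegree_expand`) and
`≥ B`, `N ∣ B`: `deg T' = B`. -/
def Stmt_TMON : Prop := ∀ (k : Type) [Field k] (n N : ℕ), 0 < N →
  ∀ (W : MvPolynomial (Fin n) k) (q : Fin n) (γ : Fin n →₀ ℕ), coeff γ W ≠ 0 →
    W.totalDegree ≤ γ q + (N - 1) →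
    ∃ (δ : Fin n →₀ ℕ) (B : ℕ), (∀ j, δ j ≤ N - 1) ∧ γ q + δ q = B + (N - 1) ∧
      (TT k n N (W * monomial δ 1)).totalDegree = B ∧
      coeff (Finsupp.single q B) (TT k n N (W * monomial δ 1)) ≠ 0

/-- IZP1 (80 lines, uses TLIN, TCOM, TMON). `a = deg V`, `b = degreeOf q V`, `N = p ^ r`, `W = V ^ s`: there is
`γ ∈ W.support` with `γ q = degreeOf q W = s b` (`degreeOf_pow_eq`), `deg W ≤ s a ≤ γ q + (N - 1)`. TMON.
`T' = TT (W * monomial δ 1)`, `p_MULT`: `deg (φ T') = B * dg φ q`. By TCOM and TLIN (3)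
`deg (φ T') ≤ deg (φ (W * monomial δ 1)) ≤ s * deg (φ V) + ∑ j, δ j * dg φ j` (`totalDegree_prod_le`, or
`aut_eq_sum`), so with `B = s b + δ q - (N - 1)`: `s b dg φ q ≤ s deg (φ V) + (N - 1) dg φ q +
∑_{j ≠ q} δ j * dg φ j ≤ s deg (φ V) + (N - 1) S`. -/
def Stmt_IZP1 : Prop := ∀ (k : Type) [Field k] (p : ℕ) [Fact p.Prime] [CharP k p] (n r s : ℕ)
  (φ : AutP k n) (q : Fin n), (∀ i, i ≠ q → dg φ i < dg φ q) →
  ∀ V : MvPolynomial (Fin n) k, V ≠ 0 →
    s * (V.totalDegree - degreeOf q V) ≤ p ^ r - 1 →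
    s * (degreeOf q V * dg φ q) ≤ s * (φ V).totalDegree + (p ^ r - 1) * ∑ i, dg φ i

/-- IZP (50 lines, uses IZB, IZP1). `e = deg V - degreeOf q V`. `e = 0`: IZB. `e ≥ 1`: otherwise
`degreeOf q V * dg φ q ≥ deg (φ V) + e S + 1`. Choose `r` with `p ^ r - 1 ≥ e ((e - 1) S + 1)`
(`Nat.lt_pow_self`) and `s = (p ^ r - 1) / e`, so `s e ≤ p ^ r - 1 ≤ s e + (e - 1)` and `s ≥ (e - 1) S + 1`.
IZP1: `s (deg (φ V) + e S + 1) ≤ s deg (φ V) + (s e + (e - 1)) S`, so `s ≤ (e - 1) S`, contradiction. -/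
def Stmt_IZP : Prop := ∀ (k : Type) [Field k] (p : ℕ) [Fact p.Prime] [CharP k p] (n : ℕ)
  (φ : AutP k n) (q : Fin n), (∀ i, i ≠ q → dg φ i < dg φ q) →
  ∀ V : MvPolynomial (Fin n) k, V ≠ 0 →
    degreeOf q V * dg φ q ≤
      (φ V).totalDegree + (V.totalDegree - degreeOf q V) * ∑ i, dg φ i

/-! IZ (20 lines, uses IZ0, IZP): `Stmt_IZ` of IntB. `CharP.exists k`, `CharP.char_is_prime_or_zero`; in
characteristic 0 (`CharP.charP_to_charZero`) IZ0 with `e = deg V - degreeOf q V`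
(`degreeOf_le_totalDegree`). -/

end Pool.Agent.Work.MP_b2cdcf_full
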